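import Pool.Agent.DL.NP.Spec

/-!
# MP_3ff0f8_gt, ALGEBRA HALF, module VKA: the van Kampen number
-/

open SimpleGraph Finset

namespace DL

namespace VKAM

variable {α : Type} [Fintype α] [DecidableEq α]

lemma sum_star (F : Sym2 α → ZMod 2) (v : α) :
    ∑ e ∈ univ.filter (fun e => v ∈ e), F e = ∑ w, F s(v, w) := by
  symm
  refine Finset.sum_nbij (fun w => s(v, w)) (fun w _ => ?_) (fun x _ y _ h => ?_)
    (fun e he => ?_) (fun _ _ => rfl)
  · simp
  · exact Sym2.congr_right.1 h
  · have hv : v ∈ e := (mem_filter.1 he).2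
    obtain ⟨w, rfl⟩ := Sym2.mem_iff_exists.1 hv
    exact ⟨w, mem_coe.2 (mem_univ _), rfl⟩

omit [DecidableEq α] in
lemma sum_add2 (f g : α → α → ZMod 2) :
    ∑ a, ∑ b, f a b + ∑ a, ∑ b, g a b = ∑ a, ∑ b, (f a b + g a b) := by
  simp only [sum_add_distrib]

omit [DecidableEq α] in
/-- every unordered pair once -/
lemma sum_two {r : α → ℕ} (hr : Function.Injective r) (h : α → α → ZMod 2)
    (hd : ∀ a, h a a = 0) :
    ∑ a, ∑ b, h a b = ∑ a, ∑ b, if r a < r b then h a b + h b a else 0 := by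
  have h1 : ∀ a b, h a b =
      (if r a < r b then h a b else 0) + (if r b < r a then h a b else 0) := by
    intro a b
    rcases lt_trichotomy (r a) (r b) with h2 | h2 | h2
    · rw [if_pos h2, if_neg h2.not_gt, add_zero]
    · rw [hr h2, hd, if_neg (lt_irrefl _), add_zero]
    · rw [if_pos h2, if_neg h2.not_gt, zero_add]
  have h2 : ∑ a, ∑ b, (if r b < r a then h a b else 0) =
      ∑ a, ∑ b, (if r a < r b then h b a else 0) := sum_comm
  calc ∑ a, ∑ b, h a b = ∑ a, ∑ b, ((if r a < r b then h a b else 0) +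
        (if r b < r a then h a b else 0)) :=
        sum_congr rfl fun a _ => sum_congr rfl fun b _ => h1 a b
    _ = ∑ a, ∑ b, (if r a < r b then h a b else 0) +
        ∑ a, ∑ b, (if r b < r a then h a b else 0) := (sum_add2 _ _).symm
    _ = ∑ a, ∑ b, if r a < r b then h a b + h b a else 0 := by
        rw [h2, sum_add2]
        refine sum_congr rfl fun a _ => sum_congr rfl fun b _ => ?_
        split_ifs
        · rfl
        · exact add_zero 0

omit [DecidableEq α] in
lemma sum_symm {r : α → ℕ} (hr : Function.Injective r) (h : α → α → ZMod 2)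
    (hs : ∀ a b, h a b = h b a) (hd : ∀ a, h a a = 0) : ∑ a, ∑ b, h a b = 0 := by
  rw [sum_two hr h hd]
  refine sum_eq_zero fun a _ => sum_eq_zero fun b _ => ?_
  rw [hs b a, zmod2_add_self, ite_self]

omit [DecidableEq α] in
/-- a function on quadruples whose sum over the orbits of the group of order 8 is zero -/
lemma sum_four {r : α → ℕ} (hr : Function.Injective r) (K : α → α → α → α → ZMod 2)
    (hK : ∀ a b c d, ¬ [a, b, c, d].Nodup → K a b c d = 0)
    (ht : ∀ a b c d, K a b c d + K b a c d + (K a b d c + K b a d c) +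
      (K c d a b + K d c a b + (K c d b a + K d c b a)) = 0) :
    ∑ a, ∑ b, ∑ c, ∑ d, K a b c d = 0 := by
  set L : α → α → α → α → ZMod 2 := fun a b c d =>
    K a b c d + K b a c d + (K a b d c + K b a d c) with hL
  set M : α → α → ZMod 2 := fun a c =>
    ∑ b, ∑ d, if r a < r b ∧ r c < r d then L a b c d else 0 with hM
  have h1 : ∑ a, ∑ b, ∑ c, ∑ d, K a b c d = ∑ a, ∑ c, M a c := by
    rw [sum_two hr (fun a b => ∑ c, ∑ d, K a b c d)
      (fun a => sum_eq_zero fun c _ => sum_eq_zero fun d _ => hK a a c d (by simp))]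
    refine sum_congr rfl fun a _ => ?_
    rw [hM]
    simp only
    rw [sum_comm]
    refine sum_congr rfl fun b _ => ?_
    rw [sum_add2, sum_two hr (fun c d => K a b c d + K b a c d) (fun c => by
      rw [hK a b c c (by simp), hK b a c c (by simp), add_zero])]
    split_ifs with hab
    · refine sum_congr rfl fun c _ => sum_congr rfl fun d _ => ?_
      by_cases hcd : r c < r d
      · rw [if_pos hcd, if_pos ⟨hab, hcd⟩]
      · rw [if_neg hcd, if_neg (fun h => hcd h.2)]
    · symm
      refine sum_eq_zero fun c _ => sum_eq_zero fun d _ => ?_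
      rw [if_neg (fun h => hab h.1)]
  rw [h1, sum_two hr M (fun a => sum_eq_zero fun b _ => sum_eq_zero fun d _ => by
    rw [hL]
    simp only
    rw [hK a b a d (by simp), hK b a a d (by simp), hK a b d a (by simp),
      hK b a d a (by simp)]
    simp)]
  refine sum_eq_zero fun a _ => sum_eq_zero fun c _ => ?_
  have h2 : M a c + M c a = 0 := by
    have h3 : M c a = ∑ b, ∑ d, if r c < r d ∧ r a < r b then L c d a b else 0 := sum_comm
    rw [h3, hM]
    simp only
    rw [sum_add2]
    refine sum_eq_zero fun b _ => sum_eq_zero fun d _ => ?_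
    by_cases h4 : r a < r b ∧ r c < r d
    · rw [if_pos h4, if_pos ⟨h4.2, h4.1⟩]
      exact ht a b c d
    · rw [if_neg h4, if_neg (fun h => h4 ⟨h.2, h.1⟩), add_zero]
  rw [h2, ite_self]

/-- indicator of `i < k < j < l` -/
def ind (i j k l : ℕ) : ZMod 2 := if i < k ∧ k < j ∧ j < l then 1 else 0

/-- indicator of `i < j` -/
def lt' (i j : ℕ) : ZMod 2 := if i < j then 1 else 0

lemma lt'_add {i j : ℕ} (h : i ≠ j) : lt' i j + lt' j i = 1 := by
  unfold lt'
  rcases lt_or_gt_of_ne h with h1 | h1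
  · rw [if_pos h1, if_neg h1.not_gt, add_zero]
  · rw [if_pos h1, if_neg h1.not_gt, zero_add]

set_option linter.unusedSimpArgs false in
/-- interleaving pairs -/
lemma inter (i j k l : ℕ) (hij : i ≠ j) (hik : i ≠ k) (hil : i ≠ l) (hjk : j ≠ k) (hjl : j ≠ l)
    (hkl : k ≠ l) :
    ind i j k l + ind j i k l + (ind i j l k + ind j i l k) +
      (ind k l i j + ind l k i j + (ind k l j i + ind l k j i)) =
    lt' i k + lt' i l + (lt' j k + lt' j l) := by
  unfold ind lt'
  rcases lt_or_gt_of_ne hij with h1 | h1 <;> rcases lt_or_gt_of_ne hik with h2 | h2 <;>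
  rcases lt_or_gt_of_ne hil with h3 | h3 <;> rcases lt_or_gt_of_ne hjk with h4 | h4 <;>
  rcases lt_or_gt_of_ne hjl with h5 | h5 <;> rcases lt_or_gt_of_ne hkl with h6 | h6 <;>
  first
  | (exfalso; omega)
  | (simp only [h1, h2, h3, h4, h5, h6, h1.not_gt, h2.not_gt, h3.not_gt, h4.not_gt, h5.not_gt,
      h6.not_gt, true_and, and_true, and_false, false_and, if_true, if_false]; decide)

omit [DecidableEq α] in
lemma vk_eq (r : α → ℕ) (z : Sym2 α → Sym2 α → ZMod 2) :
    vk r z = ∑ a, ∑ b, ∑ c, ∑ d, ind (r a) (r b) (r c) (r d) * z s(a, b) s(c, d) := by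
  unfold vk ind
  refine sum_congr rfl fun a _ => sum_congr rfl fun b _ => sum_congr rfl fun c _ =>
    sum_congr rfl fun d _ => ?_
  split_ifs
  · rw [one_mul]
  · rw [zero_mul]

omit [DecidableEq α] in
lemma sum_add4 (f g : α → α → α → α → ZMod 2) :
    ∑ a, ∑ b, ∑ c, ∑ d, f a b c d + ∑ a, ∑ b, ∑ c, ∑ d, g a b c d =
      ∑ a, ∑ b, ∑ c, ∑ d, (f a b c d + g a b c d) := by
  simp only [sum_add_distrib]

/-- a 2-cycle is zero on pairs of edges with a common vertex and on loops -/
lemma zero_of_not_nodup {G : SimpleGraph α} {z : Sym2 α → Sym2 α → ZMod 2} (hz : IsZ2 G z)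
    {a b c d : α} (h : ¬ [a, b, c, d].Nodup) : z s(a, b) s(c, d) = 0 := by
  by_contra h0
  obtain ⟨h1, h2, h3⟩ := hz.2.1 _ _ h0
  apply h
  have hab : a ≠ b := (show G.Adj a b from h1).ne
  have hcd : c ≠ d := (show G.Adj c d from h2).ne
  have hac : a ≠ c := fun h => h3 a ⟨Sym2.mem_mk_left a b, h ▸ Sym2.mem_mk_left c d⟩
  have had : a ≠ d := fun h => h3 a ⟨Sym2.mem_mk_left a b, h ▸ Sym2.mem_mk_right c d⟩
  have hbc : b ≠ c := fun h => h3 b ⟨Sym2.mem_mk_right a b, h ▸ Sym2.mem_mk_left c d⟩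
  have hbd : b ≠ d := fun h => h3 b ⟨Sym2.mem_mk_right a b, h ▸ Sym2.mem_mk_right c d⟩
  simp [hab, hcd, hac, had, hbc, hbd]

lemma row_sum {G : SimpleGraph α} {z : Sym2 α → Sym2 α → ZMod 2} (hz : IsZ2 G z) (a b c : α) :
    ∑ d, z s(a, b) s(c, d) = 0 := by
  by_cases hc : c ∈ s(a, b)
  · refine sum_eq_zero fun d _ => ?_
    by_contra h0
    exact (hz.2.1 _ _ h0).2.2 c ⟨hc, Sym2.mem_mk_left c d⟩
  · have := hz.2.2 s(a, b) c hc
    rw [← sum_star (fun f => z s(a, b) f) c, ← this]

end VKAM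

set_option linter.unusedSimpArgs false in
open VKAM in
theorem specVKA : SpecVKA := by
  refine ⟨?_, ?_, ?_⟩
  · intro α _ _ r z z'
    rw [vk_eq, vk_eq, vk_eq, sum_add4]
    refine sum_congr rfl fun a _ => sum_congr rfl fun b _ => sum_congr rfl fun c _ =>
      sum_congr rfl fun d _ => ?_
    rw [mul_add]
  · intro α _ _ G z r r' hr hr' hz
    set σ : α → α → ZMod 2 := fun x y => lt' (r x) (r y) + lt' (r' x) (r' y) with hσ
    set κ : α → α → α → α → ZMod 2 := fun a b c d => ind (r a) (r b) (r c) (r d) +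
      ind (r' a) (r' b) (r' c) (r' d) + lt' (r a) (r c) * σ a c with hκ
    have hsym : ∀ x y, x ≠ y → σ x y = σ y x := by
      intro x y hxy
      have h1 := lt'_add (hr.ne hxy)
      have h2 := lt'_add (hr'.ne hxy)
      rw [hσ]
      simp only
      have h3 : lt' (r x) (r y) = lt' (r y) (r x) + 1 := by
        rw [← h1, add_comm (lt' (r x) (r y)), ← add_assoc, zmod2_add_self, zero_add]
      have h4 : lt' (r' x) (r' y) = lt' (r' y) (r' x) + 1 := by
        rw [← h2, add_comm (lt' (r' x) (r' y)), ← add_assoc, zmod2_add_self, zero_add]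
      rw [h3, h4]
      have : (1 : ZMod 2) + 1 = 0 := by decide
      linear_combination this
    have hT : ∀ x y, x ≠ y → lt' (r x) (r y) * σ x y + lt' (r y) (r x) * σ y x = σ x y := by
      intro x y hxy
      rw [hsym y x hxy.symm, ← add_mul, lt'_add (hr.ne hxy), one_mul]
    have h0 : ∑ a, ∑ b, ∑ c, ∑ d, κ a b c d * z s(a, b) s(c, d) = 0 := by
      refine sum_four hr _ (fun a b c d h => ?_) fun a b c d => ?_
      · rw [zero_of_not_nodup hz h, mul_zero]
      · have e1 : z s(b, a) s(c, d) = z s(a, b) s(c, d) := by rw [Sym2.eq_swap]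
        have e2 : z s(a, b) s(d, c) = z s(a, b) s(c, d) := by rw [Sym2.eq_swap (a := d)]
        have e3 : z s(b, a) s(d, c) = z s(a, b) s(c, d) := by
          rw [Sym2.eq_swap (a := d), Sym2.eq_swap (a := b)]
        have e4 : z s(c, d) s(a, b) = z s(a, b) s(c, d) := hz.1 _ _
        have e5 : z s(d, c) s(a, b) = z s(a, b) s(c, d) := by rw [hz.1, e2]
        have e6 : z s(c, d) s(b, a) = z s(a, b) s(c, d) := by rw [hz.1, e1]
        have e7 : z s(d, c) s(b, a) = z s(a, b) s(c, d) := by rw [hz.1, e3]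
        rw [e1, e2, e3, e4, e5, e6, e7]
        by_cases hn : [a, b, c, d].Nodup
        · have hn' : (a ≠ b ∧ a ≠ c ∧ a ≠ d) ∧ (b ≠ c ∧ b ≠ d) ∧ c ≠ d := by
            simpa [not_or] using hn
          obtain ⟨⟨hab, hac, had⟩, ⟨hbc, hbd⟩, hcd⟩ := hn'
          have i1 := inter (r a) (r b) (r c) (r d) (hr.ne hab) (hr.ne hac) (hr.ne had)
            (hr.ne hbc) (hr.ne hbd) (hr.ne hcd)
          have i2 := inter (r' a) (r' b) (r' c) (r' d) (hr'.ne hab) (hr'.ne hac) (hr'.ne had)
            (hr'.ne hbc) (hr'.ne hbd) (hr'.ne hcd)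
          have t1 := hT a c hac
          have t2 := hT a d had
          have t3 := hT b c hbc
          have t4 := hT b d hbd
          have hs1 : σ a c = lt' (r a) (r c) + lt' (r' a) (r' c) := rfl
          have hs2 : σ a d = lt' (r a) (r d) + lt' (r' a) (r' d) := rfl
          have hs3 : σ b c = lt' (r b) (r c) + lt' (r' b) (r' c) := rfl
          have hs4 : σ b d = lt' (r b) (r d) + lt' (r' b) (r' d) := rfl
          have htwo : (2 : ZMod 2) = 0 := by decide
          have hsum : κ a b c d + κ b a c d + (κ a b d c + κ b a d c) +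
              (κ c d a b + κ d c a b + (κ c d b a + κ d c b a)) = 0 := by
            simp only [hκ]
            linear_combination i1 + i2 + t1 + t2 + t3 + t4 + hs1 + hs2 + hs3 + hs4 +
              htwo * (lt' (r a) (r c) + lt' (r a) (r d) + lt' (r b) (r c) + lt' (r b) (r d) +
              lt' (r' a) (r' c) + lt' (r' a) (r' d) + lt' (r' b) (r' c) + lt' (r' b) (r' d))
          linear_combination z s(a, b) s(c, d) * hsum
        · rw [zero_of_not_nodup hz hn]
          simp
    have h3 : ∑ a, ∑ b, ∑ c, ∑ d, (lt' (r a) (r c) * σ a c) * z s(a, b) s(c, d) = 0 := by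
      refine sum_eq_zero fun a _ => sum_eq_zero fun b _ => sum_eq_zero fun c _ => ?_
      rw [← mul_sum, row_sum hz, mul_zero]
    have h4 : vk r z + vk r' z +
        ∑ a, ∑ b, ∑ c, ∑ d, (lt' (r a) (r c) * σ a c) * z s(a, b) s(c, d) =
        ∑ a, ∑ b, ∑ c, ∑ d, κ a b c d * z s(a, b) s(c, d) := by
      rw [vk_eq, vk_eq, sum_add4, sum_add4]
      refine sum_congr rfl fun a _ => sum_congr rfl fun b _ => sum_congr rfl fun c _ =>
        sum_congr rfl fun d _ => ?_
      rw [hκ]
      ring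
    rw [h3, h0, add_zero] at h4
    have h5 : vk r z + vk r' z + vk r' z = vk r' z := by rw [h4, zero_add]
    rwa [add_assoc, zmod2_add_self, add_zero] at h5
  · intro α _ _ G t Z r P Q hr ht hZ htP hZQ hPQ
    have hdiag : ∀ c, Z s(c, c) = 0 := by
      intro c
      by_contra h
      exact G.loopless.irrefl c (hZ.1 _ h)
    rw [vk_eq]
    have h1 : ∑ a, ∑ b, ∑ c, ∑ d, ind (r a) (r b) (r c) (r d) * (Z s(a, b) * t s(c, d)) =
        ∑ a, ∑ b, ∑ c, ∑ d, ind (r c) (r d) (r a) (r b) * (Z s(c, d) * t s(a, b)) := by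
      have e1 : ∀ F : α → α → α → α → ZMod 2, ∑ a, ∑ b, ∑ c, ∑ d, F a b c d =
          ∑ a, ∑ b, ∑ c, ∑ d, F c d a b := by
        intro F
        rw [← Fintype.sum_prod_type' (f := fun a b => ∑ c, ∑ d, F a b c d),
          ← Fintype.sum_prod_type' (f := fun a b => ∑ c, ∑ d, F c d a b)]
        have e2 : ∀ p : α × α, ∑ c, ∑ d, F p.1 p.2 c d = ∑ q : α × α, F p.1 p.2 q.1 q.2 :=
          fun p => (Fintype.sum_prod_type' (f := fun c d => F p.1 p.2 c d)).symm
        have e3 : ∀ p : α × α, ∑ c, ∑ d, F c d p.1 p.2 = ∑ q : α × α, F q.1 q.2 p.1 p.2 :=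
          fun p => (Fintype.sum_prod_type' (f := fun c d => F c d p.1 p.2)).symm
        rw [sum_congr rfl fun p _ => e2 p, sum_congr rfl fun p _ => e3 p, sum_comm]
      exact e1 _
    have h2 : ∑ a, ∑ b, ∑ c, ∑ d, ind (r a) (r b) (r c) (r d) * DL.tor t Z s(a, b) s(c, d) =
        ∑ a, ∑ b, t s(a, b) * ∑ c, ∑ d,
          (ind (r a) (r b) (r c) (r d) + ind (r c) (r d) (r a) (r b)) * Z s(c, d) := by
      have e1 : ∑ a, ∑ b, ∑ c, ∑ d, ind (r a) (r b) (r c) (r d) * DL.tor t Z s(a, b) s(c, d) =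
          ∑ a, ∑ b, ∑ c, ∑ d, ind (r a) (r b) (r c) (r d) * (t s(a, b) * Z s(c, d)) +
          ∑ a, ∑ b, ∑ c, ∑ d, ind (r a) (r b) (r c) (r d) * (Z s(a, b) * t s(c, d)) := by
        rw [sum_add4]
        refine sum_congr rfl fun a _ => sum_congr rfl fun b _ => sum_congr rfl fun c _ =>
          sum_congr rfl fun d _ => ?_
        rw [← mul_add]
        rfl
      rw [e1, h1, sum_add4]
      refine sum_congr rfl fun a _ => sum_congr rfl fun b _ => ?_
      rw [mul_sum]
      refine sum_congr rfl fun c _ => ?_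
      rw [mul_sum]
      refine sum_congr rfl fun d _ => ?_
      ring
    rw [h2]
    refine sum_eq_zero fun a _ => sum_eq_zero fun b _ => ?_
    by_cases ht0 : t s(a, b) = 0
    · rw [ht0, zero_mul]
    have haP : a ∈ P := htP _ a ht0 (Sym2.mem_mk_left a b)
    have hbP : b ∈ P := htP _ b ht0 (Sym2.mem_mk_right a b)
    -- the sum over `c`, `d`
    set β : α → ZMod 2 := fun c => lt' (r a) (r c) * lt' (r c) (r b) with hβ
    have h3 : ∑ c, ∑ d, (ind (r a) (r b) (r c) (r d) + ind (r c) (r d) (r a) (r b)) * Z s(c, d) =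
        ∑ c, ∑ d, (ind (r a) (r b) (r c) (r d) + ind (r d) (r c) (r a) (r b)) * Z s(c, d) := by
      have e1 : ∑ c, ∑ d, ind (r c) (r d) (r a) (r b) * Z s(c, d) =
          ∑ c, ∑ d, ind (r d) (r c) (r a) (r b) * Z s(c, d) := by
        rw [sum_comm]
        refine sum_congr rfl fun c _ => sum_congr rfl fun d _ => ?_
        rw [Sym2.eq_swap]
      simp only [add_mul]
      rw [← sum_add2, ← sum_add2, e1]
    have h4 : ∀ c d, (ind (r a) (r b) (r c) (r d) + ind (r d) (r c) (r a) (r b)) * Z s(c, d) =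
        β c * Z s(c, d) + β c * β d * Z s(c, d) := by
      intro c d
      by_cases hz0 : Z s(c, d) = 0
      · rw [hz0]
        simp
      have hcQ : c ∈ Q := hZQ _ c hz0 (Sym2.mem_mk_left c d)
      have hdQ : d ∈ Q := hZQ _ d hz0 (Sym2.mem_mk_right c d)
      have hac : r a ≠ r c := hr.ne fun h => disjoint_left.1 hPQ haP (h ▸ hcQ)
      have had : r a ≠ r d := hr.ne fun h => disjoint_left.1 hPQ haP (h ▸ hdQ)
      have hbc : r b ≠ r c := hr.ne fun h => disjoint_left.1 hPQ hbP (h ▸ hcQ)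
      have hbd : r b ≠ r d := hr.ne fun h => disjoint_left.1 hPQ hbP (h ▸ hdQ)
      rw [← add_mul]
      congr 1
      simp only [hβ]
      generalize r a = i at *
      generalize r b = j at *
      generalize r c = k at *
      generalize r d = l at *
      unfold ind lt'
      rcases lt_or_gt_of_ne hac with h2 | h2 <;>
      rcases lt_or_gt_of_ne had with h3 | h3 <;> rcases lt_or_gt_of_ne hbc with h4 | h4 <;>
      rcases lt_or_gt_of_ne hbd with h5 | h5 <;>
      first
      | (exfalso; omega)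
      | (simp only [h2, h3, h4, h5, h2.not_gt, h3.not_gt, h4.not_gt, h5.not_gt,
          true_and, and_true, and_false, false_and, if_true, if_false]; decide)
    rw [h3, sum_congr rfl fun c _ => sum_congr rfl fun d _ => h4 c d, ← sum_add2]
    have h5 : ∑ c, ∑ d, β c * Z s(c, d) = 0 := by
      refine sum_eq_zero fun c _ => ?_
      rw [← mul_sum, ← sum_star Z c]
      have := hZ.2 c
      rw [bdy_eq] at this
      rw [this, mul_zero]
    have h6 : ∑ c, ∑ d, β c * β d * Z s(c, d) = 0 := by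
      refine sum_symm hr _ (fun c d => ?_) (fun c => ?_)
      · rw [mul_comm (β c), Sym2.eq_swap]
      · rw [hdiag, mul_zero]
    rw [h5, h6, add_zero, mul_zero]

end DL
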