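import Pool.Agent.DL.NP.Spec
import Pool.Agent.DL.KC

section
/-!
# MP_3ff0f8_gt, algebra half, NP block, module GAL (helper98)

Instead of deleting the edges `pq` of the special vertices `y` (`N(y) = {u, v, p, q}`, `p ~ q`) the vertices `y` are
deleted: `J = G - u - v - Y`.  Then `J` is S3S, or all its degrees are at most 2.  If `w` is special it is not a vertex of
`J`; the chain `Z` is a sum of a chain avoiding `p` and a chain avoiding `q` (TRC), which gives the rows at `wp` and `wq`.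
-/
set_option autoImplicit false
set_option linter.unusedSectionVars false
set_option linter.unusedFintypeInType false
set_option linter.unusedDecidableInType false

open SimpleGraph Finset

namespace DL

namespace GALM

variable {α : Type} [Fintype α] [DecidableEq α] {G : SimpleGraph α}

/-! ### Chains avoiding vertices -/

theorem mem_Z1_del {S : Finset α} {c : Chain α} (h : c ∈ Z1 G)
    (hS : ∀ e, c e ≠ 0 → ∀ x ∈ e, x ∉ S) : c ∈ Z1 (del G S) := by
  rw [mem_Z1] at h ⊢
  refine ⟨fun e he => ?_, h.2⟩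
  have h1 := h.1 e he
  have h2 := hS e he
  induction e using Sym2.ind with
  | _ x y => exact ⟨h1, h2 x (by simp), h2 y (by simp)⟩

theorem avoid {S : Finset α} {c : Chain α} (h : c ∈ Z1 (del G S)) {e : Sym2 α} (he : c e ≠ 0)
    {x : α} (hx : x ∈ e) : x ∉ S := by
  have h1 := h.1 e he
  obtain ⟨y, rfl⟩ := Sym2.mem_iff_exists.1 hx
  exact h1.2.1

theorem notMem_vs_of_Z1 {S : Finset α} {C : Finset (Sym2 α)} (h : chi C ∈ Z1 (del G S)) {x : α}
    (hx : x ∈ S) : x ∉ vs C := by
  intro hv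
  obtain ⟨e, he, hxe⟩ := mem_vs.1 hv
  exact avoid h (chi_ne_zero.2 he) hxe hx

/-! ### Rows -/

/-- a single row -/
def sng (g : Sym2 α) (Z : Chain α) : Sym2 α → Chain α := fun h => if h = g then Z else 0

theorem sum_sng (x : α) (g : Sym2 α) (Z : Chain α) :
    ∑ h ∈ univ.filter (fun h => x ∈ h), sng g Z h = if x ∈ g then Z else 0 := by
  unfold sng
  rw [sum_ite_eq' (univ.filter fun h => x ∈ h) g (fun _ => Z)]
  simp

/-- the rows of the paths which join `u` to `J` at (or near) `w` -/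
structure Arm (J H : SimpleGraph α) (u w : α) (Z : Chain α) (K : Sym2 α → Chain α) : Prop where
  h1 : ∀ g, K g ≠ 0 → g ∈ H.edgeSet
  h2 : ∀ g x, x ∈ g → K g ∈ Z1 (del J {x})
  h3 : ∀ x, x ∉ VS J → ∑ g ∈ univ.filter (fun g => x ∈ g), K g = if x = u then Z else 0
  h4 : ∀ x, K s(u, x) = if x = w then Z else 0

theorem exists_mem (g : Sym2 α) : ∃ x, x ∈ g := by
  induction g using Sym2.ind with
  | _ x y => exact ⟨x, by simp⟩

theorem Arm.mem {J H : SimpleGraph α} {u w : α} {Z : Chain α} {K : Sym2 α → Chain α}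
    (hK : Arm J H u w Z K) (g : Sym2 α) : K g ∈ Z1 J := by
  obtain ⟨x, hx⟩ := exists_mem g
  exact Z1_mono (del_le _ _) (hK.h2 g x hx)

theorem cob_one (g : Sym2 α) : cob (fun _ => (1 : ZMod 2)) g = 0 := by
  induction g using Sym2.ind with
  | _ x y =>
    rw [cob_mk]
    decide

/-- the two-cycle with the prescribed rows at `u` -/
theorem exists_cyc2 (hLEX : SpecLEX) {J H : SimpleGraph α} (hJ : S3S J) (hJH : J ≤ H) {u w w' : α}
    {Z : Chain α} {K K' : Sym2 α → Chain α} (hu : u ∉ VS J) (hK : Arm J H u w Z K)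
    (hK' : Arm J H u w' Z K') :
    ∃ z, IsZ2 H z ∧ ∀ x f, z s(u, x) f = (if x = w then Z f else 0) + if x = w' then Z f else 0 := by
  have hmem : ∀ g, K g + K' g ∈ Z1 J := fun g => Submodule.add_mem _ (hK.mem g) (hK'.mem g)
  have hedge : ∀ g e, (K g + K' g) e ≠ 0 → g ∈ H.edgeSet := by
    intro g e h
    by_cases h1 : K g = 0
    · refine hK'.h1 g fun h2 => h ?_
      rw [h1, h2]
      simp
    · exact hK.h1 g h1
  obtain ⟨zJ, hz1, hz2, hz3⟩ := hLEX J hJ
    (fun x => ∑ g ∈ univ.filter (fun g => x ∈ g), (K g + K' g)) (by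
      intro x
      refine Submodule.sum_mem _ fun g hg => ?_
      have hx := (mem_filter.1 hg).2
      exact Submodule.add_mem _ (hK.h2 g x hx) (hK'.h2 g x hx)) (by
      intro x hx
      show ∑ g ∈ univ.filter (fun g => x ∈ g), (K g + K' g) = 0
      rw [sum_add_distrib, hK.h3 x hx, hK'.h3 x hx]
      split_ifs
      · exact chain_add_self Z
      · exact add_zero 0) (by
      funext e
      have h1 := sum_mul_bdy (fun _ : α => (1 : ZMod 2)) (c := fun g => (K g + K' g) e) (by
        intro g hg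
        exact H.not_isDiag_of_mem_edgeSet (hedge g e hg))
      simp only [cob_one, zero_mul, sum_const_zero, one_mul] at h1
      rw [Finset.sum_apply]
      simp only [Finset.sum_apply]
      exact h1)
  refine ⟨fun e f => zJ e f + (K e + K' e) f + (K f + K' f) e, ⟨?_, ?_, ?_⟩, ?_⟩
  · intro e f
    show zJ e f + (K e + K' e) f + (K f + K' f) e = zJ f e + (K f + K' f) e + (K e + K' e) f
    rw [hz1 e f]
    ring
  · have key : ∀ e f, (K e + K' e) f ≠ 0 → e ∈ H.edgeSet ∧ f ∈ H.edgeSet ∧ Dj e f := by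
      intro e f h
      refine ⟨hedge e f h, edgeSet_mono hJH ((hmem e).1 f h), ?_⟩
      rintro x ⟨hx1, hx2⟩
      have h1 : K e + K' e ∈ Z1 (del J {x}) :=
        Submodule.add_mem _ (hK.h2 e x hx1) (hK'.h2 e x hx1)
      exact avoid h1 h hx2 (mem_singleton_self x)
    intro e f h
    by_cases h1 : zJ e f = 0
    · by_cases h2 : (K e + K' e) f = 0
      · have h3 : (K f + K' f) e ≠ 0 := by
          intro h3
          apply h
          show zJ e f + (K e + K' e) f + (K f + K' f) e = 0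
          rw [h1, h2, h3]
          simp
        obtain ⟨a1, a2, a3⟩ := key f e h3
        exact ⟨a2, a1, fun x hx => a3 x ⟨hx.2, hx.1⟩⟩
      · exact key e f h2
    · obtain ⟨a1, a2, a3⟩ := hz2 e f h1
      exact ⟨edgeSet_mono hJH a1, edgeSet_mono hJH a2, a3⟩
  · intro e x hx
    have h1 := hz3 x e hx
    have h2 : ∑ f ∈ univ.filter (fun f => x ∈ f), (K e + K' e) f = 0 := (hmem e).2 x
    have h3 : ∑ f ∈ univ.filter (fun f => x ∈ f), (K f + K' f) e =
        (∑ g ∈ univ.filter (fun g => x ∈ g), (K g + K' g)) e := by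
      rw [Finset.sum_apply]
    show ∑ f ∈ univ.filter (fun f => x ∈ f), (zJ e f + (K e + K' e) f + (K f + K' f) e) = 0
    rw [sum_add_distrib, sum_add_distrib, h2, h3, h1, add_zero]
    exact zmod2_add_self _
  · intro x f
    have hnot : s(u, x) ∉ J.edgeSet := fun h => hu (left_mem_VS h)
    have h1 : zJ s(u, x) f = 0 := by
      by_contra h
      exact hnot (hz2 _ _ h).1
    have h2 : (K f + K' f) s(u, x) = 0 := by
      by_contra h
      exact hnot ((hmem f).1 _ h)
    show zJ s(u, x) f + (K s(u, x) + K' s(u, x)) f + (K f + K' f) s(u, x) = _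
    rw [h1, h2, zero_add, add_zero, Pi.add_apply, hK.h4 x, hK'.h4 x]
    congr 1
    · split_ifs <;> rfl
    · split_ifs <;> rfl

/-- decomposition of a chain without the edge `pq` -/
theorem decomp (hTRC : SpecTRC) {J : SimpleGraph α} {p q : α} (hpq : p ≠ q)
    (hc : ConnOff J {p, q}) {Z : Chain α} (hZ : Z ∈ Z1 J) (h0 : Z s(p, q) = 0) :
    ∃ A B, A ∈ Z1 (del J {p}) ∧ B ∈ Z1 (del J {q}) ∧ Z = A + B := by
  obtain ⟨A, hA1, hA2⟩ := hTRC J {p} q (by rw [mem_singleton]; exact hpq.symm)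
    (by rw [pair_comm]; exact hc) (fun e => if q ∈ e then Z e else 0) (by
      intro e he
      by_cases hq : q ∈ e
      · rw [if_pos hq] at he
        refine ⟨?_, hq⟩
        obtain ⟨x, rfl⟩ := Sym2.mem_iff_exists.1 hq
        have h1 : J.Adj q x := hZ.1 _ he
        refine ⟨h1, by rw [mem_singleton]; exact hpq.symm, ?_⟩
        rw [mem_singleton]
        rintro rfl
        apply he
        rw [Sym2.eq_swap]
        exact h0
      · rw [if_neg hq] at he
        exact absurd rfl he) (by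
      have h1 := hZ.2 q
      rw [bdy_eq_sum_ite] at h1
      exact h1)
  have hAJ : A ∈ Z1 J := Z1_mono (del_le _ _) hA1
  refine ⟨A, Z + A, hA1, mem_Z1_del (Submodule.add_mem _ hZ hAJ) ?_, ?_⟩
  · intro e he x hx hxq
    rw [mem_singleton] at hxq
    subst hxq
    apply he
    rw [Pi.add_apply, hA2 e hx, if_pos hx]
    exact zmod2_add_self _
  · rw [add_comm Z A, ← add_assoc, chain_add_self, zero_add]

/-! ### Special vertices -/

/-- the neighbours of `y` are `u`, `v`, `p`, `q` -/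
def Sp (G : SimpleGraph α) (u v y p q : α) : Prop :=
  p ≠ q ∧ ∀ x, G.Adj y x ↔ x = u ∨ x = v ∨ x = p ∨ x = q

/-- the standing assumptions -/
structure Ctx (G : SimpleGraph α) (u v : α) : Prop where
  k : K48 G
  r : Rig G u
  hu : u ∈ VS G
  hv : v ∈ VS G
  ne : u ≠ v

variable {u v : α}

theorem Sp.swap {y p q : α} (h : Sp G u v y p q) : Sp G u v y q p :=
  ⟨h.1.symm, fun x => by rw [h.2 x]; tauto⟩

theorem Sp.ne {y p q : α} (h : Sp G u v y p q) : y ≠ u ∧ y ≠ v ∧ y ≠ p ∧ y ≠ q :=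
  ⟨((h.2 u).2 (Or.inl rfl)).ne, ((h.2 v).2 (Or.inr (Or.inl rfl))).ne,
    ((h.2 p).2 (Or.inr (Or.inr (Or.inl rfl)))).ne, ((h.2 q).2 (Or.inr (Or.inr (Or.inr rfl)))).ne⟩

theorem Sp.adj {y p q : α} (h : Sp G u v y p q) : G.Adj y u ∧ G.Adj y v ∧ G.Adj y p ∧ G.Adj y q :=
  ⟨(h.2 u).2 (Or.inl rfl), (h.2 v).2 (Or.inr (Or.inl rfl)),
    (h.2 p).2 (Or.inr (Or.inr (Or.inl rfl))), (h.2 q).2 (Or.inr (Or.inr (Or.inr rfl)))⟩

theorem Sp.dist (X : Ctx G u v) {y p q : α} (h : Sp G u v y p q) :
    p ≠ u ∧ p ≠ v ∧ q ≠ u ∧ q ≠ v := by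
  have h1 : ∀ B : Finset α, (∀ x, (x = u ∨ x = v ∨ x = p ∨ x = q) → x ∈ B) → 4 ≤ B.card := by
    intro B hB
    refine (X.k.1.le_nbs (left_mem_VS h.adj.1)).trans (card_le_card fun x hx => hB x ?_)
    rw [mem_nbs] at hx
    exact (h.2 x).1 hx
  refine ⟨?_, ?_, ?_, ?_⟩
  · intro e
    have h2 := h1 {u, v, q} (by
      intro x hx
      simp only [mem_insert, mem_singleton]
      rcases hx with h | h | h | h
      · exact Or.inl h
      · exact Or.inr (Or.inl h)
      · exact Or.inl (h.trans e)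
      · exact Or.inr (Or.inr h))
    have h3 := card_le_three (a := u) (b := v) (c := q)
    omega
  · intro e
    have h2 := h1 {u, v, q} (by
      intro x hx
      simp only [mem_insert, mem_singleton]
      rcases hx with h | h | h | h
      · exact Or.inl h
      · exact Or.inr (Or.inl h)
      · exact Or.inr (Or.inl (h.trans e))
      · exact Or.inr (Or.inr h))
    have h3 := card_le_three (a := u) (b := v) (c := q)
    omega
  · intro e
    have h2 := h1 {u, v, p} (by
      intro x hx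
      simp only [mem_insert, mem_singleton]
      rcases hx with h | h | h | h
      · exact Or.inl h
      · exact Or.inr (Or.inl h)
      · exact Or.inr (Or.inr h)
      · exact Or.inl (h.trans e))
    have h3 := card_le_three (a := u) (b := v) (c := p)
    omega
  · intro e
    have h2 := h1 {u, v, p} (by
      intro x hx
      simp only [mem_insert, mem_singleton]
      rcases hx with h | h | h | h
      · exact Or.inl h
      · exact Or.inr (Or.inl h)
      · exact Or.inr (Or.inr h)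
      · exact Or.inr (Or.inl (h.trans e)))
    have h3 := card_le_three (a := u) (b := v) (c := p)
    omega

theorem mem_NB {A : Finset α} {w : α} : w ∈ NB G A ↔ w ∉ A ∧ ∃ a ∈ A, G.Adj a w := by
  simp [NB]

/-- two vertices with at most four neighbours, among them `u` -/
theorem two_small (hNBF : SpecNBF) (X : Ctx G u v) {A : Finset α} (hA : A ⊆ VS G)
    (hA2 : A.card = 2) (hu : u ∈ NB G A) (hN : (NB G A).card ≤ 4) : False := by
  have h5 := X.k.2
  have h3 := card_union_le A (NB G A)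
  by_cases h4 : (NB G A).card = 4
  · have h1 := hNBF.rig X.r hA hu h4 (by omega)
    have h2 := le_card_sdiff (A ∪ NB G A) (VS G)
    omega
  · have h1 := hNBF.nb X.k.1 hA (card_pos.1 (by omega)) (by omega)
    have h2 := card_le_card h1
    omega

theorem Sp.nadj (hNBF : SpecNBF) (X : Ctx G u v) {y p q y' p' q' : α} (h : Sp G u v y p q)
    (h' : Sp G u v y' p' q') : ¬ G.Adj y y' := by
  intro hadj
  have key : ∀ p q p' q', Sp G u v y p q → Sp G u v y' p' q' → y' = p → y = p' → False := by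
    intro p q p' q' h h' e e'
    refine two_small hNBF X (A := {y, y'}) ?_ (card_pair hadj.ne) ?_ ?_
    · intro x hx
      simp only [mem_insert, mem_singleton] at hx
      rcases hx with rfl | rfl
      · exact left_mem_VS hadj
      · exact right_mem_VS hadj
    · rw [mem_NB]
      refine ⟨?_, y, by simp, h.adj.1⟩
      simp only [mem_insert, mem_singleton, not_or]
      exact ⟨h.ne.1.symm, h'.ne.1.symm⟩
    · have hsub : NB G {y, y'} ⊆ {u, v, q, q'} := by
        intro x hx
        rw [mem_NB] at hx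
        obtain ⟨h1, a, ha, hax⟩ := hx
        simp only [mem_insert, mem_singleton, not_or] at h1 ha ⊢
        rcases ha with rfl | rfl
        · rcases (h.2 x).1 hax with h2 | h2 | h2 | h2
          · exact Or.inl h2
          · exact Or.inr (Or.inl h2)
          · exact absurd (h2.trans e.symm) h1.2
          · exact Or.inr (Or.inr (Or.inl h2))
        · rcases (h'.2 x).1 hax with h2 | h2 | h2 | h2
          · exact Or.inl h2
          · exact Or.inr (Or.inl h2)
          · exact absurd (h2.trans e'.symm) h1.1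
          · exact Or.inr (Or.inr (Or.inr h2))
      exact (card_le_card hsub).trans card_le_four
  have h1 := (h.2 y').1 hadj
  have h2 := (h'.2 y).1 hadj.symm
  rcases h1 with h1 | h1 | h1 | h1
  · exact h'.ne.1 h1
  · exact h'.ne.2.1 h1
  · rcases h2 with h2 | h2 | h2 | h2
    · exact h.ne.1 h2
    · exact h.ne.2.1 h2
    · exact key p q p' q' h h' h1 h2
    · exact key p q q' p' h h'.swap h1 h2
  · rcases h2 with h2 | h2 | h2 | h2
    · exact h.ne.1 h2
    · exact h.ne.2.1 h2
    · exact key q p p' q' h.swap h' h1 h2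
    · exact key q p q' p' h.swap h'.swap h1 h2

theorem Sp.unique (hNBF : SpecNBF) (X : Ctx G u v) {y p q y' : α} (h : Sp G u v y p q)
    (h' : Sp G u v y' p q) : y = y' := by
  by_contra hne
  refine two_small hNBF X (A := {y, y'}) ?_ (card_pair hne) ?_ ?_
  · intro x hx
    simp only [mem_insert, mem_singleton] at hx
    rcases hx with rfl | rfl
    · exact left_mem_VS h.adj.1
    · exact left_mem_VS h'.adj.1
  · rw [mem_NB]
    refine ⟨?_, y, by simp, h.adj.1⟩
    simp only [mem_insert, mem_singleton, not_or]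
    exact ⟨h.ne.1.symm, h'.ne.1.symm⟩
  · have hsub : NB G {y, y'} ⊆ {u, v, p, q} := by
      intro x hx
      rw [mem_NB] at hx
      obtain ⟨_, a, ha, hax⟩ := hx
      simp only [mem_insert, mem_singleton] at ha ⊢
      rcases ha with rfl | rfl
      · exact (h.2 x).1 hax
      · exact (h'.2 x).1 hax
    exact (card_le_card hsub).trans card_le_four

theorem Sp.conn (hNBF : SpecNBF) (X : Ctx G u v) {y p q : α} (h : Sp G u v y p q) :
    ConnOff G {u, v, p, q, y} := by
  have hd := h.dist X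
  have hn : ¬ ConnOff G {u, v, p, q} := by
    intro hc
    obtain ⟨b, hb, hbn⟩ : ∃ b ∈ VS G, b ∉ ({u, v, p, q, y} : Finset α) := by
      by_contra hcon
      push Not at hcon
      have h1 := card_le_card (show VS G ⊆ ({u, v, p, q, y} : Finset α) from hcon)
      have h2 := card_le_five (a := u) (b := v) (c := p) (d := q) (e := y)
      have h3 := X.k.2
      omega
    simp only [mem_insert, mem_singleton, not_or] at hbn
    have hr := hc y (left_mem_VS h.adj.1) b hb (by
      simp only [mem_insert, mem_singleton, not_or]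
      exact h.ne) (by
      simp only [mem_insert, mem_singleton, not_or]
      exact ⟨hbn.1, hbn.2.1, hbn.2.2.1, hbn.2.2.2.1⟩)
    obtain ⟨x, hx⟩ := exists_adj_of_reachable hr (Ne.symm hbn.2.2.2.2)
    apply hx.2.2
    simp only [mem_insert, mem_singleton]
    exact (h.2 x).1 hx.1
  obtain ⟨z, _, hz1, hz2⟩ := hNBF.one X.k X.r X.hu X.hv (right_mem_VS h.adj.2.2.1)
    (right_mem_VS h.adj.2.2.2) (by
      simp only [List.nodup_cons, List.mem_cons, List.not_mem_nil, or_false, not_or,
        List.nodup_nil, and_true, not_false_eq_true]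
      exact ⟨⟨X.ne, hd.1.symm, hd.2.2.1.symm⟩, ⟨hd.2.1.symm, hd.2.2.2.symm⟩, h.1⟩) hn
  have e : z = y := Sp.unique hNBF X (⟨h.1, hz1⟩ : Sp G u v z p q) h
  rw [e] at hz2
  exact hz2

/-! ### The graph `J` -/

open Classical in
/-- the special vertices with `p ~ q` -/
noncomputable def YY (G : SimpleGraph α) (u v : α) : Finset α :=
  univ.filter fun y => ∃ p q, Sp G u v y p q ∧ G.Adj p q

theorem mem_YY {y : α} : y ∈ YY G u v ↔ ∃ p q, Sp G u v y p q ∧ G.Adj p q := by
  classical
  unfold YY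
  simp

/-- `G - u - v - Y` -/
noncomputable def JJ (G : SimpleGraph α) (u v : α) : SimpleGraph α := del G ({u, v} ∪ YY G u v)

theorem JJ_adj {a b : α} : (JJ G u v).Adj a b ↔ G.Adj a b ∧ (a ≠ u ∧ a ≠ v ∧ a ∉ YY G u v) ∧
    b ≠ u ∧ b ≠ v ∧ b ∉ YY G u v := by
  unfold JJ
  rw [del_adj]
  simp only [mem_union, mem_insert, mem_singleton, not_or, and_assoc]

theorem JJ_le : JJ G u v ≤ del G {u, v} := del_anti subset_union_left

theorem notMem_YY_of_adj (hNBF : SpecNBF) (X : Ctx G u v) {y p q x : α} (h : Sp G u v y p q)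
    (hx : G.Adj y x) : x ∉ YY G u v := by
  intro hy
  obtain ⟨p', q', h', _⟩ := mem_YY.1 hy
  exact Sp.nadj hNBF X h h' hx

theorem JJ_pq (hNBF : SpecNBF) (X : Ctx G u v) {y p q : α} (h : Sp G u v y p q)
    (hpq : G.Adj p q) : (JJ G u v).Adj p q := by
  obtain ⟨h1, h2, h3, h4⟩ := h.dist X
  exact JJ_adj.2 ⟨hpq, ⟨h1, h2, notMem_YY_of_adj hNBF X h h.adj.2.2.1⟩, h3, h4,
    notMem_YY_of_adj hNBF X h h.adj.2.2.2⟩

theorem conn_JJ (hNBF : SpecNBF) (X : Ctx G u v) {T : Finset α}
    (hT : ConnOff (del G {u, v}) T) : ConnOff (JJ G u v) T := by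
  intro a ha b hb haT hbT
  have hr := hT a (VS_mono JJ_le ha) b (VS_mono JJ_le hb) haT hbT
  obtain ⟨a', ha'⟩ := mem_VS.1 ha
  obtain ⟨b', hb'⟩ := mem_VS.1 hb
  have haY := (JJ_adj.1 ha').2.1.2.2
  have hbY := (JJ_adj.1 hb').2.1.2.2
  have h1 := mem_of_reachable (X := {x | (x ∉ YY G u v ∧ (del (JJ G u v) T).Reachable a x) ∨
    (x ∈ YY G u v ∧ ∃ p q, Sp G u v x p q ∧ G.Adj p q ∧ p ∉ T ∧
      (del (JJ G u v) T).Reachable a p)}) hr (Or.inl ⟨haY, Reachable.refl _⟩) (by
    rintro i j ⟨⟨hij, hiuv, hjuv⟩, hiT, hjT⟩ hi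
    simp only [mem_insert, mem_singleton, not_or] at hiuv hjuv
    rcases hi with ⟨hiY, hri⟩ | ⟨_, p, q, hsp, hpq, hpT, hrp⟩
    · by_cases hjY : j ∈ YY G u v
      · obtain ⟨p, q, hsp, hpq⟩ := mem_YY.1 hjY
        right
        refine ⟨hjY, ?_⟩
        rcases (hsp.2 i).1 hij.symm with h | h | h | h
        · exact absurd h hiuv.1
        · exact absurd h hiuv.2
        · exact ⟨p, q, hsp, hpq, h ▸ hiT, h ▸ hri⟩
        · exact ⟨q, p, hsp.swap, hpq.symm, h ▸ hiT, h ▸ hri⟩
      · left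
        refine ⟨hjY, hri.trans (Adj.reachable ?_)⟩
        exact ⟨JJ_adj.2 ⟨hij, ⟨hiuv.1, hiuv.2, hiY⟩, hjuv.1, hjuv.2, hjY⟩, hiT, hjT⟩
    · left
      refine ⟨notMem_YY_of_adj hNBF X hsp hij, ?_⟩
      rcases (hsp.2 j).1 hij with h | h | h | h
      · exact absurd h hjuv.1
      · exact absurd h hjuv.2
      · exact h ▸ hrp
      · subst h
        exact hrp.trans (Adj.reachable ⟨JJ_pq hNBF X hsp hpq, hpT, hjT⟩))
  rcases h1 with ⟨_, h2⟩ | ⟨h2, _⟩
  · exact h2
  · exact absurd h2 hbY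

theorem conn_L {T : Finset α} (hT : ConnOff G ({u, v} ∪ T)) : ConnOff (del G {u, v}) T := by
  intro a ha b hb haT hbT
  have ha' := mem_sdiff.1 (VS_del_subset _ ha)
  have hb' := mem_sdiff.1 (VS_del_subset _ hb)
  rw [del_del]
  exact hT a ha'.1 b hb'.1 (by rw [mem_union, not_or]; exact ⟨ha'.2, haT⟩)
    (by rw [mem_union, not_or]; exact ⟨hb'.2, hbT⟩)

theorem connOff_insert {H : SimpleGraph α} {p : α} {S : Finset α} (hp : p ∉ VS H)
    (h : ConnOff H S) : ConnOff H (insert p S) := by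
  intro a ha b hb haT hbT
  rw [mem_insert, not_or] at haT hbT
  refine (h a ha b hb haT.2 hbT.2).mono ?_
  intro i j hij
  refine ⟨hij.1, ?_, ?_⟩
  · rw [mem_insert, not_or]
    refine ⟨?_, hij.2.1⟩
    rintro rfl
    exact hp (left_mem_VS hij.1)
  · rw [mem_insert, not_or]
    refine ⟨?_, hij.2.2⟩
    rintro rfl
    exact hp (right_mem_VS hij.1)

theorem connOff_of_insert {H : SimpleGraph α} {p : α} {S : Finset α} (hp : p ∉ VS H)
    (h : ConnOff H (insert p S)) : ConnOff H S := by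
  intro a ha b hb haT hbT
  refine (h a ha b hb ?_ ?_).mono (del_anti (subset_insert _ _))
  · rw [mem_insert, not_or]
    exact ⟨fun e => hp (e ▸ ha), haT⟩
  · rw [mem_insert, not_or]
    exact ⟨fun e => hp (e ▸ hb), hbT⟩

theorem YY_notMem_VS {y : α} (hy : y ∈ YY G u v) : y ∉ VS (JJ G u v) := by
  intro h
  obtain ⟨x, hx⟩ := mem_VS.1 h
  exact (JJ_adj.1 hx).2.1.2.2 hy

/-- `J - p - q` is connected if `p`, `q` belong to a special vertex of `Y` -/
theorem conn_pq (hNBF : SpecNBF) (X : Ctx G u v) {y p q : α} (h : Sp G u v y p q)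
    (hpq : G.Adj p q) : ConnOff (JJ G u v) {p, q} := by
  have hy : y ∈ YY G u v := mem_YY.2 ⟨p, q, h, hpq⟩
  refine connOff_of_insert (p := y) (YY_notMem_VS hy) (conn_JJ hNBF X (conn_L ?_))
  have h1 := h.conn hNBF X
  have e : ({u, v} ∪ insert y {p, q} : Finset α) = {u, v, p, q, y} := by
    ext x
    simp only [mem_union, mem_insert, mem_singleton]
    tauto
  rw [e]
  exact h1

theorem s3s_JJ (hNBF : SpecNBF) (X : Ctx G u v)
    (h3 : ∃ c x y z, x ≠ y ∧ x ≠ z ∧ y ≠ z ∧ (JJ G u v).Adj c x ∧ (JJ G u v).Adj c y ∧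
      (JJ G u v).Adj c z) : S3S (JJ G u v) := by
  have hL : KConn 2 (del G {u, v}) := X.k.1.del_pair (k := 2) (by norm_num) u v
  have hVL : VS (del G {u, v}) = VS G \ {u, v} :=
    X.k.1.VS_del (lt_of_le_of_lt card_le_two (by norm_num))
  refine ⟨⟨?_, fun S hS => conn_JJ hNBF X (hL.2 S hS)⟩, h3, ?_⟩
  · obtain ⟨c, x, y, z, hxy, hxz, hyz, hx, hy, hz⟩ := h3
    have h1 : ({x, y, z} : Finset α) ⊆ VS (JJ G u v) := by
      intro t ht
      simp only [mem_insert, mem_singleton] at ht
      rcases ht with rfl | rfl | rfl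
      · exact right_mem_VS hx
      · exact right_mem_VS hy
      · exact right_mem_VS hz
    have h2 := card_le_card h1
    rw [card_eq_three.2 ⟨x, y, z, hxy, hxz, hyz, rfl⟩] at h2
    omega
  · intro p q hpq
    by_cases hc : ConnOff (del G {u, v}) {p, q}
    · exact Or.inl (conn_JJ hNBF X hc)
    · have hp : p ∈ VS (del G {u, v}) := by
        by_contra hp
        exact hc (connOff_insert hp (hL.2 {q} (by simp)))
      have hq : q ∈ VS (del G {u, v}) := by
        by_contra hq
        rw [pair_comm p q] at hc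
        exact hc (connOff_insert hq (hL.2 {p} (by simp)))
      rw [hVL] at hp hq
      simp only [mem_sdiff, mem_insert, mem_singleton, not_or] at hp hq
      have hn : ¬ ConnOff G {u, v, p, q} := by
        intro h
        exact hc (conn_L (by
          have e : ({u, v} ∪ {p, q} : Finset α) = {u, v, p, q} := by
            ext x
            simp only [mem_union, mem_insert, mem_singleton]
            tauto
          rw [e]
          exact h))
      obtain ⟨z, _, hz1, hz2⟩ := hNBF.one X.k X.r X.hu X.hv hp.1 hq.1 (by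
        simp only [List.nodup_cons, List.mem_cons, List.not_mem_nil, or_false, not_or,
          List.nodup_nil, and_true, not_false_eq_true]
        exact ⟨⟨X.ne, Ne.symm hp.2.1, Ne.symm hq.2.1⟩, ⟨Ne.symm hp.2.2, Ne.symm hq.2.2⟩, hpq⟩) hn
      have hsp : Sp G u v z p q := ⟨hpq, hz1⟩
      by_cases hadj : G.Adj p q
      · exact Or.inl (conn_pq hNBF X hsp hadj)
      · right
        have hzY : z ∉ YY G u v := by
          intro h
          obtain ⟨p', q', h', hadj'⟩ := mem_YY.1 h
          have hd := h'.dist X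
          have hp' : p' = p ∨ p' = q := by
            rcases (hsp.2 p').1 h'.adj.2.2.1 with e | e | e | e
            · exact absurd e hd.1
            · exact absurd e hd.2.1
            · exact Or.inl e
            · exact Or.inr e
          have hq' : q' = p ∨ q' = q := by
            rcases (hsp.2 q').1 h'.adj.2.2.2 with e | e | e | e
            · exact absurd e hd.2.2.1
            · exact absurd e hd.2.2.2
            · exact Or.inl e
            · exact Or.inr e
          rcases hp' with e1 | e1 <;> rcases hq' with e2 | e2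
          · exact h'.1 (e1.trans e2.symm)
          · rw [e1, e2] at hadj'
            exact hadj hadj'
          · rw [e1, e2] at hadj'
            exact hadj hadj'.symm
          · exact h'.1 (e1.trans e2.symm)
        refine ⟨z, ?_, ?_, ?_⟩
        · intro w
          rw [JJ_adj, hz1 w]
          constructor
          · rintro ⟨h | h | h | h, _, h1, h2, _⟩
            · exact absurd h h1
            · exact absurd h h2
            · exact Or.inl h
            · exact Or.inr h
          · rintro (rfl | rfl)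
            · exact ⟨Or.inr (Or.inr (Or.inl rfl)), ⟨hsp.ne.1, hsp.ne.2.1, hzY⟩, hp.2.1, hp.2.2,
                notMem_YY_of_adj hNBF X hsp hsp.adj.2.2.1⟩
            · exact ⟨Or.inr (Or.inr (Or.inr rfl)), ⟨hsp.ne.1, hsp.ne.2.1, hzY⟩, hq.2.1, hq.2.2,
                notMem_YY_of_adj hNBF X hsp hsp.adj.2.2.2⟩
        · intro h
          exact hadj (JJ_adj.1 h).1
        · refine conn_JJ hNBF X (conn_L ?_)
          have e : ({u, v} ∪ {p, q, z} : Finset α) = {u, v, p, q, z} := by
            ext x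
            simp only [mem_union, mem_insert, mem_singleton]
            tauto
          rw [e]
          exact hz2

/-- a vertex outside `{u, v} ∪ Y` is a vertex of `J` -/
theorem mem_VS_JJ (hNBF : SpecNBF) (X : Ctx G u v) {w : α} (hw : w ∈ VS G) (h1 : w ≠ u)
    (h2 : w ≠ v) (h3 : w ∉ YY G u v) : w ∈ VS (JJ G u v) := by
  have hL : KConn 2 (del G {u, v}) := X.k.1.del_pair (k := 2) (by norm_num) u v
  have hVL : VS (del G {u, v}) = VS G \ {u, v} :=
    X.k.1.VS_del (lt_of_le_of_lt card_le_two (by norm_num))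
  have hwL : w ∈ VS (del G {u, v}) := by
    rw [hVL]
    simp only [mem_sdiff, mem_insert, mem_singleton, not_or]
    exact ⟨hw, h1, h2⟩
  obtain ⟨a, ha⟩ := mem_VS.1 hwL
  obtain ⟨ha1, _, ha3⟩ := ha
  simp only [mem_insert, mem_singleton, not_or] at ha3
  by_cases haY : a ∈ YY G u v
  · obtain ⟨p, q, hsp, hpq⟩ := mem_YY.1 haY
    rcases (hsp.2 w).1 ha1.symm with e | e | e | e
    · exact absurd e h1
    · exact absurd e h2
    · rw [e]
      exact left_mem_VS (JJ_pq hNBF X hsp hpq)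
    · rw [e]
      exact right_mem_VS (JJ_pq hNBF X hsp hpq)
  · exact left_mem_VS (JJ_adj.2 ⟨ha1, ⟨h1, h2, h3⟩, ha3.1, ha3.2, haY⟩)

/-- if all degrees are at most 2, a cycle contains all edges -/
theorem cyc_all {J : SimpleGraph α} (hc : ConnOff J ∅)
    (h3 : ¬ ∃ c x y z, x ≠ y ∧ x ≠ z ∧ y ≠ z ∧ J.Adj c x ∧ J.Adj c y ∧ J.Adj c z)
    {C : Finset (Sym2 α)} (hC : IsCyc J C) {a b : α} (hab : J.Adj a b) : s(a, b) ∈ C := by
  have hedge : ∀ x y, x ∈ vs C → J.Adj x y → s(x, y) ∈ C := by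
    intro x y hx hxy
    obtain ⟨i, j, hij, hi, hj, _⟩ := hC.two_edges hx
    by_contra hn
    refine h3 ⟨x, i, j, y, hij, ?_, ?_, hC.adj_of_mem hi, hC.adj_of_mem hj, hxy⟩
    · rintro rfl
      exact hn hi
    · rintro rfl
      exact hn hj
  obtain ⟨e, he⟩ := hC.nonempty
  obtain ⟨x, hx⟩ := exists_mem e
  have hxC : x ∈ vs C := mem_vs.2 ⟨e, he, hx⟩
  have hr := hc x (hC.vs_subset hxC) a (left_mem_VS hab) (notMem_empty _) (notMem_empty _)
  rw [del_empty] at hr
  have ha : a ∈ (vs C : Set α) := mem_of_reachable hr (mem_coe.2 hxC) (by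
    intro i j hij hi
    exact mem_coe.2 (right_mem_vs (hedge i j (mem_coe.1 hi) hij)))
  exact hedge a b (mem_coe.1 ha) hab

/-! ### The arms -/

theorem exists_arm (hNBF : SpecNBF) (hTRC : SpecTRC) (X : Ctx G u v) {w : α} {Z : Chain α}
    (huw : G.Adj u w) (hwv : w ≠ v) (hZ : Z ∈ Z1 (JJ G u v)) (hZw : ∀ e, Z e ≠ 0 → w ∉ e)
    (h0 : ∀ p q, Sp G u v w p q → Z s(p, q) = 0) :
    ∃ K, Arm (JJ G u v) (del G {v}) u w Z K := by
  have hZu : Z ∈ Z1 (del (JJ G u v) {u}) := by
    refine mem_Z1_del hZ fun e he x hx hxu => ?_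
    rw [mem_singleton] at hxu
    subst hxu
    obtain ⟨y, rfl⟩ := Sym2.mem_iff_exists.1 hx
    exact (JJ_adj.1 (hZ.1 _ he)).2.1.1 rfl
  have hZw' : Z ∈ Z1 (del (JJ G u v) {w}) := by
    refine mem_Z1_del hZ fun e he x hx hxw => ?_
    rw [mem_singleton] at hxw
    subst hxw
    exact hZw e he hx
  have hHuw : s(u, w) ∈ (del G {v}).edgeSet :=
    ⟨huw, by rw [mem_singleton]; exact X.ne, by rw [mem_singleton]; exact hwv⟩
  have hsng : ∀ (g g₀ : Sym2 α) (Z : Chain α) (x : α), x ∈ g →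
      (∀ y ∈ g₀, Z ∈ Z1 (del (JJ G u v) {y})) → sng g₀ Z g ∈ Z1 (del (JJ G u v) {x}) := by
    intro g g₀ Z x hx h
    unfold sng
    by_cases hg : g = g₀
    · rw [if_pos hg]
      exact h x (hg ▸ hx)
    · rw [if_neg hg]
      exact Submodule.zero_mem _
  have huw2 : ∀ y ∈ s(u, w), Z ∈ Z1 (del (JJ G u v) {y}) := by
    intro y hy
    rcases Sym2.mem_iff.1 hy with rfl | rfl
    · exact hZu
    · exact hZw'
  have hcon : ∀ x, s(u, x) = s(u, w) ↔ x = w := fun x => Sym2.congr_right
  by_cases hwY : w ∈ YY G u v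
  · obtain ⟨p, q, hsp, hpq⟩ := mem_YY.1 hwY
    have hJ := JJ_pq hNBF X hsp hpq
    obtain ⟨A, B, hA, hB, hAB⟩ := decomp hTRC hsp.1 (conn_pq hNBF X hsp hpq) hZ (h0 p q hsp)
    have hav : ∀ c : Chain α, c ∈ Z1 (JJ G u v) → c ∈ Z1 (del (JJ G u v) {w}) := by
      intro c hc
      refine mem_Z1_del hc fun e he x hx hxw => ?_
      rw [mem_singleton] at hxw
      subst hxw
      obtain ⟨y, rfl⟩ := Sym2.mem_iff_exists.1 hx
      exact (JJ_adj.1 (hc.1 _ he)).2.1.2.2 hwY
    have hA2 : ∀ y ∈ s(w, p), A ∈ Z1 (del (JJ G u v) {y}) := by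
      intro y hy
      rcases Sym2.mem_iff.1 hy with rfl | rfl
      · exact hav A (Z1_mono (del_le _ _) hA)
      · exact hA
    have hB2 : ∀ y ∈ s(w, q), B ∈ Z1 (del (JJ G u v) {y}) := by
      intro y hy
      rcases Sym2.mem_iff.1 hy with rfl | rfl
      · exact hav B (Z1_mono (del_le _ _) hB)
      · exact hB
    have hd := hsp.dist X
    have hHwp : s(w, p) ∈ (del G {v}).edgeSet :=
      ⟨hsp.adj.2.2.1, by rw [mem_singleton]; exact hwv, by rw [mem_singleton]; exact hd.2.1⟩
    have hHwq : s(w, q) ∈ (del G {v}).edgeSet :=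
      ⟨hsp.adj.2.2.2, by rw [mem_singleton]; exact hwv, by rw [mem_singleton]; exact hd.2.2.2⟩
    refine ⟨fun g => sng s(u, w) Z g + sng s(w, p) A g + sng s(w, q) B g, ?_, ?_, ?_, ?_⟩
    · intro g hg
      by_cases h1 : g = s(u, w)
      · rw [h1]; exact hHuw
      by_cases h2 : g = s(w, p)
      · rw [h2]; exact hHwp
      by_cases h3 : g = s(w, q)
      · rw [h3]; exact hHwq
      exfalso
      apply hg
      show sng s(u, w) Z g + sng s(w, p) A g + sng s(w, q) B g = 0
      unfold sng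
      rw [if_neg h1, if_neg h2, if_neg h3]
      simp
    · intro g x hx
      exact Submodule.add_mem _ (Submodule.add_mem _ (hsng g _ Z x hx huw2)
        (hsng g _ A x hx hA2)) (hsng g _ B x hx hB2)
    · intro x hx
      have hxp : x ≠ p := by rintro rfl; exact hx (left_mem_VS hJ)
      have hxq : x ≠ q := by rintro rfl; exact hx (right_mem_VS hJ)
      rw [sum_add_distrib, sum_add_distrib, sum_sng, sum_sng, sum_sng]
      simp only [Sym2.mem_iff, hxp, hxq, or_false]
      by_cases hxu : x = u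
      · have hxw : x ≠ w := hxu ▸ huw.ne
        rw [if_pos (Or.inl hxu), if_neg hxw, if_neg hxw, if_pos hxu, add_zero, add_zero]
      · by_cases hxw : x = w
        · rw [if_pos (Or.inr hxw), if_pos hxw, if_pos hxw, if_neg hxu, hAB]
          have h5 := chain_add_self (A + B)
          rw [← add_assoc] at h5
          exact h5
        · rw [if_neg (by tauto), if_neg hxw, if_neg hxw, if_neg hxu]
          simp
    · intro x
      have h1 : s(u, x) ≠ s(w, p) := by
        intro e
        rcases Sym2.eq_iff.1 e with ⟨e1, _⟩ | ⟨e1, _⟩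
        · exact huw.ne e1
        · exact hd.1 e1.symm
      have h2 : s(u, x) ≠ s(w, q) := by
        intro e
        rcases Sym2.eq_iff.1 e with ⟨e1, _⟩ | ⟨e1, _⟩
        · exact huw.ne e1
        · exact hd.2.2.1 e1.symm
      show sng s(u, w) Z s(u, x) + sng s(w, p) A s(u, x) + sng s(w, q) B s(u, x) = _
      unfold sng
      rw [if_neg h1, if_neg h2, add_zero, add_zero]
      simp only [hcon]
  · refine ⟨sng s(u, w) Z, ?_, ?_, ?_, ?_⟩
    · intro g hg
      by_cases h1 : g = s(u, w)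
      · rw [h1]; exact hHuw
      · exfalso
        exact hg (if_neg h1)
    · intro g x hx
      exact hsng g _ Z x hx huw2
    · intro x hx
      have hxw : x ≠ w := by
        rintro rfl
        exact hx (mem_VS_JJ hNBF X (right_mem_VS huw) huw.ne' hwv hwY)
      rw [sum_sng]
      simp only [Sym2.mem_iff, hxw, or_false]
    · intro x
      unfold sng
      simp only [hcon]

/-! ### The chain `Z` -/

/-- the triangle of a special vertex is a cycle -/
theorem tri_cyc {y p q : α} (h1 : G.Adj y p) (h2 : G.Adj y q) (h3 : G.Adj p q) :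
    IsCyc G {s(y, p), s(p, q), s(y, q)} := by
  have h4 : IsPth (del G {y}) p q {s(p, q)} :=
    IsPth.edge ⟨h3, by rw [mem_singleton]; exact h1.ne', by rw [mem_singleton]; exact h2.ne'⟩
  have h5 := isCyc_of_isPth_del h1 h2 h3.ne h4
  have e : (insert s(y, p) (insert s(y, q) {s(p, q)}) : Finset (Sym2 α)) =
      {s(y, p), s(p, q), s(y, q)} := by
    ext f
    simp only [mem_insert, mem_singleton]
    tauto
  rw [e] at h5
  exact h5

theorem tri_mem {y p q : α} {e : Sym2 α} (h : tri y p q e ≠ 0) {x : α} (hx : x ∈ e) :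
    x = y ∨ x = p ∨ x = q := by
  unfold tri at h
  rw [chi_ne_zero] at h
  simp only [mem_insert, mem_singleton] at h
  rcases h with rfl | rfl | rfl
  · rcases Sym2.mem_iff.1 hx with h | h
    · exact Or.inl h
    · exact Or.inr (Or.inl h)
  · rcases Sym2.mem_iff.1 hx with h | h
    · exact Or.inr (Or.inl h)
    · exact Or.inr (Or.inr h)
  · rcases Sym2.mem_iff.1 hx with h | h
    · exact Or.inl h
    · exact Or.inr (Or.inr h)

/-- at a special vertex `tri` and a cycle through it agree -/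
theorem tri_at {y p q : α} (h : Sp G u v y p q) {C : Finset (Sym2 α)} (hC : IsCyc G C)
    (hu : u ∉ vs C) (hv : v ∉ vs C) (hy : y ∈ vs C) (k : α) :
    chi C s(y, k) = tri y p q s(y, k) ∧ p ∈ vs C ∧ q ∈ vs C := by
  obtain ⟨i, j, hij, hi, hj, hk⟩ := hC.two_edges hy
  have hin : ∀ x, s(y, x) ∈ C → x = p ∨ x = q := by
    intro x hx
    rcases (h.2 x).1 (hC.adj_of_mem hx) with e | e | e | e
    · exact absurd (e ▸ right_mem_vs hx) hu
    · exact absurd (e ▸ right_mem_vs hx) hv
    · exact Or.inl e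
    · exact Or.inr e
  have hpq : s(y, p) ∈ C ∧ s(y, q) ∈ C := by
    rcases hin i hi with e1 | e1 <;> rcases hin j hj with e2 | e2
    · exact absurd (e1.trans e2.symm) hij
    · exact ⟨e1 ▸ hi, e2 ▸ hj⟩
    · exact ⟨e2 ▸ hj, e1 ▸ hi⟩
    · exact absurd (e1.trans e2.symm) hij
  refine ⟨?_, right_mem_vs hpq.1, right_mem_vs hpq.2⟩
  have hne := h.ne
  by_cases hk' : k = p ∨ k = q
  · have h1 : s(y, k) ∈ C := by
      rcases hk' with rfl | rfl
      · exact hpq.1
      · exact hpq.2
    have h2 : s(y, k) ∈ ({s(y, p), s(p, q), s(y, q)} : Finset (Sym2 α)) := by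
      rcases hk' with rfl | rfl
      · simp
      · simp
    unfold tri
    rw [chi_of_mem h1, chi_of_mem h2]
  · have h1 : s(y, k) ∉ C := fun h => hk' (hin k h)
    have h2 : s(y, k) ∉ ({s(y, p), s(p, q), s(y, q)} : Finset (Sym2 α)) := by
      simp only [mem_insert, mem_singleton, not_or]
      refine ⟨?_, ?_, ?_⟩
      · intro e
        exact hk' (Or.inl (Sym2.congr_right.1 e))
      · intro e
        rcases Sym2.eq_iff.1 e with ⟨e1, _⟩ | ⟨e1, _⟩
        · exact hne.2.2.1 e1
        · exact hne.2.2.2 e1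
      · intro e
        exact hk' (Or.inr (Sym2.congr_right.1 e))
    unfold tri
    rw [chi_of_notMem h1, chi_of_notMem h2]

theorem card_eq_of_four {u y p q : α} (h1 : y ≠ u) (h2 : y ≠ p) (h3 : y ≠ q) (h4 : p ≠ u)
    (h5 : q ≠ u) (h6 : p ≠ q) : ({u, y, p, q} : Finset α).card = 4 := by
  rw [card_insert_of_notMem, card_insert_of_notMem, card_insert_of_notMem, card_singleton]
  · simpa using h6
  · simp only [mem_insert, mem_singleton, not_or]
    exact ⟨h2, h3⟩
  · simp only [mem_insert, mem_singleton, not_or]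
    exact ⟨h1.symm, h4.symm, h5.symm⟩

/-- the triangle of a special vertex on the cycle is not `Gam` -/
theorem tri_not_gam (hNBF : SpecNBF) (hNCN : SpecNCN) (X : Ctx G u v) (hnp : ¬ NP (del G {u}))
    {w w' y p q : α} (h : Sp G u v y p q) (hpq : G.Adj p q) (hw : w ∈ VS G) (hw' : w' ∈ VS G)
    (hwu : w ≠ u) (hwu' : w' ≠ u) (h1 : w ≠ y ∧ w ≠ p ∧ w ≠ q) (h1' : w' ≠ y ∧ w' ≠ p ∧ w' ≠ q) :
    ¬ Gam G u w w' (tri y p q) := by
  intro hG
  have hadj := h.adj
  have hne := h.ne
  have hd := h.dist X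
  refine hNCN.sep hnp (tri_cyc hadj.2.2.1 hadj.2.2.2 hpq) hG ?_
  have hvs : insert u (vs ({s(y, p), s(p, q), s(y, q)} : Finset (Sym2 α))) = {u, y, p, q} := by
    rw [vs_insert, vs_insert, vs_singleton]
    ext x
    simp only [mem_insert, mem_union, mem_singleton]
    tauto
  rw [hvs]
  have hconn : ConnOff G {u, y, p, q} := by
    refine hNBF.off (x := y) (t := v) X.k.1 ?_ ?_ (by simp) ?_
    · intro x hx
      simp only [mem_insert, mem_singleton] at hx
      rcases hx with rfl | rfl | rfl | rfl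
      · exact X.hu
      · exact left_mem_VS hadj.1
      · exact right_mem_VS hadj.2.2.1
      · exact right_mem_VS hadj.2.2.2
    · rw [card_eq_of_four hne.1 hne.2.2.1 hne.2.2.2 hd.1 hd.2.2.1 h.1]
    · intro x hx
      simp only [mem_insert, mem_singleton]
      rcases (h.2 x).1 hx with e | e | e | e
      · exact Or.inl (Or.inl e)
      · exact Or.inr e
      · exact Or.inl (Or.inr (Or.inr (Or.inl e)))
      · exact Or.inl (Or.inr (Or.inr (Or.inr e)))
  refine hconn w hw w' hw' ?_ ?_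
  · simp only [mem_insert, mem_singleton, not_or]
    exact ⟨hwu, h1.1, h1.2.1, h1.2.2⟩
  · simp only [mem_insert, mem_singleton, not_or]
    exact ⟨hwu', h1'.1, h1'.2.1, h1'.2.2⟩

/-! ### The contradiction -/

/-- a 2-cycle of `G` with zero rows at `u` is a 2-cycle of `G - u` -/
theorem isZ2_del {z : Sym2 α → Sym2 α → ZMod 2} (hz : IsZ2 G z) (h0 : ∀ x f, z s(u, x) f = 0) :
    IsZ2 (del G {u}) z := by
  have key : ∀ e f, z e f ≠ 0 → e ∈ (del G {u}).edgeSet := by
    intro e f h
    have h1 := (hz.2.1 e f h).1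
    have h2 : u ∉ e := by
      intro hu
      obtain ⟨x, rfl⟩ := Sym2.mem_iff_exists.1 hu
      exact h (h0 x f)
    induction e using Sym2.ind with
    | _ x y =>
      refine ⟨h1, ?_, ?_⟩
      · rw [mem_singleton]
        rintro rfl
        exact h2 (by simp)
      · rw [mem_singleton]
        rintro rfl
        exact h2 (by simp)
  exact ⟨hz.1, fun e f h => ⟨key e f h, key f e (by rw [hz.1]; exact h), (hz.2.1 e f h).2.2⟩, hz.2.2⟩

/-- no 2-cycle of `G - v` has the rows of `Gam` -/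
theorem no_same (hVKA : SpecVKA) (hKUR : SpecKUR) (hnu : ¬ NP (del G {u})) (hnv : ¬ NP (del G {v}))
    {w w' : α} {Z : Chain α} (hG : Gam G u w w' Z) {z : Sym2 α → Sym2 α → ZMod 2}
    (hz : IsZ2 (del G {v}) z)
    (hrow : ∀ x f, z s(u, x) f = (if x = w then Z f else 0) + if x = w' then Z f else 0) : False := by
  obtain ⟨_, _, hww, _, r, z', hr, hz', hv', h1, h2, h3⟩ := hG
  have hz1 : IsZ2 (del G {u}) (fun e f => z' e f + z e f) := by
    refine isZ2_del (hKUR.zadd hz' (hKUR.zmono (del_le _ _) hz)) fun x f => ?_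
    show z' s(u, x) f + z s(u, x) f = 0
    rw [hrow x f]
    by_cases hxw : x = w
    · rw [if_pos hxw, hxw, if_neg hww, add_zero, h1]
      exact zmod2_add_self _
    · by_cases hxw' : x = w'
      · rw [if_neg hxw, hxw', if_pos rfl, zero_add, h2]
        exact zmod2_add_self _
      · rw [if_neg hxw, if_neg hxw', h3 x hxw hxw']
        simp
  have h4 : vk r (fun e f => z' e f + z e f) = 0 := by
    by_contra h
    exact hnu ⟨r, hr, _, hz1, h⟩
  have h5 : vk r z = 0 := by
    by_contra h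
    exact hnv ⟨r, hr, _, hz, h⟩
  rw [hVKA.add, h5, add_zero] at h4
  exact hv' h4

/-- `Gam` is not zero -/
theorem not_gam_zero (hnu : ¬ NP (del G {u})) {w w' : α} : ¬ Gam G u w w' 0 := by
  rintro ⟨_, _, _, _, r, z', hr, hz', hv', h1, h2, h3⟩
  refine hnu ⟨r, hr, z', isZ2_del hz' fun x f => ?_, hv'⟩
  by_cases hxw : x = w
  · rw [hxw, h1]
    rfl
  · by_cases hxw' : x = w'
    · rw [hxw', h2]
      rfl
    · rw [h3 x hxw hxw']
      rfl

end GALM

open GALM in
/-- **GAL** -/
theorem specGAL (hVKA : SpecVKA) (hKUR : SpecKUR) (hLEX : SpecLEX) (hTRC : SpecTRC)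
    (hNBF : SpecNBF) (hNCN : SpecNCN) : SpecGAL := by
  intro α _ _ G u v w w' C hK hR hnu hnv hv hvu hvw hvw' hC hvC hG
  classical
  have : Nonempty α := ⟨u⟩
  by_contra hcon
  have hsC : ∀ y p q, (y = w ∨ y = w') → Sp G u v y p q → s(p, q) ∉ C := by
    intro y p q hy hsp hpq
    exact hcon ⟨y, p, q, hy, hsp.1, hpq, hsp.2⟩
  obtain ⟨huw, huw', hww, hCZ, _⟩ := id hG
  have X : Ctx G u v := ⟨hK, hR, left_mem_VS huw, hv, hvu.symm⟩
  have huC : u ∉ vs C := notMem_vs_of_Z1 hCZ (by simp)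
  have hwC : w ∉ vs C := notMem_vs_of_Z1 hCZ (by simp)
  have hwC' : w' ∉ vs C := notMem_vs_of_Z1 hCZ (by simp)
  choose! P Q hPQ using (fun y (hy : y ∈ YY G u v) => mem_YY.1 hy)
  set S := (YY G u v).filter (fun y => y ∈ vs C) with hS
  have key : ∀ T ⊆ S, Gam G u w w' (chi C + ∑ y ∈ T, tri y (P y) (Q y)) := by
    intro T
    induction T using Finset.induction_on with
    | empty =>
      intro _
      rw [sum_empty, add_zero]
      exact hG
    | insert y T hy ih =>
      intro hT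
      have hyS : y ∈ S := hT (mem_insert_self _ _)
      have ih := ih ((subset_insert _ _).trans hT)
      obtain ⟨hyY, hyC⟩ := mem_filter.1 hyS
      obtain ⟨hsp, hpq⟩ := hPQ y hyY
      obtain ⟨_, hp, hq⟩ := tri_at hsp hC huC hvC hyC y
      have hne : ∀ x, x ∉ vs C → x ≠ y ∧ x ≠ P y ∧ x ≠ Q y := by
        intro x hx
        refine ⟨?_, ?_, ?_⟩
        · rintro rfl
          exact hx hyC
        · intro e
          exact hx (e ▸ hp)
        · intro e
          exact hx (e ▸ hq)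
      have h1 : tri y (P y) (Q y) ∈ Z1 (del G {u, w, w'}) := by
        refine mem_Z1_del (tri_cyc hsp.adj.2.2.1 hsp.adj.2.2.2 hpq).chi_mem fun e he x hx hxS => ?_
        have h2 := tri_mem he hx
        have h3 : x ∉ vs C := by
          simp only [mem_insert, mem_singleton] at hxS
          rcases hxS with rfl | rfl | rfl
          · exact huC
          · exact hwC
          · exact hwC'
        have h4 := hne x h3
        tauto
      rw [sum_insert hy]
      rcases hNCN.lin hK.1 hnu ih h1 with h2 | h2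
      · exact absurd h2 (tri_not_gam hNBF hNCN X hnu hsp hpq (right_mem_VS huw) (right_mem_VS huw')
          huw.ne' huw'.ne' (hne w hwC) (hne w' hwC'))
      · have e : chi C + (tri y (P y) (Q y) + ∑ y ∈ T, tri y (P y) (Q y)) =
            chi C + ∑ y ∈ T, tri y (P y) (Q y) + tri y (P y) (Q y) := by
          rw [add_assoc, add_comm (∑ y ∈ T, tri y (P y) (Q y))]
        rw [e]
        exact h2
  have hZG := key S (Subset.refl _)
  set Z : Chain α := chi C + ∑ y ∈ S, tri y (P y) (Q y) with hZdef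
  have hZ1 := hZG.2.2.2.1
  -- the other triangles vanish at a special vertex
  have htri : ∀ x p q, Sp G u v x p q → ∀ y ∈ YY G u v, y ≠ x → ∀ e, x ∈ e →
      tri y (P y) (Q y) e = 0 := by
    intro x p q hx y hy hyx e he
    by_contra h
    obtain ⟨hsp, _⟩ := hPQ y hy
    rcases tri_mem h he with h1 | h1 | h1
    · exact hyx h1.symm
    · exact Sp.nadj hNBF X hsp hx (h1 ▸ hsp.adj.2.2.1)
    · exact Sp.nadj hNBF X hsp hx (h1 ▸ hsp.adj.2.2.2)
  have hval : ∀ e, Z e = chi C e + ∑ y ∈ S, tri y (P y) (Q y) e := by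
    intro e
    rw [hZdef, Pi.add_apply, Finset.sum_apply]
  have hchi : ∀ x, x ∉ vs C → ∀ e, x ∈ e → chi C e = 0 := by
    intro x hx e he
    rw [chi_of_notMem]
    intro h
    exact hx (mem_vs.2 ⟨e, h, he⟩)
  have hZJ : Z ∈ Z1 (JJ G u v) := by
    refine mem_Z1_del (Z1_mono (del_le _ _) hZ1) fun e he x hx hxS => ?_
    simp only [mem_union, mem_insert, mem_singleton] at hxS
    rcases hxS with (rfl | rfl) | hxY
    · exact avoid hZ1 he hx (by simp)
    · apply he
      rw [hval, hchi x hvC e hx, zero_add]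
      refine sum_eq_zero fun y hy => ?_
      by_contra h
      obtain ⟨hsp, _⟩ := hPQ y (mem_filter.1 hy).1
      have hd := hsp.dist X
      rcases tri_mem h hx with h1 | h1 | h1
      · exact hsp.ne.2.1 h1.symm
      · exact hd.2.1 h1.symm
      · exact hd.2.2.2 h1.symm
    · obtain ⟨hsp, _⟩ := hPQ x hxY
      apply he
      by_cases hxC : x ∈ vs C
      · have hxS : x ∈ S := mem_filter.2 ⟨hxY, hxC⟩
        obtain ⟨k, rfl⟩ := Sym2.mem_iff_exists.1 hx
        rw [hval, (tri_at hsp hC huC hvC hxC k).1, sum_eq_single_of_mem x hxS (by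
          intro y hy hyx
          exact htri x _ _ hsp y (mem_filter.1 hy).1 hyx _ hx)]
        exact zmod2_add_self _
      · rw [hval, hchi x hxC e hx, zero_add]
        refine sum_eq_zero fun y hy => ?_
        refine htri x _ _ hsp y (mem_filter.1 hy).1 ?_ _ hx
        rintro rfl
        exact hxC (mem_filter.1 hy).2
  have hZw : ∀ e, Z e ≠ 0 → w ∉ e := fun e he h => avoid hZ1 he h (by simp)
  have hZw' : ∀ e, Z e ≠ 0 → w' ∉ e := fun e he h => avoid hZ1 he h (by simp)
  have h0 : ∀ x, (x = w ∨ x = w') → ∀ p q, Sp G u v x p q → Z s(p, q) = 0 := by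
    intro x hx p q hsp
    have hxC : x ∉ vs C := by
      rcases hx with rfl | rfl
      · exact hwC
      · exact hwC'
    rw [hval, chi_of_notMem (hsC x p q hx hsp), zero_add]
    refine sum_eq_zero fun y hy => ?_
    obtain ⟨hyY, hyC⟩ := mem_filter.1 hy
    by_contra h
    obtain ⟨hsp', _⟩ := hPQ y hyY
    have hp : p = y ∨ p = P y ∨ p = Q y := tri_mem h (by simp)
    have hq : q = y ∨ q = P y ∨ q = Q y := tri_mem h (by simp)
    have hpy : p ≠ y := by
      intro e
      exact Sp.nadj hNBF X hsp hsp' (e ▸ hsp.adj.2.2.1)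
    have hqy : q ≠ y := by
      intro e
      exact Sp.nadj hNBF X hsp hsp' (e ▸ hsp.adj.2.2.2)
    have hxy : x = y := by
      rcases hp with e1 | e1 | e1
      · exact absurd e1 hpy
      · rcases hq with e2 | e2 | e2
        · exact absurd e2 hqy
        · exact absurd (e1.trans e2.symm) hsp.1
        · rw [← e1, ← e2] at hsp'
          exact Sp.unique hNBF X hsp hsp'
      · rcases hq with e2 | e2 | e2
        · exact absurd e2 hqy
        · rw [← e1, ← e2] at hsp'
          exact Sp.unique hNBF X hsp hsp'.swap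
        · exact absurd (e1.trans e2.symm) hsp.1
    exact hxC (hxy ▸ hyC)
  by_cases h3 : ∃ c x y z, x ≠ y ∧ x ≠ z ∧ y ≠ z ∧ (JJ G u v).Adj c x ∧ (JJ G u v).Adj c y ∧
      (JJ G u v).Adj c z
  · obtain ⟨K, hK1⟩ := exists_arm hNBF hTRC X huw hvw.symm hZJ hZw (h0 w (Or.inl rfl))
    obtain ⟨K', hK2⟩ := exists_arm hNBF hTRC X huw' hvw'.symm hZJ hZw' (h0 w' (Or.inr rfl))
    have hJH : JJ G u v ≤ del G {v} := JJ_le.trans (del_anti (by simp))
    have hu : u ∉ VS (JJ G u v) := by
      intro h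
      obtain ⟨x, hx⟩ := mem_VS.1 h
      exact (JJ_adj.1 hx).2.1.1 rfl
    obtain ⟨z, hz, hrow⟩ := exists_cyc2 hLEX (s3s_JJ hNBF X h3) hJH hu hK1 hK2
    exact no_same hVKA hKUR hnu hnv hZG hz hrow
  · by_cases hZ0 : Z = 0
    · rw [hZ0] at hZG
      exact not_gam_zero hnu hZG
    · obtain ⟨C', hC', hsub⟩ := exists_isCyc_of_ne_zero hZJ hZ0
      have hall : ∀ a b, (JJ G u v).Adj a b → s(a, b) ∈ C' := fun a b hab =>
        cyc_all (conn_JJ hNBF X (T := ∅)
          ((X.k.1.del_pair (k := 2) (by norm_num) u v).2 ∅ (by simp))) h3 hC' hab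
      by_cases hwY : w ∈ YY G u v
      · obtain ⟨p, q, hsp, hpq⟩ := mem_YY.1 hwY
        exact mem_csupp.1 (hsub (hall p q (JJ_pq hNBF X hsp hpq))) (h0 w (Or.inl rfl) p q hsp)
      · have hwJ := mem_VS_JJ hNBF X (right_mem_VS huw) huw.ne' hvw.symm hwY
        obtain ⟨x, hx⟩ := mem_VS.1 hwJ
        exact hZw _ (mem_csupp.1 (hsub (hall w x hx))) (by simp)

end DL
end

section
/-!
# Module NBF: neighbourhoods, rigid vertices
-/
open SimpleGraph Finset

namespace DL

namespace NBFM

variable {α : Type} [Fintype α] [DecidableEq α] {G : SimpleGraph α}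

theorem mem_NB {A : Finset α} {w : α} : w ∈ NB G A ↔ w ∉ A ∧ ∃ a ∈ A, G.Adj a w := by
  simp [NB]

theorem NB_subset (A : Finset α) : NB G A ⊆ VS G := fun w hw => by
  obtain ⟨_, a, _, h⟩ := mem_NB.1 hw
  exact right_mem_VS h

theorem nb {k : ℕ} {A : Finset α} (hG : KConn k G) (hA : A ⊆ VS G) (hne : A.Nonempty)
    (hk : (NB G A).card < k) : VS G ⊆ A ∪ NB G A := by
  intro v hv
  by_contra hcon
  rw [mem_union, not_or] at hcon
  obtain ⟨a, ha⟩ := hne
  have hr := hG.reach hk (hA ha) hv (fun h => (mem_NB.1 h).1 ha) hcon.2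
  refine hcon.1 (DL.mem_of_reachable (X := {x | x ∈ A}) hr ha fun u w huw hu => ?_)
  by_contra hw
  exact huw.2.2 (mem_NB.2 ⟨hw, u, hu, huw.1⟩)

theorem sep_NB {A : Finset α} (hA : A ⊆ VS G) : Sep G (NB G A) A (VS G \ (A ∪ NB G A)) := by
  refine ⟨?_, ?_, ?_, ?_, ?_⟩
  · ext x
    simp only [mem_union, mem_sdiff]
    constructor
    · rintro ((h | h) | h)
      · exact NB_subset A h
      · exact hA h
      · exact h.1
    · intro h
      by_cases h1 : x ∈ A
      · exact Or.inl (Or.inr h1)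
      · by_cases h2 : x ∈ NB G A
        · exact Or.inl (Or.inl h2)
        · exact Or.inr ⟨h, by tauto⟩
  · rw [Finset.disjoint_left]
    exact fun x hx hx' => (mem_NB.1 hx).1 hx'
  · rw [Finset.disjoint_left]
    intro x hx hx'
    exact (mem_sdiff.1 hx').2 (mem_union_right _ hx)
  · rw [Finset.disjoint_left]
    intro x hx hx'
    exact (mem_sdiff.1 hx').2 (mem_union_left _ hx)
  · intro a ha b hb hab
    apply (mem_sdiff.1 hb).2
    by_cases h : b ∈ A
    · exact mem_union_left _ h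
    · exact mem_union_right _ (mem_NB.2 ⟨h, a, ha, hab⟩)

theorem off {T : Finset α} {x t : α} (hG : KConn 4 G) (hT : T ⊆ VS G) (h4 : T.card = 4)
    (hx : x ∈ T) (hw : ∀ w, G.Adj x w → w ∈ T ∨ w = t) : ConnOff G T := by
  intro a ha b hb haT hbT
  by_contra hr
  obtain ⟨P, Q, hs, haP, hbQ, -⟩ := exists_sep_of_not_reachable ha hb haT hbT hr
  rw [inter_eq_left.2 hT] at hs
  obtain ⟨p, hp, hxp⟩ := hG.exists_adj_of_sep hs ⟨a, haP⟩ h4.le hx
  obtain ⟨q, hq, hxq⟩ := hG.exists_adj_of_sep hs.symm ⟨b, hbQ⟩ h4.le hx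
  have hpT : p ∉ T := Finset.disjoint_right.1 hs.2.1 hp
  have hqT : q ∉ T := Finset.disjoint_right.1 hs.2.2.1 hq
  have e1 := (hw p hxp).resolve_left hpT
  have e2 := (hw q hxq).resolve_left hqT
  exact Finset.disjoint_left.1 hs.2.2.2.1 hp (by rw [e1, ← e2]; exact hq)

/-- the case in which the first side has at most one vertex -/
theorem one_aux {T P Q : Finset α} {u : α} (hG : K48 G) (hu : Rig G u) (huT : u ∈ T)
    (h4 : T.card = 4) (hs : Sep G T P Q) (hP : P.Nonempty) (hP1 : P.card ≤ 1) :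
    ∃ z ∈ VS G, (∀ w, G.Adj z w ↔ w ∈ T) ∧ ConnOff G (insert z T) := by
  obtain ⟨z, hz⟩ := hP
  have hPz : P = {z} := by
    have := card_eq_one.1 (le_antisymm hP1 (card_pos.2 ⟨z, hz⟩))
    obtain ⟨y, rfl⟩ := this
    rw [mem_singleton] at hz
    rw [hz]
  have hzV := hs.subP hz
  have hsub : nbs G z ⊆ T := by
    intro w hw
    rw [mem_nbs] at hw
    rcases hs.mem_or (right_mem_VS hw) with h | h | h
    · exact h
    · rw [hPz, mem_singleton] at h
      rw [h] at hw
      exact absurd rfl hw.ne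
    · exact absurd hw (hs.2.2.2.2 z hz w h)
  have heq : nbs G z = T := eq_of_subset_of_card_le hsub (by rw [h4]; exact hG.1.le_nbs hzV)
  have hadj : ∀ w, G.Adj z w ↔ w ∈ T := fun w => by rw [← heq, mem_nbs]
  have hzT : z ∉ T := Finset.disjoint_right.1 hs.2.1 hz
  refine ⟨z, hzV, hadj, ?_⟩
  intro a ha b hb haT hbT
  by_contra hr
  obtain ⟨P', Q', hs', haP, hbQ, -⟩ := exists_sep_of_not_reachable ha hb haT hbT hr
  have hTV : T ⊆ VS G := hs.subS
  have hST : insert z T ∩ VS G = insert z T :=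
    inter_eq_left.2 (insert_subset hzV hTV)
  rw [hST] at hs'
  have hno : ∀ P'' Q'' : Finset α, Sep G (insert z T) P'' Q'' → Q''.Nonempty → P''.card ≤ 1 := by
    intro P'' Q'' h hQ
    have h1 := h.move (s := z) (mem_insert_self z T) (fun p hp hpz =>
      Finset.disjoint_right.1 h.2.1 hp (mem_insert_of_mem ((hadj p).1 hpz.symm)))
    rw [erase_insert hzT] at h1
    rcases hu _ _ _ h1 h4 huT with h2 | h2
    · exact h2
    · have hzQ : z ∉ Q'' := fun h3 => Finset.disjoint_left.1 h.2.2.1 (mem_insert_self z T) h3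
      rw [card_insert_of_notMem hzQ] at h2
      have := card_pos.2 hQ
      omega
  have c1 := hno P' Q' hs' ⟨b, hbQ⟩
  have c2 := hno Q' P' hs'.symm ⟨a, haP⟩
  have c3 : (insert z T).card ≤ 5 := by
    rw [card_insert_of_notMem hzT, h4]
  have c4 : (VS G).card ≤ (insert z T).card + P'.card + Q'.card := by
    rw [← hs'.1]
    exact (card_union_le _ _).trans (Nat.add_le_add_right (card_union_le _ _) _)
  have := hG.2
  omega

end NBFM

theorem specNBF : SpecNBF where
  nb := NBFM.nb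
  rig := by
    intro α _ _ G u A hu hA huA h4 h2
    rcases hu _ _ _ (NBFM.sep_NB hA) h4 huA with h | h
    · omega
    · exact h
  off := NBFM.off
  one := by
    intro α _ _ G u i j k hG hu hVu hVi hVj hVk hnd hcon
    have h4 : ({u, i, j, k} : Finset α).card = 4 := by
      have := List.toFinset_card_of_nodup hnd
      simpa using this
    have hT : ({u, i, j, k} : Finset α) ⊆ VS G := by
      intro x hx
      simp only [mem_insert, mem_singleton] at hx
      rcases hx with rfl | rfl | rfl | rfl <;> assumption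
    have huT : u ∈ ({u, i, j, k} : Finset α) := mem_insert_self _ _
    have key : ∃ z ∈ VS G, (∀ w, G.Adj z w ↔ w ∈ ({u, i, j, k} : Finset α)) ∧
        ConnOff G (insert z {u, i, j, k}) := by
      unfold ConnOff at hcon
      push Not at hcon
      obtain ⟨a, ha, b, hb, haT, hbT, hr⟩ := hcon
      obtain ⟨P, Q, hs, haP, hbQ, -⟩ := exists_sep_of_not_reachable ha hb haT hbT hr
      rw [inter_eq_left.2 hT] at hs
      rcases hu _ _ _ hs h4 huT with h | h
      · exact NBFM.one_aux hG hu huT h4 hs ⟨a, haP⟩ h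
      · exact NBFM.one_aux hG hu huT h4 hs.symm ⟨b, hbQ⟩ h
    obtain ⟨z, hz, h1, h2⟩ := key
    refine ⟨z, hz, fun w => ?_, ?_⟩
    · rw [h1 w]
      simp only [mem_insert, mem_singleton]
    · have : (insert z {u, i, j, k} : Finset α) = {u, i, j, k, z} := by
        ext x
        simp only [mem_insert, mem_singleton]
        tauto
      rw [← this]
      exact h2

end DL
end

section
/-!
# NC1: LEMMA NC with two nonadjacent neighbours
-/
open SimpleGraph Finset

namespace DL

namespace NC1M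

variable {α : Type} [Fintype α] [DecidableEq α] {G : SimpleGraph α}

/-! ## the functional `pr` -/

theorem pr_add (a b c : Chain α) : pr (a + b) c = pr a c + pr b c := by
  unfold pr
  rw [← sum_add_distrib]
  apply sum_congr rfl
  intro e _
  rw [Pi.add_apply, add_mul]

theorem pr_zero (c : Chain α) : pr 0 c = 0 := by
  unfold pr
  apply sum_eq_zero
  intro e _
  rw [Pi.zero_apply, zero_mul]

theorem pr_edge (r : ZMod 2) (e : Sym2 α) (c : Chain α) : pr (r • chi {e}) c = r * c e := by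
  unfold pr
  rw [sum_eq_single e]
  · rw [Pi.smul_apply, chi_of_mem (mem_singleton_self e), smul_eq_mul, mul_one]
  · intro f _ hf
    rw [Pi.smul_apply, chi_of_notMem (fun h => hf (mem_singleton.1 h)), smul_zero, zero_mul]
  · intro h
    exact absurd (mem_univ e) h

/-- an element of the cycle space vanishes at the edges meeting deleted vertices -/
theorem zero_of_mem {S : Finset α} {Z : Chain α} (hZ : Z ∈ Z1 (del G S)) {a b : α}
    (h : a ∈ S ∨ b ∈ S) : Z s(a, b) = 0 := by
  by_contra h0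
  have h1 : (del G S).Adj a b := hZ.1 _ h0
  rcases h with h | h
  · exact h1.2.1 h
  · exact h1.2.2 h

theorem Ann.add {u w : α} {a b : Chain α} (ha : Ann G u w a) (hb : Ann G u w b) :
    Ann G u w (a + b) := by
  intro Z hZ
  rw [pr_add, ha Z hZ, hb Z hZ, add_zero]

/-- the relations between the functionals -/
def PP (G : SimpleGraph α) (u : α) (al : α → Chain α) : Prop :=
  ∀ w w', G.Adj u w → G.Adj u w' → w ≠ w' → ∃ ρ ρ' : Chain α, Ann G u w ρ ∧ Ann G u w' ρ' ∧
    al w + al w' = ρ + ρ'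

theorem PP.shift {u : α} {al : α → Chain α} (h : PP G u al) (γ : Chain α) :
    PP G u (fun w => al w + γ) := by
  intro w w' hw hw' hne
  obtain ⟨ρ, ρ', h1, h2, h3⟩ := h w w' hw hw' hne
  refine ⟨ρ, ρ', h1, h2, ?_⟩
  rw [← h3]
  show al w + γ + (al w' + γ) = al w + al w'
  have := chain_add_self γ
  calc al w + γ + (al w' + γ) = al w + al w' + (γ + γ) := by abel
    _ = al w + al w' := by rw [this, add_zero]

/-- two of the functionals may be assumed to be annihilators -/
theorem PP.exists_shift {u w₁ w₂ : α} {al : α → Chain α} (h : PP G u al) (h1 : G.Adj u w₁)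
    (h2 : G.Adj u w₂) (hne : w₁ ≠ w₂) :
    ∃ γ : Chain α, Ann G u w₁ (al w₁ + γ) ∧ Ann G u w₂ (al w₂ + γ) := by
  obtain ⟨ρ, ρ', h3, h4, h5⟩ := h w₁ w₂ h1 h2 hne
  refine ⟨al w₁ + ρ, ?_, ?_⟩
  · have : al w₁ + (al w₁ + ρ) = ρ := by
      rw [← add_assoc, chain_add_self, zero_add]
    rw [this]
    exact h3
  · have : al w₂ + (al w₁ + ρ) = ρ' := by
      have h6 := chain_add_self ρ
      calc al w₂ + (al w₁ + ρ) = (al w₁ + al w₂) + ρ := by abel
        _ = (ρ + ρ') + ρ := by rw [h5]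
        _ = ρ' + (ρ + ρ) := by abel
        _ = ρ' := by rw [h6, add_zero]
    rw [this]
    exact h4

theorem del_pair (u w : α) : del (del G {u}) {w} = del G {u, w} := by
  rw [del_del]
  rfl

theorem connOff_del {u : α} {S : Finset α} (h : ConnOff G (insert u S)) :
    ConnOff (del G {u}) S := by
  intro a ha b hb haS hbS
  rw [del_del]
  have ha' := mem_sdiff.1 (VS_del_subset {u} ha)
  have hb' := mem_sdiff.1 (VS_del_subset {u} hb)
  apply h a ha'.1 b hb'.1
  · rw [mem_insert, not_or]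
    exact ⟨fun e => ha'.2 (mem_singleton.2 e), haS⟩
  · rw [mem_insert, not_or]
    exact ⟨fun e => hb'.2 (mem_singleton.2 e), hbS⟩

/-- the relation of a third neighbour with two annihilators -/
theorem PP.rel {u w₁ w₂ m : α} {al : α → Chain α} (h : PP G u al) (h1 : G.Adj u w₁)
    (h2 : G.Adj u w₂) (hm : G.Adj u m) (hm1 : m ≠ w₁) (hm2 : m ≠ w₂)
    (a1 : Ann G u w₁ (al w₁)) (a2 : Ann G u w₂ (al w₂)) :
    ∃ a b c d : Chain α, Ann G u m a ∧ Ann G u w₁ b ∧ Ann G u w₂ c ∧ Ann G u m d ∧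
      al m = a + b ∧ ∀ Z, pr b Z + pr c Z + pr d Z = 0 := by
  obtain ⟨ρ, ρ', r1, r2, r3⟩ := h m w₁ hm h1 hm1
  obtain ⟨τ, τ', t1, t2, t3⟩ := h m w₂ hm h2 hm2
  have e1 : al m = ρ + (ρ' + al w₁) := by
    have h6 := chain_add_self (al w₁)
    calc al m = al m + (al w₁ + al w₁) := by rw [h6, add_zero]
      _ = (al m + al w₁) + al w₁ := by abel
      _ = ρ + (ρ' + al w₁) := by rw [r3]; abel
  have e2 : al m = τ + (τ' + al w₂) := by
    have h6 := chain_add_self (al w₂)
    calc al m = al m + (al w₂ + al w₂) := by rw [h6, add_zero]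
      _ = (al m + al w₂) + al w₂ := by abel
      _ = τ + (τ' + al w₂) := by rw [t3]; abel
  refine ⟨ρ, ρ' + al w₁, τ' + al w₂, ρ + τ, r1, Ann.add r2 a1, Ann.add t2 a2, Ann.add r1 t1, e1,
    ?_⟩
  intro Z
  rw [← pr_add, ← pr_add]
  have e3 : ρ' + al w₁ + (τ' + al w₂) + (ρ + τ) = 0 := by
    calc ρ' + al w₁ + (τ' + al w₂) + (ρ + τ) = (ρ + (ρ' + al w₁)) + (τ + (τ' + al w₂)) := by abel
      _ = al m + al m := by rw [← e1, ← e2]
      _ = 0 := chain_add_self _
  rw [e3, pr_zero]

/-- no cut: the value at a third neighbour -/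
theorem val_conn (hR : SpecNCR) {u w₁ w₂ m : α} {al : α → Chain α} (h : PP G u al)
    (h1 : G.Adj u w₁) (h2 : G.Adj u w₂) (hm : G.Adj u m) (hne : w₁ ≠ w₂) (hm1 : m ≠ w₁)
    (hm2 : m ≠ w₂) (a1 : Ann G u w₁ (al w₁)) (a2 : Ann G u w₂ (al w₂))
    (hc : ConnOff G {u, w₁, w₂, m}) :
    ∃ c : ZMod 2, (c ≠ 0 → G.Adj w₁ w₂) ∧
      ∀ Z ∈ Z1 (del G {u, m}), pr (al m) Z = c * Z s(w₁, w₂) := by
  obtain ⟨a, b, c, d, ha, hb, hc', hd, e1, e2⟩ := h.rel h1 h2 hm hm1 hm2 a1 a2
  obtain ⟨cij, cik, cjk, c1, _, _, c4⟩ := hR.conn (del G {u}) w₁ w₂ m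
    (by simp [hne, hm1.symm, hm2.symm]) (connOff_del hc) b c d
    (fun Z hZ => hb Z (by rwa [del_pair] at hZ)) (fun Z hZ => hc' Z (by rwa [del_pair] at hZ))
    (fun Z hZ => hd Z (by rwa [del_pair] at hZ)) (fun Z _ => e2 Z)
  refine ⟨cij, fun h0 => (c1 h0).1, ?_⟩
  intro Z hZ
  have hZ' : Z ∈ Z1 (del G {u}) := Z1_mono (del_anti (by simp)) hZ
  rw [e1, pr_add, ha Z hZ, zero_add, (c4 Z hZ').1, zero_of_mem (a := w₁) (b := m) hZ
    (Or.inr (by simp)), mul_zero, add_zero]

/-- a cut isolating one vertex -/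
theorem val_iso (hR : SpecNCR) {u w₁ w₂ m z : α} {al : α → Chain α} (h : PP G u al)
    (h1 : G.Adj u w₁) (h2 : G.Adj u w₂) (hm : G.Adj u m) (hne : w₁ ≠ w₂) (hm1 : m ≠ w₁)
    (hm2 : m ≠ w₂) (a1 : Ann G u w₁ (al w₁)) (a2 : Ann G u w₂ (al w₂))
    (hz : ∀ w, G.Adj z w ↔ w = u ∨ w = w₁ ∨ w = w₂ ∨ w = m)
    (hc : ConnOff G {u, w₁, w₂, m, z}) :
    ∃ c t : ZMod 2, (c ≠ 0 → G.Adj w₁ w₂) ∧
      ∀ Z ∈ Z1 (del G {u, m}), pr (al m) Z = c * Z s(w₁, w₂) + t * Z s(z, w₁) := by
  have zu : G.Adj z u := (hz u).2 (Or.inl rfl)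
  have z1 : G.Adj z w₁ := (hz _).2 (Or.inr (Or.inl rfl))
  have z2 : G.Adj z w₂ := (hz _).2 (Or.inr (Or.inr (Or.inl rfl)))
  have zm : G.Adj z m := (hz _).2 (Or.inr (Or.inr (Or.inr rfl)))
  obtain ⟨a, b, c, d, ha, hb, hc', hd, e1, e2⟩ := h.rel h1 h2 hm hm1 hm2 a1 a2
  obtain ⟨cij, cik, cjk, t, c1, _, _, c4⟩ := hR.iso (del G {u}) w₁ w₂ m z
    (by simp [hne, hm1.symm, hm2.symm, z1.ne.symm, z2.ne.symm, zm.ne.symm]) (by
      intro w
      rw [del_adj, hz]
      constructor
      · rintro ⟨h3, _, h4⟩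
        rcases h3 with h3 | h3
        · exact absurd (mem_singleton.2 h3) h4
        · exact h3
      · intro h3
        refine ⟨Or.inr h3, fun h4 => zu.ne (mem_singleton.1 h4), fun h4 => ?_⟩
        rw [mem_singleton] at h4
        subst h4
        rcases h3 with h3 | h3 | h3
        · exact h1.ne h3
        · exact h2.ne h3
        · exact hm.ne h3)
    (connOff_del hc) b c d
    (fun Z hZ => hb Z (by rwa [del_pair] at hZ)) (fun Z hZ => hc' Z (by rwa [del_pair] at hZ))
    (fun Z hZ => hd Z (by rwa [del_pair] at hZ)) (fun Z _ => e2 Z)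
  refine ⟨cij, t, fun h0 => (c1 h0).1, ?_⟩
  intro Z hZ
  have hZ' : Z ∈ Z1 (del G {u}) := Z1_mono (del_anti (by simp)) hZ
  rw [e1, pr_add, ha Z hZ, zero_add, (c4 Z hZ').1, zero_of_mem (a := w₁) (b := m) hZ
    (Or.inr (by simp)), mul_zero, add_zero]

/-! ## small vertex sets -/

omit [DecidableEq α] in
theorem mem_NB {A : Finset α} {w : α} : w ∈ NB G A ↔ w ∉ A ∧ ∃ a ∈ A, G.Adj a w := by
  unfold NB
  simp only [mem_filter, mem_univ, true_and]

/-- two vertices with at most three neighbours in common -/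
theorem no_three (hB : SpecNBF) (hG : K48 G) {x y a b c : α} (hx : x ∈ VS G) (hy : y ∈ VS G)
    (h1 : ∀ w, G.Adj x w → w = x ∨ w = y ∨ w = a ∨ w = b ∨ w = c)
    (h2 : ∀ w, G.Adj y w → w = x ∨ w = y ∨ w = a ∨ w = b ∨ w = c) : False := by
  have hs : NB G {x, y} ⊆ {a, b, c} := by
    intro w hw
    rw [mem_NB] at hw
    obtain ⟨h3, v, hv, hvw⟩ := hw
    rw [mem_insert, mem_singleton, not_or] at h3
    rw [mem_insert, mem_singleton] at hv
    have h4 : w = x ∨ w = y ∨ w = a ∨ w = b ∨ w = c := by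
      rcases hv with rfl | rfl
      · exact h1 w hvw
      · exact h2 w hvw
    simp only [mem_insert, mem_singleton]
    rcases h4 with h4 | h4 | h4
    · exact absurd h4 h3.1
    · exact absurd h4 h3.2
    · exact h4
  have hc : (NB G {x, y}).card ≤ 3 := (card_le_card hs).trans card_le_three
  have h3 := hB.nb hG.1 (A := {x, y}) (by
    intro w hw
    rw [mem_insert, mem_singleton] at hw
    rcases hw with rfl | rfl <;> assumption) ⟨x, by simp⟩ (by omega)
  have h4 := card_le_card h3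
  have h5 := card_union_le {x, y} (NB G {x, y})
  have h6 : ({x, y} : Finset α).card ≤ 2 := card_le_two
  have h7 := hG.2
  omega

/-- the rigid version: at most four neighbours, one of them rigid -/
theorem no_four (hB : SpecNBF) (hG : K48 G) {u x y a b c : α} (hu : Rig G u) (hx : x ∈ VS G)
    (hy : y ∈ VS G) (hxy : x ≠ y) (hux : G.Adj x u) (huy : u ≠ y)
    (h1 : ∀ w, G.Adj x w → w = x ∨ w = y ∨ w = u ∨ w = a ∨ w = b ∨ w = c)
    (h2 : ∀ w, G.Adj y w → w = x ∨ w = y ∨ w = u ∨ w = a ∨ w = b ∨ w = c) : False := by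
  have hs : NB G {x, y} ⊆ {u, a, b, c} := by
    intro w hw
    rw [mem_NB] at hw
    obtain ⟨h3, v, hv, hvw⟩ := hw
    rw [mem_insert, mem_singleton, not_or] at h3
    rw [mem_insert, mem_singleton] at hv
    have h4 : w = x ∨ w = y ∨ w = u ∨ w = a ∨ w = b ∨ w = c := by
      rcases hv with rfl | rfl
      · exact h1 w hvw
      · exact h2 w hvw
    simp only [mem_insert, mem_singleton]
    rcases h4 with h4 | h4 | h4
    · exact absurd h4 h3.1
    · exact absurd h4 h3.2
    · exact h4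
  have hc : (NB G {x, y}).card ≤ 4 := (card_le_card hs).trans card_le_four
  have hA : ({x, y} : Finset α) ⊆ VS G := by
    intro w hw
    rw [mem_insert, mem_singleton] at hw
    rcases hw with rfl | rfl <;> assumption
  have h6 : ({x, y} : Finset α).card = 2 := card_pair hxy
  have h7 := hG.2
  have h5 := card_union_le {x, y} (NB G {x, y})
  rcases Nat.lt_or_ge (NB G {x, y}).card 4 with hlt | hge
  · have h3 := hB.nb hG.1 (A := {x, y}) hA ⟨x, by simp⟩ hlt
    have h4 := card_le_card h3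
    omega
  · have h3 := hB.rig hu (A := {x, y}) hA (by
      rw [mem_NB]
      refine ⟨?_, x, by simp, hux⟩
      rw [mem_insert, mem_singleton, not_or]
      exact ⟨hux.ne.symm, huy⟩) (by omega) (by omega)
    have h4 := le_card_sdiff ({x, y} ∪ NB G {x, y}) (VS G)
    omega

/-- a set sharing an isolated vertex is no cut -/
theorem conn_of_iso (hB : SpecNBF) (hG : K48 G) {u w₁ w₂ m z : α} (hu : Rig G u)
    (h1 : G.Adj u w₁) (h2 : G.Adj u w₂) (hne : w₁ ≠ w₂) (hm : G.Adj u m)
    (hz : ∀ w, G.Adj z w ↔ w = u ∨ w = w₁ ∨ w = w₂ ∨ w = m) : ConnOff G {u, w₁, w₂, z} := by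
  by_contra hc
  have zu : G.Adj z u := (hz u).2 (Or.inl rfl)
  have z1 : G.Adj z w₁ := (hz _).2 (Or.inr (Or.inl rfl))
  have z2 : G.Adj z w₂ := (hz _).2 (Or.inr (Or.inr (Or.inl rfl)))
  obtain ⟨z', _, hz', _⟩ := hB.one hG hu (left_mem_VS h1) (right_mem_VS h1) (right_mem_VS h2)
    (left_mem_VS zu) (by simp [h1.ne, h2.ne, hne, zu.ne.symm, z1.ne.symm, z2.ne.symm]) hc
  have hzz' : G.Adj z z' := ((hz' z).2 (by simp)).symm
  rcases (hz z').1 hzz' with rfl | rfl | rfl | rfl
  · exact ((hz' z').2 (Or.inl rfl)).ne rfl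
  · exact ((hz' z').2 (Or.inr (Or.inl rfl))).ne rfl
  · exact ((hz' z').2 (Or.inr (Or.inr (Or.inl rfl)))).ne rfl
  · apply no_three hB hG (x := z) (y := z') (a := u) (b := w₁) (c := w₂) (left_mem_VS zu)
      (right_mem_VS hzz')
    · intro w hw
      rcases (hz w).1 hw with h | h | h | h
      · exact Or.inr (Or.inr (Or.inl h))
      · exact Or.inr (Or.inr (Or.inr (Or.inl h)))
      · exact Or.inr (Or.inr (Or.inr (Or.inr h)))
      · exact Or.inr (Or.inl h)
    · intro w hw
      rcases (hz' w).1 hw with h | h | h | h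
      · exact Or.inr (Or.inr (Or.inl h))
      · exact Or.inr (Or.inr (Or.inr (Or.inl h)))
      · exact Or.inr (Or.inr (Or.inr (Or.inr h)))
      · exact Or.inl h

/-- the side of a 4-separation at a rigid vertex, neighbourhood of the single vertex -/
theorem side_nbs {S P Q : Finset α} (hS : Sep G S P Q) {w x : α} (hw : w ∈ P) (hP : P.card ≤ 1)
    (hx : G.Adj w x) : x ∈ S := by
  rcases hS.mem_or (right_mem_VS hx) with h | h | h
  · exact h
  · exact absurd (Finset.card_le_one.1 hP w hw x h) hx.ne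
  · exact absurd hx (hS.2.2.2.2 w hw x h)

theorem main (hR : SpecNCR) (hB : SpecNBF) {u : α} (hG : K48 G) (hu : Rig G u)
    (al : α → Chain α) (hP : PP G u al) {w₁ w₂ : α} (h1 : G.Adj u w₁) (h2 : G.Adj u w₂)
    (hne : w₁ ≠ w₂) (hna : ¬ G.Adj w₁ w₂) (a1 : Ann G u w₁ (al w₁)) (a2 : Ann G u w₂ (al w₂)) :
    ∀ m, G.Adj u m → Ann G u m (al m) := by
  have hnd : ∀ {c : ZMod 2}, (c ≠ 0 → G.Adj w₁ w₂) → c = 0 := by
    intro c hc
    by_contra h0
    exact hna (hc h0)
  have K1 : ∀ m, G.Adj u m → m ≠ w₁ → m ≠ w₂ → ConnOff G {u, w₁, w₂, m} → Ann G u m (al m) := by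
    intro m hm hm1 hm2 hc
    obtain ⟨c, hc1, hc2⟩ := val_conn hR hP h1 h2 hm hne hm1 hm2 a1 a2 hc
    intro Z hZ
    rw [hc2 Z hZ, hnd hc1, zero_mul]
  intro m hm
  by_cases hm1 : m = w₁
  · subst hm1
    exact a1
  by_cases hm2 : m = w₂
  · subst hm2
    exact a2
  by_cases hc : ConnOff G {u, w₁, w₂, m}
  · exact K1 m hm hm1 hm2 hc
  obtain ⟨z, hzV, hz, hzc⟩ := hB.one hG hu (left_mem_VS h1) (right_mem_VS h1) (right_mem_VS h2)
    (right_mem_VS hm) (by simp [h1.ne, h2.ne, hm.ne, hne, Ne.symm hm1, Ne.symm hm2]) hc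
  have zu : G.Adj z u := (hz u).2 (Or.inl rfl)
  have z1 : G.Adj z w₁ := (hz _).2 (Or.inr (Or.inl rfl))
  have z2 : G.Adj z w₂ := (hz _).2 (Or.inr (Or.inr (Or.inl rfl)))
  have zm : G.Adj z m := (hz _).2 (Or.inr (Or.inr (Or.inr rfl)))
  obtain ⟨c, t, hc1, hv⟩ := val_iso hR hP h1 h2 hm hne hm1 hm2 a1 a2 hz hzc
  have hc0 := hnd hc1
  rcases zmod2_cases t with ht | ht
  · intro Z hZ
    rw [hv Z hZ, hc0, ht, zero_mul, zero_mul, add_zero]
  exfalso
  obtain ⟨k, hk, k1, k2, km, kz, kA⟩ : ∃ k, G.Adj u k ∧ k ≠ w₁ ∧ k ≠ w₂ ∧ k ≠ m ∧ k ≠ z ∧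
      Ann G u k (al k) := by
    obtain ⟨k, hk, k1, k2, km, kz⟩ : ∃ k, G.Adj u k ∧ k ≠ w₁ ∧ k ≠ w₂ ∧ k ≠ m ∧ k ≠ z := by
      by_contra hcon
      push Not at hcon
      apply no_three hB hG (x := u) (y := z) (a := w₁) (b := w₂) (c := m) (left_mem_VS h1) hzV
      · intro w hw
        by_cases e1 : w = w₁
        · exact Or.inr (Or.inr (Or.inl e1))
        by_cases e2 : w = w₂
        · exact Or.inr (Or.inr (Or.inr (Or.inl e2)))
        by_cases e3 : w = m
        · exact Or.inr (Or.inr (Or.inr (Or.inr e3)))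
        exact Or.inr (Or.inl (hcon w hw e1 e2 e3))
      · intro w hw
        rcases (hz w).1 hw with h | h | h | h
        · exact Or.inl h
        · exact Or.inr (Or.inr (Or.inl h))
        · exact Or.inr (Or.inr (Or.inr (Or.inl h)))
        · exact Or.inr (Or.inr (Or.inr (Or.inr h)))
    by_cases hck : ConnOff G {u, w₁, w₂, k}
    · exact ⟨k, hk, k1, k2, km, kz, K1 k hk k1 k2 hck⟩
    · obtain ⟨z', hzV', hz', _⟩ := hB.one hG hu (left_mem_VS h1) (right_mem_VS h1)
        (right_mem_VS h2) (right_mem_VS hk)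
        (by simp [h1.ne, h2.ne, hk.ne, hne, Ne.symm k1, Ne.symm k2]) hck
      have zu' : G.Adj z' u := (hz' u).2 (Or.inl rfl)
      have z1' : G.Adj z' w₁ := (hz' _).2 (Or.inr (Or.inl rfl))
      have z2' : G.Adj z' w₂ := (hz' _).2 (Or.inr (Or.inr (Or.inl rfl)))
      have zk' : G.Adj z' k := (hz' _).2 (Or.inr (Or.inr (Or.inr rfl)))
      refine ⟨z', zu'.symm, z1'.ne, z2'.ne, ?_, ?_,
        K1 z' zu'.symm z1'.ne z2'.ne (conn_of_iso hB hG hu h1 h2 hne hk hz')⟩
      · rintro rfl
        rcases (hz' z).1 zm.symm with h | h | h | h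
        · exact zu.ne h
        · exact z1.ne h
        · exact z2.ne h
        · exact kz h.symm
      · rintro rfl
        rcases (hz k).1 zk' with h | h | h | h
        · exact hk.ne h.symm
        · exact k1 h
        · exact k2 h
        · exact km h
  obtain ⟨ρ, ρ', r1, r2, r3⟩ := hP m k hm hk (Ne.symm km)
  have e1 : al m = ρ + ρ' + al k := by
    have h6 := chain_add_self (al k)
    calc al m = (al m + al k) + al k := by rw [add_assoc, h6, add_zero]
      _ = ρ + ρ' + al k := by rw [r3]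
  have hzero : ∀ Z ∈ Z1 (del G {u, m, k}), Z s(z, w₁) = 0 := by
    intro Z hZ
    have hZm : Z ∈ Z1 (del G {u, m}) := Z1_mono (del_anti (by
      intro x hx
      simp only [mem_insert, mem_singleton] at hx ⊢
      tauto)) hZ
    have hZk : Z ∈ Z1 (del G {u, k}) := Z1_mono (del_anti (by
      intro x hx
      simp only [mem_insert, mem_singleton] at hx ⊢
      tauto)) hZ
    have h3 := hv Z hZm
    rw [hc0, ht, zero_mul, zero_add, one_mul, e1, pr_add, pr_add, r1 Z hZm, r2 Z hZk, kA Z hZk,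
      add_zero, add_zero] at h3
    exact h3.symm
  have hnr : ¬ (del G {u, m, k, z}).Reachable w₁ w₂ := by
    intro hr
    have e : del G {u, m, k, z} = del (del G {u, m, k}) {z} := by
      rw [del_del]
      congr 1
      ext x
      simp only [mem_insert, mem_singleton, mem_union, or_assoc]
    rw [e] at hr
    obtain ⟨P, hPP⟩ := exists_isPth hr
    have hz1 : (del G {u, m, k}).Adj z w₁ := by
      refine ⟨z1, ?_, ?_⟩
      · simp only [mem_insert, mem_singleton, not_or]
        exact ⟨zu.ne, zm.ne, Ne.symm kz⟩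
      · simp only [mem_insert, mem_singleton, not_or]
        exact ⟨h1.ne.symm, Ne.symm hm1, Ne.symm k1⟩
    have hz2 : (del G {u, m, k}).Adj z w₂ := by
      refine ⟨z2, ?_, ?_⟩
      · simp only [mem_insert, mem_singleton, not_or]
        exact ⟨zu.ne, zm.ne, Ne.symm kz⟩
      · simp only [mem_insert, mem_singleton, not_or]
        exact ⟨h2.ne.symm, Ne.symm hm2, Ne.symm k2⟩
    have h3 := hzero _ (isCyc_of_isPth_del hz1 hz2 hne hPP).chi_mem
    rw [chi_of_mem (mem_insert_self _ _)] at h3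
    exact one_ne_zero h3
  have w1S : w₁ ∉ ({u, m, k, z} : Finset α) := by
    simp only [mem_insert, mem_singleton, not_or]
    exact ⟨h1.ne.symm, Ne.symm hm1, Ne.symm k1, z1.ne.symm⟩
  have w2S : w₂ ∉ ({u, m, k, z} : Finset α) := by
    simp only [mem_insert, mem_singleton, not_or]
    exact ⟨h2.ne.symm, Ne.symm hm2, Ne.symm k2, z2.ne.symm⟩
  obtain ⟨P, Q, hS, hwP, hwQ, _⟩ := exists_sep_of_not_reachable (right_mem_VS h1)
    (right_mem_VS h2) w1S w2S hnr
  have hSV : ({u, m, k, z} : Finset α) ∩ VS G = {u, m, k, z} := by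
    apply inter_eq_left.2
    intro x hx
    simp only [mem_insert, mem_singleton] at hx
    rcases hx with rfl | rfl | rfl | rfl
    · exact left_mem_VS h1
    · exact right_mem_VS hm
    · exact right_mem_VS hk
    · exact hzV
  rw [hSV] at hS
  have hcard : ({u, m, k, z} : Finset α).card = 4 := by
    rw [card_insert_of_notMem, card_insert_of_notMem, card_insert_of_notMem, card_singleton]
    · simp only [mem_singleton]
      exact kz
    · simp only [mem_insert, mem_singleton, not_or]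
      exact ⟨Ne.symm km, zm.ne.symm⟩
    · simp only [mem_insert, mem_singleton, not_or]
      exact ⟨hm.ne, hk.ne, zu.ne.symm⟩
  rcases hu _ P Q hS hcard (by simp) with h | h
  · apply no_four hB hG hu (x := z) (y := w₁) (a := w₂) (b := m) (c := k) hzV (right_mem_VS h1)
      z1.ne zu h1.ne
    · intro w hw
      rcases (hz w).1 hw with h | h | h | h
      · exact Or.inr (Or.inr (Or.inl h))
      · exact Or.inr (Or.inl h)
      · exact Or.inr (Or.inr (Or.inr (Or.inl h)))
      · exact Or.inr (Or.inr (Or.inr (Or.inr (Or.inl h))))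
    · intro w hw
      have := side_nbs hS hwP h hw
      simp only [mem_insert, mem_singleton] at this
      tauto
  · apply no_four hB hG hu (x := z) (y := w₂) (a := w₁) (b := m) (c := k) hzV (right_mem_VS h2)
      z2.ne zu h2.ne
    · intro w hw
      rcases (hz w).1 hw with h | h | h | h
      · exact Or.inr (Or.inr (Or.inl h))
      · exact Or.inr (Or.inr (Or.inr (Or.inl h)))
      · exact Or.inr (Or.inl h)
      · exact Or.inr (Or.inr (Or.inr (Or.inr (Or.inl h))))
    · intro w hw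
      have := side_nbs hS.symm hwQ h hw
      simp only [mem_insert, mem_singleton] at this
      tauto

end NC1M

/-- NC1 -/
theorem specNC1 (hR : SpecNCR) (hB : SpecNBF) : SpecNC1 := by
  intro α _ _ G u hG hu al hP w₁ w₂ h1 h2 hne hna
  have hP' : NC1M.PP G u al := hP
  obtain ⟨γ, g1, g2⟩ := hP'.exists_shift h1 h2 hne
  exact ⟨γ, NC1M.main hR hB hG hu (fun w => al w + γ) (hP'.shift γ) h1 h2 hne hna g1 g2⟩

end DL
end

section
/-!
# NC2: LEMMA NC when the neighbours form a clique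
-/
open SimpleGraph Finset

namespace DL

namespace NC2M

open NC1M

variable {α : Type} [Fintype α] [DecidableEq α] {G : SimpleGraph α}

/-- no cut with three vertices of the clique -/
theorem conn (hB : SpecNBF) {u : α} (hG : K48 G) (hu : Rig G u)
    (hW : ∀ w w', G.Adj u w → G.Adj u w' → w ≠ w' → G.Adj w w') {i j k : α} (hi : G.Adj u i)
    (hj : G.Adj u j) (hk : G.Adj u k) (hij : i ≠ j) (hik : i ≠ k) (hjk : j ≠ k) :
    ConnOff G {u, i, j, k} := by
  by_contra hc
  obtain ⟨z, hzV, hz, _⟩ := hB.one hG hu (left_mem_VS hi) (right_mem_VS hi) (right_mem_VS hj)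
    (right_mem_VS hk) (by simp [hi.ne, hj.ne, hk.ne, hij, hik, hjk]) hc
  have zu : G.Adj z u := (hz u).2 (Or.inl rfl)
  apply no_three hB hG (x := u) (y := z) (a := i) (b := j) (c := k) (left_mem_VS hi) hzV
  · intro w hw
    by_cases hwz : w = z
    · exact Or.inr (Or.inl hwz)
    · rcases (hz w).1 (hW z w zu.symm hw (Ne.symm hwz)) with h | h
      · exact Or.inl h
      · exact Or.inr (Or.inr h)
  · intro w hw
    rcases (hz w).1 hw with h | h
    · exact Or.inl h
    · exact Or.inr (Or.inr h)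

/-- a bridge of `G - {u, w₃, m}` in the clique -/
theorem no_bridge (hB : SpecNBF) {u : α} (hG : K48 G) (hu : Rig G u)
    (hW : ∀ w w', G.Adj u w → G.Adj u w' → w ≠ w' → G.Adj w w') {w₁ w₂ w₃ m : α}
    (h1 : G.Adj u w₁) (h2 : G.Adj u w₂) (h3 : G.Adj u w₃) (hm : G.Adj u m) (h12 : w₁ ≠ w₂)
    (h13 : w₁ ≠ w₃) (h23 : w₂ ≠ w₃) (hm1 : m ≠ w₁) (hm2 : m ≠ w₂) (hm3 : m ≠ w₃)
    (hr : ¬ (delE (del G {u, w₃, m}) w₁ w₂).Reachable w₁ w₂) : False := by
  classical
  set H := del G {u, w₃, m} with hH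
  set P : Finset α := (VS G).filter fun v => v ∉ ({u, w₃, m} : Finset α) ∧
    (delE H w₁ w₂).Reachable w₁ v with hPdef
  set Q : Finset α := (VS G).filter fun v => v ∉ ({u, w₃, m} : Finset α) ∧
    ¬ (delE H w₁ w₂).Reachable w₁ v with hQdef
  have hP : ∀ {x}, x ∈ P ↔ x ∈ VS G ∧ x ∉ ({u, w₃, m} : Finset α) ∧
      (delE H w₁ w₂).Reachable w₁ x := fun {x} => by rw [hPdef, mem_filter]
  have hQ : ∀ {x}, x ∈ Q ↔ x ∈ VS G ∧ x ∉ ({u, w₃, m} : Finset α) ∧
      ¬ (delE H w₁ w₂).Reachable w₁ x := fun {x} => by rw [hQdef, mem_filter]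
  have n1 : w₁ ∉ ({u, w₃, m} : Finset α) := by
    simp only [mem_insert, mem_singleton, not_or]
    exact ⟨h1.ne.symm, h13, Ne.symm hm1⟩
  have n2 : w₂ ∉ ({u, w₃, m} : Finset α) := by
    simp only [mem_insert, mem_singleton, not_or]
    exact ⟨h2.ne.symm, h23, Ne.symm hm2⟩
  have hwP : w₁ ∈ P := hP.2 ⟨right_mem_VS h1, n1, Reachable.refl _⟩
  have hwQ : w₂ ∈ Q := hQ.2 ⟨right_mem_VS h2, n2, hr⟩
  -- edges between the sides
  have hPQ : ∀ a ∈ P, ∀ b ∈ Q, G.Adj a b → a = w₁ ∧ b = w₂ := by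
    intro a ha b hb hab
    rw [hP] at ha
    rw [hQ] at hb
    by_contra hcon
    apply hb.2.2
    refine ha.2.2.trans (Adj.reachable ?_)
    rw [delE_adj]
    refine ⟨⟨hab, ha.2.1, hb.2.1⟩, ?_⟩
    rw [Ne, Sym2.eq_iff]
    rintro (⟨e1, e2⟩ | ⟨e1, e2⟩)
    · exact hcon ⟨e1, e2⟩
    · subst e1
      exact hr ha.2.2
  have hdisj : Disjoint P Q := by
    rw [Finset.disjoint_left]
    intro x hx hx'
    exact (hQ.1 hx').2.2 (hP.1 hx).2.2
  have hS3 : ({u, w₃, m} : Finset α) ⊆ VS G := by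
    intro x hx
    simp only [mem_insert, mem_singleton] at hx
    rcases hx with rfl | rfl | rfl
    · exact left_mem_VS h1
    · exact right_mem_VS h3
    · exact right_mem_VS hm
  have hall : ∀ {x}, x ∈ VS G → x ∈ ({u, w₃, m} : Finset α) ∨ x ∈ P ∨ x ∈ Q := by
    intro x hx
    by_cases e1 : x ∈ ({u, w₃, m} : Finset α)
    · exact Or.inl e1
    · by_cases e2 : (delE H w₁ w₂).Reachable w₁ x
      · exact Or.inr (Or.inl (hP.2 ⟨hx, e1, e2⟩))
      · exact Or.inr (Or.inr (hQ.2 ⟨hx, e1, e2⟩))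
  have hcard : 5 ≤ P.card + Q.card := by
    have e1 : VS G ⊆ {u, w₃, m} ∪ (P ∪ Q) := by
      intro x hx
      rw [mem_union, mem_union]
      exact hall hx
    have e2 := card_le_card e1
    have e3 := card_union_le {u, w₃, m} (P ∪ Q)
    have e4 := card_union_le P Q
    have e5 : ({u, w₃, m} : Finset α).card ≤ 3 := card_le_three
    have e6 := hG.2
    omega
  -- the two separations
  have hsep : ∀ {w : α} {A B : Finset α}, (∀ {x}, x ∈ VS G → x ∈ ({u, w₃, m} : Finset α) ∨ x ∈ A ∨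
      x ∈ B) → Disjoint A B → A ⊆ VS G → B ⊆ VS G → (∀ x ∈ A, x ∉ ({u, w₃, m} : Finset α)) →
      (∀ x ∈ B, x ∉ ({u, w₃, m} : Finset α)) → w ∈ A →
      (∀ a ∈ A, ∀ b ∈ B, G.Adj a b → a = w) → G.Adj u w →
      A.card ≤ 2 ∨ B.card ≤ 1 := by
    intro w A B g1 g2 g3 g4 g5 g6 g7 g8 g9
    have hs : Sep G (insert w {u, w₃, m}) (A.erase w) B := by
      refine ⟨?_, ?_, ?_, ?_, ?_⟩
      · apply Subset.antisymm
        · intro x hx
          simp only [mem_union] at hx
          rcases hx with (hx | hx) | hx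
          · rw [mem_insert] at hx
            rcases hx with rfl | hx
            · exact g3 g7
            · exact hS3 hx
          · exact g3 (mem_of_mem_erase hx)
          · exact g4 hx
        · intro x hx
          simp only [mem_union]
          rcases g1 hx with h | h | h
          · exact Or.inl (Or.inl (mem_insert_of_mem h))
          · by_cases e : x = w
            · subst e
              exact Or.inl (Or.inl (mem_insert_self _ _))
            · exact Or.inl (Or.inr (mem_erase.2 ⟨e, h⟩))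
          · exact Or.inr h
      · rw [Finset.disjoint_left]
        intro x hx hx'
        rw [mem_insert] at hx
        rcases hx with rfl | hx
        · exact (mem_erase.1 hx').1 rfl
        · exact g5 x (mem_of_mem_erase hx') hx
      · rw [Finset.disjoint_left]
        intro x hx hx'
        rw [mem_insert] at hx
        rcases hx with rfl | hx
        · exact Finset.disjoint_left.1 g2 g7 hx'
        · exact g6 x hx' hx
      · exact disjoint_of_subset_left (erase_subset _ _) g2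
      · intro a ha b hb hab
        exact (mem_erase.1 ha).1 (g8 a (mem_of_mem_erase ha) b hb hab)
    have hc4 : (insert w ({u, w₃, m} : Finset α)).card = 4 := by
      rw [card_insert_of_notMem (g5 w g7), card_insert_of_notMem, card_pair (Ne.symm hm3)]
      simp only [mem_insert, mem_singleton, not_or]
      exact ⟨h3.ne, hm.ne⟩
    have e1 := card_erase_of_mem g7
    rcases hu _ _ _ hs hc4 (by simp) with h | h
    · left
      omega
    · right
      exact h
  have s1 : P.card ≤ 2 ∨ Q.card ≤ 1 :=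
    hsep hall hdisj (fun x hx => (hP.1 hx).1) (fun x hx => (hQ.1 hx).1)
      (fun x hx => (hP.1 hx).2.1) (fun x hx => (hQ.1 hx).2.1) hwP
      (fun a ha b hb hab => (hPQ a ha b hb hab).1) h1
  have s2 : Q.card ≤ 2 ∨ P.card ≤ 1 :=
    hsep (fun hx => by
      rcases hall hx with h | h | h
      · exact Or.inl h
      · exact Or.inr (Or.inr h)
      · exact Or.inr (Or.inl h)) hdisj.symm (fun x hx => (hQ.1 hx).1) (fun x hx => (hP.1 hx).1)
      (fun x hx => (hQ.1 hx).2.1) (fun x hx => (hP.1 hx).2.1) hwQ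
      (fun a ha b hb hab => (hPQ b hb a ha hab.symm).2) h2
  -- the neighbours of a one-vertex side
  have fin : ∀ {w w' : α} {A B : Finset α}, (∀ {x}, x ∈ VS G → x ∈ ({u, w₃, m} : Finset α) ∨ x ∈ A ∨
      x ∈ B) → w ∈ A → A.card ≤ 1 → (∀ b ∈ B, G.Adj w b → b = w') → G.Adj u w → False := by
    intro w w' A B g1 g2 g3 g4 g5
    have g6 : ∀ x, G.Adj w x → x = u ∨ x = w' ∨ x = w₃ ∨ x = m := by
      intro x hx
      rcases g1 (right_mem_VS hx) with h | h | h
      · simp only [mem_insert, mem_singleton] at h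
        tauto
      · exact absurd (Finset.card_le_one.1 g3 w g2 x h) hx.ne
      · exact Or.inr (Or.inl (g4 x h hx))
    apply no_three hB hG (x := u) (y := w) (a := w') (b := w₃) (c := m) (left_mem_VS h1)
      (right_mem_VS g5)
    · intro x hx
      by_cases e : x = w
      · exact Or.inr (Or.inl e)
      · rcases g6 x (hW w x g5 hx (Ne.symm e)) with h | h
        · exact Or.inl h
        · exact Or.inr (Or.inr h)
    · intro x hx
      rcases g6 x hx with h | h
      · exact Or.inl h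
      · exact Or.inr (Or.inr h)
  by_cases hp1 : P.card ≤ 1
  · exact fin (w' := w₂) hall hwP hp1 (fun b hb hab => (hPQ _ hwP b hb hab).2) h1
  · by_cases hq1 : Q.card ≤ 1
    · exact fin (w := w₂) (w' := w₁) (A := Q) (B := P) (fun hx => by
        rcases hall hx with h | h | h
        · exact Or.inl h
        · exact Or.inr (Or.inr h)
        · exact Or.inr (Or.inl h)) hwQ hq1 (fun b hb hab => (hPQ b hb _ hwQ hab.symm).1) h2
    · omega

theorem ann_edge {u w w' : α} (r : ZMod 2) : Ann G u w (r • chi {s(w, w')}) := by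
  intro Z hZ
  rw [pr_edge, zero_of_mem hZ (Or.inl (by simp)), mul_zero]

theorem ann_edge' {u w w' : α} (r : ZMod 2) : Ann G u w' (r • chi {s(w, w')}) := by
  intro Z hZ
  rw [pr_edge, zero_of_mem hZ (Or.inr (by simp)), mul_zero]

end NC2M

open NC1M NC2M in
/-- NC2 -/
theorem specNC2 (hR : SpecNCR) (hB : SpecNBF) : SpecNC2 := by
  intro α _ _ G u hG hu huV al hP hW
  have hP' : PP G u al := hP
  -- three neighbours
  obtain ⟨w₁, w₂, w₃, m₁, m₂, m₃, h12, h13, h23⟩ : ∃ w₁ w₂ w₃, w₁ ∈ nbs G u ∧ w₂ ∈ nbs G u ∧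
      w₃ ∈ nbs G u ∧ w₁ ≠ w₂ ∧ w₁ ≠ w₃ ∧ w₂ ≠ w₃ := by
    have h := hG.1.le_nbs huV
    obtain ⟨a, b, c, ha, hb, hc, hab, hac, hbc⟩ := two_lt_card_iff.1 (show 2 < (nbs G u).card by
      omega)
    exact ⟨a, b, c, ha, hb, hc, hab, hac, hbc⟩
  rw [mem_nbs] at m₁ m₂ m₃
  obtain ⟨γ, g1, g2⟩ := hP'.exists_shift m₁ m₂ h12
  have hPγ := hP'.shift γ
  have val : ∀ m, G.Adj u m → m ≠ w₁ → m ≠ w₂ → ∃ c : ZMod 2, ∀ Z ∈ Z1 (del G {u, m}),
      pr (al m + γ) Z = c * Z s(w₁, w₂) := by
    intro m hm hm1 hm2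
    obtain ⟨c, _, hc⟩ := val_conn hR hPγ m₁ m₂ hm h12 hm1 hm2 g1 g2
      (conn hB hG hu hW m₁ m₂ hm h12 (Ne.symm hm1) (Ne.symm hm2))
    exact ⟨c, hc⟩
  obtain ⟨c₃, hc₃⟩ := val w₃ m₃ (Ne.symm h13) (Ne.symm h23)
  refine ⟨γ + c₃ • chi {s(w₁, w₂)}, ?_⟩
  have hPδ := hPγ.shift (c₃ • chi {s(w₁, w₂)})
  have e3 : Ann G u w₃ (al w₃ + γ + c₃ • chi {s(w₁, w₂)}) := by
    intro Z hZ
    rw [pr_add, pr_edge, hc₃ Z hZ, zmod2_add_self]
  intro m hm
  rw [← add_assoc]
  by_cases hm1 : m = w₁
  · subst hm1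
    exact Ann.add g1 (ann_edge c₃)
  by_cases hm2 : m = w₂
  · subst hm2
    exact Ann.add g2 (ann_edge' c₃)
  by_cases hm3 : m = w₃
  · subst hm3
    exact e3
  obtain ⟨c, hc⟩ := val m hm hm1 hm2
  have hv : ∀ Z ∈ Z1 (del G {u, m}), pr (al m + γ + c₃ • chi {s(w₁, w₂)}) Z =
      (c + c₃) * Z s(w₁, w₂) := by
    intro Z hZ
    rw [pr_add, pr_edge, hc Z hZ, add_mul]
  rcases zmod2_cases (c + c₃) with h0 | h1
  · intro Z hZ
    rw [hv Z hZ, h0, zero_mul]
  exfalso
  obtain ⟨ρ, ρ', r1, r2, r3⟩ := hPδ m w₃ hm m₃ hm3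
  have hzero : ∀ Z ∈ Z1 (del G {u, w₃, m}), Z s(w₁, w₂) = 0 := by
    intro Z hZ
    have hZm : Z ∈ Z1 (del G {u, m}) := Z1_mono (del_anti (by
      intro x hx
      simp only [mem_insert, mem_singleton] at hx ⊢
      tauto)) hZ
    have hZk : Z ∈ Z1 (del G {u, w₃}) := Z1_mono (del_anti (by
      intro x hx
      simp only [mem_insert, mem_singleton] at hx ⊢
      tauto)) hZ
    have h3 := congrArg (fun a => pr a Z) r3
    simp only [pr_add] at h3
    have h4 := hv Z hZm
    have h5 := e3 Z hZk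
    simp only [pr_add] at h4 h5
    rw [h4, h5, r1 Z hZm, r2 Z hZk, h1, one_mul, add_zero, add_zero] at h3
    exact h3
  apply no_bridge hB hG hu hW m₁ m₂ m₃ hm h12 h13 h23 hm1 hm2 hm3
  intro hr
  obtain ⟨P, hPp⟩ := exists_isPth hr
  have hnot : s(w₁, w₂) ∉ P := fun h => by
    have := hPp.subset _ h
    rw [mem_edgeSet, delE_adj] at this
    exact this.2 rfl
  have hadj : (del G {u, w₃, m}).Adj w₁ w₂ := by
    refine ⟨hW _ _ m₁ m₂ h12, ?_, ?_⟩
    · simp only [mem_insert, mem_singleton, not_or]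
      exact ⟨m₁.ne.symm, h13, Ne.symm hm1⟩
    · simp only [mem_insert, mem_singleton, not_or]
      exact ⟨m₂.ne.symm, h23, Ne.symm hm2⟩
  have h3 := hzero _ ((hPp.mono (delE_le _ _ _)).isCyc hadj hnot).chi_mem
  rw [chi_of_mem (mem_insert_self _ _)] at h3
  exact one_ne_zero h3

end DL
end

section
/-!
# NCS: the frame of LEMMA NC
-/
open SimpleGraph Finset

namespace DL

namespace NCSM

variable {α : Type} [Fintype α] [DecidableEq α] {G : SimpleGraph α}

/-! ## the functional `pr` -/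

theorem pr_add (a b c : Chain α) : pr (a + b) c = pr a c + pr b c := by
  unfold pr
  rw [← sum_add_distrib]
  exact sum_congr rfl fun e _ => by rw [Pi.add_apply, add_mul]

theorem pr_zero (a : Chain α) : pr a 0 = 0 := by
  unfold pr
  exact sum_eq_zero fun e _ => by rw [Pi.zero_apply, mul_zero]

theorem pr_single (a : Chain α) (e : Sym2 α) : pr a (Pi.single e 1) = a e := by
  unfold pr
  rw [sum_eq_single e]
  · rw [Pi.single_eq_same, mul_one]
  · intro f _ hf
    rw [Pi.single_eq_of_ne hf, mul_zero]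
  · intro h
    exact absurd (mem_univ e) h

/-- `pr a` as a linear map -/
def prL (a : Chain α) : Chain α →ₗ[ZMod 2] ZMod 2 where
  toFun c := pr a c
  map_add' x y := by
    unfold pr
    rw [← sum_add_distrib]
    exact sum_congr rfl fun e _ => by rw [Pi.add_apply, mul_add]
  map_smul' m x := by
    unfold pr
    rw [RingHom.id_apply, smul_eq_mul, mul_sum]
    exact sum_congr rfl fun e _ => by rw [Pi.smul_apply, smul_eq_mul]; ring

/-- the edge function of a functional -/
def toCh (L : Chain α →ₗ[ZMod 2] ZMod 2) : Chain α := fun e => L (Pi.single e 1)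

theorem chain_sum (c : Chain α) : c = ∑ e, c e • (Pi.single e 1 : Chain α) := by
  funext f
  rw [Finset.sum_apply, sum_eq_single f]
  · rw [Pi.smul_apply, Pi.single_eq_same, smul_eq_mul, mul_one]
  · intro e _ he
    rw [Pi.smul_apply, Pi.single_eq_of_ne he.symm, smul_zero]
  · intro h
    exact absurd (mem_univ f) h

theorem pr_toCh (L : Chain α →ₗ[ZMod 2] ZMod 2) (c : Chain α) : pr (toCh L) c = L c := by
  conv_rhs => rw [chain_sum c, map_sum]
  unfold pr toCh
  exact sum_congr rfl fun e _ => by rw [map_smul, smul_eq_mul, mul_comm]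

/-- the annihilator of an intersection -/
theorem split_inf (A B : Submodule (ZMod 2) (Chain α)) (f : Chain α)
    (hf : ∀ Z ∈ A ⊓ B, pr f Z = 0) :
    ∃ ρ ρ' : Chain α, (∀ Z ∈ A, pr ρ Z = 0) ∧ (∀ Z ∈ B, pr ρ' Z = 0) ∧ f = ρ + ρ' := by
  have h1 : (prL f : Module.Dual (ZMod 2) (Chain α)) ∈ (A ⊓ B).dualAnnihilator := by
    rw [Submodule.mem_dualAnnihilator]
    exact hf
  rw [Subspace.dualAnnihilator_inf_eq, Submodule.mem_sup] at h1
  obtain ⟨L, hL, L', hL', h2⟩ := h1
  rw [Submodule.mem_dualAnnihilator] at hL hL'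
  refine ⟨toCh L, toCh L', fun Z hZ => ?_, fun Z hZ => ?_, ?_⟩
  · rw [pr_toCh]; exact hL Z hZ
  · rw [pr_toCh]; exact hL' Z hZ
  · funext e
    have := LinearMap.congr_fun h2 (Pi.single e 1)
    rw [LinearMap.add_apply] at this
    rw [Pi.add_apply]
    exact (pr_single f e).symm.trans this.symm

/-! ## the space of 2-cycles -/

theorem isZ2_zero (G : SimpleGraph α) : IsZ2 G 0 :=
  ⟨fun _ _ => rfl, fun _ _ h => absurd rfl h, fun _ _ _ => sum_eq_zero fun _ _ => rfl⟩

/-- `Z_2(G)` as a subspace -/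
def Z2S (hKUR : SpecKUR) (G : SimpleGraph α) : Submodule (ZMod 2) (Sym2 α → Sym2 α → ZMod 2) where
  carrier := {z | IsZ2 G z}
  add_mem' {a b} ha hb := hKUR.zadd ha hb
  zero_mem' := isZ2_zero G
  smul_mem' c z hz := by
    rcases zmod2_cases c with rfl | rfl
    · rw [zero_smul]; exact isZ2_zero G
    · rw [one_smul]; exact hz

theorem vk_zero (hVKA : SpecVKA) (r : α → ℕ) : vk r 0 = 0 := by
  have h := hVKA.add r 0 0
  have h2 : (fun e f => (0 : Sym2 α → Sym2 α → ZMod 2) e f + (0 : Sym2 α → Sym2 α → ZMod 2) e f) = 0 := by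
    funext e f
    simp
  rw [h2] at h
  exact (add_eq_left.1 h.symm)

/-- the van Kampen number as a functional -/
noncomputable def vkL (hVKA : SpecVKA) (hKUR : SpecKUR) (G : SimpleGraph α) (r : α → ℕ) :
    Z2S hKUR G →ₗ[ZMod 2] ZMod 2 where
  toFun z := vk r z.1
  map_add' x y := hVKA.add r x.1 y.1
  map_smul' c x := by
    rcases zmod2_cases c with rfl | rfl
    · rw [zero_smul, RingHom.id_apply, zero_smul]; exact vk_zero hVKA r
    · rw [one_smul, RingHom.id_apply, one_smul]

/-- the rows at `u` -/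
def rowL (hKUR : SpecKUR) (G : SimpleGraph α) (u : α) : Z2S hKUR G →ₗ[ZMod 2] (α → Chain α) where
  toFun z := fun w => z.1 s(u, w)
  map_add' _ _ := rfl
  map_smul' _ _ := rfl

theorem row_zero {z : Sym2 α → Sym2 α → ZMod 2} (hz : IsZ2 G z) {u w : α} (h : ¬ G.Adj u w) :
    z s(u, w) = 0 := by
  funext f
  by_contra h0
  exact h (hz.2.1 _ _ h0).1

/-- no row at `u`: a 2-cycle of `G - u` -/
theorem isZ2_del {u : α} {z : Sym2 α → Sym2 α → ZMod 2} (hz : IsZ2 G z) (h : ∀ w, z s(u, w) = 0) :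
    IsZ2 (del G {u}) z := by
  have key : ∀ e f, z e f ≠ 0 → u ∉ e := by
    intro e f hef hu
    obtain ⟨w, rfl⟩ := Sym2.mem_iff_exists.1 hu
    exact hef (by rw [h w]; rfl)
  have key2 : ∀ e, e ∈ G.edgeSet → u ∉ e → e ∈ (del G {u}).edgeSet := by
    intro e he hu
    induction e using Sym2.ind with
    | _ a b =>
      rw [Sym2.mem_iff, not_or] at hu
      exact ⟨he, by simpa using Ne.symm hu.1, by simpa using Ne.symm hu.2⟩
  refine ⟨hz.1, fun e f hef => ?_, hz.2.2⟩
  obtain ⟨h1, h2, h3⟩ := hz.2.1 e f hef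
  exact ⟨key2 e h1 (key e f hef), key2 f h2 (key f e (by rw [hz.1]; exact hef)), h3⟩

/-- the functional in terms of the rows at `u` -/
theorem exists_al (hVKA : SpecVKA) (hKUR : SpecKUR) {u : α} (hp : ¬ NP (del G {u})) {r : α → ℕ}
    (hr : Function.Injective r) :
    ∃ al : α → Chain α, ∀ z, IsZ2 G z → vk r z = ∑ w, pr (al w) (z s(u, w)) := by
  have h1 : (vkL hVKA hKUR G r : Module.Dual (ZMod 2) (Z2S hKUR G)) ∈
      (LinearMap.ker (rowL hKUR G u)).dualAnnihilator := by
    rw [Submodule.mem_dualAnnihilator]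
    intro z hz
    rw [LinearMap.mem_ker] at hz
    by_contra h0
    exact hp ⟨r, hr, z.1, isZ2_del z.2 (fun w => congrFun hz w), h0⟩
  rw [← LinearMap.range_dualMap_eq_dualAnnihilator_ker] at h1
  obtain ⟨L, hL⟩ := h1
  refine ⟨fun w => toCh (L ∘ₗ LinearMap.single (ZMod 2) (fun _ : α => Chain α) w), fun z hz => ?_⟩
  have h2 : vk r z = L (fun w => z s(u, w)) := (LinearMap.congr_fun hL ⟨z, hz⟩).symm
  rw [h2]
  conv_lhs => rw [← Finset.univ_sum_single (fun w => z s(u, w)), map_sum]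
  refine sum_congr rfl fun w _ => ?_
  rw [pr_toCh]
  rfl

/-- boundary at `u` -/
theorem sum_rows {z : Sym2 α → Sym2 α → ZMod 2} (hz : IsZ2 G z) (u : α) (e : Sym2 α) :
    ∑ w, z s(u, w) e = 0 := by
  classical
  by_cases hu : u ∈ e
  · refine sum_eq_zero fun w _ => ?_
    by_contra h0
    exact (hz.2.1 _ _ h0).2.2 u ⟨Sym2.mem_mk_left u w, hu⟩
  · rw [← hz.2.2 e u hu]
    refine sum_bij (fun w _ => s(u, w)) (fun w _ => ?_) (fun a _ b _ h => ?_) (fun f hf => ?_)
      (fun w _ => hz.1 _ _)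
    · rw [mem_filter]
      exact ⟨mem_univ _, Sym2.mem_mk_left u w⟩
    · exact Sym2.congr_right.1 h
    · obtain ⟨w, rfl⟩ := Sym2.mem_iff_exists.1 (mem_filter.1 hf).2
      exact ⟨w, mem_univ _, rfl⟩

theorem sum_pr_rows {z : Sym2 α → Sym2 α → ZMod 2} (hz : IsZ2 G z) (u : α) (β : Chain α) :
    ∑ w, pr β (z s(u, w)) = 0 := by
  unfold pr
  rw [sum_comm]
  refine sum_eq_zero fun e _ => ?_
  rw [← mul_sum, sum_rows hz u e, mul_zero]

/-- `Z1 (G - u - w) ⊓ Z1 (G - u - w')` -/
theorem mem_inf {u w w' : α} {Z : Chain α} (h : Z ∈ Z1 (del G {u, w}) ⊓ Z1 (del G {u, w'})) :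
    Z ∈ Z1 (del G {u, w, w'}) := by
  rw [Submodule.mem_inf] at h
  refine ⟨fun e he => ?_, h.1.2⟩
  have h1 := h.1.1 e he
  have h2 := h.2.1 e he
  induction e using Sym2.ind with
  | _ a b =>
    have h1' : (del G {u, w}).Adj a b := h1
    have h2' : (del G {u, w'}).Adj a b := h2
    refine ⟨h1'.1, ?_, ?_⟩
    · have e1 := h1'.2.1
      have e2 := h2'.2.1
      simp only [mem_insert, mem_singleton, not_or] at e1 e2 ⊢
      exact ⟨e1.1, e1.2, e2.2⟩
    · have e1 := h1'.2.2
      have e2 := h2'.2.2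
      simp only [mem_insert, mem_singleton, not_or] at e1 e2 ⊢
      exact ⟨e1.1, e1.2, e2.2⟩

end NCSM

open NCSM in
/-- **NCS** -/
theorem specNCS (hVKA : SpecVKA) (hLPE : SpecLPE) (hKUR : SpecKUR) (hS3F : SpecS3F) : SpecNCS := by
  intro α _ _ G u hG hNP hp hgam
  obtain ⟨r, hr, z₀, hz₀, hvk⟩ := hNP
  obtain ⟨al, hal⟩ := exists_al hVKA hKUR hp hr
  refine ⟨al, ?_, ?_⟩
  · rintro ⟨β, hβ⟩
    apply hvk
    rw [hal z₀ hz₀, ← sum_pr_rows hz₀ u β]
    refine sum_congr rfl fun w _ => ?_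
    by_cases huw : G.Adj u w
    · have h1 := hβ w huw _ (hKUR.row u w hz₀)
      rw [pr_add] at h1
      exact CharTwo.add_eq_zero.1 h1
    · rw [row_zero hz₀ huw, pr_zero, pr_zero]
  · intro w w' huw huw' hww'
    obtain ⟨hc, hvs⟩ := hS3F.del (k := 3) u (by norm_num) hG
    have hs3 : S3S (del G {u}) := hS3F.k3 hc
    have key : ∀ Z ∈ Z1 (del G {u, w}) ⊓ Z1 (del G {u, w'}), pr (al w + al w') Z = 0 := by
      intro Z hZ
      have hZ' := mem_inf hZ
      rw [Submodule.mem_inf] at hZ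
      obtain ⟨z, hz, hrow⟩ := hLPE.star hs3 (fun v => if v = w then Z else if v = w' then Z else 0)
        (fun v => by
          by_cases h1 : v = w
          · subst h1; simp only [if_true]; exact hZ.1
          · by_cases h2 : v = w'
            · subst h2; simp only [h1, if_true, if_false]; exact hZ.2
            · simp only [h1, h2, if_false]; exact zero_mem _)
        (fun v hv => by
          by_cases h1 : v = w
          · subst h1
            refine ⟨huw, ?_⟩
            rw [hvs, mem_erase]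
            exact ⟨huw.ne.symm, right_mem_VS huw⟩
          · by_cases h2 : v = w'
            · subst h2
              refine ⟨huw', ?_⟩
              rw [hvs, mem_erase]
              exact ⟨huw'.ne.symm, right_mem_VS huw'⟩
            · exact absurd (by simp only [h1, h2, if_false]) hv)
        (by
          have hsum : ∑ v, (if v = w then Z else if v = w' then Z else 0) = Z + Z := by
            rw [← add_sum_erase univ _ (mem_univ w), if_pos rfl]
            congr 1
            rw [sum_eq_single w']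
            · rw [if_neg hww'.symm, if_pos rfl]
            · intro v hv hv'
              rw [if_neg (mem_erase.1 hv).1, if_neg hv']
            · intro h
              exact absurd (mem_erase.2 ⟨hww'.symm, mem_univ _⟩) h
          rw [hsum, chain_add_self])
      have r1 : z s(u, w) = Z := by
        funext f
        rw [hrow w f huw, if_pos rfl]
      have r2 : z s(u, w') = Z := by
        funext f
        rw [hrow w' f huw', if_neg hww'.symm, if_pos rfl]
      have r3 : ∀ v, v ≠ w → v ≠ w' → z s(u, v) = 0 := by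
        intro v h1 h2
        by_cases huv : G.Adj u v
        · funext f
          rw [hrow v f huv, if_neg h1, if_neg h2]
        · exact row_zero hz huv
      have hv0 : vk r z = 0 := by
        by_contra h0
        exact hgam w w' Z ⟨huw, huw', hww', hZ', r, z, hr, hz, h0, r1, r2, r3⟩
      rw [hal z hz, ← add_sum_erase univ _ (mem_univ w),
        ← add_sum_erase (univ.erase w) _ (mem_erase.2 ⟨hww'.symm, mem_univ w'⟩), r1, r2] at hv0
      have hrest : ∑ x ∈ (univ.erase w).erase w', pr (al x) (z s(u, x)) = 0 := by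
        refine sum_eq_zero fun v hv => ?_
        rw [mem_erase, mem_erase] at hv
        rw [r3 v hv.2.1 hv.1, pr_zero]
      rw [hrest, add_zero] at hv0
      rw [pr_add]
      exact hv0
    exact split_inf _ _ _ key

end DL
end

section
set_option autoImplicit false
set_option linter.unusedSectionVars false

/-!
# PAI: two of the three pairings occur
-/

open SimpleGraph Finset

namespace DL

namespace PAIM

variable {α : Type} [Fintype α] [DecidableEq α]

/-- the pairing `{0, i | j, k}` occurs -/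
def GP (H : SimpleGraph α) (s : Fin 4 → α) (i : Fin 4) : Prop :=
  ∀ j k, j ≠ k → j ≠ 0 → k ≠ 0 → j ≠ i → k ≠ i →
    ∃ P Q, IsPth H (s 0) (s i) P ∧ IsPth H (s j) (s k) Q ∧ Disjoint (vs P) (vs Q)

lemma gp_of {H : SimpleGraph α} {s : Fin 4 → α} {i j k : Fin 4} (hi : i ≠ 0) (hjk : j ≠ k)
    (hj : j ≠ 0) (hk : k ≠ 0) (hji : j ≠ i) (hki : k ≠ i) {P Q : Finset (Sym2 α)}
    (hP : IsPth H (s 0) (s i) P) (hQ : IsPth H (s j) (s k) Q) (hd : Disjoint (vs P) (vs Q)) :
    GP H s i := by
  intro j' k' h1 h2 h3 h4 h5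
  have hc : (j' = j ∧ k' = k) ∨ (j' = k ∧ k' = j) := by
    clear hP hQ
    revert i j k j' k'
    decide
  rcases hc with ⟨rfl, rfl⟩ | ⟨rfl, rfl⟩
  · exact ⟨P, Q, hP, hQ, hd⟩
  · exact ⟨P, Q, hP, hQ.symm, hd⟩

lemma gp_or {H : SimpleGraph α} {s : Fin 4 → α} (hH : KConn 2 H) (hs : Function.Injective s)
    (hV : ∀ i, s i ∈ VS H) {i j k : Fin 4} (hi : i ≠ 0) (hjk : j ≠ k)
    (hj : j ≠ 0) (hk : k ≠ 0) (hji : j ≠ i) (hki : k ≠ i) : GP H s j ∨ GP H s k := by
  obtain ⟨c', d', P, Q, h1, hP, hQ, hd⟩ := hH.two_paths (hV 0) (hV i) (hV j) (hV k)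
    (hs.ne hi.symm) (hs.ne hjk)
  have hd' : Disjoint (vs P) (vs Q) :=
    disjoint_of_subset_left (subset_insert _ _) (disjoint_of_subset_right (subset_insert _ _) hd)
  rcases h1 with ⟨rfl, rfl⟩ | ⟨rfl, rfl⟩
  · exact Or.inl (gp_of hj hki.symm hi hk hji.symm hjk.symm hP hQ hd')
  · exact Or.inr (gp_of hk hji.symm hi hj hki.symm hjk hP hQ hd')

end PAIM

theorem specPAI : SpecPAI := by
  intro α _ _ H s hH hs hV
  have h12 := PAIM.gp_or (i := 3) (j := 1) (k := 2) hH hs hV (by decide) (by decide) (by decide)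
    (by decide) (by decide) (by decide)
  have h13 := PAIM.gp_or (i := 2) (j := 1) (k := 3) hH hs hV (by decide) (by decide) (by decide)
    (by decide) (by decide) (by decide)
  have h23 := PAIM.gp_or (i := 1) (j := 2) (k := 3) hH hs hV (by decide) (by decide) (by decide)
    (by decide) (by decide) (by decide)
  have key : ∀ i₁ i₂ : Fin 4, PAIM.GP H s i₁ → PAIM.GP H s i₂ → i₁ ≠ i₂ → i₁ ≠ 0 → i₂ ≠ 0 →
      ∃ i₁ i₂ : Fin 4, i₁ ≠ i₂ ∧ i₁ ≠ 0 ∧ i₂ ≠ 0 ∧ ∀ i, i = i₁ ∨ i = i₂ → ∀ j k, j ≠ k → j ≠ 0 →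
        k ≠ 0 → j ≠ i → k ≠ i →
        ∃ P Q, IsPth H (s 0) (s i) P ∧ IsPth H (s j) (s k) Q ∧ Disjoint (vs P) (vs Q) := by
    intro i₁ i₂ h1 h2 h3 h4 h5
    refine ⟨i₁, i₂, h3, h4, h5, ?_⟩
    rintro i (rfl | rfl)
    · exact h1
    · exact h2
  rcases h12 with h1 | h2
  · rcases h23 with h2 | h3
    · exact key 1 2 h1 h2 (by decide) (by decide) (by decide)
    · exact key 1 3 h1 h3 (by decide) (by decide) (by decide)
  · rcases h13 with h1 | h3
    · exact key 1 2 h1 h2 (by decide) (by decide) (by decide)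
    · exact key 2 3 h2 h3 (by decide) (by decide) (by decide)

end DL
end
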