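import Pool.Agent.DL.NP.Spec
import Pool.Agent.DL.K.KY3
import Pool.Agent.DL.EX.VRS

set_option autoImplicit false
set_option linter.unusedSectionVars false

/-!
# N44: a (4,4)-pair, `G/xs_0` is nonplanar
-/

open SimpleGraph Finset

namespace DL

namespace N44M

variable {α : Type} [Fintype α] [DecidableEq α]

/-! ## connectivity -/

open Classical in
/-- the component of `a` in `G - S` -/
noncomputable def cmp (G : SimpleGraph α) (S : Finset α) (a : α) : Finset α :=
  univ.filter fun v => (del G S).Reachable a v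

lemma mem_cmp {G : SimpleGraph α} {S : Finset α} {a v : α} :
    v ∈ cmp G S a ↔ (del G S).Reachable a v := by simp [cmp]

lemma cmp_notMem {G : SimpleGraph α} {S : Finset α} {a v : α} (haS : a ∉ S) (hv : v ∈ cmp G S a) :
    v ∉ S := reachable_del_notMem_right (mem_cmp.1 hv) haS

lemma cmp_VS {G : SimpleGraph α} {S : Finset α} {a v : α} (ha : a ∈ VS G)
    (hv : v ∈ cmp G S a) : v ∈ VS G := by
  by_cases hav : a = v
  · exact hav ▸ ha
  · obtain ⟨w, hw⟩ := exists_adj_of_reachable (mem_cmp.1 hv).symm (Ne.symm hav)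
    exact mem_VS.2 ⟨w, hw.1⟩

lemma mem_NB {G : SimpleGraph α} {A : Finset α} {w : α} :
    w ∈ NB G A ↔ w ∉ A ∧ ∃ a ∈ A, G.Adj a w := by simp [NB]

lemma mem_of_adj_cmp {G : SimpleGraph α} {S : Finset α} {a v w : α} (haS : a ∉ S)
    (hv : v ∈ cmp G S a) (hvw : G.Adj v w) : w ∈ S ∨ w ∈ cmp G S a := by
  by_cases hw : w ∈ S
  · exact Or.inl hw
  · refine Or.inr (mem_cmp.2 ((mem_cmp.1 hv).trans (Adj.reachable ?_)))
    exact ⟨hvw, cmp_notMem haS hv, hw⟩

/-- `G - {x, y, p, q}` is connected if `x`, `y` have at most two neighbours outside -/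
lemma off2 (hNBF : SpecNBF) {G : SimpleGraph α} {x y p q u v : α} (hG : K48 G)
    (hx : x ∈ VS G)
    (hxn : ∀ w, G.Adj x w → w = y ∨ w = p ∨ w = q ∨ w = u ∨ w = v)
    (hyn : ∀ w, G.Adj y w → w = x ∨ w = p ∨ w = q ∨ w = u ∨ w = v) : ConnOff G {x, y, p, q} := by
  set S : Finset α := {x, y, p, q} with hS
  have memS : ∀ w, w ∈ S ↔ w = x ∨ w = y ∨ w = p ∨ w = q := by
    intro w; simp [hS]
  have hxS : x ∈ S := (memS x).2 (Or.inl rfl)
  -- a small neighbourhood is impossible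
  have small : ∀ (A : Finset α) (T : Finset α), A ⊆ VS G → A.Nonempty → x ∉ A → x ∉ NB G A →
      NB G A ⊆ T → T.card < 4 → False := by
    intro A T hA hne hxA hxN hNT hT
    have h1 := hNBF.nb hG.1 hA hne (lt_of_le_of_lt (card_le_card hNT) hT) hx
    rw [mem_union] at h1
    exact h1.elim hxA hxN
  -- claim 1
  have c1 : ∀ a ∈ VS G, a ∉ S → (del G S).Reachable a u ∨ (del G S).Reachable a v := by
    intro a ha haS
    by_contra hcon
    rw [not_or] at hcon
    have hnot : ∀ w ∈ cmp G S a, w ≠ u ∧ w ≠ v := by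
      intro w hw
      refine ⟨?_, ?_⟩
      · rintro rfl; exact hcon.1 (mem_cmp.1 hw)
      · rintro rfl; exact hcon.2 (mem_cmp.1 hw)
    refine small (cmp G S a) {p, q} (fun w hw => cmp_VS ha hw) ⟨a, mem_cmp.2 (Reachable.refl a)⟩
      (fun h => cmp_notMem haS h hxS) ?_ ?_ (lt_of_le_of_lt card_le_two (by norm_num))
    · rw [mem_NB]
      rintro ⟨_, w, hw, hwx⟩
      have h1 := cmp_notMem haS hw
      rw [memS] at h1
      have h2 := hnot w hw
      rcases hxn w hwx.symm with h | h | h | h | h <;> tauto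
    · intro w hw
      rw [mem_NB] at hw
      obtain ⟨hw1, z, hz, hzw⟩ := hw
      have h1 := (mem_of_adj_cmp haS hz hzw).resolve_right hw1
      rw [memS] at h1
      rw [mem_insert, mem_singleton]
      have h3 := cmp_notMem haS hz
      rw [memS] at h3
      have h2 := hnot z hz
      rcases h1 with rfl | rfl | h1 | h1
      · rcases hxn z hzw.symm with h | h | h | h | h <;> tauto
      · rcases hyn z hzw.symm with h | h | h | h | h <;> tauto
      · exact Or.inl h1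
      · exact Or.inr h1
  -- claim 2
  have c2 : ∀ (u' v' : α), (∀ w, G.Adj x w → w = y ∨ w = p ∨ w = q ∨ w = u' ∨ w = v') →
      (∀ w, G.Adj y w → w = x ∨ w = p ∨ w = q ∨ w = u' ∨ w = v') → ∀ a ∈ VS G, a ∉ S →
      ¬ (del G S).Reachable a v' → a = u' := by
    intro u' v' hxn hyn a ha haS hav
    by_contra hau
    have hnot : ∀ w ∈ cmp G S a, w ≠ v' := by
      intro w hw
      rintro rfl; exact hav (mem_cmp.1 hw)
    refine small ((cmp G S a).erase u') {p, q, u'} (fun w hw => cmp_VS ha (mem_of_mem_erase hw))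
      ⟨a, mem_erase.2 ⟨hau, mem_cmp.2 (Reachable.refl a)⟩⟩
      (fun h => cmp_notMem haS (mem_of_mem_erase h) hxS) ?_ ?_
      (lt_of_le_of_lt card_le_three (by norm_num))
    · rw [mem_NB]
      rintro ⟨_, w, hw, hwx⟩
      rw [mem_erase] at hw
      have h1 := cmp_notMem haS hw.2
      rw [memS] at h1
      have h2 := hnot w hw.2
      have h3 := hw.1
      rcases hxn w hwx.symm with h | h | h | h | h <;> tauto
    · intro w hw
      rw [mem_NB] at hw
      obtain ⟨hw1, z, hz, hzw⟩ := hw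
      rw [mem_erase] at hz
      rw [mem_insert, mem_insert, mem_singleton]
      have h3 := cmp_notMem haS hz.2
      rw [memS] at h3
      have h2 := hnot z hz.2
      have h4 := hz.1
      rcases mem_of_adj_cmp haS hz.2 hzw with h1 | h1
      · rw [memS] at h1
        rcases h1 with rfl | rfl | h1 | h1
        · rcases hxn z hzw.symm with h | h | h | h | h <;> tauto
        · rcases hyn z hzw.symm with h | h | h | h | h <;> tauto
        · exact Or.inl h1
        · exact Or.inr (Or.inl h1)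
      · right; right
        by_contra hwu
        exact hw1 (mem_erase.2 ⟨hwu, h1⟩)
  -- conclusion
  by_contra hcon
  have huv : ¬ (del G S).Reachable u v := by
    intro huv
    apply hcon
    intro a ha b hb haS hbS
    have h1 : (del G S).Reachable a u := (c1 a ha haS).elim id fun h => h.trans huv.symm
    have h2 : (del G S).Reachable b u := (c1 b hb hbS).elim id fun h => h.trans huv.symm
    exact h1.trans h2.symm
  have hall : VS G ⊆ {x, y, p, q, u, v} := by
    intro a ha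
    by_cases haS : a ∈ S
    · rw [memS] at haS
      simp only [mem_insert, mem_singleton]
      tauto
    · simp only [mem_insert, mem_singleton]
      by_cases hav : (del G S).Reachable a v
      · have hau : ¬ (del G S).Reachable a u := fun h => huv (h.symm.trans hav)
        have := c2 v u (fun w hw => by have := hxn w hw; tauto) (fun w hw => by
          have := hyn w hw; tauto) a ha haS hau
        tauto
      · have := c2 u v hxn hyn a ha haS hav
        tauto
  have h8 := hG.2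
  have h6 : ({x, y, p, q, u, v} : Finset α).card ≤ 6 := card_le_six
  have := card_le_card hall
  omega

/-! ## tori -/

/-- adding a torus -/
lemma addtor (hVKA : SpecVKA) {G : SimpleGraph α} {z : Sym2 α → Sym2 α → ZMod 2} {r : α → ℕ}
    {t Z : Chain α} (P Q : Finset α) (hr : Function.Injective r) (hz : IsZ2 G z) (hv : vk r z ≠ 0)
    (ht : t ∈ Z1 G) (hZ : Z ∈ Z1 G) (hP : ∀ e v, t e ≠ 0 → v ∈ e → v ∈ P)
    (hQ : ∀ e v, Z e ≠ 0 → v ∈ e → v ∈ Q) (hPQ : Disjoint P Q) :
    IsZ2 G (fun e f => z e f + (t e * Z f + Z e * t f)) ∧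
      vk r (fun e f => z e f + (t e * Z f + Z e * t f)) ≠ 0 := by
  refine ⟨KURM.zadd hz (KURM.tor P Q ht hZ hP hQ hPQ), ?_⟩
  have h1 := hVKA.add r z (DL.tor t Z)
  have h2 := hVKA.tor P Q hr ht hZ hP hQ hPQ
  rw [h2, add_zero] at h1
  have h3 : (fun e f => z e f + (t e * Z f + Z e * t f)) = fun e f => z e f + DL.tor t Z e f := rfl
  rw [h3, h1]
  exact hv

/-- the boundary at `x` in terms of the neighbours -/
lemma bdy_nbr {G : SimpleGraph α} {x y : α} {s : Fin 4 → α} (hinj : Function.Injective s)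
    (hy : ∀ i, s i ≠ y) (hN : ∀ w, G.Adj x w → w = y ∨ ∃ i, w = s i) {c : Chain α}
    (hc : ∀ e, c e ≠ 0 → e ∈ G.edgeSet) : bdy c x = c s(x, y) + ∑ i, c s(x, s i) := by
  rw [CTAM.bdy_eq_nbr]
  have h1 : ∑ w ∈ insert y (univ.image s), c s(x, w) = ∑ w, c s(x, w) := by
    refine sum_subset (subset_univ _) fun w _ hw => ?_
    by_contra hne
    apply hw
    rcases hN w (hc _ hne) with rfl | ⟨i, rfl⟩
    · exact mem_insert_self _ _
    · exact mem_insert_of_mem (mem_image_of_mem _ (mem_univ _))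
  rw [← h1, sum_insert, sum_image fun i _ j _ h => hinj h]
  rw [mem_image]
  rintro ⟨i, _, h⟩
  exact hy i h

lemma tri_cyc {G : SimpleGraph α} {a b c : α} (hab : G.Adj a b) (hac : G.Adj a c)
    (hbc : G.Adj b c) : IsCyc G {s(a, b), s(b, c), s(a, c)} := by
  have h1 : IsPth (del G {a}) b c {s(b, c)} := IsPth.edge ⟨hbc, by simpa using hab.ne.symm,
    by simpa using hac.ne.symm⟩
  have h2 := isCyc_of_isPth_del hab hac hbc.ne h1
  convert h2 using 1
  ext e
  simp only [mem_insert, mem_singleton]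
  tauto

lemma tri_mem {G : SimpleGraph α} {a b c : α} (hab : G.Adj a b) (hac : G.Adj a c)
    (hbc : G.Adj b c) : tri a b c ∈ Z1 G := (tri_cyc hab hac hbc).chi_mem

lemma tri_supp {a b c : α} {e : Sym2 α} {v : α} (he : tri a b c e ≠ 0) (hv : v ∈ e) :
    v ∈ ({a, b, c} : Finset α) := by
  rw [tri, chi_ne_zero, mem_insert, mem_insert, mem_singleton] at he
  rw [mem_insert, mem_insert, mem_singleton]
  rcases he with rfl | rfl | rfl <;> rw [Sym2.mem_iff] at hv <;> tauto

lemma cases3 : ∀ (i j k l : Fin 4), i ≠ 0 → j ≠ 0 → k ≠ 0 → j ≠ k → j ≠ i → k ≠ i → l ≠ 0 →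
    l = i ∨ (l ≠ i ∧ (l = j ∨ l = k)) := by
  decide

/-- the torus for the pairing `{0, i | j, k}` -/
lemma toro {G : SimpleGraph α} {x y : α} {s : Fin 4 → α} (h : P44 G x y s) {i j k : Fin 4}
    (hi : i ≠ 0) (hj : j ≠ 0) (hk : k ≠ 0) (hjk : j ≠ k) (hji : j ≠ i) (hki : k ≠ i)
    {P Q : Finset (Sym2 α)} (hP : IsPth (del G {x, y}) (s 0) (s i) P)
    (hQ : IsPth (del G {x, y}) (s j) (s k) Q) (hd : Disjoint (vs P) (vs Q)) :
    ∃ t Z : Chain α, ∃ A B : Finset α, t ∈ Z1 G ∧ Z ∈ Z1 G ∧ (∀ e v, t e ≠ 0 → v ∈ e → v ∈ A) ∧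
      (∀ e v, Z e ≠ 0 → v ∈ e → v ∈ B) ∧ Disjoint A B ∧
      ∀ l, l ≠ 0 → t s(x, s l) * Z s(y, s 0) + Z s(x, s l) * t s(y, s 0) =
        if l = i then 0 else 1 := by
  have hxP : x ∉ vs P := fun hx => disjoint_left.1 (vs_of_isPth_del hP) hx (by simp)
  have hyP : y ∉ vs P := fun hx => disjoint_left.1 (vs_of_isPth_del hP) hx (by simp)
  have hxQ : x ∉ vs Q := fun hx => disjoint_left.1 (vs_of_isPth_del hQ) hx (by simp)
  have hyQ : y ∉ vs Q := fun hx => disjoint_left.1 (vs_of_isPth_del hQ) hx (by simp)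
  have hxa : ∀ l, G.Adj x (s l) := fun l => (h.nx _).2 (Or.inr ⟨l, rfl⟩)
  have hya : ∀ l, G.Adj y (s l) := fun l => (h.ny _).2 (Or.inr ⟨l, rfl⟩)
  have hC1 : IsCyc G (insert s(x, s j) (insert s(x, s k) Q)) :=
    isCyc_of_isPth_del (hxa j) (hxa k) (h.inj.ne hjk)
      (hQ.mono (del_anti (by simp)))
  have hC2 : IsCyc G (insert s(y, s 0) (insert s(y, s i) P)) :=
    isCyc_of_isPth_del (hya 0) (hya i) (h.inj.ne hi.symm)
      (hP.mono (del_anti (by simp)))
  have hsj : s j ∈ vs Q := hQ.left_mem (h.inj.ne hjk)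
  have hsk : s k ∈ vs Q := hQ.right_mem (h.inj.ne hjk)
  have hs0 : s 0 ∈ vs P := hP.left_mem (h.inj.ne hi.symm)
  have hsi : s i ∈ vs P := hP.right_mem (h.inj.ne hi.symm)
  have hA : ∀ e v, chi (insert s(x, s j) (insert s(x, s k) Q)) e ≠ 0 → v ∈ e →
      v ∈ insert x (vs Q) := by
    intro e v he hv
    rw [chi_ne_zero, mem_insert, mem_insert] at he
    rw [mem_insert]
    rcases he with rfl | rfl | he
    · rw [Sym2.mem_iff] at hv
      rcases hv with rfl | rfl
      · exact Or.inl rfl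
      · exact Or.inr hsj
    · rw [Sym2.mem_iff] at hv
      rcases hv with rfl | rfl
      · exact Or.inl rfl
      · exact Or.inr hsk
    · exact Or.inr (mem_vs.2 ⟨e, he, hv⟩)
  have hB : ∀ e v, chi (insert s(y, s 0) (insert s(y, s i) P)) e ≠ 0 → v ∈ e →
      v ∈ insert y (vs P) := by
    intro e v he hv
    rw [chi_ne_zero, mem_insert, mem_insert] at he
    rw [mem_insert]
    rcases he with rfl | rfl | he
    · rw [Sym2.mem_iff] at hv
      rcases hv with rfl | rfl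
      · exact Or.inl rfl
      · exact Or.inr hs0
    · rw [Sym2.mem_iff] at hv
      rcases hv with rfl | rfl
      · exact Or.inl rfl
      · exact Or.inr hsi
    · exact Or.inr (mem_vs.2 ⟨e, he, hv⟩)
  refine ⟨_, _, insert x (vs Q), insert y (vs P), hC1.chi_mem, hC2.chi_mem, hA, hB, ?_, ?_⟩
  · rw [disjoint_insert_left, disjoint_insert_right, mem_insert, not_or]
    exact ⟨⟨h.xy, hxP⟩, hyQ, hd.symm⟩
  · intro l hl
    have h1 : chi (insert s(y, s 0) (insert s(y, s i) P)) s(x, s l) = 0 := by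
      by_contra hne
      have := hB _ x hne (Sym2.mem_mk_left _ _)
      rw [mem_insert] at this
      exact this.elim h.xy hxP
    have h2 : chi (insert s(y, s 0) (insert s(y, s i) P)) s(y, s 0) = 1 :=
      chi_of_mem (mem_insert_self _ _)
    rw [h1, h2, mul_one, zero_mul, add_zero]
    have h3 := cases3 i j k l hi hj hk hjk hji hki hl
    rcases h3 with h3 | ⟨h3, h4⟩
    · rw [if_pos h3]
      refine chi_of_notMem ?_
      rw [mem_insert, mem_insert, Sym2.congr_right, Sym2.congr_right, h.inj.eq_iff, h.inj.eq_iff]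
      rintro (e | e | e)
      · exact hji (e ▸ h3)
      · exact hki (e ▸ h3)
      · exact hxQ (left_mem_vs e)
    · rw [if_neg h3]
      refine chi_of_mem ?_
      rw [mem_insert, mem_insert]
      rcases h4 with rfl | rfl
      · exact Or.inl rfl
      · exact Or.inr (Or.inl rfl)

/-- choose the two other indices -/
lemma others (i : Fin 4) (hi : i ≠ 0) :
    ∃ j k : Fin 4, j ≠ k ∧ j ≠ 0 ∧ k ≠ 0 ∧ j ≠ i ∧ k ≠ i := by
  revert i
  decide

/-- step 1, one torus -/
lemma step1 (hVKA : SpecVKA) {G : SimpleGraph α} {x y : α} {s : Fin 4 → α} (h : P44 G x y s)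
    {r : α → ℕ} (hr : Function.Injective r) {i : Fin 4} (hi : i ≠ 0)
    (hpath : ∀ j k, j ≠ k → j ≠ 0 → k ≠ 0 → j ≠ i → k ≠ i →
      ∃ P Q, IsPth (del G {x, y}) (s 0) (s i) P ∧ IsPth (del G {x, y}) (s j) (s k) Q ∧
        Disjoint (vs P) (vs Q)) {z : Sym2 α → Sym2 α → ZMod 2} (hz : IsZ2 G z)
    (hv : vk r z ≠ 0) (c : ZMod 2) :
    ∃ z', IsZ2 G z' ∧ vk r z' ≠ 0 ∧ ∀ l, l ≠ 0 →
      z' s(x, s l) s(y, s 0) = z s(x, s l) s(y, s 0) + c * (if l = i then 0 else 1) := by
  rcases zmod2_cases c with rfl | rfl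
  · exact ⟨z, hz, hv, fun l _ => by rw [zero_mul, add_zero]⟩
  · obtain ⟨j, k, hjk, hj, hk, hji, hki⟩ := others i hi
    obtain ⟨P, Q, hP, hQ, hd⟩ := hpath j k hjk hj hk hji hki
    obtain ⟨t, Z, A, B, h1, h2, h3, h4, h5, h6⟩ := toro h hi hj hk hjk hji hki hP hQ hd
    obtain ⟨h7, h8⟩ := addtor hVKA A B hr hz hv h1 h2 h3 h4 h5
    exact ⟨_, h7, h8, fun l hl => by rw [h6 l hl, one_mul]⟩

lemma arith : ∀ (i₁ i₂ l : Fin 4) (m : Fin 4 → ZMod 2), i₁ ≠ i₂ → i₁ ≠ 0 → i₂ ≠ 0 → l ≠ 0 →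
    m 1 + m 2 + m 3 = 0 →
    m l + m i₂ * (if l = i₁ then 0 else 1) + m i₁ * (if l = i₂ then 0 else 1) = 0 := by
  decide

/-- step 2, one row -/
lemma step2 (hVKA : SpecVKA) (hNBF : SpecNBF) (hTRC : SpecTRC) {G : SimpleGraph α} {x y : α}
    {s : Fin 4 → α} (hG : K48 G) (h : P44 G x y s) {r : α → ℕ} (hr : Function.Injective r)
    {j : Fin 4} (hj : j ≠ 0) {z : Sym2 α → Sym2 α → ZMod 2} (hz : IsZ2 G z) (hv : vk r z ≠ 0)
    (hm : ∀ l, l ≠ 0 → z s(x, s l) s(y, s 0) = 0) :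
    ∃ z', IsZ2 G z' ∧ vk r z' ≠ 0 ∧ (∀ l, l ≠ 0 → z' s(x, s l) s(y, s 0) = 0) ∧
      (∀ l, l ≠ 0 → l ≠ j → ∀ f, z' s(x, s l) f = z s(x, s l) f) ∧
      ∀ f, s 0 ∈ f → z' s(x, s j) f = 0 := by
  have hxa : ∀ l, G.Adj x (s l) := fun l => (h.nx _).2 (Or.inr ⟨l, rfl⟩)
  have hya : ∀ l, G.Adj y (s l) := fun l => (h.ny _).2 (Or.inr ⟨l, rfl⟩)
  have hxy : G.Adj x y := (h.nx _).2 (Or.inl rfl)
  have hs0j : s 0 ≠ s j := h.inj.ne hj.symm
  have hb : s 0 ∉ ({x, y, s j} : Finset α) := by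
    simp only [mem_insert, mem_singleton, not_or]
    exact ⟨(h.sx 0).1, (h.sx 0).2, hs0j⟩
  obtain ⟨i, k, hik, hi0, hk0, hij, hkj⟩ := others j hj
  have hall : ∀ l : Fin 4, l = 0 ∨ l = j ∨ l = i ∨ l = k := by
    clear hs0j hb
    revert i j k
    decide
  have hconn : ConnOff G (insert (s 0) {x, y, s j}) := by
    have h1 : (insert (s 0) {x, y, s j} : Finset α) = {x, y, s 0, s j} := by
      ext w; simp only [mem_insert, mem_singleton]; tauto
    rw [h1]
    refine off2 (u := s i) (v := s k) hNBF hG (left_mem_VS hxy) ?_ ?_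
    · intro w hw
      rcases (h.nx w).1 hw with h2 | ⟨l, rfl⟩
      · exact Or.inl h2
      · rcases hall l with rfl | rfl | rfl | rfl <;> simp
    · intro w hw
      rcases (h.ny w).1 hw with h2 | ⟨l, rfl⟩
      · exact Or.inl h2
      · rcases hall l with rfl | rfl | rfl | rfl <;> simp
  classical
  obtain ⟨Z, hZ1, hZ2⟩ := hTRC G {x, y, s j} (s 0) hb hconn
    (fun e => if s 0 ∈ e then z s(x, s j) e else 0) (by
      intro e he
      have h1 : s 0 ∈ e := by
        by_contra h1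
        exact he (if_neg h1)
      simp only [if_pos h1] at he
      refine ⟨KURM.mem_del.2 ⟨(hz.2.1 _ _ he).2.1, fun v hv hv' => ?_⟩, h1⟩
      have h2 := (hz.2.1 _ _ he).2.2
      rw [mem_insert, mem_insert, mem_singleton] at hv'
      rcases hv' with rfl | rfl | rfl
      · exact h2 _ ⟨Sym2.mem_mk_left _ _, hv⟩
      · have h3 : e = s(v, s 0) := (Sym2.mem_and_mem_iff (h.sx 0).2.symm).1 ⟨hv, h1⟩
        rw [h3, hm j hj] at he
        exact he rfl
      · exact h2 _ ⟨Sym2.mem_mk_right _ _, hv⟩) (by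
      have h1 := KURM.row_bdy hz s(x, s j) (s 0)
      rw [bdy_eq_sum_ite] at h1
      exact h1)
  have hZG : Z ∈ Z1 G := Z1_mono (del_le _ _) hZ1
  have hZs : ∀ e v, Z e ≠ 0 → v ∈ e → v ∉ ({x, y, s j} : Finset α) := by
    intro e v he hv
    exact (KURM.mem_del.1 (hZ1.1 e he)).2 v hv
  have hZx : ∀ w, Z s(x, w) = 0 := by
    intro w
    by_contra hne
    exact hZs _ x hne (Sym2.mem_mk_left _ _) (by simp)
  obtain ⟨h7, h8⟩ := addtor hVKA {x, y, s j} (univ \ {x, y, s j}) hr hz hv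
    (tri_mem hxy (hxa j) (hya j)) hZG (fun e v he hv => tri_supp he hv)
    (fun e v he hv => mem_sdiff.2 ⟨mem_univ _, hZs e v he hv⟩) disjoint_sdiff
  have hrow : ∀ f, s 0 ∈ f → z s(x, s j) f + (tri x y (s j) s(x, s j) * Z f +
      Z s(x, s j) * tri x y (s j) f) = 0 := by
    intro f hf
    have h1 : tri x y (s j) s(x, s j) = 1 := by
      rw [tri]
      exact chi_of_mem (by simp)
    rw [h1, hZx, hZ2 f hf, one_mul, zero_mul, add_zero]
    simp only [if_pos hf]
    exact zmod2_add_self _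
  have hoth : ∀ l, l ≠ 0 → l ≠ j → ∀ f, z s(x, s l) f + (tri x y (s j) s(x, s l) * Z f +
      Z s(x, s l) * tri x y (s j) f) = z s(x, s l) f := by
    intro l hl hlj f
    have h1 : tri x y (s j) s(x, s l) = 0 := by
      rw [tri]
      refine chi_of_notMem ?_
      rw [mem_insert, mem_insert, mem_singleton, Sym2.congr_right, Sym2.congr_right,
        h.inj.eq_iff]
      rintro (e | e | e)
      · exact (h.sx l).2 e
      · have h2 : x ∈ s(y, s j) := e ▸ Sym2.mem_mk_left _ _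
        rw [Sym2.mem_iff] at h2
        exact h2.elim h.xy (h.sx j).1.symm
      · exact hlj e
    rw [h1, hZx, zero_mul, zero_mul, add_zero, add_zero]
  refine ⟨_, h7, h8, fun l hl => ?_, hoth, hrow⟩
  by_cases hlj : l = j
  · subst hlj
    exact hrow _ (Sym2.mem_mk_right _ _)
  · simp only [hoth l hl hlj]
    exact hm l hl

end N44M

theorem specN44 (hVKA : SpecVKA) (hNPC : SpecNPC) (hNBF : SpecNBF) (hTRC : SpecTRC)
    (hPAI : SpecPAI) : SpecN44 := by
  intro α _ _ G x y s hG h hNP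
  obtain ⟨r, hr, z, hz, hv⟩ := hNP
  have hxa : ∀ l, G.Adj x (s l) := fun l => (h.nx _).2 (Or.inr ⟨l, rfl⟩)
  have hxy : G.Adj x y := (h.nx _).2 (Or.inl rfl)
  have hVS := hG.1.VS_del (S := {x, y}) (lt_of_le_of_lt card_le_two (by norm_num))
  have hH : KConn 2 (del G {x, y}) := hG.1.del_pair (k := 2) (by norm_num) x y
  -- step 1
  obtain ⟨i₁, i₂, h12, h10, h20, hp⟩ := hPAI (del G {x, y}) s hH h.inj (fun i => by
    rw [hVS, mem_sdiff, mem_insert, mem_singleton, not_or]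
    exact ⟨right_mem_VS (hxa i), (h.sx i).1, (h.sx i).2⟩)
  have hsum : z s(x, s 1) s(y, s 0) + z s(x, s 2) s(y, s 0) + z s(x, s 3) s(y, s 0) = 0 := by
    have h1 := KURM.row_bdy hz s(y, s 0) x
    rw [N44M.bdy_nbr h.inj (fun i => (h.sx i).2) (fun w hw => (h.nx w).1 hw)
      (fun e he => (hz.2.1 _ _ he).2.1)] at h1
    have h2 : z s(y, s 0) s(x, y) = 0 :=
      KURM.eq_zero_of_mem hz (Sym2.mem_mk_left _ _) (Sym2.mem_mk_right _ _)
    have h3 : z s(y, s 0) s(x, s 0) = 0 :=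
      KURM.eq_zero_of_mem hz (Sym2.mem_mk_right _ _) (Sym2.mem_mk_right _ _)
    rw [h2, zero_add, Fin.sum_univ_four, h3, zero_add] at h1
    rw [hz.1 s(x, s 1), hz.1 s(x, s 2), hz.1 s(x, s 3)]
    exact h1
  obtain ⟨z1, hz1, hv1, hm1⟩ := N44M.step1 hVKA h hr h10 (hp i₁ (Or.inl rfl)) hz hv
    (z s(x, s i₂) s(y, s 0))
  obtain ⟨z2, hz2, hv2, hm2⟩ := N44M.step1 hVKA h hr h20 (hp i₂ (Or.inr rfl)) hz1 hv1
    (z s(x, s i₁) s(y, s 0))
  have hm : ∀ l, l ≠ 0 → z2 s(x, s l) s(y, s 0) = 0 := by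
    intro l hl
    rw [hm2 l hl, hm1 l hl]
    exact N44M.arith i₁ i₂ l (fun l => z s(x, s l) s(y, s 0)) h12 h10 h20 hl hsum
  -- step 2
  obtain ⟨z3, hz3, hv3, hm3, ho3, hr3⟩ := N44M.step2 hVKA hNBF hTRC hG h hr (j := 1) (by decide)
    hz2 hv2 hm
  obtain ⟨z4, hz4, hv4, hm4, ho4, hr4⟩ := N44M.step2 hVKA hNBF hTRC hG h hr (j := 2) (by decide)
    hz3 hv3 hm3
  obtain ⟨z5, hz5, hv5, hm5, ho5, hr5⟩ := N44M.step2 hVKA hNBF hTRC hG h hr (j := 3) (by decide)
    hz4 hv4 hm4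
  have hrow : ∀ l : Fin 4, l ≠ 0 → ∀ f, s 0 ∈ f → z5 s(x, s l) f = 0 := by
    intro l hl f hf
    have hc : l = 1 ∨ l = 2 ∨ l = 3 := by
      clear hm3 hm4 hm5
      revert l; decide
    rcases hc with rfl | rfl | rfl
    · rw [ho5 1 (by decide) (by decide), ho4 1 (by decide) (by decide)]
      exact hr3 f hf
    · rw [ho5 2 (by decide) (by decide)]
      exact hr4 f hf
    · exact hr5 f hf
  have hzab : Zab x (s 0) z5 := by
    intro e f hxe h0f hne hnf
    by_contra hcon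
    have heG : e ∈ G.edgeSet := (hz5.2.1 _ _ hcon).1
    obtain ⟨w, rfl⟩ : ∃ w, e = s(x, w) := ⟨Sym2.Mem.other hxe, (Sym2.other_spec hxe).symm⟩
    have hxf : x ∉ f := by
      intro hxf
      exact (hz5.2.1 _ _ hcon).2.2 x ⟨Sym2.mem_mk_left _ _, hxf⟩
    have hw : G.Adj x w := heG
    rcases (h.nx w).1 hw with rfl | ⟨l, rfl⟩
    · -- the row `xy`
      have h1 := KURM.row_bdy hz5 f x
      rw [N44M.bdy_nbr h.inj (fun i => (h.sx i).2) (fun w hw => (h.nx w).1 hw)
        (fun e he => (hz5.2.1 _ _ he).2.1)] at h1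
      have h3 : ∑ i, z5 f s(x, s i) = 0 := by
        refine sum_eq_zero fun i _ => ?_
        by_cases hi : i = 0
        · rw [hi]
          exact KURM.eq_zero_of_mem hz5 h0f (Sym2.mem_mk_right _ _)
        · rw [hz5.1]
          exact hrow i hi f h0f
      rw [h3, add_zero, hz5.1] at h1
      exact hcon h1
    · by_cases hl : l = 0
      · exact hne (by rw [hl])
      · exact hcon (hrow l hl f h0f)
  exact hNPC.down hr hz5 hv5 (hxa 0) hzab

end DL
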