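import Pool.Agent.DL.NP.Spec
import Pool.Agent.DL.K.KY3

section
/-!
# MP_3ff0f8_gt, ALGEBRA HALF, NP block, module F1N: (3,3)-pair, `G/xs₂` nonplanar
-/
open SimpleGraph Finset

namespace DL

namespace F1NM

variable {α : Type} [Fintype α] [DecidableEq α]

theorem notMem_of_mem_del {G : SimpleGraph α} {P : Finset α} {e : Sym2 α} {v : α}
    (h : e ∈ (del G P).edgeSet) (hv : v ∈ e) : v ∉ P := by
  revert h hv
  refine Sym2.ind (fun a b => ?_) e
  intro h hv
  rw [mem_edgeSet, del_adj] at h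
  rw [Sym2.mem_iff] at hv
  rcases hv with rfl | rfl
  · exact h.2.1
  · exact h.2.2

/-- adding a torus -/
theorem addtor (hVKA : SpecVKA) (hKUR : SpecKUR) {G : SimpleGraph α} {r : α → ℕ}
    {z : Sym2 α → Sym2 α → ZMod 2} (hr : Function.Injective r) (hz : IsZ2 G z) {t Z : Chain α}
    (P : Finset α) (ht : t ∈ Z1 G) (htP : ∀ e v, t e ≠ 0 → v ∈ e → v ∈ P)
    (hZ : Z ∈ Z1 (del G P)) :
    IsZ2 G (fun e f => z e f + tor t Z e f) ∧ vk r (fun e f => z e f + tor t Z e f) = vk r z := by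
  have hZG : Z ∈ Z1 G := Z1_mono (del_le G P) hZ
  have hZQ : ∀ e v, Z e ≠ 0 → v ∈ e → v ∈ (univ \ P : Finset α) := by
    intro e v he hv
    rw [mem_sdiff]
    exact ⟨mem_univ _, notMem_of_mem_del ((mem_Z1.1 hZ).1 e he) hv⟩
  have hd : Disjoint P (univ \ P) := disjoint_sdiff
  refine ⟨hKUR.zadd hz (hKUR.tor P (univ \ P) ht hZG htP hZQ hd), ?_⟩
  rw [hVKA.add, hVKA.tor P (univ \ P) hr ht hZG htP hZQ hd, add_zero]

theorem isCyc_tri {G : SimpleGraph α} {a b c : α} (hab : G.Adj a b) (hbc : G.Adj b c)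
    (hac : G.Adj a c) : IsCyc G {s(a, b), s(b, c), s(a, c)} := by
  have h1 : IsPth G a c (insert s(a, b) {s(b, c)}) := by
    refine (IsPth.edge hbc).cons hab ?_
    rw [vs_singleton]
    simp [hab.ne, hac.ne]
  have h2 := h1.isCyc hac (by
    simp only [mem_insert, mem_singleton, Sym2.eq_iff, not_or]
    refine ⟨⟨fun h => hbc.ne h.2.symm, fun h => hab.ne h.1⟩,
      ⟨fun h => hab.ne h.1, fun h => hac.ne h.1⟩⟩)
  have h3 : (insert s(a, c) (insert s(a, b) {s(b, c)}) : Finset (Sym2 α)) =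
      {s(a, b), s(b, c), s(a, c)} := by
    ext e
    simp only [mem_insert, mem_singleton]
    tauto
  rw [← h3]; exact h2

theorem tri_mem {G : SimpleGraph α} {a b c : α} (hab : G.Adj a b) (hbc : G.Adj b c)
    (hac : G.Adj a c) : tri a b c ∈ Z1 G := (isCyc_tri hab hbc hac).chi_mem

theorem tri_supp {a b c : α} (e : Sym2 α) (v : α) (he : tri a b c e ≠ 0) (hv : v ∈ e) :
    v ∈ ({a, b, c} : Finset α) := by
  unfold tri at he
  rw [chi_ne_zero] at he
  simp only [mem_insert, mem_singleton] at he ⊢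
  rcases he with rfl | rfl | rfl <;> rw [Sym2.mem_iff] at hv <;> tauto

/-- a chain with the trace of the row `x c` at `b` -/
theorem trace (hNBF : SpecNBF) (hTRC : SpecTRC) {G : SimpleGraph α} (hG : KConn 4 G)
    {z : Sym2 α → Sym2 α → ZMod 2} (hz : IsZ2 G z) {x y b c d : α}
    (hx : ∀ w, G.Adj x w → w = y ∨ w = b ∨ w = c ∨ w = d) (hnd : [x, y, b, c].Nodup)
    (hyb : ¬ G.Adj y b) (hxV : x ∈ VS G) (hyV : y ∈ VS G) (hbV : b ∈ VS G) (hcV : c ∈ VS G) :
    ∃ Z ∈ Z1 (del G {x, y, c}), ∀ e, b ∈ e → Z e = z s(x, c) e := by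
  classical
  simp only [List.nodup_cons, List.mem_cons, List.not_mem_nil, or_false, not_or, List.nodup_nil,
    and_true] at hnd
  obtain ⟨⟨hxy, hxb, hxc⟩, ⟨hyb', hyc⟩, hbc, -⟩ := hnd
  have hconn : ConnOff G (insert b {x, y, c}) := by
    have h1 : (insert b {x, y, c} : Finset α) = {b, x, y, c} := rfl
    refine hNBF.off (x := x) (t := d) hG ?_ ?_ ?_ ?_
    · intro v hv
      simp only [mem_insert, mem_singleton] at hv
      rcases hv with rfl | rfl | rfl | rfl <;> assumption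
    · rw [card_insert_of_notMem, card_insert_of_notMem, card_insert_of_notMem, card_singleton]
      · simp [hyc]
      · simp [hxy, hxc]
      · simp only [mem_insert, mem_singleton, not_or]
        exact ⟨fun h => hxb h.symm, fun h => hyb' h.symm, hbc⟩
    · simp
    · intro w hw
      simp only [mem_insert, mem_singleton]
      rcases hx w hw with h | h | h | h <;> tauto
  have hb : b ∉ ({x, y, c} : Finset α) := by
    simp only [mem_insert, mem_singleton, not_or]
    exact ⟨fun h => hxb h.symm, fun h => hyb' h.symm, hbc⟩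
  have hT1 : ∀ e, (if b ∈ e then z s(x, c) e else 0) ≠ 0 →
      e ∈ (del G {x, y, c}).edgeSet ∧ b ∈ e := by
    intro e he
    have hbe : b ∈ e := by
      by_contra h
      exact he (if_neg h)
    rw [if_pos hbe] at he
    obtain ⟨-, h2, h3⟩ := hz.2.1 _ _ he
    refine ⟨?_, hbe⟩
    have hxe : x ∉ e := fun h => h3 x ⟨by simp, h⟩
    have hce : c ∉ e := fun h => h3 c ⟨by simp, h⟩
    obtain ⟨w, rfl⟩ := Sym2.mem_iff_exists.1 hbe
    rw [mem_edgeSet] at h2
    rw [mem_edgeSet, del_adj]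
    simp only [Sym2.mem_iff, not_or] at hxe hce
    refine ⟨h2, hb, ?_⟩
    simp only [mem_insert, mem_singleton, not_or]
    refine ⟨fun h => hxe.2 h.symm, ?_, fun h => hce.2 h.symm⟩
    rintro rfl
    exact hyb h2.symm
  have hT2 : ∑ e, (if b ∈ e then z s(x, c) e else 0) = 0 := by
    rw [← sum_filter]
    have := hz.2.2 s(x, c) b (by
      rw [Sym2.mem_iff]
      rintro (h | h)
      · exact hxb h.symm
      · exact hbc h)
    convert this using 2
  obtain ⟨Z, hZ, hZe⟩ := hTRC G {x, y, c} b hb hconn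
    (fun e => if b ∈ e then z s(x, c) e else 0) hT1 hT2
  refine ⟨Z, hZ, fun e he => ?_⟩
  rw [hZe e he, if_pos he]

omit [Fintype α] [DecidableEq α] in
theorem vs_adj {G : SimpleGraph α} {e : Sym2 α} {x : α} (he : e ∈ G.edgeSet) (hx : x ∈ e) :
    ∃ w, e = s(x, w) ∧ G.Adj x w := by
  obtain ⟨w, rfl⟩ := Sym2.mem_iff_exists.1 hx
  exact ⟨w, rfl, he⟩

end F1NM

open F1NM in
theorem specF1N (hVKA : SpecVKA) (hKUR : SpecKUR) (hNPC : SpecNPC) (hNBF : SpecNBF)
    (hTRC : SpecTRC) : SpecF1N := by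
  classical
  intro α _ _ G x y s₁ s₂ s₃ s₄ hK hP hNP
  obtain ⟨r, hr, z, hz, hv⟩ := hNP
  have hnd := hP.nd
  simp only [List.nodup_cons, List.mem_cons, List.not_mem_nil, or_false, not_or, List.nodup_nil,
    and_true] at hnd
  obtain ⟨⟨hxy, hx1, hx2, hx3, hx4⟩, ⟨hy1, hy2, hy3, hy4⟩, ⟨h12, h13, h14⟩, ⟨h23, h24⟩, h34, -⟩ := hnd
  have axy : G.Adj x y := (hP.nx y).2 (Or.inl rfl)
  have ax2 : G.Adj x s₂ := (hP.nx s₂).2 (by tauto)
  have ax3 : G.Adj x s₃ := (hP.nx s₃).2 (by tauto)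
  have ax4 : G.Adj x s₄ := (hP.nx s₄).2 (by tauto)
  have ay3 : G.Adj y s₃ := (hP.ny s₃).2 (by tauto)
  have ay4 : G.Adj y s₄ := (hP.ny s₄).2 (by tauto)
  have nay2 : ¬ G.Adj y s₂ := by
    rw [hP.ny]
    rintro (h | h | h | h)
    · exact hx2 h.symm
    · exact h12 h.symm
    · exact h23 h
    · exact h24 h
  have hxV := left_mem_VS axy
  have hyV := right_mem_VS axy
  have h2V := right_mem_VS ax2
  have h3V := right_mem_VS ax3
  have h4V := right_mem_VS ax4
  obtain ⟨Z3, hZ3, hZ3e⟩ := trace hNBF hTRC hK.1 hz (x := x) (y := y) (b := s₂) (c := s₃) (d := s₄)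
    (fun w hw => by have := (hP.nx w).1 hw; tauto)
    (by simp [hxy, hx2, hx3, hy2, hy3, h23]) nay2 hxV hyV h2V h3V
  obtain ⟨Z4, hZ4, hZ4e⟩ := trace hNBF hTRC hK.1 hz (x := x) (y := y) (b := s₂) (c := s₄) (d := s₃)
    (fun w hw => by have := (hP.nx w).1 hw; tauto)
    (by simp [hxy, hx2, hx4, hy2, hy4, h24]) nay2 hxV hyV h2V h4V
  obtain ⟨hz1, hv1⟩ := addtor hVKA hKUR hr hz {x, y, s₃} (tri_mem axy ay3 ax3)
    (fun e v he hv => tri_supp e v he hv) hZ3
  obtain ⟨hz2, hv2⟩ := addtor hVKA hKUR hr hz1 {x, y, s₄} (tri_mem axy ay4 ax4)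
    (fun e v he hv => tri_supp e v he hv) hZ4
  set z2 : Sym2 α → Sym2 α → ZMod 2 := fun e f => z e f + tor (tri x y s₃) Z3 e f +
    tor (tri x y s₄) Z4 e f with hz2def
  have hxZ3 : ∀ w, Z3 s(x, w) = 0 := by
    intro w
    by_contra h
    exact notMem_of_mem_del ((mem_Z1.1 hZ3).1 _ h) (Sym2.mem_mk_left x w) (by simp)
  have hxZ4 : ∀ w, Z4 s(x, w) = 0 := by
    intro w
    by_contra h
    exact notMem_of_mem_del ((mem_Z1.1 hZ4).1 _ h) (Sym2.mem_mk_left x w) (by simp)
  have t33 : tri x y s₃ s(x, s₃) = 1 := by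
    unfold tri; rw [chi_of_mem]; simp
  have t44 : tri x y s₄ s(x, s₄) = 1 := by
    unfold tri; rw [chi_of_mem]; simp
  have t34 : tri x y s₃ s(x, s₄) = 0 := by
    unfold tri; rw [chi_of_notMem]
    simp only [mem_insert, mem_singleton, Sym2.eq_iff, not_or, not_and]
    exact ⟨⟨fun _ h => hy4 h.symm, fun h _ => hxy h⟩, ⟨fun h _ => hxy h, fun h _ => hx3 h⟩,
      fun _ h => h34 h.symm, fun h _ => hx3 h⟩
  have t43 : tri x y s₄ s(x, s₃) = 0 := by
    unfold tri; rw [chi_of_notMem]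
    simp only [mem_insert, mem_singleton, Sym2.eq_iff, not_or, not_and]
    exact ⟨⟨fun _ h => hy3 h.symm, fun h _ => hxy h⟩, ⟨fun h _ => hxy h, fun h _ => hx4 h⟩,
      fun _ h => h34 h, fun h _ => hx4 h⟩
  have k3 : ∀ f, s₂ ∈ f → z2 s(x, s₃) f = 0 := by
    intro f hf
    simp only [hz2def, tor, t33, t43, hxZ3, hxZ4, hZ3e f hf]
    ring_nf
    rw [show (2 : ZMod 2) = 0 from rfl, mul_zero]
  have k4 : ∀ f, s₂ ∈ f → z2 s(x, s₄) f = 0 := by
    intro f hf
    simp only [hz2def, tor, t34, t44, hxZ3, hxZ4, hZ4e f hf]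
    ring_nf
    rw [show (2 : ZMod 2) = 0 from rfl, mul_zero]
  have hzab : Zab x s₂ z2 := by
    intro e f hxe h2f hne hnf
    by_contra h0
    obtain ⟨he, hf, hdj⟩ := hz2.2.1 e f h0
    obtain ⟨w, rfl, hw⟩ := vs_adj he hxe
    rcases (hP.nx w).1 hw with rfl | rfl | rfl | rfl
    · have hxf : x ∉ f := fun h => hdj x ⟨hxe, h⟩
      have hb := hz2.2.2 f x hxf
      rw [sum_eq_single s(x, w)] at hb
      · exact h0 (by rw [hz2.1]; exact hb)
      · intro g hg hgne
        rw [mem_filter] at hg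
        by_contra hg0
        obtain ⟨-, hgG, hfg⟩ := hz2.2.1 f g hg0
        obtain ⟨w', rfl, hw'⟩ := vs_adj hgG hg.2
        rcases (hP.nx w').1 hw' with rfl | rfl | rfl | rfl
        · exact hgne rfl
        · exact hfg w' ⟨h2f, by simp⟩
        · exact hg0 (by rw [hz2.1]; exact k3 f h2f)
        · exact hg0 (by rw [hz2.1]; exact k4 f h2f)
      · intro h
        exact absurd (mem_filter.2 ⟨mem_univ _, by simp⟩) h
    · exact hne rfl
    · exact h0 (k3 f h2f)
    · exact h0 (k4 f h2f)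
  refine hNPC.down (r := r) hr hz2 ?_ ax2 hzab
  rw [hv2, hv1]; exact hv

end DL
end

section
/-!
# MP_3ff0f8_gt, ALGEBRA HALF, NP block, module F2N: (3,3)-pair with `s₁ ~ s₂`, `G - xy` nonplanar
-/
open SimpleGraph Finset

namespace DL

namespace F2NM

open F1NM

variable {α : Type} [Fintype α] [DecidableEq α]

theorem isCyc_four {G : SimpleGraph α} {a b c d : α} (hab : G.Adj a b) (hac : G.Adj a c)
    (hcd : G.Adj c d) (hdb : G.Adj d b) (had : a ≠ d) (hcb : c ≠ b) :
    IsCyc G {s(a, b), s(a, c), s(c, d), s(d, b)} := by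
  have h0 : IsPth G c b (insert s(c, d) {s(d, b)}) := by
    refine (IsPth.edge hdb).cons hcd ?_
    rw [vs_singleton]
    simp [hcd.ne, hcb]
  have h1 : IsPth G a b (insert s(a, c) (insert s(c, d) {s(d, b)})) := by
    refine h0.cons hac ?_
    rw [vs_insert, vs_singleton]
    simp [hac.ne, had, hab.ne]
  have h2 := h1.isCyc hab (by
    simp only [mem_insert, mem_singleton, Sym2.eq_iff, not_or, not_and]
    exact ⟨⟨fun _ h => hcb h.symm, fun h _ => hac.ne h⟩,
      ⟨fun h => absurd h hac.ne, fun h => absurd h had⟩,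
      ⟨fun h => absurd h had, fun h => absurd h hab.ne⟩⟩)
  exact h2

theorem four_supp {a b c d : α} (e : Sym2 α) (v : α)
    (he : chi ({s(a, b), s(a, c), s(c, d), s(d, b)} : Finset (Sym2 α)) e ≠ 0) (hv : v ∈ e) :
    v ∈ ({a, b, c, d} : Finset α) := by
  rw [chi_ne_zero] at he
  simp only [mem_insert, mem_singleton] at he ⊢
  rcases he with rfl | rfl | rfl | rfl <;> rw [Sym2.mem_iff] at hv <;> tauto

/-- the row of an edge `xy` decomposes -/
theorem decomp (hNBF : SpecNBF) (hSTA : SpecSTA) {G : SimpleGraph α} (hK : K48 G)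
    {x y s₁ s₂ s₃ s₄ : α} (hP : P33 G x y s₁ s₂ s₃ s₄) {c : Chain α} (hc : c ∈ Z1 (del G {x, y})) :
    ∃ c₃ ∈ Z1 (del G {x, y, s₃}), ∃ c₄ ∈ Z1 (del G {x, y, s₄}),
      ∃ c' ∈ Z1 (del G {x, y, s₁, s₂}), c = c₃ + c₄ + c' := by
  classical
  by_contra hno
  have hnd := hP.nd
  simp only [List.nodup_cons, List.mem_cons, List.not_mem_nil, or_false, not_or, List.nodup_nil,
    and_true] at hnd
  obtain ⟨⟨hxy, hx1, hx2, hx3, hx4⟩, ⟨hy1, hy2, hy3, hy4⟩, ⟨h12, h13, h14⟩, ⟨h23, h24⟩, h34, -⟩ := hnd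
  have axy : G.Adj x y := (hP.nx y).2 (Or.inl rfl)
  have ax3 : G.Adj x s₃ := (hP.nx s₃).2 (by tauto)
  have ax4 : G.Adj x s₄ := (hP.nx s₄).2 (by tauto)
  have hxV := left_mem_VS axy
  have hyV := right_mem_VS axy
  have h3V := right_mem_VS ax3
  have h4V := right_mem_VS ax4
  set V : Submodule (ZMod 2) (Chain α) :=
    Z1 (del G {x, y, s₃}) ⊔ Z1 (del G {x, y, s₄}) ⊔ Z1 (del G {x, y, s₁, s₂}) with hV
  have hcV : c ∉ V := by
    intro h
    rw [hV, Submodule.mem_sup] at h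
    obtain ⟨w, hw, c₃, h3, rfl⟩ := h
    rw [Submodule.mem_sup] at hw
    obtain ⟨c₁, h1, c₂, h2, rfl⟩ := hw
    exact hno ⟨c₁, h1, c₂, h2, c₃, h3, rfl⟩
  obtain ⟨φ, hφc, hφV⟩ := Submodule.exists_le_ker_of_notMem hcV
  obtain ⟨a, ha⟩ := SM3M.functional φ
  have hk : ∀ Z ∈ Z1 (del G {x, y, s₃}), ∑ e, a e * Z e = 0 := fun Z hZ => by
    rw [← ha]
    exact hφV (Submodule.mem_sup_left (Submodule.mem_sup_left hZ))
  have hl : ∀ Z ∈ Z1 (del G {x, y, s₄}), ∑ e, a e * Z e = 0 := fun Z hZ => by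
    rw [← ha]
    exact hφV (Submodule.mem_sup_left (Submodule.mem_sup_right hZ))
  have hm : ∀ Z ∈ Z1 (del G {x, y, s₁, s₂}), ∑ e, a e * Z e = 0 := fun Z hZ => by
    rw [← ha]
    exact hφV (Submodule.mem_sup_right hZ)
  have hd3 : del (del G {x, y}) {s₃} = del G {x, y, s₃} := by
    rw [del_del]; congr 1; ext v; simp only [mem_union, mem_insert, mem_singleton]; tauto
  have hd4 : del (del G {x, y}) {s₄} = del G {x, y, s₄} := by
    rw [del_del]; congr 1; ext v; simp only [mem_union, mem_insert, mem_singleton]; tauto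
  have hoff : ConnOff G {x, y, s₃, s₄} := by
    refine hNBF.off (x := x) (t := s₂) hK.1 ?_ ?_ ?_ ?_
    · intro v hv
      simp only [mem_insert, mem_singleton] at hv
      rcases hv with rfl | rfl | rfl | rfl <;> assumption
    · rw [card_insert_of_notMem, card_insert_of_notMem, card_insert_of_notMem, card_singleton]
      · simp [h34]
      · simp [hy3, hy4]
      · simp [hxy, hx3, hx4]
    · simp
    · intro w hw
      simp only [mem_insert, mem_singleton]
      have := (hP.nx w).1 hw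
      tauto
  have hconn : ConnOff (del G {x, y}) {s₃, s₄} := by
    intro u hu v hv hus hvs
    have hu1 := mem_sdiff.1 (VS_del_subset _ hu)
    have hv1 := mem_sdiff.1 (VS_del_subset _ hv)
    rw [del_del]
    have e : ({x, y} ∪ {s₃, s₄} : Finset α) = {x, y, s₃, s₄} := by
      ext v; simp only [mem_union, mem_insert, mem_singleton]; tauto
    rw [e]
    refine hoff u hu1.1 v hv1.1 ?_ ?_
    · have h1 := hu1.2; simp only [mem_insert, mem_singleton, not_or] at h1 hus ⊢; tauto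
    · have h1 := hv1.2; simp only [mem_insert, mem_singleton, not_or] at h1 hvs ⊢; tauto
  obtain ⟨κ, hκ, hκZ⟩ := hSTA (del G {x, y}) s₃ s₄ h34 hconn a (by rw [hd3]; exact hk)
    (by rw [hd4]; exact hl)
  have hκ0 : κ ≠ 0 := by
    rintro rfl
    apply hφc
    rw [ha, hκZ c hc, zero_mul]
  have hadj : (del G {x, y}).Adj s₃ s₄ := hκ hκ0
  -- the graph without `x, y, s₁, s₂` and the edge `s₃s₄`
  set F : SimpleGraph α := delE (del G {x, y, s₁, s₂}) s₃ s₄ with hF
  have hadj' : (del G {x, y, s₁, s₂}).Adj s₃ s₄ := by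
    refine ⟨hadj.1, ?_, ?_⟩
    · simp only [mem_insert, mem_singleton, not_or]
      exact ⟨fun h => hx3 h.symm, fun h => hy3 h.symm, fun h => h13 h.symm, fun h => h23 h.symm⟩
    · simp only [mem_insert, mem_singleton, not_or]
      exact ⟨fun h => hx4 h.symm, fun h => hy4 h.symm, fun h => h14 h.symm, fun h => h24 h.symm⟩
  have hnr : ¬ F.Reachable s₃ s₄ := by
    intro h
    obtain ⟨Q, hQ⟩ := exists_isPth h
    rw [hF, isPth_delE] at hQ
    have hC := hQ.1.isCyc hadj' hQ.2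
    have h1 := hm _ hC.chi_mem
    rw [hκZ _ (Z1_mono (del_anti (by intro v; simp; tauto)) hC.chi_mem),
      chi_of_mem (mem_insert_self _ _), mul_one] at h1
    exact hκ0 h1
  -- a further vertex
  obtain ⟨ρ, hρV, hρ⟩ : ∃ ρ ∈ VS G, ρ ∉ ({x, y, s₁, s₂, s₃, s₄} : Finset α) := by
    by_contra hcon
    push Not at hcon
    have h1 : VS G ⊆ ({x, y, s₁, s₂, s₃, s₄} : Finset α) := fun v hv => hcon v hv
    have h2 := card_le_card h1
    have h3 : ({x, y, s₁, s₂, s₃, s₄} : Finset α).card ≤ 6 := card_le_six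
    have := hK.2
    omega
  simp only [mem_insert, mem_singleton, not_or] at hρ
  obtain ⟨hρx, hρy, hρ1, hρ2, hρ3, hρ4⟩ := hρ
  have key : ∀ p q : α, (∀ w, w = s₃ ∨ w = s₄ ↔ w = p ∨ w = q) → ¬ F.Reachable ρ q → False := by
    intro p q hpq hnq
    set A : Finset α := univ.filter (fun v => F.Reachable ρ v ∧ v ≠ p) with hA
    have hρp : ρ ≠ p := by
      rintro rfl
      rcases (hpq ρ).2 (Or.inl rfl) with h | h
      · exact hρ3 h
      · exact hρ4 h
    have hAin : ∀ v ∈ A, v ≠ x ∧ v ≠ y ∧ v ≠ s₁ ∧ v ≠ s₂ ∧ v ≠ s₃ ∧ v ≠ s₄ ∧ F.Reachable ρ v ∧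
        v ∈ VS G := by
      intro v hv
      rw [hA, mem_filter] at hv
      obtain ⟨-, hr, hvp⟩ := hv
      have hr' : (del G {x, y, s₁, s₂}).Reachable ρ v := hr.mono (delE_le _ _ _)
      have h34' : ¬ (v = s₃ ∨ v = s₄) := by
        rw [hpq]
        rintro (h | h)
        · exact hvp h
        · rw [h] at hr; exact hnq hr
      by_cases hv' : v = ρ
      · subst hv'
        exact ⟨hρx, hρy, hρ1, hρ2, hρ3, hρ4, hr, hρV⟩
      · have h1 := reachable_del_notMem_right hr' (by simp [hρx, hρy, hρ1, hρ2])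
        simp only [mem_insert, mem_singleton, not_or] at h1
        refine ⟨h1.1, h1.2.1, h1.2.2.1, h1.2.2.2, fun h => h34' (Or.inl h), fun h => h34' (Or.inr h),
          hr, ?_⟩
        obtain ⟨w, hw⟩ := exists_adj_of_reachable hr'.symm hv'
        exact left_mem_VS hw.1
    have hNB : NB G A ⊆ {s₁, s₂, p} := by
      intro w hw
      have hw0 : w ∉ A ∧ ∃ a ∈ A, G.Adj a w := by simpa [NB] using hw
      obtain ⟨hwA, u, hu, huw⟩ := hw0
      obtain ⟨ux, uy, u1, u2, u3, u4, hur, -⟩ := hAin u hu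
      simp only [mem_insert, mem_singleton]
      by_contra hw'
      simp only [not_or] at hw'
      obtain ⟨hw1, hw2, hwp⟩ := hw'
      have hwx : w ≠ x := by
        rintro rfl
        rcases (hP.nx u).1 huw.symm with h | h | h | h
        · exact uy h
        · exact u2 h
        · exact u3 h
        · exact u4 h
      have hwy : w ≠ y := by
        rintro rfl
        rcases (hP.ny u).1 huw.symm with h | h | h | h
        · exact ux h
        · exact u1 h
        · exact u3 h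
        · exact u4 h
      apply hwA
      rw [hA, mem_filter]
      refine ⟨mem_univ _, hur.trans (Adj.reachable ?_), hwp⟩
      rw [hF, delE_adj, del_adj]
      refine ⟨⟨huw, ?_, ?_⟩, ?_⟩
      · simp [ux, uy, u1, u2]
      · simp [hwx, hwy, hw1, hw2]
      · rw [Ne, Sym2.eq_iff]
        rintro (⟨h, _⟩ | ⟨h, _⟩)
        · exact u3 h
        · exact u4 h
    have hcard : (NB G A).card < 4 :=
      lt_of_le_of_lt ((card_le_card hNB).trans card_le_three) (by norm_num)
    have hAV : A ⊆ VS G := fun v hv => (hAin v hv).2.2.2.2.2.2.2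
    have hρA : ρ ∈ A := by
      rw [hA, mem_filter]; exact ⟨mem_univ _, Reachable.refl ρ, hρp⟩
    have h1 := hNBF.nb hK.1 hAV ⟨ρ, hρA⟩ hcard hxV
    rcases mem_union.1 h1 with h | h
    · exact (hAin x h).1 rfl
    · have := hNB h
      simp only [mem_insert, mem_singleton] at this
      rcases this with h | h | h
      · exact hx1 h
      · exact hx2 h
      · rcases (hpq x).2 (Or.inl h) with h | h
        · exact hx3 h
        · exact hx4 h
  by_cases h4 : F.Reachable ρ s₄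
  · refine key s₄ s₃ (fun w => by tauto) ?_
    intro h3
    exact hnr (h3.symm.trans h4)
  · exact key s₃ s₄ (fun w => Iff.rfl) h4

end F2NM

open F1NM F2NM in
theorem specF2N (hVKA : SpecVKA) (hKUR : SpecKUR) (hNPC : SpecNPC) (hNBF : SpecNBF)
    (hSTA : SpecSTA) : SpecF2N := by
  classical
  intro α _ _ G x y s₁ s₂ s₃ s₄ hK hP a12 hNP
  obtain ⟨r, hr, z, hz, hv⟩ := hNP
  have hnd := hP.nd
  simp only [List.nodup_cons, List.mem_cons, List.not_mem_nil, or_false, not_or, List.nodup_nil,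
    and_true] at hnd
  obtain ⟨⟨hxy, hx1, hx2, hx3, hx4⟩, ⟨hy1, hy2, hy3, hy4⟩, ⟨h12, h13, h14⟩, ⟨h23, h24⟩, h34, -⟩ := hnd
  have axy : G.Adj x y := (hP.nx y).2 (Or.inl rfl)
  have ax2 : G.Adj x s₂ := (hP.nx s₂).2 (by tauto)
  have ax3 : G.Adj x s₃ := (hP.nx s₃).2 (by tauto)
  have ax4 : G.Adj x s₄ := (hP.nx s₄).2 (by tauto)
  have ay1 : G.Adj y s₁ := (hP.ny s₁).2 (by tauto)
  have ay3 : G.Adj y s₃ := (hP.ny s₃).2 (by tauto)
  have ay4 : G.Adj y s₄ := (hP.ny s₄).2 (by tauto)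
  obtain ⟨Z3, hZ3, Z4, hZ4, Z', hZ', hsum⟩ := decomp hNBF hSTA hK hP (hKUR.row x y hz)
  have hcyc := isCyc_four axy ax2 a12.symm ay1.symm hx1 (fun h => hy2 h.symm)
  have hZ'' : Z' ∈ Z1 (del G {x, y, s₂, s₁}) := by
    have e : ({x, y, s₂, s₁} : Finset α) = {x, y, s₁, s₂} := by
      ext v; simp only [mem_insert, mem_singleton]; tauto
    rw [e]; exact hZ'
  obtain ⟨hz1, hv1⟩ := addtor hVKA hKUR hr hz {x, y, s₃} (tri_mem axy ay3 ax3)
    (fun e v he hv => tri_supp e v he hv) hZ3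
  obtain ⟨hz2, hv2⟩ := addtor hVKA hKUR hr hz1 {x, y, s₄} (tri_mem axy ay4 ax4)
    (fun e v he hv => tri_supp e v he hv) hZ4
  obtain ⟨hz3, hv3⟩ := addtor hVKA hKUR hr hz2 {x, y, s₂, s₁} hcyc.chi_mem
    (fun e v he hv => four_supp e v he hv) hZ''
  have hxZ3 : Z3 s(x, y) = 0 := by
    by_contra h
    exact notMem_of_mem_del ((mem_Z1.1 hZ3).1 _ h) (Sym2.mem_mk_left x y) (by simp)
  have hxZ4 : Z4 s(x, y) = 0 := by
    by_contra h
    exact notMem_of_mem_del ((mem_Z1.1 hZ4).1 _ h) (Sym2.mem_mk_left x y) (by simp)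
  have hxZ' : Z' s(x, y) = 0 := by
    by_contra h
    exact notMem_of_mem_del ((mem_Z1.1 hZ').1 _ h) (Sym2.mem_mk_left x y) (by simp)
  have t3 : tri x y s₃ s(x, y) = 1 := by
    unfold tri; rw [chi_of_mem]; simp
  have t4 : tri x y s₄ s(x, y) = 1 := by
    unfold tri; rw [chi_of_mem]; simp
  have t' : chi ({s(x, y), s(x, s₂), s(s₂, s₁), s(s₁, y)} : Finset (Sym2 α)) s(x, y) = 1 :=
    chi_of_mem (by simp)
  refine hNPC.del (r := r) hr hz3 ?_ ?_
  · rw [hv3, hv2, hv1]; exact hv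
  · intro f
    have h1 : z s(x, y) f = Z3 f + Z4 f + Z' f := by rw [hsum]; rfl
    simp only [tor, t3, t4, t', hxZ3, hxZ4, hxZ', h1]
    ring_nf
    rw [show (2 : ZMod 2) = 0 from rfl]
    ring

end DL
end

section
/-!
MP_3ff0f8_gt, ALGEBRA HALF, NP block, module F4N (helper20)
-/
open SimpleGraph Finset

namespace DL

namespace F4NM

set_option linter.unusedSectionVars false

variable {α : Type} [Fintype α] [DecidableEq α] {G : SimpleGraph α} {x y : α}

/-- sum over the edges at a vertex -/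
theorem sum_at {v : α} (N : Finset α) (hN : ∀ w, G.Adj v w → w ∈ N) {c : Sym2 α → ZMod 2}
    (hc : ∀ e, c e ≠ 0 → e ∈ G.edgeSet) :
    ∑ f ∈ univ.filter (fun f => v ∈ f), c f = ∑ w ∈ N, c s(v, w) := by
  classical
  rw [← sum_image (s := N) (g := fun w => s(v, w)) (f := c) (fun a _ b _ h => by
    rcases Sym2.eq_iff.1 h with ⟨_, h⟩ | ⟨h1, h2⟩
    · exact h
    · exact h2.trans h1)]
  symm
  refine sum_subset ?_ ?_
  · intro e he
    obtain ⟨w, _, rfl⟩ := mem_image.1 he
    simp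
  · intro e he hne
    by_contra h
    obtain ⟨w, rfl⟩ := Sym2.mem_iff_exists.1 (mem_filter.1 he).2
    exact hne (mem_image.2 ⟨w, hN w (hc _ h), rfl⟩)

theorem contr_le {s : α} (hxs : G.Adj x s) (hys : G.Adj y s) (hxy : G.Adj x y) :
    contr G x y ≤ contr (delE G x s) x y ∧ contr G x y ≤ contr (delE G y s) x y := by
  have hsx := hxs.ne.symm
  have hsy := hys.ne.symm
  have hne := hxy.ne
  constructor
  · intro a b hab
    rw [contr_adj] at hab ⊢
    obtain ⟨ha, hb, hab', h⟩ := hab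
    refine ⟨ha, hb, hab', ?_⟩
    have hy1 : (delE G x s).Adj y s := by
      rw [delE_adj]
      refine ⟨hys, ?_⟩
      intro h; rcases Sym2.eq_iff.1 h with ⟨h, _⟩ | ⟨h, _⟩
      · exact hne h.symm
      · exact hsy h.symm
    have hy2 : ∀ c, G.Adj y c → (delE G x s).Adj y c := by
      intro c hc
      rw [delE_adj]
      refine ⟨hc, ?_⟩
      intro h; rcases Sym2.eq_iff.1 h with ⟨h, _⟩ | ⟨h, _⟩
      · exact hne h.symm
      · exact hsy h.symm
    rcases h with h | ⟨h1, h2⟩ | ⟨h1, h2⟩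
    · by_cases he : s(a, b) = s(x, s)
      · rcases Sym2.eq_iff.1 he with ⟨rfl, rfl⟩ | ⟨rfl, rfl⟩
        · exact Or.inr (Or.inl ⟨rfl, hy1⟩)
        · exact Or.inr (Or.inr ⟨rfl, hy1.symm⟩)
      · exact Or.inl (delE_adj.2 ⟨h, he⟩)
    · exact Or.inr (Or.inl ⟨h1, hy2 b h2⟩)
    · exact Or.inr (Or.inr ⟨h1, (hy2 a h2.symm).symm⟩)
  · intro a b hab
    rw [contr_adj] at hab ⊢
    obtain ⟨ha, hb, hab', h⟩ := hab
    refine ⟨ha, hb, hab', ?_⟩
    have h0 : ∀ c d, c ≠ y → d ≠ y → G.Adj c d → (delE G y s).Adj c d := by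
      intro c d hc hd hcd
      rw [delE_adj]
      refine ⟨hcd, ?_⟩
      intro h; rcases Sym2.eq_iff.1 h with ⟨h, _⟩ | ⟨_, h⟩
      · exact hc h
      · exact hd h
    have hy2 : ∀ c, G.Adj y c → c ≠ s → (delE G y s).Adj y c := by
      intro c hc hcs
      rw [delE_adj]
      refine ⟨hc, ?_⟩
      intro h; rcases Sym2.eq_iff.1 h with ⟨_, h⟩ | ⟨h, _⟩
      · exact hcs h
      · exact hsy h.symm
    rcases h with h | ⟨h1, h2⟩ | ⟨h1, h2⟩
    · exact Or.inl (h0 a b ha hb h)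
    · by_cases hbs : b = s
      · left
        rw [h1, hbs]
        exact h0 x s hne hsy hxs
      · exact Or.inr (Or.inl ⟨h1, hy2 b h2 hbs⟩)
    · by_cases has : a = s
      · left
        rw [h1, has]
        exact h0 s x hsy hne hxs.symm
      · exact Or.inr (Or.inr ⟨h1, (hy2 a h2.symm has).symm⟩)

theorem all' (hNPC : SpecNPC) {s : α} (hxs : G.Adj x s) (hys : G.Adj y s) (hxy : G.Adj x y)
    (h : NP (contr G x y)) : NP (delE G x s) ∧ NP (delE G y s) := by
  obtain ⟨h1, h2⟩ := contr_le hxs hys hxy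
  refine ⟨hNPC.up ?_ (hNPC.mono h1 h), hNPC.up ?_ (hNPC.mono h2 h)⟩
  · rw [delE_adj]
    refine ⟨hxy, ?_⟩
    intro h; rcases Sym2.eq_iff.1 h with ⟨_, h⟩ | ⟨_, h⟩
    · exact hys.ne h
    · exact hxy.ne h.symm
  · rw [delE_adj]
    refine ⟨hxy, ?_⟩
    intro h; rcases Sym2.eq_iff.1 h with ⟨h, _⟩ | ⟨h, _⟩
    · exact hxy.ne h
    · exact hxs.ne h

/-- the torus of `x c₂ … c₄` and `y c₁ … c₃` -/
theorem torus (hVKA : SpecVKA) (hKUR : SpecKUR) {c₁ c₂ c₃ c₄ : α} {P Q : Finset (Sym2 α)}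
    (hxy : x ≠ y) (hP : IsPth (del G {x, y}) c₁ c₃ P) (hQ : IsPth (del G {x, y}) c₂ c₄ Q)
    (hPQ : Disjoint (insert c₁ (vs P)) (insert c₂ (vs Q)))
    (h1 : G.Adj y c₁) (h3 : G.Adj y c₃) (h13 : c₁ ≠ c₃)
    (h2 : G.Adj x c₂) (h4 : G.Adj x c₄) (h24 : c₂ ≠ c₄)
    (hx1 : x ≠ c₁) (hx3 : x ≠ c₃) (hy2 : y ≠ c₂) (hy4 : y ≠ c₄) :
    ∃ T : Sym2 α → Sym2 α → ZMod 2, IsZ2 G T ∧ (∀ r : α → ℕ, Function.Injective r → vk r T = 0) ∧
      ∀ v w, T s(x, v) s(y, w) = (if v = c₂ ∨ v = c₄ then 1 else 0) * (if w = c₁ ∨ w = c₃ then 1 else 0) := by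
  have hPv := vs_of_isPth_del hP
  have hQv := vs_of_isPth_del hQ
  have hxP : x ∉ vs P := fun h => Finset.disjoint_left.1 hPv h (by simp)
  have hyP : y ∉ vs P := fun h => Finset.disjoint_left.1 hPv h (by simp)
  have hxQ : x ∉ vs Q := fun h => Finset.disjoint_left.1 hQv h (by simp)
  have hyQ : y ∉ vs Q := fun h => Finset.disjoint_left.1 hQv h (by simp)
  have hP3 : c₃ ∈ insert c₁ (vs P) := hP.end_mem
  have hQ4 : c₄ ∈ insert c₂ (vs Q) := hQ.end_mem
  have hC1 := isCyc_of_isPth_del h1 h3 h13 (hP.mono (del_anti (S := {y}) (by simp)))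
  have hC2 := isCyc_of_isPth_del h2 h4 h24 (hQ.mono (del_anti (S := {x}) (by simp)))
  set t := chi (insert s(x, c₂) (insert s(x, c₄) Q)) with ht
  set Z := chi (insert s(y, c₁) (insert s(y, c₃) P)) with hZ
  have htP : ∀ e v, t e ≠ 0 → v ∈ e → v ∈ insert x (insert c₂ (vs Q)) := by
    intro e v he hv
    rw [ht, chi_ne_zero] at he
    simp only [mem_insert] at he
    rcases he with rfl | rfl | he
    · rw [Sym2.mem_iff] at hv
      rcases hv with rfl | rfl <;> simp
    · rw [Sym2.mem_iff] at hv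
      rcases hv with rfl | rfl
      · simp
      · exact mem_insert_of_mem hQ4
    · exact mem_insert_of_mem (mem_insert_of_mem (mem_vs.2 ⟨e, he, hv⟩))
  have hZP : ∀ e v, Z e ≠ 0 → v ∈ e → v ∈ insert y (insert c₁ (vs P)) := by
    intro e v he hv
    rw [hZ, chi_ne_zero] at he
    simp only [mem_insert] at he
    rcases he with rfl | rfl | he
    · rw [Sym2.mem_iff] at hv
      rcases hv with rfl | rfl <;> simp
    · rw [Sym2.mem_iff] at hv
      rcases hv with rfl | rfl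
      · simp
      · exact mem_insert_of_mem hP3
    · exact mem_insert_of_mem (mem_insert_of_mem (mem_vs.2 ⟨e, he, hv⟩))
  have hd : Disjoint (insert x (insert c₂ (vs Q))) (insert y (insert c₁ (vs P))) := by
    rw [disjoint_insert_left, disjoint_insert_right]
    refine ⟨?_, ?_, hPQ.symm⟩
    · simp only [mem_insert, not_or]; exact ⟨hxy, hx1, hxP⟩
    · simp only [mem_insert, not_or]; exact ⟨hy2, hyQ⟩
  refine ⟨tor t Z, hKUR.tor _ _ hC2.chi_mem hC1.chi_mem htP hZP hd, fun r hr =>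
    hVKA.tor _ _ hr hC2.chi_mem hC1.chi_mem htP hZP hd, ?_⟩
  intro v w
  unfold tor
  have e1 : Z s(x, v) = 0 := by
    by_contra h
    have := hZP _ x h (Sym2.mem_mk_left x v)
    simp only [mem_insert] at this
    rcases this with h | h | h
    · exact hxy h
    · exact hx1 h
    · exact hxP h
  have e2 : t s(x, v) = if v = c₂ ∨ v = c₄ then 1 else 0 := by
    rw [ht, chi_apply]
    congr 1
    rw [eq_iff_iff]
    simp only [mem_insert, Sym2.eq_iff]
    constructor
    · rintro ((⟨_, h⟩ | ⟨h, _⟩) | (⟨_, h⟩ | ⟨h, _⟩) | h)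
      · exact Or.inl h
      · exact absurd h h2.ne
      · exact Or.inr h
      · exact absurd h h4.ne
      · exact absurd (left_mem_vs h) hxQ
    · rintro (h | h)
      · exact Or.inl (Or.inl ⟨trivial, h⟩)
      · exact Or.inr (Or.inl (Or.inl ⟨trivial, h⟩))
  have e3 : Z s(y, w) = if w = c₁ ∨ w = c₃ then 1 else 0 := by
    rw [hZ, chi_apply]
    congr 1
    rw [eq_iff_iff]
    simp only [mem_insert, Sym2.eq_iff]
    constructor
    · rintro ((⟨_, h⟩ | ⟨h, _⟩) | (⟨_, h⟩ | ⟨h, _⟩) | h)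
      · exact Or.inl h
      · exact absurd h h1.ne
      · exact Or.inr h
      · exact absurd h h3.ne
      · exact absurd (left_mem_vs h) hyP
    · rintro (h | h)
      · exact Or.inl (Or.inl ⟨trivial, h⟩)
      · exact Or.inr (Or.inl (Or.inl ⟨trivial, h⟩))
  rw [e1, e2, e3]
  ring

theorem zero_of_not_dj {z : Sym2 α → Sym2 α → ZMod 2} (hz : IsZ2 G z) {e f : Sym2 α} {v : α}
    (h1 : v ∈ e) (h2 : v ∈ f) : z e f = 0 := by
  by_contra h
  exact (hz.2.1 e f h).2.2 v ⟨h1, h2⟩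

/-- the values of a 2-cycle on (edges at `x`) × (edges at `y`) -/
theorem matrix {s₁ s₂ s₃ s₄ : α} (h33 : P33 G x y s₁ s₂ s₃ s₄) {z : Sym2 α → Sym2 α → ZMod 2}
    (hz : IsZ2 G z) :
    z s(x, s₃) s(y, s₁) = z s(x, s₃) s(y, s₄) ∧ z s(x, s₂) s(y, s₄) = z s(x, s₃) s(y, s₄) ∧
    z s(x, s₄) s(y, s₁) = z s(x, s₄) s(y, s₃) ∧ z s(x, s₂) s(y, s₃) = z s(x, s₄) s(y, s₃) ∧
    z s(x, s₂) s(y, s₁) = z s(x, s₃) s(y, s₄) + z s(x, s₄) s(y, s₃) ∧
    z s(x, s₃) s(y, s₃) = 0 ∧ z s(x, s₄) s(y, s₄) = 0 := by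
  have hnd := h33.nd
  simp only [List.nodup_cons, List.mem_cons, not_or, List.not_mem_nil, not_false_eq_true,
    List.nodup_nil, and_true] at hnd
  obtain ⟨⟨hxy, hx1, hx2, hx3, hx4⟩, ⟨hy1, hy2, hy3, hy4⟩, ⟨h12, h13, h14⟩, ⟨h23, h24⟩, h34⟩ := hnd
  have z33 : z s(x, s₃) s(y, s₃) = 0 := zero_of_not_dj hz (Sym2.mem_mk_right _ _) (Sym2.mem_mk_right _ _)
  have z44 : z s(x, s₄) s(y, s₄) = 0 := zero_of_not_dj hz (Sym2.mem_mk_right _ _) (Sym2.mem_mk_right _ _)
  -- rows
  have row : ∀ s, s ≠ y → z s(x, s) s(y, s₁) + z s(x, s) s(y, s₃) + z s(x, s) s(y, s₄) = 0 := by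
    intro s hs
    have h := hz.2.2 s(x, s) y (by rw [Sym2.mem_iff, not_or]; exact ⟨Ne.symm hxy, Ne.symm hs⟩)
    rw [sum_at {x, s₁, s₃, s₄} (fun w hw => by
      simp only [mem_insert, mem_singleton]; exact (h33.ny w).1 hw)
      (fun e he => (hz.2.1 _ e he).2.1), sum_insert, sum_insert, sum_insert, sum_singleton] at h
    · rw [zero_of_not_dj hz (e := s(x, s)) (f := s(y, x)) (v := x) (by simp) (by simp), zero_add] at h
      rw [add_assoc]; exact h
    · simpa using h34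
    · simp only [mem_insert, mem_singleton, not_or]; exact ⟨h13, h14⟩
    · simp only [mem_insert, mem_singleton, not_or]; exact ⟨hx1, hx3, hx4⟩
  have col : ∀ s, s ≠ x → z s(x, s₂) s(y, s) + z s(x, s₃) s(y, s) + z s(x, s₄) s(y, s) = 0 := by
    intro s hs
    have h := hz.2.2 s(y, s) x (by rw [Sym2.mem_iff, not_or]; exact ⟨hxy, Ne.symm hs⟩)
    rw [sum_at {y, s₂, s₃, s₄} (fun w hw => by
      simp only [mem_insert, mem_singleton]; exact (h33.nx w).1 hw)
      (fun e he => (hz.2.1 _ e he).2.1), sum_insert, sum_insert, sum_insert, sum_singleton] at h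
    · rw [zero_of_not_dj hz (e := s(y, s)) (f := s(x, y)) (v := y) (by simp) (by simp), zero_add] at h
      rw [add_assoc, hz.1 s(x, s₂), hz.1 s(x, s₃), hz.1 s(x, s₄)]; exact h
    · simpa using h34
    · simp only [mem_insert, mem_singleton, not_or]; exact ⟨h23, h24⟩
    · simp only [mem_insert, mem_singleton, not_or]; exact ⟨hy2, hy3, hy4⟩
  have r3 := row s₃ (Ne.symm hy3)
  have r4 := row s₄ (Ne.symm hy4)
  have c3 := col s₃ (Ne.symm hx3)
  have c4 := col s₄ (Ne.symm hx4)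
  have c1 := col s₁ (Ne.symm hx1)
  rw [z33] at r3 c3
  rw [z44] at r4 c4
  have k1 : ∀ a b : ZMod 2, a + 0 + b = 0 → a = b := by decide
  have k2 : ∀ a b : ZMod 2, a + b + 0 = 0 → a = b := by decide
  have k3 : ∀ a b c : ZMod 2, a + b + c = 0 → a = b + c := by decide
  have g1 := k1 _ _ r3
  have g2 := k2 _ _ c4
  have g3 := k2 _ _ r4
  have g4 := k1 _ _ c3
  have g5 := k3 _ _ _ c1
  rw [g1, g3] at g5
  exact ⟨g1, g2, g3, g4, g5, z33, z44⟩

/-- the cases `(0, 0)`, `(0, 1)`, `(1, 0)` -/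
theorem easy (hNPC : SpecNPC) {s₁ s₂ s₃ s₄ : α} (h33 : P33 G x y s₁ s₂ s₃ s₄)
    {z : Sym2 α → Sym2 α → ZMod 2} (hz : IsZ2 G z) {r : α → ℕ} (hr : Function.Injective r)
    (hvk : vk r z ≠ 0) (h : z s(x, s₃) s(y, s₄) = 0 ∨ z s(x, s₄) s(y, s₃) = 0) :
    (NP (delE G x s₃) ∧ NP (delE G y s₄)) ∨ (NP (delE G x s₄) ∧ NP (delE G y s₃)) := by
  obtain ⟨g1, g2, g3, g4, g5, z33, z44⟩ := matrix h33 hz
  have hnd := h33.nd
  simp only [List.nodup_cons, List.mem_cons, not_or, List.not_mem_nil, not_false_eq_true,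
    List.nodup_nil, and_true] at hnd
  obtain ⟨⟨hxy, hx1, hx2, hx3, hx4⟩, ⟨hy1, hy2, hy3, hy4⟩, ⟨h12, h13, h14⟩, ⟨h23, h24⟩, h34⟩ := hnd
  have axy : G.Adj x y := (h33.nx y).2 (Or.inl rfl)
  have ax3 : G.Adj x s₃ := (h33.nx s₃).2 (by tauto)
  have ax4 : G.Adj x s₄ := (h33.nx s₄).2 (by tauto)
  have ay3 : G.Adj y s₃ := (h33.ny s₃).2 (by tauto)
  have ay4 : G.Adj y s₄ := (h33.ny s₄).2 (by tauto)
  -- rows which avoid y
  have hrow : ∀ s, z s(x, s) s(y, s₁) = 0 → z s(x, s) s(y, s₃) = 0 → z s(x, s) s(y, s₄) = 0 →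
      ∀ f, y ∈ f → z s(x, s) f = 0 := by
    intro s e1 e3 e4 f hf
    obtain ⟨w, rfl⟩ := Sym2.mem_iff_exists.1 hf
    by_contra hne
    rcases (h33.ny w).1 (hz.2.1 _ _ hne).2.1 with rfl | rfl | rfl | rfl
    · exact hne (zero_of_not_dj hz (v := w) (by simp) (by simp))
    · exact hne e1
    · exact hne e3
    · exact hne e4
  have hcol : ∀ s, z s(x, s₂) s(y, s) = 0 → z s(x, s₃) s(y, s) = 0 → z s(x, s₄) s(y, s) = 0 →
      ∀ f, x ∈ f → z s(y, s) f = 0 := by
    intro s e2 e3 e4 f hf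
    obtain ⟨w, rfl⟩ := Sym2.mem_iff_exists.1 hf
    by_contra hne
    rw [hz.1] at hne
    rcases (h33.nx w).1 (hz.2.1 _ _ hne).1 with rfl | rfl | rfl | rfl
    · exact hne (zero_of_not_dj hz (v := w) (by simp) (by simp))
    · exact hne e2
    · exact hne e3
    · exact hne e4
  by_cases hp : z s(x, s₃) s(y, s₄) = 0
  · by_cases hq : z s(x, s₄) s(y, s₃) = 0
    · -- (0, 0)
      left
      have hZ : Zab x y z := by
        intro e f hxe hyf hne1 hne2
        obtain ⟨v, rfl⟩ := Sym2.mem_iff_exists.1 hxe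
        by_contra hne
        rcases (h33.nx v).1 (hz.2.1 _ _ hne).1 with rfl | rfl | rfl | rfl
        · exact hne1 rfl
        · exact hne (hrow v (by rw [g5, hp, hq, add_zero]) (by rw [g4, hq]) (by rw [g2, hp]) f hyf)
        · exact hne (hrow v (by rw [g1, hp]) z33 hp f hyf)
        · exact hne (hrow v (by rw [g3, hq]) hq z44 f hyf)
      have h1 := (hNPC.down hr hz hvk axy hZ).1
      exact ⟨(all' hNPC ax3 ay3 axy h1).1, (all' hNPC ax4 ay4 axy h1).2⟩
    · left
      refine ⟨hNPC.tdel hr hz hvk ax3 axy ay3.symm (hrow s₃ (by rw [g1, hp]) z33 hp),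
        hNPC.tdel hr hz hvk ay4 axy.symm ax4.symm (hcol s₄ (by rw [g2, hp]) hp z44)⟩
  · have hq : z s(x, s₄) s(y, s₃) = 0 := by tauto
    right
    exact ⟨hNPC.tdel hr hz hvk ax4 axy ay4.symm (hrow s₄ (by rw [g3, hq]) hq z44),
      hNPC.tdel hr hz hvk ay3 axy.symm ax3.symm (hcol s₃ (by rw [g4, hq]) z33 hq)⟩

end F4NM

open F4NM in
theorem specF4N (hVKA : SpecVKA) (hNPC : SpecNPC) (hKUR : SpecKUR) : SpecF4N where
  all := by
    intro α _ _ G x y s₁ s₂ s₃ s₄ _ h33 h
    have axy : G.Adj x y := (h33.nx y).2 (Or.inl rfl)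
    have ax3 : G.Adj x s₃ := (h33.nx s₃).2 (by tauto)
    have ax4 : G.Adj x s₄ := (h33.nx s₄).2 (by tauto)
    have ay3 : G.Adj y s₃ := (h33.ny s₃).2 (by tauto)
    have ay4 : G.Adj y s₄ := (h33.ny s₄).2 (by tauto)
    have h3 := all' hNPC ax3 ay3 axy h
    have h4 := all' hNPC ax4 ay4 axy h
    exact ⟨h3.1, h4.1, h3.2, h4.2⟩
  or := by
    intro α _ _ G x y s₁ s₂ s₃ s₄ hK h33 hNP
    obtain ⟨r, hr, z, hz, hvk⟩ := hNP
    by_cases h : z s(x, s₃) s(y, s₄) = 0 ∨ z s(x, s₄) s(y, s₃) = 0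
    · exact easy hNPC h33 hz hr hvk h
    · rw [not_or] at h
      obtain ⟨hp, hq⟩ := h
      replace hp := zmod2_ne_zero.1 hp
      replace hq := zmod2_ne_zero.1 hq
      have hnd := h33.nd
      simp only [List.nodup_cons, List.mem_cons, not_or, List.not_mem_nil, not_false_eq_true,
        List.nodup_nil, and_true] at hnd
      obtain ⟨⟨hxy, hx1, hx2, hx3, hx4⟩, ⟨hy1, hy2, hy3, hy4⟩, ⟨h12, h13, h14⟩, ⟨h23, h24⟩, h34⟩ := hnd
      have ax2 : G.Adj x s₂ := (h33.nx s₂).2 (by tauto)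
      have ax3 : G.Adj x s₃ := (h33.nx s₃).2 (by tauto)
      have ax4 : G.Adj x s₄ := (h33.nx s₄).2 (by tauto)
      have ay1 : G.Adj y s₁ := (h33.ny s₁).2 (by tauto)
      have ay3 : G.Adj y s₃ := (h33.ny s₃).2 (by tauto)
      have ay4 : G.Adj y s₄ := (h33.ny s₄).2 (by tauto)
      have hH : KConn 2 (del G {x, y}) := hK.1.del_pair (by norm_num) x y
      have hVS : VS (del G {x, y}) = VS G \ {x, y} := hK.1.VS_del (by rw [card_pair hxy]; norm_num)
      have hmem : ∀ s, s ∈ VS G → x ≠ s → y ≠ s → s ∈ VS (del G {x, y}) := by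
        intro s hs h1 h2
        rw [hVS, mem_sdiff]
        simp only [mem_insert, mem_singleton, not_or]
        exact ⟨hs, Ne.symm h1, Ne.symm h2⟩
      obtain ⟨c, d, P, Q, hcd, hP, hQ, hPQ⟩ := hH.two_paths (hmem s₁ (right_mem_VS ay1) hx1 hy1)
        (hmem s₂ (right_mem_VS ax2) hx2 hy2) (hmem s₃ (right_mem_VS ax3) hx3 hy3)
        (hmem s₄ (right_mem_VS ax4) hx4 hy4) h12 h34
      rcases hcd with ⟨rfl, rfl⟩ | ⟨rfl, rfl⟩
      · obtain ⟨T, hT, hvT, hTv⟩ := torus hVKA hKUR hxy hP hQ hPQ ay1 ay3 h13 ax2 ax4 h24 hx1 hx3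
          hy2 hy4
        refine easy hNPC h33 (hKUR.zadd hz hT) hr (by rw [hVKA.add, hvT r hr, add_zero]; exact hvk) ?_
        right
        show z s(x, d) s(y, c) + T s(x, d) s(y, c) = 0
        rw [hq, hTv]
        simp only [or_true, if_true, mul_one]
        decide
      · obtain ⟨T, hT, hvT, hTv⟩ := torus hVKA hKUR hxy hP hQ hPQ ay1 ay4 h14 ax2 ax3 h23 hx1 hx4
          hy2 hy3
        refine easy hNPC h33 (hKUR.zadd hz hT) hr (by rw [hVKA.add, hvT r hr, add_zero]; exact hvk) ?_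
        left
        show z s(x, d) s(y, c) + T s(x, d) s(y, c) = 0
        rw [hp, hTv]
        simp only [or_true, if_true, mul_one]
        decide

end DL
end

section
/-!
MP_3ff0f8_gt, ALGEBRA HALF, NP block: module G1N (helper56).
-/
open SimpleGraph Finset

namespace DL
namespace G1NM

variable {α : Type} [Fintype α] [DecidableEq α] {G : SimpleGraph α}

/-- a triangle is in the cycle space -/
theorem tri_mem {a b c : α} (hab : G.Adj a b) (hac : G.Adj a c) (hbc : G.Adj b c) :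
    tri a b c ∈ Z1 G := by
  have h1 : IsPth G b c {s(b, c)} := IsPth.edge hbc
  have h2 : IsPth G a c (insert s(a, b) {s(b, c)}) := h1.cons hab (by
    rw [vs_singleton]; simp [hab.ne, hac.ne])
  have h3 : IsCyc G (insert s(a, c) (insert s(a, b) {s(b, c)})) := h2.isCyc hac (by
    simp only [mem_insert, mem_singleton, Sym2.eq_iff, not_or, not_and]
    refine ⟨⟨fun _ h => hbc.ne h.symm, fun h => absurd h hab.ne⟩, ⟨fun h => absurd h hab.ne,
      fun h => absurd h hac.ne⟩⟩)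
  have h4 : (insert s(a, c) (insert s(a, b) {s(b, c)}) : Finset (Sym2 α)) =
      {s(a, b), s(b, c), s(a, c)} := by
    ext e; simp only [mem_insert, mem_singleton]; tauto
  rw [h4] at h3
  exact h3.chi_mem

theorem tri_vertex {a b c : α} {e : Sym2 α} {v : α} (h : tri a b c e ≠ 0) (hv : v ∈ e) :
    v ∈ ({a, b, c} : Finset α) := by
  have h' := chi_ne_zero.1 h
  simp only [mem_insert, mem_singleton] at h' ⊢
  rcases h' with rfl | rfl | rfl <;> rw [Sym2.mem_iff] at hv <;> tauto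

/-- adding the torus of a triangle -/
theorem add_tor (hVKA : SpecVKA) (hKUR : SpecKUR) {a b c : α} (hab : G.Adj a b) (hac : G.Adj a c)
    (hbc : G.Adj b c) {r : α → ℕ} (hr : Function.Injective r) {z : Sym2 α → Sym2 α → ZMod 2}
    (hz : IsZ2 G z) (hv : vk r z ≠ 0) {Z : Chain α} (hZ : Z ∈ Z1 (del G {a, b, c})) :
    IsZ2 G (fun e f => z e f + tor (tri a b c) Z e f) ∧
      vk r (fun e f => z e f + tor (tri a b c) Z e f) ≠ 0 := by
  have hP : ∀ e v, tri a b c e ≠ 0 → v ∈ e → v ∈ ({a, b, c} : Finset α) :=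
    fun e v he hve => tri_vertex he hve
  have hQ : ∀ e v, Z e ≠ 0 → v ∈ e → v ∈ (univ \ {a, b, c} : Finset α) := by
    intro e v he hve
    have h1 := hZ.1 e he
    obtain ⟨w, rfl⟩ := Sym2.mem_iff_exists.1 hve
    exact mem_sdiff.2 ⟨mem_univ _, h1.2.1⟩
  have hD : Disjoint ({a, b, c} : Finset α) (univ \ {a, b, c}) := disjoint_sdiff
  have hZ' : Z ∈ Z1 G := Z1_mono (del_le G _) hZ
  have ht := tri_mem hab hac hbc
  refine ⟨hKUR.zadd hz (hKUR.tor _ _ ht hZ' hP hQ hD), ?_⟩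
  rw [hVKA.add, hVKA.tor _ _ hr ht hZ' hP hQ hD, add_zero]
  exact hv

/-- one side of the separation is a single vertex -/
theorem side (hNBF : SpecNBF) {x y s₁ s p q : α} (hG : KConn 4 G)
    (hx : ∀ w, G.Adj x w → w = y ∨ w = s ∨ w = p ∨ w = q)
    (hy : ∀ w, G.Adj y w → w = x ∨ w = s₁ ∨ w = s ∨ w = p ∨ w = q) {S P Q : Finset α}
    (hS : S ⊆ {s₁, x, y, s}) (hS' : ∀ v ∈ VS G, v ∈ ({s₁, x, y, s} : Finset α) → v ∈ S)
    (h : Sep G S P Q) (hp : p ∈ P) (hq : q ∈ Q) : P = {p} := by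
  by_contra hne
  have hA : (P.erase p).Nonempty := by
    rw [Finset.nonempty_iff_ne_empty]
    intro h0
    apply hne
    rw [Finset.erase_eq_empty_iff] at h0
    rcases h0 with h0 | h0
    · rw [h0] at hp; exact absurd hp (notMem_empty _)
    · exact h0
  have hPQ := Finset.disjoint_left.1 h.2.2.2.1
  have hSP := Finset.disjoint_left.1 h.2.1
  have hSQ := Finset.disjoint_left.1 h.2.2.1
  have hNB : NB G (P.erase p) ⊆ {p, s, s₁} := by
    intro w hw
    simp only [NB, mem_filter, mem_univ, true_and] at hw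
    obtain ⟨hwA, a, ha, haw⟩ := hw
    have haP := mem_of_mem_erase ha
    have hap := ne_of_mem_erase ha
    have haV := h.subP haP
    have haS : a ∉ ({s₁, x, y, s} : Finset α) := fun h' => hSP (hS' a haV h') haP
    have haq : a ≠ q := fun h' => hPQ haP (h' ▸ hq)
    simp only [mem_insert, mem_singleton, not_or] at haS ⊢
    rcases h.mem_or (right_mem_VS haw) with h' | h' | h'
    · have := hS h'
      simp only [mem_insert, mem_singleton] at this
      rcases this with rfl | rfl | rfl | rfl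
      · exact Or.inr (Or.inr rfl)
      · rcases hx a haw.symm with h1 | h1 | h1 | h1
        · exact absurd h1 haS.2.2.1
        · exact absurd h1 haS.2.2.2
        · exact absurd h1 hap
        · exact absurd h1 haq
      · rcases hy a haw.symm with h1 | h1 | h1 | h1 | h1
        · exact absurd h1 haS.2.1
        · exact absurd h1 haS.1
        · exact absurd h1 haS.2.2.2
        · exact absurd h1 hap
        · exact absurd h1 haq
      · exact Or.inr (Or.inl rfl)
    · by_cases hwp : w = p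
      · exact Or.inl hwp
      · exact absurd (mem_erase.2 ⟨hwp, h'⟩) hwA
    · exact absurd haw (h.2.2.2.2 a haP w h')
  have h1 := hNBF.nb hG (fun v hv => h.subP (mem_of_mem_erase hv)) hA
    (lt_of_le_of_lt (card_le_card hNB) (lt_of_le_of_lt card_le_three (by norm_num)))
  have h2 := h1 (h.subQ hq)
  rw [mem_union] at h2
  rcases h2 with h2 | h2
  · exact hPQ (mem_of_mem_erase h2) hq
  · have h3 := hNB h2
    simp only [mem_insert, mem_singleton] at h3
    rcases h3 with h3 | h3 | h3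
    · exact hPQ hp (h3 ▸ hq)
    · exact hSQ (hS' q (h.subQ hq) (by simp [h3])) hq
    · exact hSQ (hS' q (h.subQ hq) (by simp [h3])) hq

/-- `{x, y, s, s₁}` does not separate -/
theorem conn (hNBF : SpecNBF) {x y s₁ s p q : α} (hG : K48 G) (hxs : x ∈ VS G)
    (hx : ∀ w, G.Adj x w → w = y ∨ w = s ∨ w = p ∨ w = q)
    (hy : ∀ w, G.Adj y w → w = x ∨ w = s₁ ∨ w = s ∨ w = p ∨ w = q) :
    ConnOff G (insert s₁ {x, y, s}) := by
  intro a ha b hb haS hbS
  by_contra hr
  obtain ⟨P, Q, h, haP, hbQ, -⟩ := exists_sep_of_not_reachable ha hb haS hbS hr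
  have hcard : (insert s₁ {x, y, s} ∩ VS G).card ≤ 4 := by
    refine (card_le_card inter_subset_left).trans ?_
    exact (card_insert_le _ _).trans (Nat.succ_le_succ card_le_three)
  have hxS : x ∈ insert s₁ {x, y, s} ∩ VS G := mem_inter.2 ⟨by simp, hxs⟩
  have hS' : ∀ v ∈ VS G, v ∈ ({s₁, x, y, s} : Finset α) → v ∈ insert s₁ {x, y, s} ∩ VS G :=
    fun v hv hv' => mem_inter.2 ⟨hv', hv⟩
  obtain ⟨p', hp', hxp⟩ := hG.1.exists_adj_of_sep h ⟨a, haP⟩ hcard hxS
  obtain ⟨q', hq', hxq⟩ := hG.1.exists_adj_of_sep h.symm ⟨b, hbQ⟩ hcard hxS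
  have hPQ := Finset.disjoint_left.1 h.2.2.2.1
  have hSP := Finset.disjoint_left.1 h.2.1
  have hSQ := Finset.disjoint_left.1 h.2.2.1
  have h1 : p' = p ∨ p' = q := by
    have hn : p' ∉ ({s₁, x, y, s} : Finset α) := fun h' => hSP (hS' _ (h.subP hp') h') hp'
    simp only [mem_insert, mem_singleton, not_or] at hn
    rcases hx p' hxp with h' | h' | h' | h'
    · exact absurd h' hn.2.2.1
    · exact absurd h' hn.2.2.2
    · exact Or.inl h'
    · exact Or.inr h'
  have h2 : q' = p ∨ q' = q := by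
    have hn : q' ∉ ({s₁, x, y, s} : Finset α) := fun h' => hSQ (hS' _ (h.subQ hq') h') hq'
    simp only [mem_insert, mem_singleton, not_or] at hn
    rcases hx q' hxq with h' | h' | h' | h'
    · exact absurd h' hn.2.2.1
    · exact absurd h' hn.2.2.2
    · exact Or.inl h'
    · exact Or.inr h'
  have hne : p' ≠ q' := fun h' => hPQ hp' (h' ▸ hq')
  have hfin : ∀ p₀ q₀ : α, p₀ ∈ P → q₀ ∈ Q →
      (∀ w, G.Adj x w → w = y ∨ w = s ∨ w = p₀ ∨ w = q₀) →
      (∀ w, G.Adj y w → w = x ∨ w = s₁ ∨ w = s ∨ w = p₀ ∨ w = q₀) → False := by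
    intro p₀ q₀ hp hq hx' hy'
    have e1 := side hNBF hG.1 hx' hy' inter_subset_left hS' h hp hq
    have e2 := side hNBF hG.1 (fun w hw => by have := hx' w hw; tauto)
      (fun w hw => by have := hy' w hw; tauto) inter_subset_left hS' h.symm hq hp
    have h3 := h.1
    have h4 := hG.2
    rw [← h3] at h4
    have h5 := card_union_le ((insert s₁ {x, y, s} ∩ VS G) ∪ P) Q
    have h6 := card_union_le (insert s₁ {x, y, s} ∩ VS G) P
    rw [e1, card_singleton] at h6
    rw [e1, e2, card_singleton] at h5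
    rw [e1, e2] at h4
    omega
  rcases h1 with rfl | rfl <;> rcases h2 with rfl | rfl
  · exact hne rfl
  · exact hfin _ _ hp' hq' hx hy
  · exact hfin _ _ hp' hq' (fun w hw => by have := hx w hw; tauto)
      (fun w hw => by have := hy w hw; tauto)
  · exact hne rfl

/-- the row of `ys` made zero at `s₁` -/
theorem step (hVKA : SpecVKA) (hKUR : SpecKUR) (hTRC : SpecTRC) {x y s₁ s : α} (hxy : G.Adj x y)
    (hxs : G.Adj x s) (hys : G.Adj y s) (hx₁ : ¬ G.Adj x s₁) (hy₁ : y ≠ s₁) (h₁x : s₁ ≠ x)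
    (h₁ : s₁ ≠ s) (hc : ConnOff G (insert s₁ {x, y, s})) {r : α → ℕ} (hr : Function.Injective r)
    {z : Sym2 α → Sym2 α → ZMod 2} (hz : IsZ2 G z) (hv : vk r z ≠ 0) :
    ∃ z' : Sym2 α → Sym2 α → ZMod 2, IsZ2 G z' ∧ vk r z' ≠ 0 ∧
      (∀ f, s₁ ∈ f → z' s(y, s) f = 0) ∧ ∀ w, w ≠ s → w ≠ x → ∀ f, z' s(y, w) f = z s(y, w) f := by
  classical
  have hnot : s₁ ∉ ({x, y, s} : Finset α) := by simp [h₁x, hy₁.symm, h₁]
  obtain ⟨Z, hZ, hZT⟩ := hTRC G {x, y, s} s₁ hnot hc (fun f => if s₁ ∈ f then z s(y, s) f else 0)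
    (by
      intro e he
      have hs : s₁ ∈ e := by
        by_contra h'; exact he (if_neg h')
      simp only [hs, if_true] at he
      obtain ⟨-, h2, h3⟩ := hz.2.1 _ _ he
      refine ⟨?_, hs⟩
      obtain ⟨w, rfl⟩ := Sym2.mem_iff_exists.1 hs
      have hw : G.Adj s₁ w := h2
      refine ⟨hw, hnot, ?_⟩
      simp only [mem_insert, mem_singleton, not_or]
      refine ⟨?_, ?_, ?_⟩
      · rintro rfl; exact hx₁ hw.symm
      · rintro rfl; exact h3 w ⟨by simp, by simp⟩
      · rintro rfl; exact h3 w ⟨by simp, by simp⟩)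
    (by
      have := hz.2.2 s(y, s) s₁ (by
        rw [Sym2.mem_iff, not_or]; exact ⟨hy₁.symm, h₁⟩)
      rw [sum_filter] at this
      convert this using 2)
  have hZy : ∀ w, Z s(y, w) = 0 := by
    intro w
    by_contra h'
    exact (hZ.1 _ h').2.1 (by simp)
  have ht : tri x y s s(y, s) = 1 := chi_of_mem (by simp)
  obtain ⟨h1, h2⟩ := add_tor hVKA hKUR hxy hxs hys hr hz hv hZ
  refine ⟨_, h1, h2, ?_, ?_⟩
  · intro f hf
    have := hZT f hf
    simp only [hf, if_true] at this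
    simp only [tor, ht, hZy, this, one_mul, zero_mul, add_zero]
    exact zmod2_add_self _
  · intro w hws hwx f
    have h0 : tri x y s s(y, w) = 0 := by
      apply chi_of_notMem
      simp only [mem_insert, mem_singleton, Sym2.eq_iff, not_or, not_and]
      refine ⟨⟨fun h' => absurd h' hxy.ne', fun _ h' => hwx h'⟩, ⟨fun _ h' => hws h', fun h' => absurd h' hys.ne⟩,
        ⟨fun h' => absurd h' hxy.ne', fun h' => absurd h' hys.ne⟩⟩
    simp only [tor, h0, hZy, zero_mul, add_zero]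

end G1NM

open G1NM in
theorem specG1N (hVKA : SpecVKA) (hKUR : SpecKUR) (hNPC : SpecNPC) (hNBF : SpecNBF)
    (hTRC : SpecTRC) : SpecG1N := by
  intro α _ _ G x y s₁ s₂ s₃ s₄ hG hP hNP
  have hnd := hP.nd
  simp only [List.nodup_cons, List.mem_cons, List.not_mem_nil, or_false, not_or, List.nodup_nil,
    and_true, not_false_eq_true] at hnd
  obtain ⟨⟨nxy, nx1, nx2, nx3, nx4⟩, ⟨ny1, ny2, ny3, ny4⟩, ⟨n12, n13, n14⟩, ⟨n23, n24⟩, n34⟩ := hnd
  have axy : G.Adj x y := (hP.nx y).2 (Or.inl rfl)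
  have ax2 : G.Adj x s₂ := (hP.nx s₂).2 (by simp)
  have ax3 : G.Adj x s₃ := (hP.nx s₃).2 (by simp)
  have ax4 : G.Adj x s₄ := (hP.nx s₄).2 (by simp)
  have ay1 : G.Adj y s₁ := (hP.ny s₁).2 (by simp)
  have ay2 : G.Adj y s₂ := (hP.ny s₂).2 (by simp)
  have ay3 : G.Adj y s₃ := (hP.ny s₃).2 (by simp)
  have ay4 : G.Adj y s₄ := (hP.ny s₄).2 (by simp)
  have hx1 : ¬ G.Adj x s₁ := by
    rw [hP.nx]
    rintro (h | h | h | h)
    · exact ny1 h.symm
    · exact n12 h
    · exact n13 h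
    · exact n14 h
  have hxV : x ∈ VS G := left_mem_VS axy
  have c2 : ConnOff G (insert s₁ {x, y, s₂}) := conn (p := s₃) (q := s₄) hNBF hG hxV
    (fun w hw => by have := (hP.nx w).1 hw; tauto) (fun w hw => by have := (hP.ny w).1 hw; tauto)
  have c3 : ConnOff G (insert s₁ {x, y, s₃}) := conn (p := s₂) (q := s₄) hNBF hG hxV
    (fun w hw => by have := (hP.nx w).1 hw; tauto) (fun w hw => by have := (hP.ny w).1 hw; tauto)
  have c4 : ConnOff G (insert s₁ {x, y, s₄}) := conn (p := s₂) (q := s₃) hNBF hG hxV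
    (fun w hw => by have := (hP.nx w).1 hw; tauto) (fun w hw => by have := (hP.ny w).1 hw; tauto)
  obtain ⟨r, hr, z, hz, hv⟩ := hNP
  obtain ⟨z2, hz2, hv2, h22, -⟩ := step hVKA hKUR hTRC axy ax2 ay2 hx1 ny1 (Ne.symm nx1) n12 c2 hr hz hv
  obtain ⟨z3, hz3, hv3, h33, h3'⟩ := step hVKA hKUR hTRC axy ax3 ay3 hx1 ny1 (Ne.symm nx1) n13 c3 hr hz2 hv2
  obtain ⟨z4, hz4, hv4, h44, h4'⟩ := step hVKA hKUR hTRC axy ax4 ay4 hx1 ny1 (Ne.symm nx1) n14 c4 hr hz3 hv3
  have r2 : ∀ f, s₁ ∈ f → z4 s(y, s₂) f = 0 := fun f hf => by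
    rw [h4' s₂ n24 (Ne.symm nx2), h3' s₂ n23 (Ne.symm nx2), h22 f hf]
  have r3 : ∀ f, s₁ ∈ f → z4 s(y, s₃) f = 0 := fun f hf => by
    rw [h4' s₃ n34 (Ne.symm nx3), h33 f hf]
  have hZab : Zab y s₁ z4 := by
    intro e f hye hf he1 hf1
    obtain ⟨w, rfl⟩ := Sym2.mem_iff_exists.1 hye
    by_contra h0
    obtain ⟨hwG, hfG, hD⟩ := hz4.2.1 _ _ h0
    have hyw : G.Adj y w := hwG
    have hyf : y ∉ f := by
      intro h'
      exact hD y ⟨hye, h'⟩
    -- the row `yx`
    have rx : z4 s(y, x) f = 0 := by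
      have hb := hz4.2.2 f y hyf
      rw [sum_filter] at hb
      have hsum : ∑ e, (if y ∈ e then z4 f e else 0) = z4 f s(y, x) := by
        rw [← Finset.sum_subset (subset_univ {s(y, x)}), sum_singleton, if_pos (by simp)]
        intro e _ hne
        rw [mem_singleton] at hne
        by_cases hy : y ∈ e
        · rw [if_pos hy]
          obtain ⟨v, rfl⟩ := Sym2.mem_iff_exists.1 hy
          by_contra hnz
          obtain ⟨-, hvG, hD'⟩ := hz4.2.1 _ _ hnz
          have hyv : G.Adj y v := hvG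
          rw [hz4.1] at hnz
          rcases (hP.ny v).1 hyv with rfl | rfl | rfl | rfl | rfl
          · exact hne rfl
          · exact hD' v ⟨hf, by simp⟩
          · exact hnz (r2 f hf)
          · exact hnz (r3 f hf)
          · exact hnz (h44 f hf)
        · rw [if_neg hy]
      rw [hz4.1, ← hsum]
      convert hb using 1
    rcases (hP.ny w).1 hyw with rfl | rfl | rfl | rfl | rfl
    · exact h0 rx
    · exact he1 rfl
    · exact h0 (r2 f hf)
    · exact h0 (r3 f hf)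
    · exact h0 (h44 f hf)
  exact hNPC.down hr hz4 hv4 ay1 hZab

end DL
end

section
/-!
MP_3ff0f8_gt, ALGEBRA HALF, NP block, module G2N: (3,4)-pair, `G/xs_i` and `G - ys_i`
-/
open SimpleGraph Finset

namespace DL

namespace G2NM

set_option linter.unusedSectionVars false

variable {α : Type} [Fintype α] [DecidableEq α] {G : SimpleGraph α} {x y s₁ s₂ s₃ s₄ : α}

theorem swap23 (h : P34 G x y s₁ s₂ s₃ s₄) : P34 G x y s₁ s₃ s₂ s₄ where
  nd := (((List.Perm.swap s₂ s₃ [s₄]).cons s₁).cons y |>.cons x).nodup_iff.2 h.nd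
  nx w := by rw [h.nx]; tauto
  ny w := by rw [h.ny]; tauto

theorem swap34 (h : P34 G x y s₁ s₂ s₃ s₄) : P34 G x y s₁ s₂ s₄ s₃ where
  nd := (((List.Perm.swap s₃ s₄ []).cons s₂).cons s₁ |>.cons y |>.cons x).nodup_iff.2 h.nd
  nx w := by rw [h.nx]; tauto
  ny w := by rw [h.ny]; tauto

/-- `m_2`: the column `y s₂` at `x` -/
theorem col (h : P34 G x y s₁ s₂ s₃ s₄) {z : Sym2 α → Sym2 α → ZMod 2} (hz : IsZ2 G z) :
    z s(x, s₄) s(y, s₂) = z s(x, s₃) s(y, s₂) := by
  have hnd := h.nd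
  simp only [List.nodup_cons, List.mem_cons, not_or, List.not_mem_nil, not_false_eq_true,
    List.nodup_nil, and_true] at hnd
  obtain ⟨⟨hxy, hx1, hx2, hx3, hx4⟩, ⟨hy1, hy2, hy3, hy4⟩, ⟨h12, h13, h14⟩, ⟨h23, h24⟩, h34⟩ := hnd
  have hb := hz.2.2 s(y, s₂) x (by rw [Sym2.mem_iff, not_or]; exact ⟨hxy, hx2⟩)
  rw [F4NM.sum_at {y, s₂, s₃, s₄} (fun w hw => by
      simp only [mem_insert, mem_singleton]; exact (h.nx w).1 hw)
      (fun e he => (hz.2.1 _ e he).2.1), sum_insert, sum_insert, sum_insert, sum_singleton] at hb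
  · rw [F4NM.zero_of_not_dj hz (e := s(y, s₂)) (f := s(x, y)) (v := y) (by simp) (by simp),
      F4NM.zero_of_not_dj hz (e := s(y, s₂)) (f := s(x, s₂)) (v := s₂) (by simp) (by simp),
      zero_add, zero_add] at hb
    rw [hz.1 s(x, s₃), hz.1 s(x, s₄)]
    have : ∀ a b : ZMod 2, a + b = 0 → b = a := by decide
    exact this _ _ hb
  · simpa using h34
  · simp only [mem_insert, mem_singleton, not_or]; exact ⟨h23, h24⟩
  · simp only [mem_insert, mem_singleton, not_or]; exact ⟨hy2, hy3, hy4⟩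

/-- a chain with the trace of the row `x c` at `b` -/
theorem trace (hNBF : SpecNBF) (hTRC : SpecTRC) (hG : KConn 4 G)
    {z : Sym2 α → Sym2 α → ZMod 2} (hz : IsZ2 G z) {b c d : α}
    (hx : ∀ w, G.Adj x w → w = y ∨ w = b ∨ w = c ∨ w = d) (hnd : [x, y, b, c].Nodup)
    (hyb : z s(x, c) s(y, b) = 0) (hxV : x ∈ VS G) (hyV : y ∈ VS G) (hbV : b ∈ VS G)
    (hcV : c ∈ VS G) :
    ∃ Z ∈ Z1 (del G {x, y, c}), ∀ e, b ∈ e → Z e = z s(x, c) e := by
  classical
  simp only [List.nodup_cons, List.mem_cons, List.not_mem_nil, or_false, not_or, List.nodup_nil,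
    and_true] at hnd
  obtain ⟨⟨hxy, hxb, hxc⟩, ⟨hyb', hyc⟩, hbc, -⟩ := hnd
  have hconn : ConnOff G (insert b {x, y, c}) := by
    refine hNBF.off (x := x) (t := d) hG ?_ ?_ ?_ ?_
    · intro v hv
      simp only [mem_insert, mem_singleton] at hv
      rcases hv with rfl | rfl | rfl | rfl <;> assumption
    · rw [card_insert_of_notMem, card_insert_of_notMem, card_insert_of_notMem, card_singleton]
      · simp [hyc]
      · simp [hxy, hxc]
      · simp only [mem_insert, mem_singleton, not_or]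
        exact ⟨fun h => hxb h.symm, fun h => hyb' h.symm, hbc⟩
    · simp
    · intro w hw
      simp only [mem_insert, mem_singleton]
      rcases hx w hw with h | h | h | h <;> tauto
  have hb : b ∉ ({x, y, c} : Finset α) := by
    simp only [mem_insert, mem_singleton, not_or]
    exact ⟨fun h => hxb h.symm, fun h => hyb' h.symm, hbc⟩
  have hT1 : ∀ e, (if b ∈ e then z s(x, c) e else 0) ≠ 0 →
      e ∈ (del G {x, y, c}).edgeSet ∧ b ∈ e := by
    intro e he
    have hbe : b ∈ e := by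
      by_contra h
      exact he (if_neg h)
    rw [if_pos hbe] at he
    obtain ⟨-, h2, h3⟩ := hz.2.1 _ _ he
    refine ⟨?_, hbe⟩
    have hxe : x ∉ e := fun h => h3 x ⟨by simp, h⟩
    have hce : c ∉ e := fun h => h3 c ⟨by simp, h⟩
    obtain ⟨w, rfl⟩ := Sym2.mem_iff_exists.1 hbe
    rw [mem_edgeSet] at h2
    rw [mem_edgeSet, del_adj]
    simp only [Sym2.mem_iff, not_or] at hxe hce
    refine ⟨h2, hb, ?_⟩
    simp only [mem_insert, mem_singleton, not_or]
    refine ⟨fun h => hxe.2 h.symm, ?_, fun h => hce.2 h.symm⟩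
    rintro rfl
    rw [Sym2.eq_swap (a := b)] at he
    exact he hyb
  have hT2 : ∑ e, (if b ∈ e then z s(x, c) e else 0) = 0 := by
    rw [← sum_filter]
    have := hz.2.2 s(x, c) b (by
      rw [Sym2.mem_iff]
      rintro (h | h)
      · exact hxb h.symm
      · exact hbc h)
    convert this using 2
  obtain ⟨Z, hZ, hZe⟩ := hTRC G {x, y, c} b hb hconn
    (fun e => if b ∈ e then z s(x, c) e else 0) hT1 hT2
  refine ⟨Z, hZ, fun e he => ?_⟩
  rw [hZe e he, if_pos he]

open F1NM in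
/-- steps (1) and (2) -/
theorem main (hVKA : SpecVKA) (hKUR : SpecKUR) (hNPC : SpecNPC) (hNBF : SpecNBF)
    (hTRC : SpecTRC) (hK : K48 G) (hP : P34 G x y s₁ s₂ s₃ s₄) {r : α → ℕ}
    (hr : Function.Injective r) {z : Sym2 α → Sym2 α → ZMod 2} (hz : IsZ2 G z) (hv : vk r z ≠ 0)
    (hm : z s(x, s₃) s(y, s₂) = 0) :
    NP (contr G x s₂) ∧ NP (contr G s₂ x) ∧ NP (delE G y s₂) := by
  classical
  have hm4 : z s(x, s₄) s(y, s₂) = 0 := by rw [col hP hz, hm]
  have hnd := hP.nd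
  simp only [List.nodup_cons, List.mem_cons, List.not_mem_nil, or_false, not_or, List.nodup_nil,
    and_true] at hnd
  obtain ⟨⟨hxy, hx1, hx2, hx3, hx4⟩, ⟨hy1, hy2, hy3, hy4⟩, ⟨h12, h13, h14⟩, ⟨h23, h24⟩, h34, -⟩ := hnd
  have axy : G.Adj x y := (hP.nx y).2 (Or.inl rfl)
  have ax2 : G.Adj x s₂ := (hP.nx s₂).2 (by tauto)
  have ax3 : G.Adj x s₃ := (hP.nx s₃).2 (by tauto)
  have ax4 : G.Adj x s₄ := (hP.nx s₄).2 (by tauto)
  have ay2 : G.Adj y s₂ := (hP.ny s₂).2 (by tauto)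
  have ay3 : G.Adj y s₃ := (hP.ny s₃).2 (by tauto)
  have ay4 : G.Adj y s₄ := (hP.ny s₄).2 (by tauto)
  have hxV := left_mem_VS axy
  have hyV := right_mem_VS axy
  have h2V := right_mem_VS ax2
  have h3V := right_mem_VS ax3
  have h4V := right_mem_VS ax4
  have hdel : NP (delE G y s₂) := by
    refine hNPC.tdel hr hz hv ay2 axy.symm ax2.symm fun f hf => ?_
    obtain ⟨w, rfl⟩ := Sym2.mem_iff_exists.1 hf
    by_contra hne
    rw [hz.1] at hne
    rcases (hP.nx w).1 (hz.2.1 _ _ hne).1 with rfl | rfl | rfl | rfl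
    · exact hne (F4NM.zero_of_not_dj hz (v := w) (by simp) (by simp))
    · exact hne (F4NM.zero_of_not_dj hz (v := w) (by simp) (by simp))
    · exact hne hm
    · exact hne hm4
  rw [← and_assoc]
  refine ⟨?_, hdel⟩
  obtain ⟨Z3, hZ3, hZ3e⟩ := trace hNBF hTRC hK.1 hz (x := x) (y := y) (b := s₂) (c := s₃) (d := s₄)
    (fun w hw => by have := (hP.nx w).1 hw; tauto)
    (by simp [hxy, hx2, hx3, hy2, hy3, h23]) hm hxV hyV h2V h3V
  obtain ⟨Z4, hZ4, hZ4e⟩ := trace hNBF hTRC hK.1 hz (x := x) (y := y) (b := s₂) (c := s₄) (d := s₃)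
    (fun w hw => by have := (hP.nx w).1 hw; tauto)
    (by simp [hxy, hx2, hx4, hy2, hy4, h24]) hm4 hxV hyV h2V h4V
  obtain ⟨hz1, hv1⟩ := addtor hVKA hKUR hr hz {x, y, s₃} (tri_mem axy ay3 ax3)
    (fun e v he hv => tri_supp e v he hv) hZ3
  obtain ⟨hz2, hv2⟩ := addtor hVKA hKUR hr hz1 {x, y, s₄} (tri_mem axy ay4 ax4)
    (fun e v he hv => tri_supp e v he hv) hZ4
  set z2 : Sym2 α → Sym2 α → ZMod 2 := fun e f => z e f + tor (tri x y s₃) Z3 e f +
    tor (tri x y s₄) Z4 e f with hz2def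
  have hxZ3 : ∀ w, Z3 s(x, w) = 0 := by
    intro w
    by_contra h
    exact notMem_of_mem_del ((mem_Z1.1 hZ3).1 _ h) (Sym2.mem_mk_left x w) (by simp)
  have hxZ4 : ∀ w, Z4 s(x, w) = 0 := by
    intro w
    by_contra h
    exact notMem_of_mem_del ((mem_Z1.1 hZ4).1 _ h) (Sym2.mem_mk_left x w) (by simp)
  have t33 : tri x y s₃ s(x, s₃) = 1 := by
    unfold tri; rw [chi_of_mem]; simp
  have t44 : tri x y s₄ s(x, s₄) = 1 := by
    unfold tri; rw [chi_of_mem]; simp
  have t34 : tri x y s₃ s(x, s₄) = 0 := by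
    unfold tri; rw [chi_of_notMem]
    simp only [mem_insert, mem_singleton, Sym2.eq_iff, not_or, not_and]
    exact ⟨⟨fun _ h => hy4 h.symm, fun h _ => hxy h⟩, ⟨fun h _ => hxy h, fun h _ => hx3 h⟩,
      fun _ h => h34 h.symm, fun h _ => hx3 h⟩
  have t43 : tri x y s₄ s(x, s₃) = 0 := by
    unfold tri; rw [chi_of_notMem]
    simp only [mem_insert, mem_singleton, Sym2.eq_iff, not_or, not_and]
    exact ⟨⟨fun _ h => hy3 h.symm, fun h _ => hxy h⟩, ⟨fun h _ => hxy h, fun h _ => hx4 h⟩,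
      fun _ h => h34 h, fun h _ => hx4 h⟩
  have k3 : ∀ f, s₂ ∈ f → z2 s(x, s₃) f = 0 := by
    intro f hf
    simp only [hz2def, tor, t33, t43, hxZ3, hxZ4, hZ3e f hf]
    ring_nf
    rw [show (2 : ZMod 2) = 0 from rfl, mul_zero]
  have k4 : ∀ f, s₂ ∈ f → z2 s(x, s₄) f = 0 := by
    intro f hf
    simp only [hz2def, tor, t34, t44, hxZ3, hxZ4, hZ4e f hf]
    ring_nf
    rw [show (2 : ZMod 2) = 0 from rfl, mul_zero]
  have hzab : Zab x s₂ z2 := by
    intro e f hxe h2f hne hnf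
    by_contra h0
    obtain ⟨he, hf, hdj⟩ := hz2.2.1 e f h0
    obtain ⟨w, rfl, hw⟩ := vs_adj he hxe
    rcases (hP.nx w).1 hw with rfl | rfl | rfl | rfl
    · have hxf : x ∉ f := fun h => hdj x ⟨hxe, h⟩
      have hb := hz2.2.2 f x hxf
      rw [sum_eq_single s(x, w)] at hb
      · exact h0 (by rw [hz2.1]; exact hb)
      · intro g hg hgne
        rw [mem_filter] at hg
        by_contra hg0
        obtain ⟨-, hgG, hfg⟩ := hz2.2.1 f g hg0
        obtain ⟨w', rfl, hw'⟩ := vs_adj hgG hg.2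
        rcases (hP.nx w').1 hw' with rfl | rfl | rfl | rfl
        · exact hgne rfl
        · exact hfg w' ⟨h2f, by simp⟩
        · exact hg0 (by rw [hz2.1]; exact k3 f h2f)
        · exact hg0 (by rw [hz2.1]; exact k4 f h2f)
      · intro h
        exact absurd (mem_filter.2 ⟨mem_univ _, by simp⟩) h
    · exact hne rfl
    · exact h0 (k3 f h2f)
    · exact h0 (k4 f h2f)
  refine hNPC.down (r := r) hr hz2 ?_ ax2 hzab
  rw [hv2, hv1]; exact hv

/-- step (3) -/
theorem exists_zero (hVKA : SpecVKA) (hKUR : SpecKUR) (hK : K48 G) (hP : P34 G x y s₁ s₂ s₃ s₄)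
    {r : α → ℕ} (hr : Function.Injective r) {z : Sym2 α → Sym2 α → ZMod 2} (hz : IsZ2 G z)
    (hv : vk r z ≠ 0) : ∃ z', IsZ2 G z' ∧ vk r z' ≠ 0 ∧
      (z' s(x, s₃) s(y, s₂) = 0 ∨ z' s(x, s₂) s(y, s₃) = 0) := by
  have hnd := hP.nd
  simp only [List.nodup_cons, List.mem_cons, List.not_mem_nil, or_false, not_or, List.nodup_nil,
    and_true] at hnd
  obtain ⟨⟨hxy, hx1, hx2, hx3, hx4⟩, ⟨hy1, hy2, hy3, hy4⟩, ⟨h12, h13, h14⟩, ⟨h23, h24⟩, h34, -⟩ := hnd
  by_cases hm2 : z s(x, s₃) s(y, s₂) = 0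
  · exact ⟨z, hz, hv, Or.inl hm2⟩
  by_cases hm3 : z s(x, s₂) s(y, s₃) = 0
  · exact ⟨z, hz, hv, Or.inr hm3⟩
  have axy : G.Adj x y := (hP.nx y).2 (Or.inl rfl)
  have ax2 : G.Adj x s₂ := (hP.nx s₂).2 (by tauto)
  have ax3 : G.Adj x s₃ := (hP.nx s₃).2 (by tauto)
  have ax4 : G.Adj x s₄ := (hP.nx s₄).2 (by tauto)
  have ay1 : G.Adj y s₁ := (hP.ny s₁).2 (by tauto)
  have ay2 : G.Adj y s₂ := (hP.ny s₂).2 (by tauto)
  have ay3 : G.Adj y s₃ := (hP.ny s₃).2 (by tauto)
  have hH : KConn 2 (del G {x, y}) := hK.1.del_pair (by norm_num) x y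
  have hVS : VS (del G {x, y}) = VS G \ {x, y} :=
    hK.1.VS_del (lt_of_le_of_lt card_le_two (by norm_num))
  have mem : ∀ s, s ∈ VS G → x ≠ s → y ≠ s → s ∈ VS (del G {x, y}) := by
    intro s hs h1 h2
    rw [hVS, mem_sdiff, mem_insert, mem_singleton, not_or]
    exact ⟨hs, fun h => h1 h.symm, fun h => h2 h.symm⟩
  obtain ⟨c', d', P, Q, hcd, hPp, hQp, hdj⟩ := hH.two_paths (a := s₁) (b := s₄) (c := s₃) (d := s₂)
    (mem _ (right_mem_VS ay1) hx1 hy1) (mem _ (right_mem_VS ax4) hx4 hy4)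
    (mem _ (right_mem_VS ax3) hx3 hy3) (mem _ (right_mem_VS ax2) hx2 hy2) h14 (Ne.symm h23)
  have k1 : ∀ a : ZMod 2, a ≠ 0 → a + 1 * 1 = 0 := by decide
  rcases hcd with ⟨rfl, rfl⟩ | ⟨rfl, rfl⟩
  · -- `s₁ … s₃`, `s₄ … s₂`: the torus of `x s₄ … s₂` and `y s₁ … s₃`
    obtain ⟨T, hT, hTv, hTe⟩ := F4NM.torus hVKA hKUR hxy hPp hQp hdj ay1 ay3 h13 ax4 ax2
      (Ne.symm h24) hx1 hx3 hy4 hy2
    refine ⟨_, hKUR.zadd hz hT, ?_, Or.inr ?_⟩
    · rw [hVKA.add, hTv r hr, add_zero]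
      exact hv
    · rw [hTe, if_pos (Or.inr rfl), if_pos (Or.inr rfl)]
      exact k1 _ hm3
  · -- `s₁ … s₂`, `s₄ … s₃`
    obtain ⟨T, hT, hTv, hTe⟩ := F4NM.torus hVKA hKUR hxy hPp hQp hdj ay1 ay2 h12 ax4 ax3
      (Ne.symm h34) hx1 hx2 hy4 hy3
    refine ⟨_, hKUR.zadd hz hT, ?_, Or.inl ?_⟩
    · rw [hVKA.add, hTv r hr, add_zero]
      exact hv
    · rw [hTe, if_pos (Or.inr rfl), if_pos (Or.inr rfl)]
      exact k1 _ hm2

theorem contr_delE (hxy : G.Adj x y) (hxs : G.Adj x s₂) (hys : y ≠ s₂) :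
    contr G x s₂ ≤ contr (delE G y s₂) x s₂ := by
  intro a b hab
  rw [contr_adj] at hab ⊢
  obtain ⟨ha, hb, hab', h⟩ := hab
  refine ⟨ha, hb, hab', ?_⟩
  have h0 : ∀ c d, c ≠ s₂ → d ≠ s₂ → G.Adj c d → (delE G y s₂).Adj c d := by
    intro c d hc hd hcd
    rw [delE_adj]
    refine ⟨hcd, ?_⟩
    intro h; rcases Sym2.eq_iff.1 h with ⟨_, h⟩ | ⟨h, _⟩
    · exact hd h
    · exact hc h
  have h1 : ∀ c, G.Adj s₂ c → c ≠ y → (delE G y s₂).Adj s₂ c := by
    intro c hc hcy
    rw [delE_adj]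
    refine ⟨hc, ?_⟩
    intro h; rcases Sym2.eq_iff.1 h with ⟨h, _⟩ | ⟨_, h⟩
    · exact hys h.symm
    · exact hcy h
  rcases h with h | ⟨e1, h⟩ | ⟨e1, h⟩
  · exact Or.inl (h0 a b ha hb h)
  · by_cases hby : b = y
    · left
      rw [e1, hby]
      exact h0 x y hxs.ne hys hxy
    · exact Or.inr (Or.inl ⟨e1, h1 b h hby⟩)
  · by_cases hay : a = y
    · left
      rw [e1, hay]
      exact h0 y x hys hxs.ne hxy.symm
    · exact Or.inr (Or.inr ⟨e1, (h1 a h.symm hay).symm⟩)

theorem contr_delE' (hxy : G.Adj x y) (hys : y ≠ s₂) (hxs : G.Adj x s₂) :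
    contr G s₂ x ≤ contr (delE G y s₂) s₂ x := by
  intro a b hab
  rw [contr_adj] at hab ⊢
  obtain ⟨ha, hb, hab', h⟩ := hab
  refine ⟨ha, hb, hab', ?_⟩
  have h1 : ∀ c, G.Adj x c → (delE G y s₂).Adj x c := by
    intro c hc
    rw [delE_adj]
    refine ⟨hc, ?_⟩
    intro h; rcases Sym2.eq_iff.1 h with ⟨h, _⟩ | ⟨h, _⟩
    · exact hxy.ne h
    · exact hxs.ne h
  rcases h with h | ⟨e1, h⟩ | ⟨e1, h⟩
  · by_cases he : s(a, b) = s(y, s₂)
    · rcases Sym2.eq_iff.1 he with ⟨rfl, rfl⟩ | ⟨rfl, rfl⟩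
      · exact Or.inr (Or.inr ⟨rfl, (h1 a hxy).symm⟩)
      · exact Or.inr (Or.inl ⟨rfl, h1 b hxy⟩)
    · exact Or.inl (delE_adj.2 ⟨h, he⟩)
  · exact Or.inr (Or.inl ⟨e1, h1 b h⟩)
  · exact Or.inr (Or.inr ⟨e1, (h1 a h.symm).symm⟩)

/-- the converse direction -/
theorem back (hVKA : SpecVKA) (hKUR : SpecKUR) (hNPC : SpecNPC) (hNBF : SpecNBF)
    (hTRC : SpecTRC) (hK : K48 G) (hP : P34 G x y s₁ s₂ s₃ s₄) (h : NP (delE G y s₂)) :
    NP (contr G x s₂) ∧ NP (contr G s₂ x) := by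
  obtain ⟨r, hr, z, hz, hv⟩ := h
  have hm : z s(x, s₃) s(y, s₂) = 0 := by
    by_contra hne
    have h1 := (hz.2.1 _ _ hne).2.1
    have h2 : (delE G y s₂).Adj y s₂ := h1
    rw [delE_adj] at h2
    exact h2.2 rfl
  have := main hVKA hKUR hNPC hNBF hTRC hK hP hr (hKUR.zmono (delE_le G y s₂) hz) hv hm
  exact ⟨this.1, this.2.1⟩

end G2NM

open G2NM in
theorem specG2N (hVKA : SpecVKA) (hKUR : SpecKUR) (hNPC : SpecNPC) (hNBF : SpecNBF)
    (hTRC : SpecTRC) : SpecG2N where
  two := by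
    intro α _ _ G x y s₁ s₂ s₃ s₄ hK hP hNP
    obtain ⟨r, hr, z, hz, hv⟩ := hNP
    obtain ⟨z', hz', hv', h | h⟩ := exists_zero hVKA hKUR hK hP hr hz hv
    · exact Or.inl (main hVKA hKUR hNPC hNBF hTRC hK hP hr hz' hv' h)
    · exact Or.inr (main hVKA hKUR hNPC hNBF hTRC hK (swap23 hP) hr hz' hv' h)
  iff := by
    intro α _ _ G x y s₁ s₂ s₃ s₄ hK hP
    have hnd := hP.nd
    simp only [List.nodup_cons, List.mem_cons, List.not_mem_nil, or_false, not_or, List.nodup_nil,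
      and_true] at hnd
    obtain ⟨⟨hxy, hx1, hx2, hx3, hx4⟩, ⟨hy1, hy2, hy3, hy4⟩, -⟩ := hnd
    have axy : G.Adj x y := (hP.nx y).2 (Or.inl rfl)
    have ax2 : G.Adj x s₂ := (hP.nx s₂).2 (by tauto)
    have hadj : (delE G y s₂).Adj x s₂ := by
      rw [delE_adj]
      refine ⟨ax2, ?_⟩
      intro h; rcases Sym2.eq_iff.1 h with ⟨h, _⟩ | ⟨h, _⟩
      · exact hxy h
      · exact hx2 h
    have hb := back hVKA hKUR hNPC hNBF hTRC hK hP
    refine ⟨⟨fun h => ?_, fun h => (hb h).1⟩, ⟨fun h => ?_, fun h => (hb h).2⟩⟩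
    · exact hNPC.up hadj (hNPC.mono (contr_delE axy ax2 hy2) h)
    · exact hNPC.up hadj.symm (hNPC.mono (contr_delE' axy hy2 ax2) h)

end DL
end

section
/-!
# NCG: LEMMA NC
-/
open SimpleGraph Finset

namespace DL

/-- **NCG** -/
theorem specNCG (hNCS : SpecNCS) (hNC1 : SpecNC1) (hNC2 : SpecNC2) : SpecNCG := by
  intro α _ _ G u hG hu huV hNP hp
  by_contra hgam
  push Not at hgam
  obtain ⟨al, h1, h2⟩ := hNCS hG.1 hNP hp hgam
  apply h1
  by_cases hcl : ∀ w w', G.Adj u w → G.Adj u w' → w ≠ w' → G.Adj w w'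
  · exact hNC2 hG hu huV al h2 hcl
  · push Not at hcl
    obtain ⟨w, w', hw, hw', hne, hna⟩ := hcl
    exact hNC1 hG hu al h2 w w' hw hw' hne hna

end DL
end

section
/-!
MP_3ff0f8_gt, ALGEBRA HALF, NP block, module NCN (helper20)
-/
open SimpleGraph Finset

namespace DL

namespace NCNM

set_option linter.unusedSectionVars false

variable {α : Type} [Fintype α] [DecidableEq α] {G : SimpleGraph α} {u w w' : α}

/-- 2-cycles with the same rows at `u` -/
theorem same (hVKA : SpecVKA) (hKUR : SpecKUR) (hn : ¬ NP (del G {u})) {r : α → ℕ}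
    (hr : Function.Injective r) {z z' : Sym2 α → Sym2 α → ZMod 2} (hz : IsZ2 G z) (hz' : IsZ2 G z')
    (h : ∀ v f, z s(u, v) f = z' s(u, v) f) : vk r z = vk r z' := by
  have h1 := hKUR.zadd hz hz'
  have h2 : ∀ e f, u ∈ e → z e f + z' e f = 0 := by
    intro e f he
    obtain ⟨v, rfl⟩ := Sym2.mem_iff_exists.1 he
    rw [h v f, zmod2_add_self]
  have h3 : IsZ2 (del G {u}) (fun e f => z e f + z' e f) := by
    refine ⟨h1.1, fun e f hef => ?_, h1.2.2⟩
    have h4 : z e f + z' e f ≠ 0 := hef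
    have hue : u ∉ e := fun he => h4 (h2 e f he)
    have huf : u ∉ f := fun hf => h4 (by rw [hz.1 e f, hz'.1 e f]; exact h2 f e hf)
    obtain ⟨g1, g2, g3⟩ := h1.2.1 e f hef
    have key : ∀ e : Sym2 α, u ∉ e → e ∈ G.edgeSet → e ∈ (del G {u}).edgeSet := by
      intro e he heG
      induction e using Sym2.ind with
      | _ a b =>
        rw [Sym2.mem_iff, not_or] at he
        exact ⟨heG, by simpa using Ne.symm he.1, by simpa using Ne.symm he.2⟩
    exact ⟨key e hue g1, key f huf g2, g3⟩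
  have h5 : vk r (fun e f => z e f + z' e f) = 0 := by
    by_contra h6
    exact hn ⟨r, hr, _, h3, h6⟩
  rw [hVKA.add] at h5
  have : ∀ x y : ZMod 2, x + y = 0 → x = y := by decide
  exact this _ _ h5

/-- a torus with these rows -/
theorem torus (hVKA : SpecVKA) (hKUR : SpecKUR) (hn : ¬ NP (del G {u})) {t Z : Chain α}
    (P Q : Finset α) (ht : t ∈ Z1 G) (hZ : Z ∈ Z1 G) (htP : ∀ e v, t e ≠ 0 → v ∈ e → v ∈ P)
    (hZQ : ∀ e v, Z e ≠ 0 → v ∈ e → v ∈ Q) (hPQ : Disjoint P Q) (hu : u ∈ P)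
    (h1 : t s(u, w) = 1) (h2 : t s(u, w') = 1) (h3 : ∀ v, v ≠ w → v ≠ w' → t s(u, v) = 0)
    (hG : Gam G u w w' Z) : False := by
  obtain ⟨_, _, hww, _, r, z, hr, hz, hvk, hw, hw', hv⟩ := hG
  have hT := hKUR.tor P Q ht hZ htP hZQ hPQ
  have hvT := hVKA.tor (r := r) P Q hr ht hZ htP hZQ hPQ
  have hZu : ∀ v, Z s(u, v) = 0 := by
    intro v
    by_contra h
    exact Finset.disjoint_left.1 hPQ hu (hZQ _ u h (Sym2.mem_mk_left u v))
  have h4 : ∀ v f, z s(u, v) f = tor t Z s(u, v) f := by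
    intro v f
    unfold tor
    rw [hZu v, zero_mul, add_zero]
    by_cases hv1 : v = w
    · rw [hv1, hw, h1, one_mul]
    · by_cases hv2 : v = w'
      · rw [hv2, hw', h2, one_mul]
      · rw [hv v hv1 hv2, h3 v hv1 hv2, zero_mul]
        rfl
  have h5 := same hVKA hKUR hn hr hz hT h4
  exact hvk (h5.trans hvT)

theorem notMem_of_del {Z : Chain α} {S : Finset α} (hZ : Z ∈ Z1 (del G S)) {e : Sym2 α} {v : α}
    (h : Z e ≠ 0) (hv : v ∈ e) : v ∉ S := by
  have := (mem_Z1.1 hZ).1 e h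
  obtain ⟨x, rfl⟩ := Sym2.mem_iff_exists.1 hv
  exact this.2.1

theorem triC (huw : G.Adj u w) (huw' : G.Adj u w') (hww : G.Adj w w') :
    IsCyc G {s(u, w), s(w, w'), s(u, w')} := by
  have h := isCyc_of_isPth_del (P := {s(w, w')}) huw huw' hww.ne (by
    rw [isPth_del]
    refine ⟨IsPth.edge hww, ?_⟩
    rw [vs_singleton]
    simp only [disjoint_singleton_right, mem_insert, mem_singleton, not_or]
    exact ⟨huw.ne, huw'.ne⟩)
  have h2 : ({s(u, w), s(w, w'), s(u, w')} : Finset (Sym2 α)) = insert s(u, w) (insert s(u, w') {s(w, w')}) := by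
    ext e; simp only [mem_insert, mem_singleton]; tauto
  rw [h2]; exact h

/-- the graph `(G - u) + uw + uw'` -/
def GG (G : SimpleGraph α) (u w w' : α) : SimpleGraph α := del G {u} ⊔ fromEdgeSet {s(u, w), s(u, w')}

theorem GG_le (huw : G.Adj u w) (huw' : G.Adj u w') : GG G u w w' ≤ G := by
  unfold GG
  refine sup_le (del_le _ _) ?_
  intro a b hab
  rw [fromEdgeSet_adj] at hab
  simp only [Set.mem_insert_iff, Set.mem_singleton_iff] at hab
  rcases hab.1 with h | h
  · rcases Sym2.eq_iff.1 h with ⟨rfl, rfl⟩ | ⟨rfl, rfl⟩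
    · exact huw
    · exact huw.symm
  · rcases Sym2.eq_iff.1 h with ⟨rfl, rfl⟩ | ⟨rfl, rfl⟩
    · exact huw'
    · exact huw'.symm

theorem np (hNPC : SpecNPC) {Z : Chain α} (hG : Gam G u w w' Z) :
    NP (del G {u} ⊔ fromEdgeSet {s(w, w')}) := by
  obtain ⟨huw, huw', hww, hZ, r, z, hr, hz, hvk, hw, hw', hv⟩ := hG
  have hle := GG_le huw huw'
  have hadj : (GG G u w w').Adj w u := by
    unfold GG
    rw [SimpleGraph.sup_adj, fromEdgeSet_adj]
    right
    exact ⟨by simp [Sym2.eq_swap], huw.ne.symm⟩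
  have hzG : IsZ2 (GG G u w w') z := by
    refine ⟨hz.1, fun e f hef => ?_, hz.2.2⟩
    have key : ∀ e f : Sym2 α, z e f ≠ 0 → e ∈ (GG G u w w').edgeSet := by
      intro e f hef
      have h1 := (hz.2.1 e f hef).1
      by_cases hu : u ∈ e
      · obtain ⟨v, rfl⟩ := Sym2.mem_iff_exists.1 hu
        have h2 : v = w ∨ v = w' := by
          by_contra h
          rw [not_or] at h
          apply hef
          rw [hv v h.1 h.2]; rfl
        have h1' : G.Adj u v := h1
        show (GG G u w w').Adj u v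
        unfold GG
        rw [SimpleGraph.sup_adj, fromEdgeSet_adj]
        right
        refine ⟨?_, h1'.ne⟩
        rcases h2 with rfl | rfl <;> simp
      · induction e using Sym2.ind with
        | _ a b =>
          rw [Sym2.mem_iff, not_or] at hu
          show (GG G u w w').Adj a b
          unfold GG
          rw [SimpleGraph.sup_adj]
          left
          exact ⟨h1, by simpa using Ne.symm hu.1, by simpa using Ne.symm hu.2⟩
    exact ⟨key e f hef, key f e (by rw [hz.1 f e]; exact hef), (hz.2.1 e f hef).2.2⟩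
  have hZab : Zab w u z := by
    intro e f hwe huf hne1 hne2
    obtain ⟨v, rfl⟩ := Sym2.mem_iff_exists.1 huf
    rw [hz.1 e]
    by_cases hv1 : v = w'
    · rw [hv1, hw']
      by_contra h
      exact notMem_of_del hZ h hwe (by simp)
    · by_cases hv2 : v = w
      · exact absurd (by rw [hv2, Sym2.eq_swap]) hne2
      · rw [hv v hv2 hv1]; rfl
  refine hNPC.mono ?_ (hNPC.down hr hzG hvk hadj hZab).1
  intro a b hab
  rw [contr_adj] at hab
  obtain ⟨hau, hbu, hab', h⟩ := hab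
  have hG1 : ∀ x, (GG G u w w').Adj u x → x = w ∨ x = w' := by
    intro x hx
    unfold GG at hx
    rw [SimpleGraph.sup_adj, fromEdgeSet_adj] at hx
    rcases hx with hx | hx
    · exact absurd hx.2.1 (by simp)
    · simp only [Set.mem_insert_iff, Set.mem_singleton_iff] at hx
      rcases hx.1 with h | h
      · rcases Sym2.eq_iff.1 h with ⟨_, h⟩ | ⟨h1, h2⟩
        · exact Or.inl h
        · exact Or.inl (h2.trans h1)
      · rcases Sym2.eq_iff.1 h with ⟨_, h⟩ | ⟨h1, h2⟩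
        · exact Or.inr h
        · exact Or.inr (h2.trans h1)
  rw [SimpleGraph.sup_adj, fromEdgeSet_adj, Set.mem_singleton_iff]
  rcases h with h | ⟨rfl, h⟩ | ⟨rfl, h⟩
  · left
    exact ⟨hle h, by simpa using hau, by simpa using hbu⟩
  · right
    rcases hG1 b h with h1 | h1
    · exact absurd h1.symm hab'
    · exact ⟨by rw [h1], hab'⟩
  · right
    rcases hG1 a h.symm with h1 | h1
    · exact absurd h1 hab'
    · exact ⟨by rw [h1, Sym2.eq_swap], hab'⟩

theorem le_contr (huw : G.Adj u w) (huw' : G.Adj u w') :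
    del G {u} ⊔ fromEdgeSet {s(w, w')} ≤ contr G w u ∧
      del G {u} ⊔ fromEdgeSet {s(w, w')} ≤ contr G w' u := by
  have hwu := huw.ne.symm
  have hwu' := huw'.ne.symm
  constructor
  all_goals
    intro a b hab
    rw [SimpleGraph.sup_adj, fromEdgeSet_adj, Set.mem_singleton_iff] at hab
    rw [contr_adj]
    rcases hab with ⟨h1, h2, h3⟩ | ⟨h1, h2⟩
    · exact ⟨by simpa using h2, by simpa using h3, h1.ne, Or.inl h1⟩
    · rcases Sym2.eq_iff.1 h1 with ⟨rfl, rfl⟩ | ⟨rfl, rfl⟩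
      · refine ⟨hwu, hwu', h2, ?_⟩
        right
        first
        | exact Or.inl ⟨rfl, huw'⟩
        | exact Or.inr ⟨rfl, huw.symm⟩
      · refine ⟨hwu', hwu, h2, ?_⟩
        right
        first
        | exact Or.inr ⟨rfl, huw'.symm⟩
        | exact Or.inl ⟨rfl, huw⟩

end NCNM

open NCNM in
theorem specNCN (hVKA : SpecVKA) (hNPC : SpecNPC) (hKUR : SpecKUR) (hLPE : SpecLPE)
    (hS3F : SpecS3F) : SpecNCN where
  nadj := by
    intro α _ _ G u w w' Z hn hG hww
    have hG' := hG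
    obtain ⟨huw, huw', hne, hZ, _⟩ := hG'
    have hc := triC huw huw' hww
    refine torus hVKA hKUR hn (t := chi {s(u, w), s(w, w'), s(u, w')}) (Z := Z) {u, w, w'}
      (univ \ {u, w, w'}) hc.chi_mem (Z1_mono (del_le _ _) hZ) ?_ ?_ disjoint_sdiff (by simp)
      (chi_of_mem (by simp)) (chi_of_mem (by simp)) ?_ hG
    · intro e v he hv
      rw [chi_ne_zero] at he
      simp only [mem_insert, mem_singleton] at he ⊢
      rcases he with rfl | rfl | rfl <;> rw [Sym2.mem_iff] at hv <;> tauto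
    · intro e v he hv
      rw [mem_sdiff]
      exact ⟨mem_univ _, notMem_of_del hZ he hv⟩
    · intro v hv1 hv2
      apply chi_of_notMem
      simp only [mem_insert, mem_singleton, Sym2.eq_iff, not_or, not_and]
      exact ⟨⟨fun _ => hv1, fun h => absurd h huw.ne⟩, ⟨fun h => absurd h huw.ne, fun h => absurd h huw'.ne⟩,
        fun _ => hv2, fun h => absurd h huw'.ne⟩
  sep := by
    intro α _ _ G u w w' C hn hC hG hreach
    have hG' := hG
    obtain ⟨huw, huw', hne, hZ, _⟩ := hG'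
    obtain ⟨P, hP⟩ := exists_isPth hreach
    have hPv := vs_of_isPth_del hP
    have hP1 : IsPth (del G {u}) w w' P := hP.mono (del_anti (by simp))
    have hc := isCyc_of_isPth_del huw huw' hne hP1
    have hCv : ∀ v ∈ vs C, v ∉ ({u, w, w'} : Finset α) := by
      intro v hv
      obtain ⟨e, he, hve⟩ := mem_vs.1 hv
      exact notMem_of_del hZ (chi_ne_zero.2 he) hve
    have huP : u ∉ vs P := fun h => Finset.disjoint_left.1 hPv h (by simp)
    refine torus hVKA hKUR hn (t := chi (insert s(u, w) (insert s(u, w') P))) (Z := chi C)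
      (univ \ vs C) (vs C) hc.chi_mem hC.chi_mem ?_ ?_ disjoint_sdiff_self_left ?_
      (chi_of_mem (by simp)) (chi_of_mem (by simp)) ?_ hG
    · intro e v he hv
      rw [mem_sdiff]
      refine ⟨mem_univ _, fun hvC => ?_⟩
      rw [chi_ne_zero] at he
      simp only [mem_insert] at he
      have h1 := hCv v hvC
      simp only [mem_insert, mem_singleton] at h1
      rcases he with rfl | rfl | he
      · rw [Sym2.mem_iff] at hv; tauto
      · rw [Sym2.mem_iff] at hv; tauto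
      · exact Finset.disjoint_left.1 hPv (mem_vs.2 ⟨e, he, hv⟩) (mem_insert_of_mem hvC)
    · intro e v he hv
      rw [chi_ne_zero] at he
      exact mem_vs.2 ⟨e, he, hv⟩
    · rw [mem_sdiff]
      exact ⟨mem_univ _, fun h => hCv u h (by simp)⟩
    · intro v hv1 hv2
      apply chi_of_notMem
      simp only [mem_insert, Sym2.eq_iff, not_or, not_and]
      exact ⟨⟨fun _ => hv1, fun h => absurd h huw.ne⟩, ⟨fun _ => hv2, fun h => absurd h huw'.ne⟩,
        fun h => huP (left_mem_vs h)⟩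
  np := by
    intro α _ _ G u w w' Z hG
    have h1 := np hNPC hG
    obtain ⟨h2, h3⟩ := le_contr hG.1 hG.2.1
    exact ⟨h1, hNPC.mono h2 h1, hNPC.mono h3 h1⟩
  lin := by
    intro α _ _ G u w w' Z Z' hG4 _ hG hZ'
    obtain ⟨huw, huw', hne, hZ, r, z, hr, hz, hvk, hw, hw', hv⟩ := hG
    have h3 : KConn 3 (del G {u}) := hG4.del_vertex (by norm_num) u
    have hVS : VS (del G {u}) = VS G \ {u} := hG4.VS_del (by simp)
    have hS : S3S (del G {u}) := hS3F.k3 h3
    set la : α → Chain α := fun v => if v = w ∨ v = w' then Z' else 0 with hla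
    obtain ⟨z', hz', hrow⟩ := hLPE.star (G := G) (u := u) hS la (by
      intro v
      rw [hla]
      by_cases h : v = w ∨ v = w'
      · simp only [if_pos h]
        refine Z1_mono (del_anti ?_) hZ'
        rcases h with rfl | rfl
        · intro x hx
          simp only [mem_insert, mem_singleton] at hx ⊢
          tauto
        · intro x hx
          simp only [mem_insert, mem_singleton] at hx ⊢
          tauto
      · simp only [if_neg h]
        exact (Z1 _).zero_mem) (by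
      intro v hv
      have h : v = w ∨ v = w' := by
        by_contra h
        exact hv (if_neg h)
      rw [hVS, mem_sdiff, mem_singleton]
      rcases h with rfl | rfl
      · exact ⟨huw, right_mem_VS huw, huw.ne.symm⟩
      · exact ⟨huw', right_mem_VS huw', huw'.ne.symm⟩) (by
      rw [hla]
      rw [← sum_filter]
      have : (univ.filter fun v => v = w ∨ v = w') = {w, w'} := by
        ext v; simp
      rw [this, sum_pair hne, chain_add_self])
    have hrw : z' s(u, w) = Z' := by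
      funext f; rw [hrow w f huw, hla]; simp
    have hrw' : z' s(u, w') = Z' := by
      funext f; rw [hrow w' f huw', hla]; simp
    have hrv : ∀ v, v ≠ w → v ≠ w' → z' s(u, v) = 0 := by
      intro v h1 h2
      funext f
      by_cases h : G.Adj u v
      · rw [hrow v f h, hla]; simp [h1, h2]
      · by_contra h4
        exact h (hz'.2.1 _ f h4).1
    by_cases hvk' : vk r z' = 0
    · right
      refine ⟨huw, huw', hne, (Z1 _).add_mem hZ hZ', r, fun e f => z e f + z' e f, hr,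
        hKUR.zadd hz hz', ?_, ?_, ?_, ?_⟩
      · rw [hVKA.add, hvk', add_zero]; exact hvk
      · funext f
        show z s(u, w) f + z' s(u, w) f = _
        rw [hw, hrw]; rfl
      · funext f
        show z s(u, w') f + z' s(u, w') f = _
        rw [hw', hrw']; rfl
      · intro v h1 h2
        funext f
        show z s(u, v) f + z' s(u, v) f = _
        rw [hv v h1 h2, hrv v h1 h2]
        rfl
    · left
      exact ⟨huw, huw', hne, hZ', r, z', hr, hz', hvk', hrw, hrw', hrv⟩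

end DL
end

section
/-!
# Module NCR: relations `r_i + r_j + r_k = 0`
-/
open SimpleGraph Finset

namespace DL

namespace NCRM

variable {α : Type} [Fintype α] [DecidableEq α]

/-- normalization: a functional vanishing on `Z1 (J - i)` is given by edges at `i` -/
theorem nrm {J : SimpleGraph α} {i : α} {r : Chain α} (h : ∀ Z ∈ Z1 (del J {i}), pr r Z = 0) :
    ∃ r' : Chain α, (∀ u v, J.Adj u v → u ≠ i → v ≠ i → r' s(u, v) = 0) ∧
      ∀ Z ∈ Z1 J, pr r' Z = pr r Z := by
  obtain ⟨s, hs⟩ := cut h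
  refine ⟨r + cob s, fun u v huv hu hv => ?_, fun Z hZ => ?_⟩
  · have : (del J {i}).Adj u v := ⟨huv, by simpa using hu, by simpa using hv⟩
    rw [Pi.add_apply, hs u v this, cob_mk, zmod2_add_self]
  · have h1 := cob_orth hZ s
    unfold pr
    simp only [Pi.add_apply, add_mul]
    rw [sum_add_distrib, h1, add_zero]

theorem row {J : SimpleGraph α} {i j k z : α} (hij : i ≠ j) (hik : i ≠ k) (hjk : j ≠ k)
    {ri rj rk : Chain α} (hi : ∀ u v, J.Adj u v → u ≠ i → v ≠ i → ri s(u, v) = 0)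
    (hj : ∀ u v, J.Adj u v → u ≠ j → v ≠ j → rj s(u, v) = 0)
    (hk : ∀ u v, J.Adj u v → u ≠ k → v ≠ k → rk s(u, v) = 0) {t : α → ZMod 2}
    (ht : ∀ u v, J.Adj u v → ri s(u, v) + rj s(u, v) + rk s(u, v) = t u + t v) (ti : t i = 0)
    {τ : ZMod 2} (hτ : ∀ x ∈ VS J, x ≠ i → x ≠ j → x ≠ k → t x = if x = z then τ else 0)
    (hz : τ = 0 ∨ (z ≠ i ∧ z ≠ j ∧ z ≠ k)) {Z : Chain α} (hZ : Z ∈ Z1 J) :
    pr ri Z = ri s(i, j) * Z s(i, j) + ri s(i, k) * Z s(i, k) + τ * Z s(z, i) := by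
  have key : ∀ e, ri e * Z e = (if e = s(i, j) then ri s(i, j) * Z s(i, j) else 0) +
      (if e = s(i, k) then ri s(i, k) * Z s(i, k) else 0) +
      (if e = s(z, i) then τ * Z s(z, i) else 0) := by
    intro e
    by_cases hZe : Z e = 0
    · have a1 : (if e = s(i, j) then ri s(i, j) * Z s(i, j) else 0) = 0 := by
        split_ifs with h
        · rw [← h, hZe, mul_zero]
        · rfl
      have a2 : (if e = s(i, k) then ri s(i, k) * Z s(i, k) else 0) = 0 := by
        split_ifs with h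
        · rw [← h, hZe, mul_zero]
        · rfl
      have a3 : (if e = s(z, i) then τ * Z s(z, i) else 0) = 0 := by
        split_ifs with h
        · rw [← h, hZe, mul_zero]
        · rfl
      rw [a1, a2, a3, hZe]
      simp
    · have hE : e ∈ J.edgeSet := hZ.1 e hZe
      by_cases hie : i ∈ e
      · obtain ⟨x, rfl⟩ := Sym2.mem_iff_exists.1 hie
        rw [mem_edgeSet] at hE
        have hxi : x ≠ i := hE.ne.symm
        have c1 : s(i, x) = s(i, j) ↔ x = j := by
          rw [Sym2.eq_iff]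
          constructor
          · rintro (⟨_, h⟩ | ⟨h, _⟩)
            · exact h
            · exact absurd h hij
          · exact fun h => Or.inl ⟨rfl, h⟩
        have c2 : s(i, x) = s(i, k) ↔ x = k := by
          rw [Sym2.eq_iff]
          constructor
          · rintro (⟨_, h⟩ | ⟨h, _⟩)
            · exact h
            · exact absurd h hik
          · exact fun h => Or.inl ⟨rfl, h⟩
        have c3 : s(i, x) = s(z, i) ↔ x = z := by
          rw [Sym2.eq_iff]
          constructor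
          · rintro (⟨_, h⟩ | ⟨_, h⟩)
            · exact absurd h hxi
            · exact h
          · exact fun h => Or.inr ⟨rfl, h⟩
        simp only [c1, c2, c3]
        by_cases hxj : x = j
        · subst hxj
          rw [if_pos rfl, if_neg hjk]
          rcases hz with h | h
          · rw [h]; simp
          · rw [if_neg (fun e => h.2.1 e.symm)]; simp
        · by_cases hxk : x = k
          · subst hxk
            rw [if_neg hxj, if_pos rfl]
            rcases hz with h | h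
            · rw [h]; simp
            · rw [if_neg (fun e => h.2.2 e.symm)]; simp
          · rw [if_neg hxj, if_neg hxk]
            have h1 := ht i x hE
            rw [hj i x hE hij hxj, hk i x hE hik hxk, ti,
              hτ x (right_mem_VS hE) hxi hxj hxk] at h1
            have h2 : ri s(i, x) = if x = z then τ else 0 := by simpa using h1
            rw [h2]
            by_cases hxz : x = z
            · subst hxz
              simp [Sym2.eq_swap]
            · simp [hxz]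
      · have h0 : ri e = 0 := by
          induction e with
          | _ p q =>
            rw [Sym2.mem_iff, not_or] at hie
            exact hi p q hE (fun h => hie.1 h.symm) (fun h => hie.2 h.symm)
        rw [h0, if_neg (fun h => hie (by rw [h]; simp)), if_neg (fun h => hie (by rw [h]; simp)),
          if_neg (fun h => hie (by rw [h]; simp))]
        simp
  unfold pr
  rw [sum_congr rfl (fun e _ => key e), sum_add_distrib, sum_add_distrib]
  simp

theorem main {J : SimpleGraph α} {i j k z : α} (hij : i ≠ j) (hik : i ≠ k) (hjk : j ≠ k)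
    {ri rj rk : Chain α} (hi : ∀ Z ∈ Z1 (del J {i}), pr ri Z = 0)
    (hj : ∀ Z ∈ Z1 (del J {j}), pr rj Z = 0) (hk : ∀ Z ∈ Z1 (del J {k}), pr rk Z = 0)
    (hs : ∀ Z ∈ Z1 J, pr ri Z + pr rj Z + pr rk Z = 0)
    (hc : ∀ t : α → ZMod 2, (∀ u v, J.Adj u v → u ≠ i → u ≠ j → u ≠ k → v ≠ i → v ≠ j → v ≠ k →
      t u + t v = 0) → ∃ c τ : ZMod 2, (τ = 0 ∨ (z ≠ i ∧ z ≠ j ∧ z ≠ k)) ∧
        ∀ x ∈ VS J, x ≠ i → x ≠ j → x ≠ k → t x = c + if x = z then τ else 0) :
    ∃ cij cik cjk τ : ZMod 2, (τ = 0 ∨ (z ≠ i ∧ z ≠ j ∧ z ≠ k)) ∧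
      (cij ≠ 0 → J.Adj i j) ∧ (cik ≠ 0 → J.Adj i k) ∧ (cjk ≠ 0 → J.Adj j k) ∧
      ∀ Z ∈ Z1 J, pr ri Z = cij * Z s(i, j) + cik * Z s(i, k) + τ * Z s(z, i) ∧
        pr rj Z = cij * Z s(i, j) + cjk * Z s(j, k) + τ * Z s(z, j) ∧
        pr rk Z = cik * Z s(i, k) + cjk * Z s(j, k) + τ * Z s(z, k) := by
  classical
  obtain ⟨ai, hai, hai'⟩ := nrm hi
  obtain ⟨aj, haj, haj'⟩ := nrm hj
  obtain ⟨ak, hak, hak'⟩ := nrm hk
  obtain ⟨t0, ht0⟩ := cut (G := J) (a := ai + aj + ak) (by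
    intro Z hZ
    have h1 := hs Z hZ
    rw [← hai' Z hZ, ← haj' Z hZ, ← hak' Z hZ] at h1
    unfold pr at h1
    rw [← sum_add_distrib, ← sum_add_distrib] at h1
    rw [← h1]
    refine sum_congr rfl fun e _ => ?_
    simp only [Pi.add_apply]
    ring)
  obtain ⟨c, τ, hτ, hcτ⟩ := hc t0 (by
    intro u v huv hui huj huk hvi hvj hvk
    rw [← ht0 u v huv]
    simp only [Pi.add_apply]
    rw [hai u v huv hui hvi, haj u v huv huj hvj, hak u v huv huk hvk]
    simp)
  -- shifts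
  set d : α → α → ZMod 2 := fun y x => if x = y then t0 y + c else 0 with hd
  have cobd : ∀ y u v, u ≠ y → v ≠ y → cob (d y) s(u, v) = 0 := by
    intro y u v hu hv
    rw [cob_mk, hd]
    simp [hu, hv]
  set bi : Chain α := ai + cob (d i) with hbi
  set bj : Chain α := aj + cob (d j) with hbj
  set bk : Chain α := ak + cob (d k) with hbk
  have gi : ∀ u v, J.Adj u v → u ≠ i → v ≠ i → bi s(u, v) = 0 := fun u v h hu hv => by
    rw [hbi, Pi.add_apply, hai u v h hu hv, cobd i u v hu hv, add_zero]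
  have gj : ∀ u v, J.Adj u v → u ≠ j → v ≠ j → bj s(u, v) = 0 := fun u v h hu hv => by
    rw [hbj, Pi.add_apply, haj u v h hu hv, cobd j u v hu hv, add_zero]
  have gk : ∀ u v, J.Adj u v → u ≠ k → v ≠ k → bk s(u, v) = 0 := fun u v h hu hv => by
    rw [hbk, Pi.add_apply, hak u v h hu hv, cobd k u v hu hv, add_zero]
  have pri : ∀ (a : Chain α) (s : α → ZMod 2), ∀ Z ∈ Z1 J, pr (a + cob s) Z = pr a Z := by
    intro a s Z hZ
    have h1 := cob_orth hZ s
    unfold pr
    simp only [Pi.add_apply, add_mul]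
    rw [sum_add_distrib, h1, add_zero]
  set t : α → ZMod 2 := fun x => t0 x + c + d i x + d j x + d k x with ht
  have hsum : ∀ u v, J.Adj u v → bi s(u, v) + bj s(u, v) + bk s(u, v) = t u + t v := by
    intro u v huv
    have h1 := ht0 u v huv
    simp only [Pi.add_apply] at h1
    rw [hbi, hbj, hbk, ht]
    simp only [Pi.add_apply, cob_mk]
    have two : (2 : ZMod 2) = 0 := rfl
    linear_combination h1 - c * two
  have zz : ∀ x : ZMod 2, x + x = 0 := zmod2_add_self
  have ti : t i = 0 := by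
    rw [ht]
    simp only [hd, if_true, if_neg hij, if_neg hik]
    rw [add_zero, add_zero]
    exact zz _
  have tj : t j = 0 := by
    rw [ht]
    simp only [hd, if_true, if_neg hij.symm, if_neg hjk]
    rw [add_zero, add_zero]
    exact zz _
  have tk : t k = 0 := by
    rw [ht]
    simp only [hd, if_true, if_neg hik.symm, if_neg hjk.symm]
    rw [add_zero, add_zero]
    exact zz _
  have tx : ∀ x ∈ VS J, x ≠ i → x ≠ j → x ≠ k → t x = if x = z then τ else 0 := by
    intro x hx hxi hxj hxk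
    rw [ht]
    simp only [hd, if_neg hxi, if_neg hxj, if_neg hxk]
    rw [hcτ x hx hxi hxj hxk, add_zero, add_zero, add_zero, add_comm c, add_assoc, zz, add_zero]
  have R1 := fun Z (hZ : Z ∈ Z1 J) => row (z := z) hij hik hjk gi gj gk hsum ti tx hτ hZ
  have R2 := fun Z (hZ : Z ∈ Z1 J) => row (z := z) hij.symm hjk hik gj gi gk
    (fun u v h => by rw [← hsum u v h]; ring) tj (fun x hx h1 h2 h3 => tx x hx h2 h1 h3)
    (by tauto) hZ
  have R3 := fun Z (hZ : Z ∈ Z1 J) => row (z := z) hik.symm hjk.symm hij gk gi gj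
    (fun u v h => by rw [← hsum u v h]; ring) tk (fun x hx h1 h2 h3 => tx x hx h2 h3 h1)
    (by tauto) hZ
  -- the coefficients agree
  have eij : J.Adj i j → bj s(i, j) = bi s(i, j) := by
    intro h
    have h1 := hsum i j h
    rw [gk i j h hik hjk, ti, tj] at h1
    have two : (2 : ZMod 2) = 0 := rfl
    linear_combination h1 - bi s(i, j) * two
  have eik : J.Adj i k → bk s(i, k) = bi s(i, k) := by
    intro h
    have h1 := hsum i k h
    rw [gj i k h hij hjk.symm, ti, tk] at h1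
    have two : (2 : ZMod 2) = 0 := rfl
    linear_combination h1 - bi s(i, k) * two
  have ejk : J.Adj j k → bk s(j, k) = bj s(j, k) := by
    intro h
    have h1 := hsum j k h
    rw [gi j k h hij.symm hik.symm, tj, tk] at h1
    have two : (2 : ZMod 2) = 0 := rfl
    linear_combination h1 - bj s(j, k) * two
  have hadj : ∀ Z ∈ Z1 J, ∀ u v, ¬ J.Adj u v → Z s(u, v) = 0 := by
    intro Z hZ u v h
    by_contra hc
    exact h (hZ.1 _ hc)
  refine ⟨if J.Adj i j then bi s(i, j) else 0, if J.Adj i k then bi s(i, k) else 0,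
    if J.Adj j k then bj s(j, k) else 0, τ, hτ, ?_, ?_, ?_, ?_⟩
  · intro h; by_contra h'; rw [if_neg h'] at h; exact h rfl
  · intro h; by_contra h'; rw [if_neg h'] at h; exact h rfl
  · intro h; by_contra h'; rw [if_neg h'] at h; exact h rfl
  · intro Z hZ
    have q1 : (if J.Adj i j then bi s(i, j) else 0) * Z s(i, j) = bi s(i, j) * Z s(i, j) := by
      split_ifs with h
      · rfl
      · rw [hadj Z hZ _ _ h, mul_zero, mul_zero]
    have q2 : (if J.Adj i k then bi s(i, k) else 0) * Z s(i, k) = bi s(i, k) * Z s(i, k) := by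
      split_ifs with h
      · rfl
      · rw [hadj Z hZ _ _ h, mul_zero, mul_zero]
    have q3 : (if J.Adj j k then bj s(j, k) else 0) * Z s(j, k) = bj s(j, k) * Z s(j, k) := by
      split_ifs with h
      · rfl
      · rw [hadj Z hZ _ _ h, mul_zero, mul_zero]
    have w1 : bj s(i, j) * Z s(i, j) = bi s(i, j) * Z s(i, j) := by
      by_cases h : J.Adj i j
      · rw [eij h]
      · rw [hadj Z hZ _ _ h, mul_zero, mul_zero]
    have w2 : bk s(i, k) * Z s(i, k) = bi s(i, k) * Z s(i, k) := by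
      by_cases h : J.Adj i k
      · rw [eik h]
      · rw [hadj Z hZ _ _ h, mul_zero, mul_zero]
    have w3 : bk s(j, k) * Z s(j, k) = bj s(j, k) * Z s(j, k) := by
      by_cases h : J.Adj j k
      · rw [ejk h]
      · rw [hadj Z hZ _ _ h, mul_zero, mul_zero]
    rw [q1, q2, q3]
    refine ⟨?_, ?_, ?_⟩
    · rw [← hai' Z hZ, ← pri ai (d i) Z hZ]
      exact R1 Z hZ
    · rw [← haj' Z hZ, ← pri aj (d j) Z hZ, ← w1]
      have := R2 Z hZ
      rw [Sym2.eq_swap (a := j) (b := i)] at this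
      exact this
    · rw [← hak' Z hZ, ← pri ak (d k) Z hZ, ← w2, ← w3]
      have := R3 Z hZ
      rw [Sym2.eq_swap (a := k) (b := i), Sym2.eq_swap (a := k) (b := j)] at this
      exact this

/-- a function which is constant along the edges of the connected graph `J - S` -/
theorem const {J : SimpleGraph α} {S : Finset α} (hS : ConnOff J S) {t : α → ZMod 2}
    (h : ∀ u v, J.Adj u v → u ∉ S → v ∉ S → t u + t v = 0) :
    ∃ c, ∀ x ∈ VS J, x ∉ S → t x = c := by
  by_cases hx : ∃ x ∈ VS J, x ∉ S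
  · obtain ⟨x, hx, hxS⟩ := hx
    refine ⟨t x, fun y hy hyS => ?_⟩
    have h1 := cut_unique (s := t) (s' := fun _ => 0) (G := del J S)
      (fun u v huv => by rw [h u v huv.1 huv.2.1 huv.2.2, add_zero]) (hS y hy x hx hyS hxS)
    simpa using h1
  · push Not at hx
    exact ⟨0, fun x hx1 hx2 => absurd (hx x hx1) hx2⟩

end NCRM

theorem specNCR : SpecNCR where
  conn := by
    intro α _ _ J i j k hnd hS ri rj rk hi hj hk hs
    simp only [List.nodup_cons, List.mem_cons, List.not_mem_nil, or_false, not_or, not_false_eq_true,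
      List.nodup_nil, and_true] at hnd
    obtain ⟨⟨hij, hik⟩, hjk⟩ := hnd
    obtain ⟨cij, cik, cjk, τ, hτ, h1, h2, h3, h4⟩ := NCRM.main (z := i) hij hik hjk hi hj hk hs
      (fun t ht => by
        obtain ⟨c, hc⟩ := NCRM.const hS (t := t) (fun u v huv hu hv => by
          simp only [mem_insert, mem_singleton, not_or] at hu hv
          exact ht u v huv hu.1 hu.2.1 hu.2.2 hv.1 hv.2.1 hv.2.2)
        refine ⟨c, 0, Or.inl rfl, fun x hx hxi hxj hxk => ?_⟩
        rw [hc x hx (by simp [hxi, hxj, hxk])]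
        simp)
    have hτ0 : τ = 0 := by
      rcases hτ with h | h
      · exact h
      · exact absurd rfl h.1
    subst hτ0
    refine ⟨cij, cik, cjk, h1, h2, h3, fun Z hZ => ?_⟩
    obtain ⟨g1, g2, g3⟩ := h4 Z hZ
    refine ⟨by rw [g1]; simp, by rw [g2]; simp, by rw [g3]; simp⟩
  iso := by
    intro α _ _ J i j k z hnd _ hS ri rj rk hi hj hk hs
    simp only [List.nodup_cons, List.mem_cons, List.not_mem_nil, or_false, not_or, not_false_eq_true,
      List.nodup_nil, and_true] at hnd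
    obtain ⟨⟨hij, hik, hiz⟩, ⟨hjk, hjz⟩, hkz⟩ := hnd
    obtain ⟨cij, cik, cjk, τ, -, h1, h2, h3, h4⟩ := NCRM.main (z := z) hij hik hjk hi hj hk hs
      (fun t ht => by
        obtain ⟨c, hc⟩ := NCRM.const hS (t := t) (fun u v huv hu hv => by
          simp only [mem_insert, mem_singleton, not_or] at hu hv
          exact ht u v huv hu.1 hu.2.1 hu.2.2.1 hv.1 hv.2.1 hv.2.2.1)
        refine ⟨c, t z + c, Or.inr ⟨fun h => hiz h.symm, fun h => hjz h.symm, fun h => hkz h.symm⟩,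
          fun x hx hxi hxj hxk => ?_⟩
        by_cases hxz : x = z
        · subst hxz
          rw [if_pos rfl, add_comm c, add_assoc, zmod2_add_self, add_zero]
        · rw [hc x hx (by simp [hxi, hxj, hxk, hxz]), if_neg hxz, add_zero])
    exact ⟨cij, cik, cjk, τ, h1, h2, h3, h4⟩

end DL
end

section
/-!
# Module TRC: chains with a given trace at a vertex
-/
open SimpleGraph Finset

namespace DL

namespace TRCM

variable {α : Type} [Fintype α] [DecidableEq α]

/-- cycles through two given edges at `b` -/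
theorem two (G : SimpleGraph α) (X : Finset α) (b : α) (hc : ConnOff G (insert b X)) {y y' : α}
    (h : (del G X).Adj b y) (h' : (del G X).Adj b y') (hne : y ≠ y') :
    ∃ C, IsCyc (del G X) C ∧ ∀ e, b ∈ e → chi C e = chi {s(b, y), s(b, y')} e := by
  have hy : y ∉ insert b X := by
    rw [mem_insert, not_or]
    exact ⟨h.ne.symm, h.2.2⟩
  have hy' : y' ∉ insert b X := by
    rw [mem_insert, not_or]
    exact ⟨h'.ne.symm, h'.2.2⟩
  have hr := hc y (right_mem_VS h.1) y' (right_mem_VS h'.1) hy hy'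
  have hdel : del G (insert b X) = del (del G X) {b} := by
    rw [del_del, insert_eq, union_comm]
  rw [hdel] at hr
  obtain ⟨P, hP⟩ := exists_isPth hr
  refine ⟨_, isCyc_of_isPth_del h h' hne hP, fun e he => ?_⟩
  have heP : e ∉ P := fun hep => by
    have := hP.subset e hep
    induction e with
    | _ p q =>
      rw [mem_edgeSet] at this
      rcases Sym2.mem_iff.1 he with rfl | rfl
      · exact this.2.1 (mem_singleton_self _)
      · exact this.2.2 (mem_singleton_self _)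
  rw [chi_apply, chi_apply]
  refine if_congr ?_ rfl rfl
  simp only [mem_insert, mem_singleton]
  tauto

theorem main (G : SimpleGraph α) (X : Finset α) (b : α) (hc : ConnOff G (insert b X)) :
    ∀ (n : ℕ) (T : Chain α), (csupp T).card = n →
      (∀ e, T e ≠ 0 → e ∈ (del G X).edgeSet ∧ b ∈ e) →
      ∑ e, T e = 0 → ∃ Z ∈ Z1 (del G X), ∀ e, b ∈ e → Z e = T e := by
  intro n
  induction n using Nat.strong_induction_on with
  | _ n ih =>
    intro T hn hT hs
    by_cases h0 : ∀ e, T e = 0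
    · exact ⟨0, zero_mem _, fun e _ => (h0 e).symm⟩
    · push Not at h0
      obtain ⟨e0, he0⟩ := h0
      have h1 : ∃ e1, e1 ≠ e0 ∧ T e1 ≠ 0 := by
        by_contra hcon
        push Not at hcon
        rw [Finset.sum_eq_single e0 (fun e _ he => hcon e he)
          (fun h => absurd (mem_univ _) h)] at hs
        exact he0 hs
      obtain ⟨e1, hne, he1⟩ := h1
      obtain ⟨q0, b0⟩ := hT e0 he0
      obtain ⟨q1, b1⟩ := hT e1 he1
      obtain ⟨y, rfl⟩ := Sym2.mem_iff_exists.1 b0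
      obtain ⟨y', rfl⟩ := Sym2.mem_iff_exists.1 b1
      rw [mem_edgeSet] at q0 q1
      have hyy : y ≠ y' := fun h => hne (by rw [h])
      obtain ⟨C, hC, hCe⟩ := two G X b hc q0 q1 hyy
      set A : Finset (Sym2 α) := {s(b, y), s(b, y')} with hA
      have hAs : A ⊆ csupp T := by
        intro e he
        rw [hA, mem_insert, mem_singleton] at he
        rcases he with rfl | rfl
        · exact mem_csupp.2 he0
        · exact mem_csupp.2 he1
      have hcs : csupp (T + chi A) = csupp T \ A := csupp_add_chi hAs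
      have hlt : (csupp (T + chi A)).card < n := by
        rw [← hn, hcs]
        apply card_lt_card
        rw [Finset.ssubset_iff_subset_ne]
        refine ⟨sdiff_subset, fun h => ?_⟩
        have h2 : s(b, y) ∈ csupp T \ A := by
          rw [h]
          exact mem_csupp.2 he0
        exact (mem_sdiff.1 h2).2 (by rw [hA]; exact mem_insert_self _ _)
      have hsum : ∑ e, (T + chi A) e = 0 := by
        simp only [Pi.add_apply]
        rw [sum_add_distrib, hs, zero_add]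
        have : ∑ e, chi A e = ((A.card : ℕ) : ZMod 2) := by
          simp only [chi_apply]
          rw [Finset.sum_ite_mem, univ_inter]
          simp
        rw [this, hA, card_pair (fun h => hne h.symm)]
        rfl
      obtain ⟨Z, hZ, hZe⟩ := ih _ hlt (T + chi A) rfl (fun e he => hT e (by
        have h3 : e ∈ csupp T \ A := by
          rw [← hcs]
          exact mem_csupp.2 he
        exact mem_csupp.1 (mem_sdiff.1 h3).1)) hsum
      refine ⟨Z + chi C, add_mem hZ hC.chi_mem, fun e he => ?_⟩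
      rw [Pi.add_apply, hZe e he, hCe e he, Pi.add_apply, add_assoc, zmod2_add_self, add_zero]

end TRCM

theorem specTRC : SpecTRC := by
  intro α _ _ G X b _ hc T hT hs
  exact TRCM.main G X b hc _ T rfl hT hs

end DL
end
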