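import Pool.Agent.DL.NP.Spec
import Pool.Agent.DL.NP.TRC

section
/-!
MP_3ff0f8_gt, ALGEBRA HALF, NP block, module NI1 (helper6)
-/
open SimpleGraph Finset

namespace DL

namespace NI1M

set_option linter.unusedSectionVars false

variable {α : Type} [Fintype α] [DecidableEq α] {G : SimpleGraph α}

/-- a component outside `X ∪ S` is adjacent to all vertices of `S` -/
theorem comp_adj (hNBF : SpecNBF) (hG : KConn 4 G) {X S : Finset α} (hS : S.card ≤ 4) {x₀ : α}
    (hx₀ : x₀ ∈ X) (hx₀V : x₀ ∈ VS G) (hX : ∀ v ∈ X, ∀ w, G.Adj v w → w ∈ X ∪ S)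
    (hXS : Disjoint X S) {r : α} (hr : r ∈ VS G) (hrA : r ∉ X ∪ S) {s : α} (hs : s ∈ S) :
    ∃ k, (del G (X ∪ S)).Reachable r k ∧ k ∉ X ∪ S ∧ G.Adj s k := by
  classical
  by_contra hcon
  push Not at hcon
  set K : Finset α := univ.filter fun v => (del G (X ∪ S)).Reachable r v with hK
  have hmem : ∀ v, v ∈ K ↔ (del G (X ∪ S)).Reachable r v := by
    intro v; rw [hK, mem_filter]; simp
  have hKA : ∀ v ∈ K, v ∉ X ∪ S := by
    intro v hv
    rw [hmem] at hv
    by_cases h : v = r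
    · rw [h]; exact hrA
    · obtain ⟨u, hu⟩ := exists_adj_of_reachable hv.symm h
      exact hu.2.1
  have hrK : r ∈ K := (hmem r).2 (Reachable.refl _)
  have hKV : K ⊆ VS G := by
    intro v hv
    by_cases h : v = r
    · rw [h]; exact hr
    · obtain ⟨u, hu⟩ := exists_adj_of_reachable ((hmem v).1 hv).symm h
      exact left_mem_VS hu.1
  have hNB : NB G K ⊆ S.erase s := by
    intro w hw
    simp only [NB, mem_filter, mem_univ, true_and] at hw
    obtain ⟨hwK, k, hkK, hkw⟩ := hw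
    have hkA := hKA k hkK
    have hwX : w ∉ X := fun h => hkA (hX w h k hkw.symm)
    have hwS : w ∈ S := by
      by_contra h
      apply hwK
      rw [hmem]
      refine ((hmem k).1 hkK).trans (Adj.reachable ⟨hkw, hkA, ?_⟩)
      rw [mem_union, not_or]
      exact ⟨hwX, h⟩
    rw [mem_erase]
    refine ⟨?_, hwS⟩
    rintro rfl
    exact hcon k ((hmem k).1 hkK) hkA hkw.symm
  have hcard : (NB G K).card < 4 := by
    have h1 := card_le_card hNB
    rw [card_erase_of_mem hs] at h1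
    have h2 : 0 < S.card := card_pos.2 ⟨s, hs⟩
    omega
  have h3 := hNBF.nb hG hKV ⟨r, hrK⟩ hcard hx₀V
  rw [mem_union] at h3
  rcases h3 with h3 | h3
  · exact hKA _ h3 (mem_union_left _ hx₀)
  · exact Finset.disjoint_left.1 hXS hx₀ (mem_of_mem_erase (hNB h3))

/-- two vertices of `S` are connected through the rest -/
theorem reach (hNBF : SpecNBF) (hG : KConn 4 G) {X S : Finset α} (hS : S.card ≤ 4) {x₀ : α}
    (hx₀ : x₀ ∈ X) (hx₀V : x₀ ∈ VS G) (hX : ∀ v ∈ X, ∀ w, G.Adj v w → w ∈ X ∪ S)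
    (hXS : Disjoint X S) {r : α} (hr : r ∈ VS G) (hrA : r ∉ X ∪ S) {s s' : α} (hs : s ∈ S)
    (hs' : s' ∈ S) {T : Finset α} (hT : T ⊆ X ∪ S) (hsT : s ∉ T) (hs'T : s' ∉ T) :
    (del G T).Reachable s s' := by
  obtain ⟨k, h1, h2, h3⟩ := comp_adj hNBF hG hS hx₀ hx₀V hX hXS hr hrA hs
  obtain ⟨k', h1', h2', h3'⟩ := comp_adj hNBF hG hS hx₀ hx₀V hX hXS hr hrA hs'
  have e1 : (del G T).Reachable s k := Adj.reachable ⟨h3, hsT, fun h => h2 (hT h)⟩
  have e2 : (del G T).Reachable s' k' := Adj.reachable ⟨h3', hs'T, fun h => h2' (hT h)⟩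
  have e3 : (del G T).Reachable r k := h1.mono (del_anti hT)
  have e4 : (del G T).Reachable r k' := h1'.mono (del_anti hT)
  exact e1.trans (e3.symm.trans (e4.trans e2.symm))

/-- multiples of a 2-cycle -/
theorem smulz (hKUR : SpecKUR) (hVKA : SpecVKA) {z T : Sym2 α → Sym2 α → ZMod 2} {r : α → ℕ}
    (hz : IsZ2 G z) (hT : IsZ2 G T) (hv : vk r T = 0) (a : ZMod 2) :
    IsZ2 G (fun e f => z e f + a * T e f) ∧ vk r (fun e f => z e f + a * T e f) = vk r z := by
  rcases zmod2_cases a with h | h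
  · rw [h]
    have h1 : (fun e f => z e f + 0 * T e f) = z := by
      funext e f
      rw [zero_mul, add_zero]
    rw [h1]
    exact ⟨hz, rfl⟩
  · rw [h]
    have h1 : (fun e f => z e f + 1 * T e f) = (fun e f => z e f + T e f) := by
      funext e f
      rw [one_mul]
    rw [h1]
    exact ⟨hKUR.zadd hz hT, by rw [hVKA.add, hv, add_zero]⟩

/-- sum of a row at a vertex with four neighbours, one of which lies on the edge of the row -/
theorem sum4 {Y : Sym2 α → Sym2 α → ZMod 2} (hY : IsZ2 G Y) {z x p q s w : α}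
    (hz : ∀ v, G.Adj z v ↔ v = x ∨ v = p ∨ v = q ∨ v = s) (hxp : x ≠ p) (hxq : x ≠ q) (hxs : x ≠ s)
    (hpq : p ≠ q) (hps : p ≠ s) (hqs : q ≠ s) (hzx : z ≠ x) (hzw : z ≠ w) :
    Y s(z, p) s(x, w) + Y s(z, q) s(x, w) + Y s(z, s) s(x, w) = 0 := by
  have h := hY.2.2 s(x, w) z (by rw [Sym2.mem_iff, not_or]; exact ⟨hzx, hzw⟩)
  rw [F4NM.sum_at {x, p, q, s} (fun w hw => by
    simp only [mem_insert, mem_singleton]; exact (hz w).1 hw)
    (fun e he => (hY.2.1 _ e he).2.1), sum_insert, sum_insert, sum_insert, sum_singleton] at h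
  · rw [F4NM.zero_of_not_dj hY (e := s(x, w)) (f := s(z, x)) (v := x) (by simp) (by simp),
      zero_add, hY.1 s(x, w), hY.1 s(x, w), hY.1 s(x, w)] at h
    rw [add_assoc]; exact h
  · simpa using hqs
  · simp only [mem_insert, mem_singleton, not_or]; exact ⟨hpq, hps⟩
  · simp only [mem_insert, mem_singleton, not_or]; exact ⟨hxp, hxq, hxs⟩

/-- vanishing of the matrix from the three base entries -/
theorem zab {Y : Sym2 α → Sym2 α → ZMod 2} (hY : IsZ2 G Y) {x x' z z' s₁ s₂ s₃ : α}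
    (nd : [x, x', z, z', s₁, s₂, s₃].Nodup)
    (hz : ∀ w, G.Adj z w ↔ w = x ∨ w = x' ∨ w = s₁ ∨ w = s₂)
    (hx : ∀ w, G.Adj x w ↔ w = z ∨ w = z' ∨ w = s₁ ∨ w = s₃)
    (hA : Y s(z, s₁) s(x, z') = 0) (hB : Y s(z, x') s(x, s₁) = 0) (hC : Y s(z, x') s(x, z') = 0) :
    Zab z x Y := by
  simp only [List.nodup_cons, List.mem_cons, List.not_mem_nil, or_false, not_or, List.nodup_nil,
    and_true] at nd
  obtain ⟨⟨hxx', hxz, hxz', hx1, hx2, hx3⟩, ⟨hx'z, hx'z', hx'1, hx'2, hx'3⟩, ⟨hzz', hz1, hz2, hz3⟩,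
    ⟨hz'1, hz'2, hz'3⟩, ⟨h12, h13⟩, h23, -⟩ := nd
  have row : ∀ w, z ≠ w → Y s(z, x') s(x, w) + Y s(z, s₁) s(x, w) + Y s(z, s₂) s(x, w) = 0 :=
    fun w hw => sum4 hY hz hxx' hx1 hx2 hx'1 hx'2 h12 (Ne.symm hxz) hw
  have col : ∀ v, x ≠ v → Y s(z, v) s(x, z') + Y s(z, v) s(x, s₁) + Y s(z, v) s(x, s₃) = 0 := by
    intro v hv
    have h := sum4 hY (z := x) (x := z) (p := z') (q := s₁) (s := s₃) (w := v) hx hzz' hz1 hz3 hz'1
      hz'3 h13 hxz hv
    rw [hY.1 s(x, z'), hY.1 s(x, s₁), hY.1 s(x, s₃)] at h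
    exact h
  have z11 : Y s(z, s₁) s(x, s₁) = 0 :=
    F4NM.zero_of_not_dj hY (Sym2.mem_mk_right _ _) (Sym2.mem_mk_right _ _)
  have e1 : Y s(z, s₁) s(x, s₃) = 0 := by
    have h := col s₁ hx1
    rw [hA, z11, zero_add, zero_add] at h
    exact h
  have e2 : Y s(z, s₂) s(x, s₁) = 0 := by
    have h := row s₁ hz1
    rw [hB, z11, zero_add, zero_add] at h
    exact h
  have e3 : Y s(z, x') s(x, s₃) = 0 := by
    have h := col x' hxx'
    rw [hC, hB, zero_add, zero_add] at h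
    exact h
  have e4 : Y s(z, s₂) s(x, z') = 0 := by
    have h := row z' hzz'
    rw [hC, hA, zero_add, zero_add] at h
    exact h
  have e5 : Y s(z, s₂) s(x, s₃) = 0 := by
    have h := row s₃ hz3
    rw [e3, e1, zero_add, zero_add] at h
    exact h
  intro e f hze hxf hne1 hne2
  by_contra h0
  obtain ⟨he, hf, -⟩ := hY.2.1 e f h0
  obtain ⟨v, rfl⟩ := Sym2.mem_iff_exists.1 hze
  obtain ⟨w, rfl⟩ := Sym2.mem_iff_exists.1 hxf
  rcases (hz v).1 he with hv | hv | hv | hv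
  · exact hne1 (by rw [hv])
  · rcases (hx w).1 hf with hw | hw | hw | hw
    · exact hne2 (by rw [hw]; exact Sym2.eq_swap)
    · rw [hv, hw] at h0; exact h0 hC
    · rw [hv, hw] at h0; exact h0 hB
    · rw [hv, hw] at h0; exact h0 e3
  · rcases (hx w).1 hf with hw | hw | hw | hw
    · exact hne2 (by rw [hw]; exact Sym2.eq_swap)
    · rw [hv, hw] at h0; exact h0 hA
    · rw [hv, hw] at h0; exact h0 z11
    · rw [hv, hw] at h0; exact h0 e1
  · rcases (hx w).1 hf with hw | hw | hw | hw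
    · exact hne2 (by rw [hw]; exact Sym2.eq_swap)
    · rw [hv, hw] at h0; exact h0 e4
    · rw [hv, hw] at h0; exact h0 e2
    · rw [hv, hw] at h0; exact h0 e5

end NI1M

open NI1M in
/-- The fragment of type (I.1). -/
theorem specNI1 (hVKA : SpecVKA) (hNPC : SpecNPC) (hNBF : SpecNBF) (hKUR : SpecKUR) : SpecNI1 := by
  classical
  intro α _ _ G x x' z z' s₁ s₂ s₃ s₄ hK hnd hr hz hz' hx hx' hNP
  obtain ⟨r, hr, Y, hY, hvk⟩ := hNP
  obtain ⟨ρ, hρ, hρA⟩ := ‹∃ r ∈ VS G, r ∉ ({x, x', z, z', s₁, s₂, s₃, s₄} : Finset α)›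
  have azx : G.Adj z x := (hz x).2 (by simp)
  have azx' : G.Adj z x' := (hz x').2 (by simp)
  have az1 : G.Adj z s₁ := (hz s₁).2 (by simp)
  have az2 : G.Adj z s₂ := (hz s₂).2 (by simp)
  have axz' : G.Adj x z' := (hx z').2 (by simp)
  have ax1 : G.Adj x s₁ := (hx s₁).2 (by simp)
  have ax3 : G.Adj x s₃ := (hx s₃).2 (by simp)
  have ax'2 : G.Adj x' s₂ := (hx' s₂).2 (by simp)
  have az'3 : G.Adj z' s₃ := (hz' s₃).2 (by simp)
  have hXA : ∀ v ∈ ({x, x', z, z'} : Finset α), ∀ w, G.Adj v w →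
      w ∈ ({x, x', z, z'} : Finset α) ∪ {s₁, s₂, s₃, s₄} := by
    intro v hv w hw
    simp only [mem_insert, mem_singleton] at hv
    rcases hv with rfl | rfl | rfl | rfl
    · rcases (hx w).1 hw with h | h | h | h <;> simp [h]
    · rcases (hx' w).1 hw with h | h | h | h <;> simp [h]
    · rcases (hz w).1 hw with h | h | h | h <;> simp [h]
    · rcases (hz' w).1 hw with h | h | h | h <;> simp [h]
  have hρ' : ρ ∉ ({x, x', z, z'} : Finset α) ∪ {s₁, s₂, s₃, s₄} := by
    intro h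
    apply hρA
    rw [mem_union] at h
    simp only [mem_insert, mem_singleton] at h ⊢
    rcases h with (h | h | h | h) | (h | h | h | h) <;> simp [h]
  have hxV : x ∈ VS G := right_mem_VS azx
  have sT1 : ({x, x', z, z', s₃} : Finset α) ⊆ ({x, x', z, z'} : Finset α) ∪ {s₁, s₂, s₃, s₄} := by
    intro v hv
    simp only [mem_insert, mem_singleton] at hv
    rcases hv with h | h | h | h | h <;> simp [h]
  have sT2 : ({x, x', z, z', s₂} : Finset α) ⊆ ({x, x', z, z'} : Finset α) ∪ {s₁, s₂, s₃, s₄} := by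
    intro v hv
    simp only [mem_insert, mem_singleton] at hv
    rcases hv with h | h | h | h | h <;> simp [h]
  have sub12 : ({z, x} : Finset α) ⊆ {x, x', z, z', s₃} := by
    intro v hv
    simp only [mem_insert, mem_singleton] at hv
    rcases hv with h | h <;> simp [h]
  have sub13 : ({z, x} : Finset α) ⊆ {x, x', z, z', s₂} := by
    intro v hv
    simp only [mem_insert, mem_singleton] at hv
    rcases hv with h | h <;> simp [h]
  have nd := hnd
  simp only [List.nodup_cons, List.mem_cons, List.not_mem_nil, or_false, not_or, List.nodup_nil,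
    and_true] at nd
  obtain ⟨⟨hxx', hxz, hxz', hx1, hx2, hx3, hx4⟩, ⟨hx'z, hx'z', hx'1, hx'2, hx'3, hx'4⟩,
    ⟨hzz', hz1, hz2, hz3, hz4⟩, ⟨hz'1, hz'2, hz'3, hz'4⟩, ⟨h12, h13, h14⟩, ⟨h23, h24⟩, h34, -⟩ := nd
  have hXS : Disjoint ({x, x', z, z'} : Finset α) {s₁, s₂, s₃, s₄} := by
    rw [Finset.disjoint_left]
    intro v hv hv'
    simp only [mem_insert, mem_singleton] at hv hv'
    rcases hv with rfl | rfl | rfl | rfl
    · exact absurd hv' (by simp only [not_or]; exact ⟨hx1, hx2, hx3, hx4⟩)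
    · exact absurd hv' (by simp only [not_or]; exact ⟨hx'1, hx'2, hx'3, hx'4⟩)
    · exact absurd hv' (by simp only [not_or]; exact ⟨hz1, hz2, hz3, hz4⟩)
    · exact absurd hv' (by simp only [not_or]; exact ⟨hz'1, hz'2, hz'3, hz'4⟩)
  -- the paths
  have r12 : (del G {x, x', z, z', s₃}).Reachable s₁ s₂ := by
    refine reach hNBF hK.1 card_le_four (x₀ := x) (by simp) hxV hXA hXS hρ hρ' (by simp) (by simp)
      sT1 ?_ ?_
    · simp only [mem_insert, mem_singleton, not_or]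
      exact ⟨Ne.symm hx1, Ne.symm hx'1, Ne.symm hz1, Ne.symm hz'1, h13⟩
    · simp only [mem_insert, mem_singleton, not_or]
      exact ⟨Ne.symm hx2, Ne.symm hx'2, Ne.symm hz2, Ne.symm hz'2, h23⟩
  have r13 : (del G {x, x', z, z', s₂}).Reachable s₁ s₃ := by
    refine reach hNBF hK.1 card_le_four (x₀ := x) (by simp) hxV hXA hXS hρ hρ' (by simp) (by simp)
      sT2 ?_ ?_
    · simp only [mem_insert, mem_singleton, not_or]
      exact ⟨Ne.symm hx1, Ne.symm hx'1, Ne.symm hz1, Ne.symm hz'1, h12⟩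
    · simp only [mem_insert, mem_singleton, not_or]
      exact ⟨Ne.symm hx3, Ne.symm hx'3, Ne.symm hz3, Ne.symm hz'3, Ne.symm h23⟩
  obtain ⟨P12, hP12⟩ := exists_isPth r12
  obtain ⟨P13, hP13⟩ := exists_isPth r13
  have dP12 := vs_of_isPth_del hP12
  have dP13 := vs_of_isPth_del hP13
  have q12 : IsPth (del G {z, x}) s₁ s₂ P12 := hP12.mono (del_anti sub12)
  have q13 : IsPth (del G {z, x}) s₁ s₃ P13 := hP13.mono (del_anti sub13)
  have e1 : IsPth (del G {z, x}) x' s₂ {s(x', s₂)} := by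
    refine IsPth.edge ⟨ax'2, ?_, ?_⟩
    · simp only [mem_insert, mem_singleton, not_or]; exact ⟨hx'z, Ne.symm hxx'⟩
    · simp only [mem_insert, mem_singleton, not_or]; exact ⟨Ne.symm hz2, Ne.symm hx2⟩
  have e2 : IsPth (del G {z, x}) z' s₃ {s(z', s₃)} := by
    refine IsPth.edge ⟨az'3, ?_, ?_⟩
    · simp only [mem_insert, mem_singleton, not_or]; exact ⟨Ne.symm hzz', Ne.symm hxz'⟩
    · simp only [mem_insert, mem_singleton, not_or]; exact ⟨Ne.symm hz3, Ne.symm hx3⟩
  -- disjointness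
  have d1 : Disjoint (insert z' (vs {s(z', s₃)})) (insert x' (vs {s(x', s₂)})) := by
    rw [vs_singleton, vs_singleton, Finset.disjoint_left]
    intro v hv hv'
    simp only [mem_insert, mem_singleton] at hv hv'
    rcases hv with rfl | rfl | rfl
    · rcases hv' with h | h | h
      exacts [hx'z' h.symm, hx'z' h.symm, hz'2 h]
    · rcases hv' with h | h | h
      exacts [hx'z' h.symm, hx'z' h.symm, hz'2 h]
    · rcases hv' with h | h | h
      exacts [hx'3 h.symm, hx'3 h.symm, h23 h.symm]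
  have d2 : Disjoint (insert z' (vs {s(z', s₃)})) (insert s₁ (vs P12)) := by
    rw [vs_singleton, Finset.disjoint_left]
    intro v hv hv'
    simp only [mem_insert, mem_singleton] at hv hv'
    have hv3 : v = z' ∨ v = s₃ := by
      rcases hv with h | h | h
      exacts [Or.inl h, Or.inl h, Or.inr h]
    rcases hv3 with rfl | rfl
    · rcases hv' with h | h
      · exact hz'1 h
      · exact Finset.disjoint_left.1 dP12 h (by simp)
    · rcases hv' with h | h
      · exact h13 h.symm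
      · exact Finset.disjoint_left.1 dP12 h (by simp)
  have d3 : Disjoint (insert s₁ (vs P13)) (insert x' (vs {s(x', s₂)})) := by
    rw [vs_singleton, Finset.disjoint_left]
    intro v hv' hv
    simp only [mem_insert, mem_singleton] at hv hv'
    have hv3 : v = x' ∨ v = s₂ := by
      rcases hv with h | h | h
      exacts [Or.inl h, Or.inl h, Or.inr h]
    rcases hv3 with rfl | rfl
    · rcases hv' with h | h
      · exact hx'1 h
      · exact Finset.disjoint_left.1 dP13 h (by simp)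
    · rcases hv' with h | h
      · exact h12 h.symm
      · exact Finset.disjoint_left.1 dP13 h (by simp)
  have hzx : z ≠ x := Ne.symm hxz
  -- the tori
  obtain ⟨T1, hT1, hv1, t1⟩ := F4NM.torus hVKA hKUR hzx e2 e1 d1 axz' ax3 hz'3 azx' az2 hx'2
    hzz' hz3 hxx' hx2
  obtain ⟨T2, hT2, hv2, t2⟩ := F4NM.torus hVKA hKUR hzx e2 q12 d2 axz' ax3 hz'3 az1 az2 h12
    hzz' hz3 hx1 hx2
  obtain ⟨T3, hT3, hv3, t3⟩ := F4NM.torus hVKA hKUR hzx q13 e1 d3 ax1 ax3 h13 azx' az2 hx'2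
    hz1 hz3 hxx' hx2
  set a := Y s(z, s₁) s(x, z') with ha
  set b := Y s(z, x') s(x, s₁) with hb
  set c := Y s(z, x') s(x, z') with hc
  obtain ⟨hY1, hk1⟩ := smulz hKUR hVKA hY hT1 (hv1 r hr) c
  obtain ⟨hY2, hk2⟩ := smulz hKUR hVKA hY1 hT2 (hv2 r hr) a
  obtain ⟨hY3, hk3⟩ := smulz hKUR hVKA hY2 hT3 (hv3 r hr) b
  have nd7 : [x, x', z, z', s₁, s₂, s₃].Nodup := by
    refine hnd.sublist ?_
    simp
  refine hNPC.down hr hY3 ?_ azx (zab hY3 nd7 hz hx ?_ ?_ ?_)
  · rw [hk3, hk2, hk1]; exact hvk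
  · show Y s(z, s₁) s(x, z') + c * T1 s(z, s₁) s(x, z') + a * T2 s(z, s₁) s(x, z') +
      b * T3 s(z, s₁) s(x, z') = 0
    rw [t1, t2, t3, if_neg (show ¬ (s₁ = x' ∨ s₁ = s₂) from by
      rw [not_or]; exact ⟨Ne.symm hx'1, h12⟩), if_pos (Or.inl rfl), if_pos (Or.inl rfl), ← ha]
    simp only [zero_mul, mul_zero, add_zero, mul_one]
    exact zmod2_add_self _
  · show Y s(z, x') s(x, s₁) + c * T1 s(z, x') s(x, s₁) + a * T2 s(z, x') s(x, s₁) +
      b * T3 s(z, x') s(x, s₁) = 0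
    rw [t1, t2, t3, if_neg (show ¬ (s₁ = z' ∨ s₁ = s₃) from by
      rw [not_or]; exact ⟨Ne.symm hz'1, h13⟩), if_pos (Or.inl rfl), if_pos (Or.inl rfl), ← hb]
    simp only [mul_zero, add_zero, mul_one]
    exact zmod2_add_self _
  · show Y s(z, x') s(x, z') + c * T1 s(z, x') s(x, z') + a * T2 s(z, x') s(x, z') +
      b * T3 s(z, x') s(x, z') = 0
    rw [t1, t2, t3, if_neg (show ¬ (x' = s₁ ∨ x' = s₂) from by
      rw [not_or]; exact ⟨hx'1, hx'2⟩), if_neg (show ¬ (z' = s₁ ∨ z' = s₃) from by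
      rw [not_or]; exact ⟨hz'1, hz'3⟩), if_pos (Or.inl rfl), if_pos (Or.inl rfl), ← hc]
    simp only [zero_mul, mul_zero, add_zero, mul_one]
    exact zmod2_add_self _

end DL
end

section
set_option autoImplicit false
set_option linter.unusedSectionVars false

/-!
# NPC: nonplanarity under deletion and contraction
-/

open SimpleGraph Finset

namespace DL

namespace NPCM

variable {α : Type} [Fintype α] [DecidableEq α]

/-- an edge of `G` without vertex in `S` is an edge of `del G S` -/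
lemma mem_del {G : SimpleGraph α} {S : Finset α} {f : Sym2 α} :
    f ∈ (DL.del G S).edgeSet ↔ f ∈ G.edgeSet ∧ ∀ v ∈ f, v ∉ S := by
  induction f using Sym2.ind with
  | _ x y =>
    simp only [mem_edgeSet, DL.del, Sym2.mem_iff, forall_eq_or_imp, forall_eq]

lemma eq_zero_of_mem {G : SimpleGraph α} {z : Sym2 α → Sym2 α → ZMod 2} (h : IsZ2 G z) {e f : Sym2 α}
    {v : α} (he : v ∈ e) (hf : v ∈ f) : z e f = 0 := by
  by_contra h1
  exact (h.2.1 e f h1).2.2 v ⟨he, hf⟩

lemma tri_apply (a b c : α) (e : Sym2 α) :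
    tri a b c e = if e = s(a, b) ∨ e = s(b, c) ∨ e = s(a, c) then 1 else 0 := by
  simp only [tri, chi_apply, mem_insert, mem_singleton]

/-- the chain of a triangle of `G` is in the cycle space -/
lemma tri_mem {G : SimpleGraph α} {a b c : α} (hab : G.Adj a b) (hac : G.Adj a c) (hbc : G.Adj b c) :
    tri a b c ∈ Z1 G := by
  have h := (isCyc_of_isPth_del (G := G) (u := a) (i := b) (j := c) (P := {s(b, c)}) hab hac hbc.ne
    (IsPth.edge (G := del G {a}) ⟨hbc, by simp [hab.ne.symm], by simp [hac.ne.symm]⟩)).chi_mem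
  have h2 : tri a b c = chi (insert s(a, b) (insert s(a, c) {s(b, c)})) := by
    funext e
    simp only [tri, chi_apply, mem_insert, mem_singleton]
    congr 1
    simp only [eq_iff_iff]
    tauto
  rw [h2]
  exact h

lemma tri_vs {a b c : α} (e : Sym2 α) (v : α) (he : tri a b c e ≠ 0) (hv : v ∈ e) :
    v ∈ ({a, b, c} : Finset α) := by
  rw [tri_apply] at he
  have h : e = s(a, b) ∨ e = s(b, c) ∨ e = s(a, c) := by
    by_contra h
    exact he (if_neg h)
  simp only [mem_insert, mem_singleton]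
  rcases h with rfl | rfl | rfl <;> · rw [Sym2.mem_iff] at hv; tauto

/-- adding the torus of a triangle and a chain off the triangle -/
lemma tor_tri (hVKA : SpecVKA) (hKUR : SpecKUR) {G : SimpleGraph α} {a b c : α} {r : α → ℕ}
    {z : Sym2 α → Sym2 α → ZMod 2} {Z : Chain α} (hr : Function.Injective r) (hz : IsZ2 G z)
    (hab : G.Adj a b) (hac : G.Adj a c) (hbc : G.Adj b c) (hZ : Z ∈ Z1 (del G {a, b, c})) :
    IsZ2 G (fun e f => z e f + DL.tor (tri a b c) Z e f) ∧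
      vk r (fun e f => z e f + DL.tor (tri a b c) Z e f) = vk r z := by
  have hZG : Z ∈ Z1 G := Z1_mono (G := DL.del G {a, b, c}) (H := G) (fun _ _ h => h.1) hZ
  have hQ : ∀ e v, Z e ≠ 0 → v ∈ e → v ∈ (univ \ {a, b, c} : Finset α) := by
    intro e v he hv
    rw [mem_sdiff]
    exact ⟨mem_univ _, (mem_del.1 (hZ.1 e he)).2 v hv⟩
  have ht := tri_mem hab hac hbc
  have hP : ∀ e v, tri a b c e ≠ 0 → v ∈ e → v ∈ ({a, b, c} : Finset α) := fun e v => tri_vs e v
  have hd : Disjoint ({a, b, c} : Finset α) (univ \ {a, b, c}) := disjoint_sdiff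
  refine ⟨hKUR.zadd hz (hKUR.tor _ _ ht hZG hP hQ hd), ?_⟩
  rw [hVKA.add r z (DL.tor (tri a b c) Z), hVKA.tor _ _ hr ht hZG hP hQ hd, add_zero]

lemma mono (hKUR : SpecKUR) {G G' : SimpleGraph α} (hG : G ≤ G') (h : NP G) : NP G' := by
  obtain ⟨r, hr, z, hz, h1⟩ := h
  exact ⟨r, hr, z, hKUR.zmono hG hz, h1⟩

lemma del (hKUR : SpecKUR) {G : SimpleGraph α} {a b : α} {r : α → ℕ}
    {z : Sym2 α → Sym2 α → ZMod 2} (hr : Function.Injective r) (hz : IsZ2 G z) (h : vk r z ≠ 0)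
    (h0 : ∀ f, z s(a, b) f = 0) : NP (delE G a b) := ⟨r, hr, z, hKUR.del hz h0, h⟩

lemma tdel (hVKA : SpecVKA) (hKUR : SpecKUR) {G : SimpleGraph α} {a b c : α} {r : α → ℕ}
    {z : Sym2 α → Sym2 α → ZMod 2} (hr : Function.Injective r) (hz : IsZ2 G z) (h : vk r z ≠ 0)
    (hab : G.Adj a b) (hac : G.Adj a c) (hbc : G.Adj b c) (h0 : ∀ f, c ∈ f → z s(a, b) f = 0) :
    NP (delE G a b) := by
  have hZ : z s(a, b) ∈ Z1 (DL.del G {a, b, c}) := by
    refine ⟨fun f hf => mem_del.2 ⟨(hz.2.1 _ _ hf).2.1, fun v hv hv' => ?_⟩,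
      ((hKUR.row a b hz).2)⟩
    rw [mem_insert, mem_insert, mem_singleton] at hv'
    rcases hv' with rfl | rfl | rfl
    · exact hf (eq_zero_of_mem hz (Sym2.mem_mk_left _ _) hv)
    · exact hf (eq_zero_of_mem hz (Sym2.mem_mk_right _ _) hv)
    · exact hf (h0 f hv)
  obtain ⟨h1, h2⟩ := tor_tri hVKA hKUR hr hz hab hac hbc hZ
  refine del hKUR hr h1 (by rw [h2]; exact h) fun f => ?_
  have h3 : z s(a, b) s(a, b) = 0 := eq_zero_of_mem hz (Sym2.mem_mk_left _ _) (Sym2.mem_mk_left _ _)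
  have h4 : tri a b c s(a, b) = 1 := by rw [tri_apply, if_pos (Or.inl rfl)]
  simp only [DL.tor, h3, h4, one_mul, zero_mul, add_zero]
  exact zmod2_add_self _

/-- an order in which `a`, `b` are consecutive -/
lemma exists_order (a b : α) (hab : a ≠ b) {r : α → ℕ} (hr : Function.Injective r) :
    ∃ r' : α → ℕ, Function.Injective r' ∧ ∀ x, x ≠ a → x ≠ b →
      (r' x < r' a ↔ r' x < r' b) := by
  refine ⟨fun x => if x = b then 2 * r a + 1 else 2 * r x, ?_, ?_⟩
  · intro x y hxy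
    simp only at hxy
    split_ifs at hxy with h1 h2 h2
    · rw [h1, h2]
    · omega
    · omega
    · exact hr (by omega)
  · intro x hxa hxb
    simp only [if_neg hxb, if_neg hab, if_true]
    have h1 : r x ≠ r a := fun h => hxa (hr h)
    omega

/-- the edges of the contracted graph -/
lemma contr_exists {S : SimpleGraph α} {a b p q : α} (hab : S.Adj a b) (h : (contr S a b).Adj p q) :
    ∃ p' q', S.Adj p' q' ∧ mrg a b p' = p ∧ mrg a b q' = q ∧ s(p', q') ≠ s(a, b) := by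
  obtain ⟨hp, hq, hpq, h | ⟨rfl, h⟩ | ⟨rfl, h⟩⟩ := h
  · refine ⟨p, q, h, if_neg hp, if_neg hq, fun he => ?_⟩
    rw [Sym2.eq_iff] at he
    rcases he with he | he
    · exact hq he.2
    · exact hp he.1
  · refine ⟨b, q, h, if_pos rfl, if_neg hq, fun he => ?_⟩
    rw [Sym2.eq_iff] at he
    rcases he with he | he
    · exact hab.ne he.1.symm
    · exact hpq he.2.symm
  · refine ⟨p, b, h, if_neg hp, if_pos rfl, fun he => ?_⟩
    rw [Sym2.eq_iff] at he
    rcases he with he | he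
    · exact hpq he.1
    · exact hp he.1

/-- an edge different from `ab` is mapped to an edge of the contracted graph -/
lemma contr_mrg {S : SimpleGraph α} {a b p q : α} (hab : S.Adj a b) (h : S.Adj p q)
    (hne : s(p, q) ≠ s(a, b)) : (contr S a b).Adj (mrg a b p) (mrg a b q) := by
  refine contr_cpr hab.ne h fun he => ?_
  unfold cpr at he
  split_ifs at he with h1 h2 h2
  · exact h.ne (h1.trans h2.symm)
  · apply hne
    rw [h1, ← he, Sym2.eq_swap]
  · apply hne
    rw [h2, he]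
  · exact h.ne he

/-- the map of the edges is injective -/
lemma mrg_inj {S : SimpleGraph α} {a b p q p' q' : α} (hN : NoCN S a b) (h : S.Adj p q)
    (h' : S.Adj p' q') (hne : s(p, q) ≠ s(a, b)) (h1 : mrg a b p = mrg a b p')
    (h2 : mrg a b q = mrg a b q') : p = p' ∧ q = q' := by
  have key : ∀ x y, mrg a b x = mrg a b y → x = y ∨ (x = a ∧ y = b) ∨ (x = b ∧ y = a) := by
    intro x y hxy
    unfold mrg at hxy
    split_ifs at hxy with h3 h4 h4
    · exact Or.inl (h3.trans h4.symm)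
    · exact Or.inr (Or.inr ⟨h3, hxy.symm⟩)
    · exact Or.inr (Or.inl ⟨hxy, h4⟩)
    · exact Or.inl hxy
  rcases key _ _ h1 with h3 | ⟨h3, h4⟩ | ⟨h3, h4⟩ <;> rcases key _ _ h2 with h5 | ⟨h5, h6⟩ | ⟨h5, h6⟩
  · exact ⟨h3, h5⟩
  · subst h3 h5 h6
    exact (hN p ⟨h.symm, h'.symm⟩).elim
  · subst h3 h5 h6
    exact (hN p ⟨h'.symm, h.symm⟩).elim
  · subst h3 h4 h5
    exact (hN q ⟨h, h'⟩).elim
  · exact (h.ne (h3.trans h5.symm)).elim
  · exact (hne (by rw [h3, h5])).elim
  · subst h3 h4 h5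
    exact (hN q ⟨h', h⟩).elim
  · exact (hne (by rw [h3, h5, Sym2.eq_swap])).elim
  · exact (h.ne (h3.trans h5.symm)).elim

/-- the order of the images -/
lemma lt_mrg {a b x y : α} {r : α → ℕ} (hr : Function.Injective r)
    (hc : ∀ x, x ≠ a → x ≠ b → (r x < r a ↔ r x < r b)) (hxy : mrg a b x ≠ mrg a b y) :
    r (mrg a b x) < r (mrg a b y) ↔ r x < r y := by
  unfold mrg at hxy ⊢
  by_cases hx : x = b <;> by_cases hy : y = b
  · exact absurd (by rw [if_pos hx, if_pos hy]) hxy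
  · rw [if_pos hx, if_neg hy] at hxy ⊢
    subst hx
    have h1 := hc y hxy.symm hy
    have h2 : r y ≠ r a := fun h => hxy (hr h).symm
    have h3 : r y ≠ r x := fun h => hy (hr h)
    omega
  · rw [if_neg hx, if_pos hy] at hxy ⊢
    subst hy
    have h1 := hc x hxy hx
    exact h1
  · rw [if_neg hx, if_neg hy]

/-- **the van Kampen numbers of corresponding two-cycles agree** -/
lemma vk_merge {S : SimpleGraph α} {a b : α} (hab : S.Adj a b) (hN : NoCN S a b) {r : α → ℕ}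
    (hr : Function.Injective r) (hc : ∀ x, x ≠ a → x ≠ b → (r x < r a ↔ r x < r b))
    {z w : Sym2 α → Sym2 α → ZMod 2} (hz : IsZ2 S z) (hw : IsZ2 (contr S a b) w)
    (hzw : ∀ e ∈ S.edgeSet, ∀ f ∈ S.edgeSet, e ≠ s(a, b) → f ≠ s(a, b) →
      z e f = w (e.map (mrg a b)) (f.map (mrg a b))) : vk r z = vk r w := by
  classical
  have hprod : ∀ y : Sym2 α → Sym2 α → ZMod 2, vk r y = ∑ x : (α × α) × (α × α),
      if r x.1.1 < r x.2.1 ∧ r x.2.1 < r x.1.2 ∧ r x.1.2 < r x.2.2 then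
        y s(x.1.1, x.1.2) s(x.2.1, x.2.2) else 0 := by
    intro y
    rw [Fintype.sum_prod_type, Fintype.sum_prod_type]
    simp only [Fintype.sum_prod_type, vk]
  rw [hprod z, hprod w]
  -- facts on a nonzero term of the left side
  have hne : ∀ x : (α × α) × (α × α),
      (if r x.1.1 < r x.2.1 ∧ r x.2.1 < r x.1.2 ∧ r x.1.2 < r x.2.2 then
        z s(x.1.1, x.1.2) s(x.2.1, x.2.2) else 0) ≠ 0 →
      S.Adj x.1.1 x.1.2 ∧ S.Adj x.2.1 x.2.2 ∧ s(x.1.1, x.1.2) ≠ s(a, b) ∧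
        s(x.2.1, x.2.2) ≠ s(a, b) ∧
        (r x.1.1 < r x.2.1 ∧ r x.2.1 < r x.1.2 ∧ r x.1.2 < r x.2.2) ∧
        z s(x.1.1, x.1.2) s(x.2.1, x.2.2) ≠ 0 := by
    intro x hx
    have h1 : r x.1.1 < r x.2.1 ∧ r x.2.1 < r x.1.2 ∧ r x.1.2 < r x.2.2 := by
      by_contra h
      exact hx (if_neg h)
    rw [if_pos h1] at hx
    obtain ⟨h2, h3, h4⟩ := hz.2.1 _ _ hx
    have hd : ∀ v, v ∈ s(x.1.1, x.1.2) → v ∈ s(x.2.1, x.2.2) → False := fun v hv hv' => h4 v ⟨hv, hv'⟩
    -- the edge `ab` does not interleave with a disjoint edge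
    refine ⟨h2, h3, ?_, ?_, h1, hx⟩
    · intro he
      have hs1 : x.2.1 ≠ a := by
        rintro h
        exact hd x.2.1 (by rw [he, h]; exact Sym2.mem_mk_left _ _) (Sym2.mem_mk_left _ _)
      have hs2 : x.2.1 ≠ b := by
        rintro h
        exact hd x.2.1 (by rw [he, h]; exact Sym2.mem_mk_right _ _) (Sym2.mem_mk_left _ _)
      have h5 := hc _ hs1 hs2
      have h6 : r x.2.1 ≠ r a := fun h => hs1 (hr h)
      have h7 : r x.2.1 ≠ r b := fun h => hs2 (hr h)
      rw [Sym2.eq_iff] at he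
      rcases he with ⟨he1, he2⟩ | ⟨he1, he2⟩ <;> · rw [he1, he2] at h1; omega
    · intro he
      have hs1 : x.1.2 ≠ a := by
        rintro h
        exact hd x.1.2 (Sym2.mem_mk_right _ _) (by rw [he, h]; exact Sym2.mem_mk_left _ _)
      have hs2 : x.1.2 ≠ b := by
        rintro h
        exact hd x.1.2 (Sym2.mem_mk_right _ _) (by rw [he, h]; exact Sym2.mem_mk_right _ _)
      have h5 := hc _ hs1 hs2
      have h6 : r x.1.2 ≠ r a := fun h => hs1 (hr h)
      have h7 : r x.1.2 ≠ r b := fun h => hs2 (hr h)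
      rw [Sym2.eq_iff] at he
      rcases he with ⟨he1, he2⟩ | ⟨he1, he2⟩ <;> · rw [he1, he2] at h1; omega
  -- facts for disjoint images
  have hlt : ∀ p q s t : α, S.Adj p q → S.Adj s t → s(p, q) ≠ s(a, b) → s(s, t) ≠ s(a, b) →
      w s(mrg a b p, mrg a b q) s(mrg a b s, mrg a b t) ≠ 0 →
      ((r (mrg a b p) < r (mrg a b s) ∧ r (mrg a b s) < r (mrg a b q) ∧ r (mrg a b q) < r (mrg a b t)) ↔
        (r p < r s ∧ r s < r q ∧ r q < r t)) := by
    intro p q s t _ _ _ _ hne'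
    have h4 := (hw.2.1 _ _ hne').2.2
    rw [lt_mrg hr hc, lt_mrg hr hc, lt_mrg hr hc]
    · intro h
      exact h4 _ ⟨Sym2.mem_mk_right _ _, by rw [h]; exact Sym2.mem_mk_right _ _⟩
    · intro h
      exact h4 _ ⟨Sym2.mem_mk_right _ _, by rw [← h]; exact Sym2.mem_mk_left _ _⟩
    · intro h
      exact h4 _ ⟨Sym2.mem_mk_left _ _, by rw [h]; exact Sym2.mem_mk_left _ _⟩
  refine Finset.sum_bij_ne_zero
    (fun x _ _ => ((mrg a b x.1.1, mrg a b x.1.2), (mrg a b x.2.1, mrg a b x.2.2)))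
    (fun _ _ _ => mem_univ _) ?_ ?_ ?_
  · intro x _ hx y _ hy hxy
    obtain ⟨hx1, hx2, hx3, hx4, _, _⟩ := hne x hx
    obtain ⟨hy1, hy2, hy3, hy4, _, _⟩ := hne y hy
    simp only [Prod.mk.injEq] at hxy
    obtain ⟨⟨h1, h2⟩, h3, h4⟩ := hxy
    obtain ⟨h5, h6⟩ := mrg_inj hN hx1 hy1 hx3 h1 h2
    obtain ⟨h7, h8⟩ := mrg_inj hN hx2 hy2 hx4 h3 h4
    exact Prod.ext (Prod.ext h5 h6) (Prod.ext h7 h8)
  · intro y _ hy
    have h1 : r y.1.1 < r y.2.1 ∧ r y.2.1 < r y.1.2 ∧ r y.1.2 < r y.2.2 := by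
      by_contra h
      exact hy (if_neg h)
    rw [if_pos h1] at hy
    obtain ⟨h2, h3, h4⟩ := hw.2.1 _ _ hy
    obtain ⟨p, q, hpq, hp, hq, hpq'⟩ := contr_exists hab h2
    obtain ⟨s, t, hst, hs, ht, hst'⟩ := contr_exists hab h3
    have h5 : z s(p, q) s(s, t) = w s(y.1.1, y.1.2) s(y.2.1, y.2.2) := by
      rw [hzw _ hpq _ hst hpq' hst', Sym2.map_mk, Sym2.map_mk, hp, hq, hs, ht]
    have h6 : r p < r s ∧ r s < r q ∧ r q < r t := by
      refine (hlt p q s t hpq hst hpq' hst' ?_).1 ?_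
      · rw [hp, hq, hs, ht]; exact hy
      · rw [hp, hq, hs, ht]; exact h1
    refine ⟨((p, q), (s, t)), mem_univ _, ?_, ?_⟩
    · simp only
      rw [if_pos h6, h5]
      exact hy
    · simp only [hp, hq, hs, ht]
  · intro x _ hx
    obtain ⟨hx1, hx2, hx3, hx4, hx5, hx6⟩ := hne x hx
    have h5 : z s(x.1.1, x.1.2) s(x.2.1, x.2.2) =
        w s(mrg a b x.1.1, mrg a b x.1.2) s(mrg a b x.2.1, mrg a b x.2.2) := by
      rw [hzw _ hx1 _ hx2 hx3 hx4, Sym2.map_mk, Sym2.map_mk]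
    have h6 := (hlt _ _ _ _ hx1 hx2 hx3 hx4 (by rw [← h5]; exact hx6)).2 hx5
    simp only
    rw [if_pos hx5, if_pos h6, h5]

lemma up (hVKA : SpecVKA) (hKUR : SpecKUR) (hCTZ : SpecCTZ) (hSEF : SpecSEF) {G : SimpleGraph α}
    {a b : α} (hab : G.Adj a b) (h : NP (contr G a b)) : NP G := by
  obtain ⟨r, hr, w, hw, h1⟩ := h
  obtain ⟨hS1, hS2, hS3⟩ := hSEF.adj ∅ hab
  have hw' : IsZ2 (contr (sel G a b ∅) a b) w := by rw [hS3]; exact hw
  obtain ⟨z, hz, hzw⟩ := hCTZ.up hS1 hS2 w hw'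
  obtain ⟨r', hr', hc⟩ := exists_order a b hab.ne hr
  refine ⟨r', hr', z, hKUR.zmono (hSEF.le G a b ∅) hz, ?_⟩
  rw [vk_merge hS1 hS2 hr' hc hz hw' hzw, ← hVKA.inv hr hr' hw]
  exact h1

/-- making the rows of the edges `bx` zero -/
lemma exists_rows (hVKA : SpecVKA) (hKUR : SpecKUR) {G : SimpleGraph α} {a b : α} {r : α → ℕ}
    {z : Sym2 α → Sym2 α → ZMod 2} (hr : Function.Injective r) (hz : IsZ2 G z)
    (hab : G.Adj a b) (hZ : Zab a b z) (D : Finset α) (hD : ∀ x ∈ D, G.Adj a x ∧ G.Adj b x) :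
    ∃ z', IsZ2 G z' ∧ vk r z' = vk r z ∧ Zab a b z' ∧ ∀ x ∈ D, ∀ f, z' s(b, x) f = 0 := by
  induction D using Finset.induction_on with
  | empty => exact ⟨z, hz, rfl, hZ, by simp⟩
  | insert x D hx ih =>
    obtain ⟨z', h1, h2, h3, h4⟩ := ih fun y hy => hD y (mem_insert_of_mem hy)
    obtain ⟨hax, hbx⟩ := hD x (mem_insert_self _ _)
    -- the row of `bx` avoids `a`, `b`, `x`
    have h5 : z' s(b, x) ∈ Z1 (DL.del G {a, b, x}) := by
      refine ⟨fun f hf => mem_del.2 ⟨(h1.2.1 _ _ hf).2.1, fun v hv hv' => ?_⟩,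
        ((hKUR.row b x h1).2)⟩
      rw [mem_insert, mem_insert, mem_singleton] at hv'
      rcases hv' with rfl | rfl | rfl
      · apply hf
        by_cases hfe : f = s(v, b)
        · subst hfe
          exact eq_zero_of_mem h1 (Sym2.mem_mk_left _ _) (Sym2.mem_mk_right _ _)
        · rw [h1.1]
          refine h3 f s(b, x) hv (Sym2.mem_mk_left _ _) hfe fun he => ?_
          rw [Sym2.eq_iff] at he
          rcases he with he | he
          · exact hab.ne he.1.symm
          · exact hax.ne he.2.symm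
      · exact hf (eq_zero_of_mem h1 (Sym2.mem_mk_left _ _) hv)
      · exact hf (eq_zero_of_mem h1 (Sym2.mem_mk_right _ _) hv)
    obtain ⟨h6, h7⟩ := tor_tri hVKA hKUR hr h1 hab hax hbx h5
    -- the row vanishes at an edge containing `a`, `b` or `x`
    have h8 : ∀ e v, v ∈ e → v ∈ ({a, b, x} : Finset α) → z' s(b, x) e = 0 := by
      intro e v hv hv'
      by_contra h
      exact (mem_del.1 (h5.1 e h)).2 v hv hv'
    refine ⟨_, h6, h7.trans h2, ?_, ?_⟩
    · intro e f he hf hea hfa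
      have h9 : z' s(b, x) e = 0 := h8 e a he (by simp)
      have h10 : z' s(b, x) f = 0 := h8 f b hf (by simp)
      simp only [DL.tor, h3 e f he hf hea hfa, h9, h10, mul_zero, zero_mul, add_zero]
    · intro y hy f
      have h9 : z' s(b, x) s(b, y) = 0 := h8 _ b (Sym2.mem_mk_left _ _) (by simp)
      rcases mem_insert.1 hy with rfl | hy
      · have h10 : tri a b y s(b, y) = 1 := by rw [tri_apply, if_pos (Or.inr (Or.inl rfl))]
        simp only [DL.tor, h9, h10, one_mul, zero_mul, add_zero]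
        exact zmod2_add_self _
      · have h10 : tri a b x s(b, y) = 0 := by
          rw [tri_apply, if_neg]
          obtain ⟨hay, hby⟩ := hD y (mem_insert_of_mem hy)
          have hyx : y ≠ x := fun h => hx (h ▸ hy)
          simp only [Sym2.eq_iff, not_or, not_and]
          refine ⟨⟨fun h => (hab.ne h.symm).elim, fun _ h => hay.ne h.symm⟩,
            ⟨fun _ h => hyx h, fun h => (hbx.ne h).elim⟩, fun h => (hab.ne h.symm).elim,
            fun h => (hbx.ne h).elim⟩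
        simp only [DL.tor, h9, h10, h4 y hy f, zero_mul, add_zero]

lemma down1 (hVKA : SpecVKA) (hKUR : SpecKUR) (hCTZ : SpecCTZ) (hSEF : SpecSEF) {G : SimpleGraph α}
    {a b : α} {r : α → ℕ} {z : Sym2 α → Sym2 α → ZMod 2} (hr : Function.Injective r) (hz : IsZ2 G z)
    (h : vk r z ≠ 0) (hab : G.Adj a b) (hZ : Zab a b z) : NP (contr G a b) := by
  classical
  obtain ⟨z', h1, h2, h3, h4⟩ := exists_rows hVKA hKUR hr hz hab hZ
    (univ.filter fun x => G.Adj a x ∧ G.Adj b x) (fun x hx => (mem_filter.1 hx).2)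
  obtain ⟨hS1, hS2, hS3⟩ := hSEF.adj ∅ hab
  have h5 : ∀ e ∈ G.edgeSet, (∀ x, G.Adj a x → G.Adj b x → e ≠ s(b, x)) →
      e ∈ (sel G a b ∅).edgeSet := by
    intro e he hx
    rw [sel, edgeSet_deleteEdges]
    refine ⟨he, ?_⟩
    rintro ⟨x, hax, hbx, ⟨hx1, _⟩ | ⟨_, hx2⟩⟩
    · simp at hx1
    · exact hx x hax hbx hx2
  have h6 : IsZ2 (sel G a b ∅) z' := by
    refine ⟨h1.1, fun e f hef => ?_, h1.2.2⟩
    obtain ⟨h7, h8, h9⟩ := h1.2.1 e f hef
    refine ⟨h5 e h7 ?_, h5 f h8 ?_, h9⟩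
    · rintro x hax hbx rfl
      exact hef (h4 x (mem_filter.2 ⟨mem_univ _, hax, hbx⟩) f)
    · rintro x hax hbx rfl
      exact hef (by rw [h1.1]; exact h4 x (mem_filter.2 ⟨mem_univ _, hax, hbx⟩) e)
  obtain ⟨w, hw, hzw⟩ := hCTZ.down hS1 hS2 z' h6 h3
  obtain ⟨r', hr', hc⟩ := exists_order a b hab.ne hr
  rw [hS3] at hw
  refine ⟨r', hr', w, hw, ?_⟩
  rw [← vk_merge hS1 hS2 hr' hc h6 (by rw [hS3]; exact hw) hzw, ← hVKA.inv hr hr' h1, h2]
  exact h

lemma down (hVKA : SpecVKA) (hKUR : SpecKUR) (hCTZ : SpecCTZ) (hSEF : SpecSEF) {G : SimpleGraph α}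
    {a b : α} {r : α → ℕ} {z : Sym2 α → Sym2 α → ZMod 2} (hr : Function.Injective r) (hz : IsZ2 G z)
    (h : vk r z ≠ 0) (hab : G.Adj a b) (hZ : Zab a b z) :
    NP (contr G a b) ∧ NP (contr G b a) := by
  refine ⟨down1 hVKA hKUR hCTZ hSEF hr hz h hab hZ, down1 hVKA hKUR hCTZ hSEF hr hz h hab.symm ?_⟩
  intro e f he hf hea hfa
  rw [hz.1]
  refine hZ f e hf he ?_ ?_
  · rwa [Sym2.eq_swap]
  · rwa [Sym2.eq_swap]

end NPCM

theorem specNPC (hVKA : SpecVKA) (hKUR : SpecKUR) (hCTZ : SpecCTZ) (hSEF : SpecSEF) : SpecNPC where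
  mono := fun hG h => NPCM.mono hKUR hG h
  del := fun hr hz h h0 => NPCM.del hKUR hr hz h h0
  tdel := fun hr hz h hab hac hbc h0 => NPCM.tdel hVKA hKUR hr hz h hab hac hbc h0
  up := fun hab h => NPCM.up hVKA hKUR hCTZ hSEF hab h
  down := fun hr hz h hab hZ => NPCM.down hVKA hKUR hCTZ hSEF hr hz h hab hZ

end DL
end

section
set_option autoImplicit false
set_option linter.unusedSectionVars false

/-!
# NPM: models of `K_{3,3}` and `K_5`
-/

open SimpleGraph Finset

namespace DL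

namespace NPMM

variable {α : Type} [Fintype α] [DecidableEq α]

/-! ## Subgraphs given by a pattern -/

/-- disjoint pairs of edges of the pattern -/
def pat {n : ℕ} (K : Fin n → Fin n → Bool) (i j k l : Fin n) : Bool :=
  decide (K i j = true ∧ K k l = true ∧ i ≠ k ∧ i ≠ l ∧ j ≠ k ∧ j ≠ l)

lemma pat_iff {n : ℕ} {K : Fin n → Fin n → Bool} {i j k l : Fin n} :
    pat K i j k l = true ↔ (K i j = true ∧ K k l = true ∧ i ≠ k ∧ i ≠ l ∧ j ≠ k ∧ j ≠ l) :=
  decide_eq_true_iff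

open Classical in
/-- the symmetric function which is `1` on all the pairs of disjoint edges of the pattern -/
noncomputable def zz {n : ℕ} (K : Fin n → Fin n → Bool) (φ : Fin n → α) (e f : Sym2 α) : ZMod 2 :=
  if ∃ i j k l, pat K i j k l = true ∧ e = s(φ i, φ j) ∧ f = s(φ k, φ l) then 1 else 0

lemma zz_ne {n : ℕ} {K : Fin n → Fin n → Bool} {φ : Fin n → α} {e f : Sym2 α} (h : zz K φ e f ≠ 0) :
    ∃ i j k l, pat K i j k l = true ∧ e = s(φ i, φ j) ∧ f = s(φ k, φ l) := by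
  unfold zz at h
  by_contra h1
  exact h (if_neg h1)

lemma pat_swap1 {n : ℕ} {K : Fin n → Fin n → Bool} (hK : ∀ i j, K i j = K j i) (i j k l : Fin n) :
    pat K i j k l = pat K j i k l := by
  rw [Bool.eq_iff_iff, pat_iff, pat_iff, hK i j]
  tauto

lemma pat_swap2 {n : ℕ} {K : Fin n → Fin n → Bool} (hK : ∀ i j, K i j = K j i) (i j k l : Fin n) :
    pat K i j k l = pat K i j l k := by
  rw [Bool.eq_iff_iff, pat_iff, pat_iff, hK k l]
  tauto

lemma pat_swap3 {n : ℕ} {K : Fin n → Fin n → Bool} (i j k l : Fin n) :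
    pat K i j k l = pat K k l i j := by
  rw [Bool.eq_iff_iff, pat_iff, pat_iff, ne_comm (a := k) (b := i), ne_comm (a := l) (b := i),
    ne_comm (a := k) (b := j), ne_comm (a := l) (b := j)]
  tauto

lemma zz_apply {n : ℕ} {K : Fin n → Fin n → Bool} (hK : ∀ i j, K i j = K j i) {φ : Fin n → α}
    (hφ : Function.Injective φ) (i j k l : Fin n) :
    zz K φ s(φ i, φ j) s(φ k, φ l) = if pat K i j k l = true then 1 else 0 := by
  unfold zz
  congr 1
  rw [eq_iff_iff]
  constructor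
  · rintro ⟨i', j', k', l', h, h1, h2⟩
    rw [Sym2.eq_iff] at h1 h2
    rcases h1 with ⟨h1, h3⟩ | ⟨h1, h3⟩ <;> rcases h2 with ⟨h2, h4⟩ | ⟨h2, h4⟩
    · rw [hφ h1, hφ h3, hφ h2, hφ h4]; exact h
    · rw [hφ h1, hφ h3, hφ h2, hφ h4, pat_swap2 hK]; exact h
    · rw [hφ h1, hφ h3, hφ h2, hφ h4, pat_swap1 hK]; exact h
    · rw [hφ h1, hφ h3, hφ h2, hφ h4, pat_swap1 hK, pat_swap2 hK]; exact h
  · intro h
    exact ⟨i, j, k, l, h, rfl, rfl⟩

/-- **the function is a two-cycle** -/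
lemma zz_isZ2 {n : ℕ} {K : Fin n → Fin n → Bool} (hK : ∀ i j, K i j = K j i) {φ : Fin n → α}
    (hφ : Function.Injective φ) {G : SimpleGraph α} (hG : ∀ i j, K i j = true → G.Adj (φ i) (φ j))
    (hrow : ∀ i j m : Fin n, m ≠ i → m ≠ j →
      ∑ l, (if pat K i j m l = true then (1 : ZMod 2) else 0) = 0) :
    IsZ2 G (zz K φ) := by
  classical
  have hp : ∀ {i j k l : Fin n}, pat K i j k l = true → K i j = true ∧ K k l = true ∧ i ≠ k ∧ i ≠ l ∧
      j ≠ k ∧ j ≠ l := by
    intro i j k l h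
    exact pat_iff.1 h
  refine ⟨fun e f => ?_, fun e f hef => ?_, fun e v hv => ?_⟩
  · unfold zz
    congr 1
    rw [eq_iff_iff]
    constructor
    · rintro ⟨i, j, k, l, h, h1, h2⟩
      exact ⟨k, l, i, j, by rw [pat_swap3]; exact h, h2, h1⟩
    · rintro ⟨i, j, k, l, h, h1, h2⟩
      exact ⟨k, l, i, j, by rw [pat_swap3]; exact h, h2, h1⟩
  · obtain ⟨i, j, k, l, h, rfl, rfl⟩ := zz_ne hef
    obtain ⟨h1, h2, h3, h4, h5, h6⟩ := hp h
    refine ⟨hG _ _ h1, hG _ _ h2, ?_⟩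
    rintro v ⟨hv1, hv2⟩
    rw [Sym2.mem_iff] at hv1 hv2
    rcases hv1 with rfl | rfl <;> rcases hv2 with hv2 | hv2
    · exact h3 (hφ hv2)
    · exact h4 (hφ hv2)
    · exact h5 (hφ hv2)
    · exact h6 (hφ hv2)
  · -- the row of `e` at `v`
    by_cases h0 : ∀ f, v ∈ f → zz K φ e f = 0
    · exact sum_eq_zero fun f hf => h0 f (mem_filter.1 hf).2
    push Not at h0
    obtain ⟨f0, hf0, hf1⟩ := h0
    obtain ⟨i, j, k, l, h, rfl, rfl⟩ := zz_ne hf1
    obtain ⟨m, rfl⟩ : ∃ m, v = φ m := by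
      rw [Sym2.mem_iff] at hf0
      rcases hf0 with h | h
      · exact ⟨_, h⟩
      · exact ⟨_, h⟩
    rw [Sym2.mem_iff, not_or] at hv
    have hmi : m ≠ i := fun h => hv.1 (by rw [h])
    have hmj : m ≠ j := fun h => hv.2 (by rw [h])
    rw [← hrow i j m hmi hmj]
    symm
    refine Finset.sum_of_injOn (fun l => s(φ m, φ l)) ?_ ?_ ?_ ?_
    · intro x _ y _ hxy
      have hxy' : s(φ m, φ x) = s(φ m, φ y) := hxy
      rw [Sym2.congr_right] at hxy'
      exact hφ hxy'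
    · intro x _
      simp
    · intro f hf hf2
      by_contra hne
      obtain ⟨i', j', k', l', h', h1', rfl⟩ := zz_ne hne
      apply hf2
      have hf3 := (mem_filter.1 hf).2
      rw [Sym2.mem_iff] at hf3
      rcases hf3 with h3 | h3
      · exact ⟨l', by simp, by simp only; rw [h3]⟩
      · exact ⟨k', by simp, by simp only; rw [h3, Sym2.eq_swap]⟩
    · intro x _
      rw [zz_apply hK hφ]

/-- an order extending the order of the index set -/
lemma exists_order {n : ℕ} {φ : Fin n → α} (hφ : Function.Injective φ) :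
    ∃ r : α → ℕ, Function.Injective r ∧ ∀ i j, r (φ i) < r (φ j) ↔ i < j := by
  classical
  refine ⟨fun x => if h : ∃ i, φ i = x then (h.choose : ℕ) else n + Fintype.equivFin α x, ?_, ?_⟩
  · intro x y hxy
    simp only at hxy
    split_ifs at hxy with h1 h2 h2
    · rw [← h1.choose_spec, ← h2.choose_spec, Fin.val_injective hxy]
    · have := h1.choose.2
      omega
    · have := h2.choose.2
      omega
    · have h3 : ((Fintype.equivFin α x : Fin _) : ℕ) = (Fintype.equivFin α y : Fin _) := by omega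
      exact (Fintype.equivFin α).injective (Fin.val_injective h3)
  · have key : ∀ i, (if h : ∃ i', φ i' = φ i then (h.choose : ℕ)
        else n + Fintype.equivFin α (φ i)) = i := by
      intro i
      have h : ∃ i', φ i' = φ i := ⟨i, rfl⟩
      rw [dif_pos h, hφ h.choose_spec]
    intro i j
    simp only [key]
    exact Fin.lt_def.symm

/-- **a graph which contains the pattern is nonplanar** -/
lemma np_of_pat {n : ℕ} {K : Fin n → Fin n → Bool} (hK : ∀ i j, K i j = K j i) {φ : Fin n → α}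
    (hφ : Function.Injective φ) {G : SimpleGraph α} (hG : ∀ i j, K i j = true → G.Adj (φ i) (φ j))
    (hrow : ∀ i j m : Fin n, m ≠ i → m ≠ j →
      ∑ l, (if pat K i j m l = true then (1 : ZMod 2) else 0) = 0)
    (hvk : ∑ a : Fin n, ∑ b : Fin n, ∑ c : Fin n, ∑ d : Fin n,
      (if a < c ∧ c < b ∧ b < d ∧ pat K a b c d = true then (1 : ZMod 2) else 0) ≠ 0) : NP G := by
  classical
  obtain ⟨r, hr, hro⟩ := exists_order hφ
  refine ⟨r, hr, zz K φ, zz_isZ2 hK hφ hG hrow, ?_⟩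
  have key : vk r (zz K φ) = ∑ a : Fin n, ∑ b : Fin n, ∑ c : Fin n, ∑ d : Fin n,
      (if a < c ∧ c < b ∧ b < d ∧ pat K a b c d = true then (1 : ZMod 2) else 0) := by
    have hz : ∀ a b c d : α, zz K φ s(a, b) s(c, d) ≠ 0 →
        (∃ i, φ i = a) ∧ (∃ i, φ i = b) ∧ (∃ i, φ i = c) ∧ ∃ i, φ i = d := by
      intro a b c d h
      obtain ⟨i, j, k, l, -, h1, h2⟩ := zz_ne h
      rw [Sym2.eq_iff] at h1 h2
      rcases h1 with ⟨h1, h3⟩ | ⟨h1, h3⟩ <;> rcases h2 with ⟨h2, h4⟩ | ⟨h2, h4⟩ <;>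
        exact ⟨⟨_, h1.symm⟩, ⟨_, h3.symm⟩, ⟨_, h2.symm⟩, ⟨_, h4.symm⟩⟩
    have hsum : ∀ F : α → ZMod 2, (∀ x, F x ≠ 0 → ∃ i, φ i = x) → ∑ x, F x = ∑ i, F (φ i) := by
      intro F hF
      symm
      refine Finset.sum_of_injOn φ hφ.injOn (fun _ _ => by simp) ?_ (fun _ _ => rfl)
      intro x _ hx
      by_contra h
      obtain ⟨i, hi⟩ := hF x h
      exact hx ⟨i, by simp, hi⟩
    unfold vk
    rw [hsum]
    swap
    · intro a ha
      obtain ⟨b, -, hb⟩ := exists_ne_zero_of_sum_ne_zero ha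
      obtain ⟨c, -, hc⟩ := exists_ne_zero_of_sum_ne_zero hb
      obtain ⟨d, -, hd⟩ := exists_ne_zero_of_sum_ne_zero hc
      split_ifs at hd with h
      · exact (hz a b c d hd).1
      · exact (hd rfl).elim
    refine sum_congr rfl fun a _ => ?_
    rw [hsum]
    swap
    · intro b hb
      obtain ⟨c, -, hc⟩ := exists_ne_zero_of_sum_ne_zero hb
      obtain ⟨d, -, hd⟩ := exists_ne_zero_of_sum_ne_zero hc
      split_ifs at hd with h
      · exact (hz _ b c d hd).2.1
      · exact (hd rfl).elim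
    refine sum_congr rfl fun b _ => ?_
    rw [hsum]
    swap
    · intro c hc
      obtain ⟨d, -, hd⟩ := exists_ne_zero_of_sum_ne_zero hc
      split_ifs at hd with h
      · exact (hz _ _ c d hd).2.2.1
      · exact (hd rfl).elim
    refine sum_congr rfl fun c _ => ?_
    rw [hsum]
    swap
    · intro d hd
      split_ifs at hd with h
      · exact (hz _ _ _ d hd).2.2.2
      · exact (hd rfl).elim
    refine sum_congr rfl fun d _ => ?_
    rw [zz_apply hK hφ, ← ite_and]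
    simp only [hro, and_assoc]
  rw [key]
  exact hvk

/-! ## Models -/

/-- a model of the pattern gives nonplanarity, if the pattern itself does -/
lemma np_of_model (hNPC : SpecNPC) {n : ℕ} {K : Fin n → Fin n → Bool} (hK0 : ∀ i, K i i = false)
    (hbase : ∀ (G : SimpleGraph α) (φ : Fin n → α), Function.Injective φ →
      (∀ i j, K i j = true → G.Adj (φ i) (φ j)) → NP G) :
    ∀ (N : ℕ) (G : SimpleGraph α) (X : Fin n → Finset α), ∑ i, (X i).card = N →
      (∀ i, CSet G (X i)) → (∀ i j, i ≠ j → Disjoint (X i) (X j)) →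
      (∀ i j, K i j = true → ∃ u ∈ X i, ∃ v ∈ X j, G.Adj u v) → NP G := by
  classical
  intro N
  induction N using Nat.strong_induction_on with
  | _ N ih =>
    intro G X hN hC hd hK
    by_cases h1 : ∀ i, (X i).card ≤ 1
    · -- all the sets are single vertices
      have h2 : ∀ i, ∃ x, X i = {x} := fun i =>
        card_eq_one.1 (le_antisymm (h1 i) (card_pos.2 (hC i).1))
      choose φ hφ using h2
      refine hbase G φ ?_ ?_
      · intro i j hij
        by_contra hne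
        have := hd i j hne
        rw [hφ, hφ, hij, disjoint_singleton] at this
        exact this rfl
      · intro i j hij
        obtain ⟨u, hu, v, hv, huv⟩ := hK i j hij
        rw [hφ, mem_singleton] at hu hv
        rw [hu, hv] at huv
        exact huv
    · push Not at h1
      obtain ⟨i0, hi0⟩ := h1
      obtain ⟨a, ha, c, hc, hac⟩ := one_lt_card.1 hi0
      -- an edge `ab` inside `X i0`
      obtain ⟨b, hb, hab⟩ : ∃ b ∈ X i0, G.Adj a b := by
        obtain ⟨W⟩ := (hC i0).2 a ha c hc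
        cases W with
        | nil => exact (hac rfl).elim
        | cons h W =>
          refine ⟨_, ?_, h.1⟩
          by_contra hb
          exact h.2.2 (mem_sdiff.2 ⟨mem_univ _, hb⟩)
      refine hNPC.up hab ?_
      have hbi : ∀ j, j ≠ i0 → b ∉ X j := fun j hj hbj =>
        disjoint_left.1 (hd i0 j hj.symm) hb hbj
      -- the new sets
      set Y : Fin n → Finset α := fun j => (X j).erase b with hY
      have hYj : ∀ j, j ≠ i0 → Y j = X j := fun j hj => erase_eq_of_notMem (hbi j hj)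
      have haY : a ∈ Y i0 := mem_erase.2 ⟨hab.ne, ha⟩
      -- the projection of a vertex of `X j` is in `Y j`
      have hpr : ∀ j, ∀ u ∈ X j, cpr a b u ∈ Y j := by
        intro j u hu
        by_cases hub : u = b
        · subst hub
          rw [cpr_self]
          by_cases hj : j = i0
          · subst hj; exact haY
          · exact (hbi j hj hu).elim
        · rw [cpr_of_ne hub]
          exact mem_erase.2 ⟨hub, hu⟩
      refine ih (∑ i, (Y i).card) ?_ (contr G a b) Y rfl ?_ ?_ ?_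
      · rw [← hN]
        refine sum_lt_sum (fun j _ => card_le_card (erase_subset _ _)) ⟨i0, mem_univ _, ?_⟩
        exact card_lt_card (erase_ssubset hb)
      · intro j
        refine ⟨?_, ?_⟩
        · by_cases hj : j = i0
          · subst hj; exact ⟨a, haY⟩
          · rw [hYj j hj]; exact (hC j).1
        · intro u hu v hv
          have hu' := mem_erase.1 hu
          have hv' := mem_erase.1 hv
          have h3 := (hC j).2 u hu'.2 v hv'.2
          by_cases hj : j = i0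
          · subst hj
            have h4 := contr_reach (T := univ \ X j) hab.ne
              (by rw [mem_sdiff, not_and_not_right]; exact fun _ => ha) h3
            rw [cpr_of_ne hu'.1, cpr_of_ne hv'.1] at h4
            refine h4.mono (fun p q (hpq : (del (contr G a b) (univ \ X j)).Adj p q) => ⟨hpq.1, ?_, ?_⟩)
            · rw [mem_sdiff, not_and_not_right]
              intro _
              refine mem_erase.2 ⟨hpq.1.1, ?_⟩
              by_contra h
              exact hpq.2.1 (mem_sdiff.2 ⟨mem_univ _, h⟩)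
            · rw [mem_sdiff, not_and_not_right]
              intro _
              refine mem_erase.2 ⟨hpq.1.2.1, ?_⟩
              by_contra h
              exact hpq.2.2 (mem_sdiff.2 ⟨mem_univ _, h⟩)
          · rw [hYj j hj]
            refine h3.mono (fun p q (hpq : (del G (univ \ X j)).Adj p q) =>
              ⟨contr_adj_of_adj hpq.1 ?_ ?_, hpq.2.1, hpq.2.2⟩)
            · rintro rfl
              exact hpq.2.1 (mem_sdiff.2 ⟨mem_univ _, hbi j hj⟩)
            · rintro rfl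
              exact hpq.2.2 (mem_sdiff.2 ⟨mem_univ _, hbi j hj⟩)
      · intro i j hij
        exact (hd i j hij).mono (erase_subset _ _) (erase_subset _ _)
      · intro i j hij
        have hne : i ≠ j := by
          rintro rfl
          rw [hK0] at hij
          exact absurd hij (by decide)
        obtain ⟨u, hu, v, hv, huv⟩ := hK i j hij
        refine ⟨cpr a b u, hpr i u hu, cpr a b v, hpr j v hv, contr_cpr hab.ne huv ?_⟩
        intro h
        have h3 : Disjoint (Y i) (Y j) := (hd i j hne).mono (erase_subset _ _) (erase_subset _ _)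
        exact disjoint_left.1 h3 (hpr i u hu) (h ▸ hpr j v hv)

/-! ## The two patterns -/

/-- `K_{3,3}` on `{0, 1, 2}`, `{3, 4, 5}` -/
def K33 (i j : Fin 6) : Bool := (decide (i < 3) && decide (3 ≤ j)) || (decide (j < 3) && decide (3 ≤ i))

/-- `K_5` -/
def K5 (i j : Fin 5) : Bool := decide (i ≠ j)

lemma np_k33 (G : SimpleGraph α) (φ : Fin 6 → α) (hφ : Function.Injective φ)
    (hG : ∀ i j, K33 i j = true → G.Adj (φ i) (φ j)) : NP G := by
  refine np_of_pat (K := K33) ?_ hφ hG ?_ ?_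
  · decide
  · decide
  · decide +kernel

lemma np_k5 (G : SimpleGraph α) (φ : Fin 5 → α) (hφ : Function.Injective φ)
    (hG : ∀ i j, K5 i j = true → G.Adj (φ i) (φ j)) : NP G := by
  refine np_of_pat (K := K5) ?_ hφ hG ?_ ?_
  · decide
  · decide
  · decide +kernel

lemma k33 (hNPC : SpecNPC) {G : SimpleGraph α} (A B : Fin 3 → Finset α)
    (hA : ∀ i, CSet G (A i)) (hB : ∀ i, CSet G (B i)) (hAA : ∀ i j, i ≠ j → Disjoint (A i) (A j))
    (hBB : ∀ i j, i ≠ j → Disjoint (B i) (B j)) (hAB : ∀ i j, Disjoint (A i) (B j))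
    (h : ∀ i j, ∃ u ∈ A i, ∃ v ∈ B j, G.Adj u v) : NP G := by
  refine np_of_model hNPC (K := K33) (by decide) np_k33 _ G
    (Fin.append A B : Fin (3 + 3) → Finset α) rfl ?_ ?_ ?_
  · intro i
    refine Fin.addCases (m := 3) (n := 3) (fun i => ?_) (fun i => ?_) i
    · rw [Fin.append_left]; exact hA i
    · rw [Fin.append_right]; exact hB i
  · intro i j
    refine Fin.addCases (m := 3) (n := 3) (fun i => ?_) (fun i => ?_) i <;>
      refine Fin.addCases (m := 3) (n := 3) (fun j => ?_) (fun j => ?_) j <;> intro hij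
    · rw [Fin.append_left, Fin.append_left]
      exact hAA i j fun h => hij (by rw [h])
    · rw [Fin.append_left, Fin.append_right]
      exact hAB i j
    · rw [Fin.append_left, Fin.append_right]
      exact (hAB j i).symm
    · rw [Fin.append_right, Fin.append_right]
      exact hBB i j fun h => hij (by rw [h])
  · intro i j
    refine Fin.addCases (m := 3) (n := 3) (fun i => ?_) (fun i => ?_) i <;>
      refine Fin.addCases (m := 3) (n := 3) (fun j => ?_) (fun j => ?_) j <;> intro hij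
    · exfalso
      revert hij
      revert i j
      decide
    · rw [Fin.append_left, Fin.append_right]
      exact h i j
    · rw [Fin.append_left, Fin.append_right]
      obtain ⟨u, hu, v, hv, huv⟩ := h j i
      exact ⟨v, hv, u, hu, huv.symm⟩
    · exfalso
      revert hij
      revert i j
      decide

lemma k5 (hNPC : SpecNPC) {G : SimpleGraph α} (A : Fin 5 → Finset α)
    (hA : ∀ i, CSet G (A i)) (hAA : ∀ i j, i ≠ j → Disjoint (A i) (A j))
    (h : ∀ i j, i ≠ j → ∃ u ∈ A i, ∃ v ∈ A j, G.Adj u v) : NP G := by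
  refine np_of_model hNPC (K := K5) (by decide) np_k5 _ G A rfl hA hAA ?_
  intro i j hij
  refine h i j ?_
  rintro rfl
  simp [K5] at hij

end NPMM

theorem specNPM (hNPC : SpecNPC) : SpecNPM where
  k33 := fun A B h1 h2 h3 h4 h5 h6 => NPMM.k33 hNPC A B h1 h2 h3 h4 h5 h6
  k5 := fun A h1 h2 h3 => NPMM.k5 hNPC A h1 h2 h3

end DL
end

section
/-!
MP_3ff0f8_gt, ALGEBRA HALF, NP block, module NTW (helper6)
-/
open SimpleGraph Finset

namespace DL

namespace NTWM

set_option linter.unusedSectionVars false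

variable {α : Type} [Fintype α] [DecidableEq α] {G : SimpleGraph α}

/-- sum of a column at a vertex with four neighbours -/
theorem sum4' {Y : Sym2 α → Sym2 α → ZMod 2} (hY : IsZ2 G Y) {x p q u v : α}
    (hx : ∀ w, G.Adj x w ↔ w = p ∨ w = q ∨ w = u ∨ w = v) (nd : [p, q, u, v].Nodup)
    {f : Sym2 α} (hxf : x ∉ f) :
    Y s(x, p) f + Y s(x, q) f + Y s(x, u) f + Y s(x, v) f = 0 := by
  simp only [List.nodup_cons, List.mem_cons, List.not_mem_nil, or_false, not_or, List.nodup_nil,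
    and_true] at nd
  obtain ⟨⟨hpq, hpu, hpv⟩, ⟨hqu, hqv⟩, huv, -⟩ := nd
  have h := hY.2.2 f x hxf
  rw [F4NM.sum_at {p, q, u, v} (fun w hw => by
    simp only [mem_insert, mem_singleton]; exact (hx w).1 hw)
    (fun e he => (hY.2.1 _ e he).2.1), sum_insert, sum_insert, sum_insert, sum_singleton,
    hY.1 f, hY.1 f, hY.1 f, hY.1 f] at h
  · rw [add_assoc, add_assoc]; exact h
  · simpa using huv
  · simp only [mem_insert, mem_singleton, not_or]; exact ⟨hqu, hqv⟩
  · simp only [mem_insert, mem_singleton, not_or]; exact ⟨hpq, hpu, hpv⟩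

/-- `G - {p, x, y, q, u}` is connected -/
theorem conn5 (hNBF : SpecNBF) (hG : KConn 4 G) {x y p q u v : α}
    (hx : ∀ w, G.Adj x w ↔ w = p ∨ w = q ∨ w = u ∨ w = v)
    (hy : ∀ w, G.Adj y w ↔ w = p ∨ w = q ∨ w = u ∨ w = v) :
    ConnOff G (insert p {x, y, q, u}) := by
  classical
  set D : Finset α := insert p {x, y, q, u} with hD
  have hxV : x ∈ VS G := left_mem_VS ((hx p).2 (Or.inl rfl))
  have key : ∀ a ∈ VS G, a ∉ D → (del G D).Reachable a v := by
    intro a ha haD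
    by_contra hcon
    set K : Finset α := univ.filter fun w => (del G D).Reachable a w with hK
    have hmem : ∀ w, w ∈ K ↔ (del G D).Reachable a w := by
      intro w; rw [hK, mem_filter]; simp
    have hKD : ∀ w ∈ K, w ∉ D := by
      intro w hw
      rw [hmem] at hw
      by_cases h : w = a
      · rw [h]; exact haD
      · obtain ⟨w', hw'⟩ := exists_adj_of_reachable hw.symm h
        exact hw'.2.1
    have hKV : K ⊆ VS G := by
      intro w hw
      by_cases h : w = a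
      · rw [h]; exact ha
      · obtain ⟨w', hw'⟩ := exists_adj_of_reachable ((hmem w).1 hw).symm h
        exact left_mem_VS hw'.1
    have hvK : v ∉ K := fun h => hcon ((hmem v).1 h)
    have hS : ∀ k ∈ K, ¬ (k = p ∨ k = q ∨ k = u ∨ k = v) := by
      intro k hk h
      rcases h with rfl | rfl | rfl | rfl
      · exact hKD _ hk (by rw [hD]; simp)
      · exact hKD _ hk (by rw [hD]; simp)
      · exact hKD _ hk (by rw [hD]; simp)
      · exact hvK hk
    have hNB : NB G K ⊆ {p, q, u} := by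
      intro w hw
      simp only [NB, mem_filter, mem_univ, true_and] at hw
      obtain ⟨hwK, k, hkK, hkw⟩ := hw
      have hwD : w ∈ D := by
        by_contra h
        apply hwK
        rw [hmem]
        exact ((hmem k).1 hkK).trans (Adj.reachable ⟨hkw, hKD k hkK, h⟩)
      rw [hD] at hwD
      simp only [mem_insert, mem_singleton] at hwD ⊢
      rcases hwD with h | h | h | h | h
      · exact Or.inl h
      · rw [h] at hkw
        exact absurd ((hx k).1 hkw.symm) (hS k hkK)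
      · rw [h] at hkw
        exact absurd ((hy k).1 hkw.symm) (hS k hkK)
      · exact Or.inr (Or.inl h)
      · exact Or.inr (Or.inr h)
    have hcard : (NB G K).card < 4 := lt_of_le_of_lt ((card_le_card hNB).trans card_le_three)
      (by norm_num)
    have h3 := hNBF.nb hG hKV ⟨a, (hmem a).2 (Reachable.refl _)⟩ hcard hxV
    rw [mem_union] at h3
    rcases h3 with h3 | h3
    · exact hKD _ h3 (by rw [hD]; simp)
    · have h4 := hNB h3
      simp only [mem_insert, mem_singleton] at h4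
      have hpx : G.Adj x p := (hx p).2 (by simp)
      have hqx : G.Adj x q := (hx q).2 (by simp)
      have hux : G.Adj x u := (hx u).2 (by simp)
      rcases h4 with h | h | h
      · exact hpx.ne h
      · exact hqx.ne h
      · exact hux.ne h
  intro a ha b hb haD hbD
  exact (key a ha haD).trans (key b hb hbD).symm

/-- the 4-cycle `x q y u` -/
theorem quad {x y q u : α} (hxq : G.Adj x q) (hyq : G.Adj y q) (hxu : G.Adj x u) (hyu : G.Adj y u)
    (hqu : q ≠ u) (hxy : x ≠ y) :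
    IsCyc G (insert s(x, q) (insert s(x, u) {s(y, q), s(y, u)})) := by
  have a1 : (del G {x}).Adj y u := ⟨hyu, by simpa using Ne.symm hxy, by simpa using hxu.ne'⟩
  have a2 : (del G {x}).Adj q y := ⟨hyq.symm, by simpa using hxq.ne', by simpa using Ne.symm hxy⟩
  have h1 : IsPth (del G {x}) q u (insert s(q, y) {s(y, u)}) := by
    refine (IsPth.edge a1).cons a2 ?_
    rw [vs_singleton]
    simp only [mem_insert, mem_singleton, not_or]
    exact ⟨hyq.ne', hqu⟩
  have h2 := isCyc_of_isPth_del hxq hxu hqu h1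
  rw [Sym2.eq_swap (a := q) (b := y)] at h2
  exact h2

/-- one torus through `x q y u` with a given trace at `p` -/
theorem tq (hNBF : SpecNBF) (hTRC : SpecTRC) (hVKA : SpecVKA) (hKUR : SpecKUR) (hG : KConn 4 G)
    {x y p q u v : α} (hx : ∀ w, G.Adj x w ↔ w = p ∨ w = q ∨ w = u ∨ w = v)
    (hy : ∀ w, G.Adj y w ↔ w = p ∨ w = q ∨ w = u ∨ w = v) (hxy : x ≠ y) (hqu : q ≠ u)
    (hpq : p ≠ q) (hpu : p ≠ u) (hqv : q ≠ v) (huv : u ≠ v) {τ : Chain α}
    (h1 : ∀ e, τ e ≠ 0 → e ∈ G.edgeSet ∧ p ∈ e ∧ x ∉ e ∧ y ∉ e ∧ q ∉ e ∧ u ∉ e)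
    (h2 : ∑ e, τ e = 0) {Y : Sym2 α → Sym2 α → ZMod 2} (hY : IsZ2 G Y) {r : α → ℕ}
    (hr : Function.Injective r) :
    ∃ Y' : Sym2 α → Sym2 α → ZMod 2, IsZ2 G Y' ∧ vk r Y' = vk r Y ∧
      ∀ f, p ∈ f → Y' s(x, q) f = Y s(x, q) f + τ f ∧ Y' s(x, u) f = Y s(x, u) f + τ f ∧
        Y' s(x, v) f = Y s(x, v) f := by
  have axq : G.Adj x q := (hx q).2 (by simp)
  have axu : G.Adj x u := (hx u).2 (by simp)
  have axp : G.Adj x p := (hx p).2 (by simp)
  have ayq : G.Adj y q := (hy q).2 (by simp)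
  have ayu : G.Adj y u := (hy u).2 (by simp)
  have ayp : G.Adj y p := (hy p).2 (by simp)
  have hpX : p ∉ ({x, y, q, u} : Finset α) := by
    simp only [mem_insert, mem_singleton, not_or]
    exact ⟨axp.ne', ayp.ne', hpq, hpu⟩
  obtain ⟨Z, hZ, hZτ⟩ := hTRC G {x, y, q, u} p hpX (conn5 hNBF hG hx hy) τ (by
    intro e he
    obtain ⟨k1, k2, k3, k4, k5, k6⟩ := h1 e he
    refine ⟨?_, k2⟩
    induction e using Sym2.ind with
    | _ a b =>
      rw [mem_edgeSet] at k1
      simp only [Sym2.mem_iff, not_or] at k3 k4 k5 k6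
      rw [mem_edgeSet, del_adj]
      refine ⟨k1, ?_, ?_⟩
      · simp only [mem_insert, mem_singleton, not_or]
        exact ⟨Ne.symm k3.1, Ne.symm k4.1, Ne.symm k5.1, Ne.symm k6.1⟩
      · simp only [mem_insert, mem_singleton, not_or]
        exact ⟨Ne.symm k3.2, Ne.symm k4.2, Ne.symm k5.2, Ne.symm k6.2⟩) h2
  have hC := quad axq ayq axu ayu hqu hxy
  set t := chi (insert s(x, q) (insert s(x, u) {s(y, q), s(y, u)})) with ht
  have htP : ∀ e v, t e ≠ 0 → v ∈ e → v ∈ ({x, y, q, u} : Finset α) := by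
    intro e w he hw
    rw [ht, chi_ne_zero] at he
    simp only [mem_insert, mem_singleton] at he ⊢
    rcases he with rfl | rfl | rfl | rfl <;> rw [Sym2.mem_iff] at hw <;>
      rcases hw with h | h <;> simp [h]
  obtain ⟨hY', hv'⟩ := F1NM.addtor hVKA hKUR hr hY {x, y, q, u} hC.chi_mem htP hZ
  have hxZ : ∀ w, Z s(x, w) = 0 := by
    intro w
    by_contra h
    exact F1NM.notMem_of_mem_del ((mem_Z1.1 hZ).1 _ h) (Sym2.mem_mk_left x w) (by simp)
  have tq : t s(x, q) = 1 := chi_of_mem (by simp)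
  have tu : t s(x, u) = 1 := chi_of_mem (by simp)
  have tv : t s(x, v) = 0 := by
    apply chi_of_notMem
    simp only [mem_insert, mem_singleton, Sym2.eq_iff, not_or, not_and]
    exact ⟨⟨fun _ h => hqv h.symm, fun h _ => axq.ne h⟩, ⟨fun _ h => huv h.symm, fun h _ => axu.ne h⟩,
      ⟨fun h _ => hxy h, fun h _ => axq.ne h⟩, fun h _ => hxy h, fun h _ => axu.ne h⟩
  refine ⟨_, hY', hv', fun f hf => ⟨?_, ?_, ?_⟩⟩
  · show Y s(x, q) f + (t s(x, q) * Z f + Z s(x, q) * t f) = _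
    rw [tq, hxZ, hZτ f hf, one_mul, zero_mul, add_zero]
  · show Y s(x, u) f + (t s(x, u) * Z f + Z s(x, u) * t f) = _
    rw [tu, hxZ, hZτ f hf, one_mul, zero_mul, add_zero]
  · show Y s(x, v) f + (t s(x, v) * Z f + Z s(x, v) * t f) = _
    rw [tv, hxZ, zero_mul, zero_mul, add_zero, add_zero]

/-- a neighbour of `p` outside -/
theorem outer (hNBF : SpecNBF) (hK : K48 G) {x y p q u v : α}
    (hx : ∀ w, G.Adj x w ↔ w = p ∨ w = q ∨ w = u ∨ w = v)
    (hy : ∀ w, G.Adj y w ↔ w = p ∨ w = q ∨ w = u ∨ w = v) :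
    ∃ w, G.Adj p w ∧ w ≠ x ∧ w ≠ y ∧ w ≠ q ∧ w ≠ u ∧ w ≠ v := by
  classical
  by_contra hcon
  push Not at hcon
  have axp : G.Adj x p := (hx p).2 (by simp)
  have ayp : G.Adj y p := (hy p).2 (by simp)
  have hNB : NB G {x, y, p} ⊆ {q, u, v} := by
    intro w hw
    simp only [NB, mem_filter, mem_univ, true_and, mem_insert, mem_singleton, not_or] at hw
    obtain ⟨⟨hwx, hwy, hwp⟩, a, ha, haw⟩ := hw
    simp only [mem_insert, mem_singleton]
    rcases ha with rfl | rfl | rfl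
    · rcases (hx w).1 haw with h | h | h | h
      · exact absurd h hwp
      · exact Or.inl h
      · exact Or.inr (Or.inl h)
      · exact Or.inr (Or.inr h)
    · rcases (hy w).1 haw with h | h | h | h
      · exact absurd h hwp
      · exact Or.inl h
      · exact Or.inr (Or.inl h)
      · exact Or.inr (Or.inr h)
    · by_cases h1 : w = q
      · exact Or.inl h1
      · by_cases h2 : w = u
        · exact Or.inr (Or.inl h2)
        · exact Or.inr (Or.inr (hcon w haw hwx hwy h1 h2))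
  have hcard : (NB G {x, y, p}).card < 4 := lt_of_le_of_lt ((card_le_card hNB).trans card_le_three)
    (by norm_num)
  have hsub : ({x, y, p} : Finset α) ⊆ VS G := by
    intro w hw
    simp only [mem_insert, mem_singleton] at hw
    rcases hw with rfl | rfl | rfl
    · exact left_mem_VS axp
    · exact left_mem_VS ayp
    · exact right_mem_VS axp
  have h3 := hNBF.nb hK.1 hsub ⟨x, by simp⟩ hcard
  have h4 := card_le_card h3
  have h5 := card_union_le ({x, y, p} : Finset α) (NB G {x, y, p})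
  have h6 : ({x, y, p} : Finset α).card ≤ 3 := card_le_three
  have h7 := hK.2
  omega

theorem sum_chi (e₀ : Sym2 α) : ∑ e, chi {e₀} e = 1 := by
  rw [sum_eq_single e₀]
  · exact chi_of_mem (by simp)
  · intro e _ he
    exact chi_of_notMem (by simpa using he)
  · intro h
    exact absurd (mem_univ _) h

theorem perm1 {P Q R S : Prop} : (P ∨ Q ∨ R ∨ S) ↔ (P ∨ R ∨ S ∨ Q) := by tauto

theorem perm2 {P Q R S : Prop} : (P ∨ Q ∨ R ∨ S) ↔ (P ∨ Q ∨ S ∨ R) := by tauto

theorem z2a (a b c : ZMod 2) (h : a + b + c = 0) (t : ZMod 2) : a + (b + t) + (c + t) = 0 := by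
  revert a b c t; decide

theorem z2b (b t : ZMod 2) : b + t + (b + t) = 0 := by
  revert b t; decide

/-- the second half: the column `y p` is zero -/
theorem main2 (hNBF : SpecNBF) (hTRC : SpecTRC) (hVKA : SpecVKA) (hKUR : SpecKUR) (hNPC : SpecNPC)
    (hK : K48 G) {x y p q u v : α} (hx : ∀ w, G.Adj x w ↔ w = p ∨ w = q ∨ w = u ∨ w = v)
    (hy : ∀ w, G.Adj y w ↔ w = p ∨ w = q ∨ w = u ∨ w = v) (nd : [x, y, p, q, u, v].Nodup)
    {Y : Sym2 α → Sym2 α → ZMod 2} (hY : IsZ2 G Y) {r : α → ℕ}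
    (hr : Function.Injective r) (hvk : vk r Y ≠ 0) (hmu : Y s(x, u) s(p, y) = 0)
    (hmv : Y s(x, v) s(p, y) = 0) : NP (contr G x p) ∧ NP (contr G p x) := by
  classical
  simp only [List.nodup_cons, List.mem_cons, List.not_mem_nil, or_false, not_or, List.nodup_nil,
    and_true] at nd
  obtain ⟨⟨hxy, hxp, hxq, hxu, hxv⟩, ⟨hyp, hyq, hyu, hyv⟩, ⟨hpq, hpu, hpv⟩, ⟨hqu, hqv⟩, huv, -⟩ := nd
  obtain ⟨w₀, hw₀, wx, wy, wq, wu, wv⟩ := outer hNBF hK hx hy
  set n := Y s(x, u) s(p, q) with hn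
  have rel : ∀ f, p ∈ f → Y s(x, q) f + Y s(x, u) f + Y s(x, v) f = 0 := by
    intro f hf
    by_cases hxf : x ∈ f
    · rw [F4NM.zero_of_not_dj hY (e := s(x, q)) (v := x) (by simp) hxf,
        F4NM.zero_of_not_dj hY (e := s(x, u)) (v := x) (by simp) hxf,
        F4NM.zero_of_not_dj hY (e := s(x, v)) (v := x) (by simp) hxf]
      rfl
    · have h := sum4' hY hx (by
        simp only [List.nodup_cons, List.mem_cons, List.not_mem_nil, or_false, not_or,
          List.nodup_nil, and_true]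
        exact ⟨⟨hpq, hpu, hpv⟩, ⟨hqu, hqv⟩, huv, not_false⟩) hxf
      rw [F4NM.zero_of_not_dj hY (e := s(x, p)) (v := p) (by simp) hf, zero_add] at h
      exact h
  have hnv : Y s(x, v) s(p, q) = n := by
    have h := rel s(p, q) (by simp)
    rw [F4NM.zero_of_not_dj hY (e := s(x, q)) (v := q) (by simp) (by simp), zero_add] at h
    exact (CharTwo.add_eq_zero.1 h).symm
  set τ : Chain α := fun e => n * (chi {s(p, q)} e + chi {s(p, w₀)} e) with hτ
  have hτ0 : ∀ e, e ≠ s(p, q) → e ≠ s(p, w₀) → τ e = 0 := by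
    intro e h1 h2
    rw [hτ]
    show n * (chi {s(p, q)} e + chi {s(p, w₀)} e) = 0
    rw [chi_of_notMem (by simpa using h1), chi_of_notMem (by simpa using h2), add_zero, mul_zero]
  have hwq : s(p, w₀) ≠ s(p, q) := by
    intro h
    rcases Sym2.eq_iff.1 h with ⟨_, h⟩ | ⟨h, _⟩
    · exact wq h
    · exact hpq h
  have hτq : τ s(p, q) = n := by
    rw [hτ]
    show n * (chi {s(p, q)} s(p, q) + chi {s(p, w₀)} s(p, q)) = n
    rw [chi_of_mem (by simp), chi_of_notMem (by simpa using Ne.symm hwq), add_zero, mul_one]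
  have hτs : ∑ e, τ e = 0 := by
    rw [hτ, ← mul_sum, sum_add_distrib, sum_chi, sum_chi]
    rw [show (1 : ZMod 2) + 1 = 0 from rfl, mul_zero]
  have hτe : ∀ e, τ e ≠ 0 → e ∈ G.edgeSet ∧ p ∈ e ∧ x ∉ e ∧ y ∉ e ∧ u ∉ e ∧ v ∉ e := by
    intro e he
    by_cases h1 : e = s(p, q)
    · subst h1
      rw [hτq] at he
      refine ⟨(hY.2.1 _ _ he).2.1, by simp, ?_, ?_, ?_, ?_⟩ <;>
        simp only [Sym2.mem_iff, not_or]
      exacts [⟨hxp, hxq⟩, ⟨hyp, hyq⟩, ⟨Ne.symm hpu, Ne.symm hqu⟩, ⟨Ne.symm hpv, Ne.symm hqv⟩]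
    · by_cases h2 : e = s(p, w₀)
      · subst h2
        refine ⟨hw₀, by simp, ?_, ?_, ?_, ?_⟩ <;> simp only [Sym2.mem_iff, not_or]
        exacts [⟨hxp, Ne.symm wx⟩, ⟨hyp, Ne.symm wy⟩, ⟨Ne.symm hpu, Ne.symm wu⟩,
          ⟨Ne.symm hpv, Ne.symm wv⟩]
      · exact absurd (hτ0 e h1 h2) he
  have htr : ∀ c, c ≠ p → ∑ e, (if p ∈ e then Y s(x, c) e else 0) = 0 := by
    intro c hc
    rw [← sum_filter]
    have := hY.2.2 s(x, c) p (by
      rw [Sym2.mem_iff, not_or]
      exact ⟨Ne.symm hxp, Ne.symm hc⟩)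
    convert this using 2
  -- the general trace
  have hT : ∀ c, c ≠ p → c = u ∨ c = v → Y s(x, c) s(p, q) = n → Y s(x, c) s(p, y) = 0 → ∀ e,
      (if p ∈ e then Y s(x, c) e else 0) + τ e ≠ 0 →
      e ∈ G.edgeSet ∧ p ∈ e ∧ x ∉ e ∧ y ∉ e ∧ q ∉ e ∧ c ∉ e := by
    intro c hc huv' hcq hcy e he
    have hpe : p ∈ e := by
      by_contra h
      rw [if_neg h, zero_add] at he
      exact h (hτe e he).2.1
    rw [if_pos hpe] at he
    have hqe : q ∉ e := by
      intro h
      have h1 : e = s(p, q) := ((Sym2.mem_and_mem_iff hpq).1 ⟨hpe, h⟩)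
      rw [h1, hcq, hτq] at he
      exact he (zmod2_add_self _)
    have hye : y ∉ e := by
      intro h
      have h1 : e = s(p, y) := ((Sym2.mem_and_mem_iff (Ne.symm hyp)).1 ⟨hpe, h⟩)
      have h2 : τ e = 0 := by
        by_contra h3
        exact (hτe e h3).2.2.2.1 h
      rw [h2, add_zero, h1] at he
      exact he hcy
    have hxe : x ∉ e := by
      intro h
      have h2 : τ e = 0 := by
        by_contra h3
        exact (hτe e h3).2.2.1 h
      rw [h2, add_zero] at he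
      exact he (F4NM.zero_of_not_dj hY (e := s(x, c)) (v := x) (by simp) h)
    have hce : c ∉ e := by
      intro h
      have h2 : τ e = 0 := by
        by_contra h3
        rcases huv' with rfl | rfl
        · exact (hτe e h3).2.2.2.2.1 h
        · exact (hτe e h3).2.2.2.2.2 h
      rw [h2, add_zero] at he
      exact he (F4NM.zero_of_not_dj hY (e := s(x, c)) (v := c) (by simp) h)
    refine ⟨?_, hpe, hxe, hye, hqe, hce⟩
    by_cases h1 : τ e = 0
    · rw [h1, add_zero] at he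
      exact (hY.2.1 _ _ he).2.1
    · exact (hτe e h1).1
  have hτe' : ∀ e, τ e ≠ 0 → e ∈ G.edgeSet ∧ p ∈ e ∧ x ∉ e ∧ y ∉ e ∧ u ∉ e ∧ v ∉ e := hτe
  obtain ⟨Y1, hY1, hv1, k1⟩ := tq hNBF hTRC hVKA hKUR hK.1 (p := p) (q := u) (u := v) (v := q)
    (fun w => (hx w).trans perm1) (fun w => (hy w).trans perm1) hxy huv hpu hpv (Ne.symm hqu)
    (Ne.symm hqv) hτe hτs hY hr
  have hTu := hT u (Ne.symm hpu) (Or.inl rfl) rfl hmu
  have hTv := hT v (Ne.symm hpv) (Or.inr rfl) hnv hmv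
  have sTu : ∑ e, ((if p ∈ e then Y s(x, u) e else 0) + τ e) = 0 := by
    rw [sum_add_distrib, htr u (Ne.symm hpu), hτs, add_zero]
  have sTv : ∑ e, ((if p ∈ e then Y s(x, v) e else 0) + τ e) = 0 := by
    rw [sum_add_distrib, htr v (Ne.symm hpv), hτs, add_zero]
  obtain ⟨Y2, hY2, hv2, k2⟩ := tq hNBF hTRC hVKA hKUR hK.1 (p := p) (q := q) (u := u) (v := v)
    hx hy hxy hqu hpq hpu hqv huv (τ := fun e => (if p ∈ e then Y s(x, u) e else 0) + τ e)
    hTu sTu hY1 hr
  obtain ⟨Y3, hY3, hv3, k3⟩ := tq hNBF hTRC hVKA hKUR hK.1 (p := p) (q := q) (u := v) (v := u)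
    (fun w => (hx w).trans perm2) (fun w => (hy w).trans perm2) hxy hqv hpq hpv hqu (Ne.symm huv)
    (τ := fun e => (if p ∈ e then Y s(x, v) e else 0) + τ e) hTv sTv hY2 hr
  have f1 : ∀ f, p ∈ f → Y3 s(x, q) f = 0 := by
    intro f hf
    rw [(k3 f hf).1, (k2 f hf).1, (k1 f hf).2.2]
    show Y s(x, q) f + ((if p ∈ f then Y s(x, u) f else 0) + τ f) +
      ((if p ∈ f then Y s(x, v) f else 0) + τ f) = 0
    rw [if_pos hf, if_pos hf]
    exact z2a _ _ _ (rel f hf) _
  have f2 : ∀ f, p ∈ f → Y3 s(x, u) f = 0 := by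
    intro f hf
    rw [(k3 f hf).2.2, (k2 f hf).2.1, (k1 f hf).1]
    show Y s(x, u) f + τ f + ((if p ∈ f then Y s(x, u) f else 0) + τ f) = 0
    rw [if_pos hf]
    exact z2b _ _
  have f3 : ∀ f, p ∈ f → Y3 s(x, v) f = 0 := by
    intro f hf
    rw [(k3 f hf).2.1, (k2 f hf).2.2, (k1 f hf).2.1]
    show Y s(x, v) f + τ f + ((if p ∈ f then Y s(x, v) f else 0) + τ f) = 0
    rw [if_pos hf]
    exact z2b _ _
  refine hNPC.down hr hY3 (by rw [hv3, hv2, hv1]; exact hvk) ((hx p).2 (Or.inl rfl)) ?_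
  intro e f hxe hpf hne1 hne2
  by_contra h0
  obtain ⟨he, -, -⟩ := hY3.2.1 e f h0
  obtain ⟨w, rfl⟩ := Sym2.mem_iff_exists.1 hxe
  rcases (hx w).1 he with hw | hw | hw | hw
  · exact hne1 (by rw [hw])
  · rw [hw] at h0; exact h0 (f1 f hpf)
  · rw [hw] at h0; exact h0 (f2 f hpf)
  · rw [hw] at h0; exact h0 (f3 f hpf)

theorem third : ∀ i₁ i₂ : Fin 4, i₁ ≠ i₂ → i₁ ≠ 0 → i₂ ≠ 0 →
    ∃ i₃ : Fin 4, i₃ ≠ 0 ∧ i₃ ≠ i₁ ∧ i₃ ≠ i₂ ∧ ∀ i, i = 0 ∨ i = i₁ ∨ i = i₂ ∨ i = i₃ := by
  decide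

theorem z2c (a b c : ZMod 2) (h : a + b + c = 0) : c + b * 1 + a * 1 = 0 := by
  revert a b c; decide

theorem z2d (a b : ZMod 2) : b + b * 1 + a * 0 = 0 := by
  revert a b; decide

end NTWM

open NTWM in
/-- Twins. -/
theorem specNTW (hVKA : SpecVKA) (hNPC : SpecNPC) (hNBF : SpecNBF) (hTRC : SpecTRC)
    (hPAI : SpecPAI) (hKUR : SpecKUR) : SpecNTW := by
  classical
  intro α _ _ G x y s hK hT hNP
  obtain ⟨r, hr, Y, hY, hvk⟩ := hNP
  have hinj := hT.inj
  have hxy := hT.xy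
  have hadx : ∀ i, G.Adj x (s i) := fun i => (hT.nx _).2 ⟨i, rfl⟩
  have hady : ∀ i, G.Adj y (s i) := fun i => (hT.ny _).2 ⟨i, rfl⟩
  have hH : KConn 2 (del G {x, y}) := hK.1.del_pair (by norm_num) x y
  have hVS : VS (del G {x, y}) = VS G \ {x, y} := hK.1.VS_del (by rw [card_pair hxy]; norm_num)
  have hmem : ∀ i, s i ∈ VS (del G {x, y}) := by
    intro i
    rw [hVS, mem_sdiff]
    simp only [mem_insert, mem_singleton, not_or]
    exact ⟨right_mem_VS (hadx i), (hT.sx i).1, (hT.sx i).2⟩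
  obtain ⟨i₁, i₂, h12, h10, h20, hall⟩ := hPAI (del G {x, y}) s hH hinj hmem
  obtain ⟨i₃, h30, h31, h32, hex⟩ := third i₁ i₂ h12 h10 h20
  obtain ⟨P, Q, hP, hQ, hPQ⟩ := hall i₁ (Or.inl rfl) i₂ i₃ (Ne.symm h32) h20 h30 (Ne.symm h12) h31
  obtain ⟨P', Q', hP', hQ', hPQ'⟩ := hall i₂ (Or.inr rfl) i₁ i₃ (Ne.symm h31) h10 h30 h12 h32
  have ins : ∀ {a b : α} {R : Finset (Sym2 α)}, IsPth (del G {x, y}) a b R → a ≠ b →
      insert a (vs R) = vs R := fun hR hab => insert_eq_of_mem (hR.left_mem hab)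
  have d1 : Disjoint (insert (s 0) (vs P)) (insert (s i₂) (vs Q)) := by
    rw [ins hP (hinj.ne (Ne.symm h10)), ins hQ (hinj.ne (Ne.symm h32))]
    exact hPQ
  have d2 : Disjoint (insert (s 0) (vs P')) (insert (s i₁) (vs Q')) := by
    rw [ins hP' (hinj.ne (Ne.symm h20)), ins hQ' (hinj.ne (Ne.symm h31))]
    exact hPQ'
  obtain ⟨T1, hT1, hv1, t1⟩ := F4NM.torus hVKA hKUR hxy hP hQ d1 (hady 0) (hady i₁)
    (hinj.ne (Ne.symm h10)) (hadx i₂) (hadx i₃) (hinj.ne (Ne.symm h32)) (hadx 0).ne (hadx i₁).ne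
    (hady i₂).ne (hady i₃).ne
  obtain ⟨T2, hT2, hv2, t2⟩ := F4NM.torus hVKA hKUR hxy hP' hQ' d2 (hady 0) (hady i₂)
    (hinj.ne (Ne.symm h20)) (hadx i₁) (hadx i₃) (hinj.ne (Ne.symm h31)) (hadx 0).ne (hadx i₂).ne
    (hady i₁).ne (hady i₃).ne
  have hx4 : ∀ w, G.Adj x w ↔ w = s 0 ∨ w = s i₁ ∨ w = s i₂ ∨ w = s i₃ := by
    intro w
    rw [hT.nx]
    constructor
    · rintro ⟨i, rfl⟩
      rcases hex i with h | h | h | h <;> simp [h]
    · rintro (h | h | h | h)
      exacts [⟨_, h⟩, ⟨_, h⟩, ⟨_, h⟩, ⟨_, h⟩]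
  have hy4 : ∀ w, G.Adj y w ↔ w = s 0 ∨ w = s i₁ ∨ w = s i₂ ∨ w = s i₃ := by
    intro w
    rw [hT.ny]
    constructor
    · rintro ⟨i, rfl⟩
      rcases hex i with h | h | h | h <;> simp [h]
    · rintro (h | h | h | h)
      exacts [⟨_, h⟩, ⟨_, h⟩, ⟨_, h⟩, ⟨_, h⟩]
  have n01 : s 0 ≠ s i₁ := hinj.ne (Ne.symm h10)
  have n02 : s 0 ≠ s i₂ := hinj.ne (Ne.symm h20)
  have n03 : s 0 ≠ s i₃ := hinj.ne (Ne.symm h30)
  have n12 : s i₁ ≠ s i₂ := hinj.ne h12
  have n13 : s i₁ ≠ s i₃ := hinj.ne (Ne.symm h31)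
  have n23 : s i₂ ≠ s i₃ := hinj.ne (Ne.symm h32)
  have nd4 : [s 0, s i₁, s i₂, s i₃].Nodup := by
    simp only [List.nodup_cons, List.mem_cons, List.not_mem_nil, or_false, not_or,
      List.nodup_nil, and_true]
    exact ⟨⟨n01, n02, n03⟩, ⟨n12, n13⟩, n23, not_false⟩
  have nd6 : [x, y, s 0, s i₁, s i₂, s i₃].Nodup := by
    rw [List.nodup_cons, List.nodup_cons]
    refine ⟨?_, ?_, nd4⟩
    · simp only [List.mem_cons, List.not_mem_nil, or_false, not_or]
      exact ⟨hxy, (hadx 0).ne, (hadx i₁).ne, (hadx i₂).ne, (hadx i₃).ne⟩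
    · simp only [List.mem_cons, List.not_mem_nil, or_false, not_or]
      exact ⟨(hady 0).ne, (hady i₁).ne, (hady i₂).ne, (hady i₃).ne⟩
  have rel := sum4' hY hx4 nd4 (f := s(y, s 0)) (by
    rw [Sym2.mem_iff, not_or]
    exact ⟨hxy, (hadx 0).ne⟩)
  rw [F4NM.zero_of_not_dj hY (e := s(x, s 0)) (f := s(y, s 0)) (v := s 0) (by simp) (by simp),
    zero_add] at rel
  set a := Y s(x, s i₁) s(y, s 0) with ha
  set b := Y s(x, s i₂) s(y, s 0) with hb
  set c := Y s(x, s i₃) s(y, s 0) with hc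
  obtain ⟨hY1, hk1⟩ := NI1M.smulz hKUR hVKA hY hT1 (hv1 r hr) b
  obtain ⟨hY2, hk2⟩ := NI1M.smulz hKUR hVKA hY1 hT2 (hv2 r hr) a
  refine main2 hNBF hTRC hVKA hKUR hNPC hK hx4 hy4 nd6 hY2 hr (by rw [hk2, hk1]; exact hvk) ?_ ?_
  · rw [Sym2.eq_swap (a := s 0)]
    show Y s(x, s i₂) s(y, s 0) + b * T1 s(x, s i₂) s(y, s 0) + a * T2 s(x, s i₂) s(y, s 0) = 0
    rw [t1, t2, if_pos (Or.inl rfl), if_pos (Or.inl rfl), if_neg (show ¬ (s i₂ = s i₁ ∨ s i₂ = s i₃)
      from by rw [not_or]; exact ⟨Ne.symm n12, n23⟩), ← hb, zero_mul, mul_one]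
    exact z2d a b
  · rw [Sym2.eq_swap (a := s 0)]
    show Y s(x, s i₃) s(y, s 0) + b * T1 s(x, s i₃) s(y, s 0) + a * T2 s(x, s i₃) s(y, s 0) = 0
    rw [t1, t2, if_pos (Or.inr rfl), if_pos (Or.inl rfl), if_pos (Or.inr rfl), if_pos (Or.inl rfl),
      ← hc, mul_one]
    exact z2c a b c rel

end DL
end
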