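import Pool.Agent.DL.K.Spec

/-!
# MP_3ff0f8_gt, ALGEBRA HALF, NP block (helper25): nonplanarity by linear algebra

Nonplanar: `NP G` (`DL/Defs.lean`): the van Kampen number `vk r` is not zero on `Z_2(G)`.  Texts: /team-store/MP_3ff0f8_gt_VK92_h92.md,
MP_3ff0f8_gt_VKAP_h97.md (the docstrings here are self-contained).  Module `XXX` = file `DL/NP/XXX.lean`, theorem `specXXX (hYYY : SpecYYY) … :
SpecXXX`; the hypotheses may be any other Specs named in the docstring (also of DL/EX, DL/K); own lemmas in the namespace `DL.XXXM`.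
`n` = number of vertices of `G` (`(VS G).card`).
-/

open SimpleGraph Finset

namespace DL

/-- torus -/
def tor {α : Type} (t Z : Chain α) : Sym2 α → Sym2 α → ZMod 2 := fun e f => t e * Z f + Z e * t f

/-- the chain of a triangle -/
def tri {α : Type} [DecidableEq α] (a b c : α) : Chain α := chi {s(a, b), s(b, c), s(a, c)}

/-- `z` vanishes on (edges at `a`) × (edges at `b`), the edge `ab` excepted -/
def Zab {α : Type} (a b : α) (z : Sym2 α → Sym2 α → ZMod 2) : Prop :=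
  ∀ e f, a ∈ e → b ∈ f → e ≠ s(a, b) → f ≠ s(a, b) → z e f = 0

/-- the linear functional given by an edge function -/
def pr {α : Type} [Fintype α] [DecidableEq α] (a c : Chain α) : ZMod 2 := ∑ e, a e * c e

open Classical in
/-- the neighbours of a vertex set -/
noncomputable def NB {α : Type} [Fintype α] (G : SimpleGraph α) (A : Finset α) : Finset α :=
  univ.filter fun w => w ∉ A ∧ ∃ a ∈ A, G.Adj a w

/-- `u` is rigid: a 4-separation containing `u` has a side with at most one vertex -/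
def Rig {α : Type} [Fintype α] [DecidableEq α] (G : SimpleGraph α) (u : α) : Prop :=
  ∀ S P Q, Sep G S P Q → S.card = 4 → u ∈ S → P.card ≤ 1 ∨ Q.card ≤ 1

/-- 4-connected with at least 8 vertices -/
def K48 {α : Type} [Fintype α] [DecidableEq α] (G : SimpleGraph α) : Prop := KConn 4 G ∧ 8 ≤ (VS G).card

/-- `X` is a nonempty vertex set, connected in `G` -/
def CSet {α : Type} [Fintype α] [DecidableEq α] (G : SimpleGraph α) (X : Finset α) : Prop :=
  X.Nonempty ∧ ∀ u ∈ X, ∀ v ∈ X, (del G (univ \ X)).Reachable u v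

/-- (3,3)-pair -/
structure P33 {α : Type} (G : SimpleGraph α) (x y s₁ s₂ s₃ s₄ : α) : Prop where
  nd : [x, y, s₁, s₂, s₃, s₄].Nodup
  nx : ∀ w, G.Adj x w ↔ w = y ∨ w = s₂ ∨ w = s₃ ∨ w = s₄
  ny : ∀ w, G.Adj y w ↔ w = x ∨ w = s₁ ∨ w = s₃ ∨ w = s₄

/-- (3,4)-pair -/
structure P34 {α : Type} (G : SimpleGraph α) (x y s₁ s₂ s₃ s₄ : α) : Prop where
  nd : [x, y, s₁, s₂, s₃, s₄].Nodup
  nx : ∀ w, G.Adj x w ↔ w = y ∨ w = s₂ ∨ w = s₃ ∨ w = s₄
  ny : ∀ w, G.Adj y w ↔ w = x ∨ w = s₁ ∨ w = s₂ ∨ w = s₃ ∨ w = s₄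

/-- (4,4)-pair (`s 0, …, s 3`) -/
structure P44 {α : Type} (G : SimpleGraph α) (x y : α) (s : Fin 4 → α) : Prop where
  inj : Function.Injective s
  xy : x ≠ y
  sx : ∀ i, s i ≠ x ∧ s i ≠ y
  nx : ∀ w, G.Adj x w ↔ w = y ∨ ∃ i, w = s i
  ny : ∀ w, G.Adj y w ↔ w = x ∨ ∃ i, w = s i

/-- twins -/
structure TW {α : Type} (G : SimpleGraph α) (x y : α) (s : Fin 4 → α) : Prop where
  inj : Function.Injective s
  xy : x ≠ y
  sx : ∀ i, s i ≠ x ∧ s i ≠ y
  nx : ∀ w, G.Adj x w ↔ ∃ i, w = s i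
  ny : ∀ w, G.Adj y w ↔ ∃ i, w = s i

/-! ## A. The van Kampen number -/

/-- **VKA** (from PC; 300 lines).  `add`: linear.  For an injective `r` and `x ≠ y` let `τ x y = [r x < r y]`; disjoint edges `ab`, `cd` interleave iff
`τ a c + τ a d + τ b c + τ b d = 1` (`c` is between `a` and `b` iff `τ a c + τ b c = 1`).  So `vk r z = Σ_{unordered pairs {ab, cd}} z (ab) (cd) (τ a c + τ a d + τ b c + τ b d)`.
`inv`: for two orders `σ x y = τ x y + τ' x y` is symmetric, and `vk r z + vk r' z = Σ_{unordered {x, y}} σ x y Σ_{e ∋ x, f ∋ y} z e f = 0`: for `e ∌ y` the inner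
sum is the boundary of the row `e` at `y`, for `e = xy` all terms are `0`.  `tor`: `Σ_e t e Σ_f Z f ([f⁻ between the ends of e] + [f⁺ between the ends of e]) = Σ_e t e Σ_w
[w between the ends of e] (bdy Z w) = 0`. -/
structure SpecVKA : Prop where
  add : ∀ {α : Type} [Fintype α] [DecidableEq α] (r : α → ℕ) (z z' : Sym2 α → Sym2 α → ZMod 2),
    vk r (fun e f => z e f + z' e f) = vk r z + vk r z'
  inv : ∀ {α : Type} [Fintype α] [DecidableEq α] {G : SimpleGraph α} {z : Sym2 α → Sym2 α → ZMod 2} {r r' : α → ℕ},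
    Function.Injective r → Function.Injective r' → IsZ2 G z → vk r z = vk r' z
  tor : ∀ {α : Type} [Fintype α] [DecidableEq α] {G : SimpleGraph α} {t Z : Chain α} {r : α → ℕ} (P Q : Finset α),
    Function.Injective r → t ∈ Z1 G → Z ∈ Z1 G → (∀ e v, t e ≠ 0 → v ∈ e → v ∈ P) →
    (∀ e v, Z e ≠ 0 → v ∈ e → v ∈ Q) → Disjoint P Q → vk r (DL.tor t Z) = 0

/-- **NPC** (from VKA, KUR, CTZ, SEF; 300 lines).  `mono`, `del`: clear.  `tdel`: `z + tor (tri a b c) (z (ab) ·)`: the row `z (ab) ·` is in `Z1 (G - {a, b, c})`,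
the new row is `0`.  `up`: `w ∈ Z_2(contr G a b)`, lift `z` to `sel G a b ∅ ≤ G` (CTZ.up); take an order in which `a`, `b` are
consecutive (VKA.inv): `ab` interleaves with no disjoint edge, `by` and `ay` interleave with the same edges (disjoint from `a`, `b`, `y`), so `vk z = vk w`.
`down`: for every common neighbour `x` of `a`, `b` the row `Z_x = z (bx) ·` has no edge at `a` (`Zab`; the edge `ax` meets `bx`) so it is in `Z1 (G - {a, b, x})`; adding the tori
`tor (tri a b x) Z_x` (zero on (edges at `a`) × (edges at `b`)) makes the rows `bx` zero: `z' ∈ Z_2(sel G a b ∅)`, `vk z' = vk z`; CTZ.down for `sel G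
a b ∅` and again `vk w = vk z'`. -/
structure SpecNPC : Prop where
  mono : ∀ {α : Type} [Fintype α] [DecidableEq α] {G G' : SimpleGraph α}, G ≤ G' → NP G → NP G'
  del : ∀ {α : Type} [Fintype α] [DecidableEq α] {G : SimpleGraph α} {a b : α} {r : α → ℕ}
    {z : Sym2 α → Sym2 α → ZMod 2}, Function.Injective r → IsZ2 G z → vk r z ≠ 0 → (∀ f, z s(a, b) f = 0) →
    NP (delE G a b)
  tdel : ∀ {α : Type} [Fintype α] [DecidableEq α] {G : SimpleGraph α} {a b c : α} {r : α → ℕ}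
    {z : Sym2 α → Sym2 α → ZMod 2}, Function.Injective r → IsZ2 G z → vk r z ≠ 0 → G.Adj a b → G.Adj a c →
    G.Adj b c → (∀ f, c ∈ f → z s(a, b) f = 0) → NP (delE G a b)
  up : ∀ {α : Type} [Fintype α] [DecidableEq α] {G : SimpleGraph α} {a b : α}, G.Adj a b →
    NP (contr G a b) → NP G
  down : ∀ {α : Type} [Fintype α] [DecidableEq α] {G : SimpleGraph α} {a b : α} {r : α → ℕ}
    {z : Sym2 α → Sym2 α → ZMod 2}, Function.Injective r → IsZ2 G z → vk r z ≠ 0 → G.Adj a b → Zab a b z →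
    NP (contr G a b) ∧ NP (contr G b a)

/-- **NPM** (from NPC; 300 lines).  Models of `K_{3,3}` and `K_5`.  Induction on the sum of the sizes of the branch sets: if all are
single vertices then `G` contains `K_{3,3}` or `K_5`; `z` = the symmetric function which is `1` on all pairs of disjoint edges of
this subgraph is in `Z_2` and `vk = 9`, `5` (order `a₁ < a₂ < a₃ < b₁ < b₂ < b₃`: `a_i b_j`, `a_k b_l`, `i < k`, interleave iff `j < l`; `K_5`: 13|24, 13|25, 14|25,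
14|35, 24|35).  Otherwise a branch set `X` has an edge `ab` (`a, b ∈ X`): contract it: `contr G a b` with `X - b` instead of `X` is again a model
(`contr_reach`), NPC.up. -/
structure SpecNPM : Prop where
  k33 : ∀ {α : Type} [Fintype α] [DecidableEq α] {G : SimpleGraph α} (A B : Fin 3 → Finset α),
    (∀ i, CSet G (A i)) → (∀ i, CSet G (B i)) → (∀ i j, i ≠ j → Disjoint (A i) (A j)) →
    (∀ i j, i ≠ j → Disjoint (B i) (B j)) → (∀ i j, Disjoint (A i) (B j)) →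
    (∀ i j, ∃ u ∈ A i, ∃ v ∈ B j, G.Adj u v) → NP G
  k5 : ∀ {α : Type} [Fintype α] [DecidableEq α] {G : SimpleGraph α} (A : Fin 5 → Finset α),
    (∀ i, CSet G (A i)) → (∀ i j, i ≠ j → Disjoint (A i) (A j)) →
    (∀ i j, i ≠ j → ∃ u ∈ A i, ∃ v ∈ A j, G.Adj u v) → NP G

/-! ## B. Connectivity, traces -/

/-- **NBF** (from KC; 200 lines).  `nb`: otherwise `NB G A` with fewer than `k` vertices separates `A` from the rest.  `rig`: `NB G A`, `A` and the
rest form a separation.  `off`: a 4-set `T` of a 4-connected graph which is no cut if some `x ∈ T` has at most one neighbour outside `T` (in a 4-cut every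
cut vertex has neighbours on both sides, KConn.exists_adj_of_sep).  `one`: `u` rigid, `{u, i, j, k}` separates `G` (`n ≥ 8`): it isolates exactly one vertex `z`, with `N(z) = {u, i, j, k}`, the rest
is connected. [`del G T` not connected gives `Sep G T P Q` with `P`, `Q` nonempty; one side is a single vertex `z`; if the rest `Q` (at least 3 vertices) were not connected then `Q = Q₁ ∪ Q₂`, and
rigidity for `({z} ∪ Q₁, Q₂)` and `({z} ∪ Q₂, Q₁)` gives `|Q₁|, |Q₂| ≤ 1`.  Degree `≥ 4`.] -/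
structure SpecNBF : Prop where
  nb : ∀ {α : Type} [Fintype α] [DecidableEq α] {G : SimpleGraph α} {k : ℕ} {A : Finset α}, KConn k G →
    A ⊆ VS G → A.Nonempty → (NB G A).card < k → VS G ⊆ A ∪ NB G A
  rig : ∀ {α : Type} [Fintype α] [DecidableEq α] {G : SimpleGraph α} {u : α} {A : Finset α}, Rig G u →
    A ⊆ VS G → u ∈ NB G A → (NB G A).card = 4 → 2 ≤ A.card → (VS G \ (A ∪ NB G A)).card ≤ 1
  off : ∀ {α : Type} [Fintype α] [DecidableEq α] {G : SimpleGraph α} {T : Finset α} {x t : α}, KConn 4 G →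
    T ⊆ VS G → T.card = 4 → x ∈ T → (∀ w, G.Adj x w → w ∈ T ∨ w = t) → ConnOff G T
  one : ∀ {α : Type} [Fintype α] [DecidableEq α] {G : SimpleGraph α} {u i j k : α}, K48 G → Rig G u →
    u ∈ VS G → i ∈ VS G → j ∈ VS G → k ∈ VS G → [u, i, j, k].Nodup → ¬ ConnOff G {u, i, j, k} →
    ∃ z ∈ VS G, (∀ w, G.Adj z w ↔ w = u ∨ w = i ∨ w = j ∨ w = k) ∧ ConnOff G {u, i, j, k, z}

/-- **TRC** (from PC, MENG; 120 lines).  Chains with a given trace at `b`.  Choose `y₀` with `T (b y₀) ≠ 0` (if `T = 0` take `Z = 0`), for every `y` with `T (by) ≠ 0` a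
path `P_y` from `y` to `y₀` in `G - X - b`; `Z = Σ_y T (by) • (chi {by} + chi P_y)`. -/
def SpecTRC : Prop := ∀ {α : Type} [Fintype α] [DecidableEq α] (G : SimpleGraph α) (X : Finset α) (b : α),
  b ∉ X → ConnOff G (insert b X) → ∀ T : Chain α, (∀ e, T e ≠ 0 → e ∈ (del G X).edgeSet ∧ b ∈ e) →
  ∑ e, T e = 0 → ∃ Z ∈ Z1 (del G X), ∀ e, b ∈ e → Z e = T e

/-! ## C. Rigid vertices: LEMMA NC -/

/-- **NCR** (from PC2; 200 lines).  Relations `r_i + r_j + r_k = 0`.  `J` a graph, `i, j, k` different, `r_i` vanishes on `Z1 (J - i)` etc., the sum vanishes on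
`Z1 J`.  Adding coboundaries (`cut` for `J - i`, `cob_orth`) one may assume `r_i e = 0` for all edges `e ∌ i` of `J`, and so on.  `cut` for `J`: `r_i + r_j + r_k = cob t` on the edges of `J`; `t` is
constant on `J - {i, j, k}` (`conn`), resp. on `J - {i, j, k, z}` (`iso`); we may assume this constant is `0` (`iso`: `τ := t z`).  Add `t i • cob 1_i` to `r_i` etc.: now `r_i +
r_j + r_k = cob (τ 1_z)` on the edges.  So `r_i (ix) = 0` for `x ≠ j, k, z`, `r_i (ij) = r_j (ij) =: c_ij`, `r_i (iz) = τ`. -/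
structure SpecNCR : Prop where
  conn : ∀ {α : Type} [Fintype α] [DecidableEq α] (J : SimpleGraph α) (i j k : α), [i, j, k].Nodup →
    ConnOff J {i, j, k} → ∀ ri rj rk : Chain α, (∀ Z ∈ Z1 (del J {i}), pr ri Z = 0) →
    (∀ Z ∈ Z1 (del J {j}), pr rj Z = 0) → (∀ Z ∈ Z1 (del J {k}), pr rk Z = 0) →
    (∀ Z ∈ Z1 J, pr ri Z + pr rj Z + pr rk Z = 0) →
    ∃ cij cik cjk : ZMod 2, (cij ≠ 0 → J.Adj i j) ∧ (cik ≠ 0 → J.Adj i k) ∧ (cjk ≠ 0 → J.Adj j k) ∧
      ∀ Z ∈ Z1 J, pr ri Z = cij * Z s(i, j) + cik * Z s(i, k) ∧ pr rj Z = cij * Z s(i, j) + cjk * Z s(j, k) ∧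
        pr rk Z = cik * Z s(i, k) + cjk * Z s(j, k)
  iso : ∀ {α : Type} [Fintype α] [DecidableEq α] (J : SimpleGraph α) (i j k z : α), [i, j, k, z].Nodup →
    (∀ w, J.Adj z w ↔ w = i ∨ w = j ∨ w = k) → ConnOff J {i, j, k, z} → ∀ ri rj rk : Chain α,
    (∀ Z ∈ Z1 (del J {i}), pr ri Z = 0) →
    (∀ Z ∈ Z1 (del J {j}), pr rj Z = 0) → (∀ Z ∈ Z1 (del J {k}), pr rk Z = 0) →
    (∀ Z ∈ Z1 J, pr ri Z + pr rj Z + pr rk Z = 0) →
    ∃ cij cik cjk t : ZMod 2, (cij ≠ 0 → J.Adj i j) ∧ (cik ≠ 0 → J.Adj i k) ∧ (cjk ≠ 0 → J.Adj j k) ∧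
      ∀ Z ∈ Z1 J, pr ri Z = cij * Z s(i, j) + cik * Z s(i, k) + t * Z s(z, i) ∧
        pr rj Z = cij * Z s(i, j) + cjk * Z s(j, k) + t * Z s(z, j) ∧
        pr rk Z = cik * Z s(i, k) + cjk * Z s(j, k) + t * Z s(z, k)

/-- `a` vanishes on `Z1 (G - u - w)` -/
def Ann {α : Type} [Fintype α] [DecidableEq α] (G : SimpleGraph α) (u w : α) (a : Chain α) : Prop :=
  ∀ Z ∈ Z1 (del G {u, w}), pr a Z = 0

/-- `Z ∈ Z1 (G - u - w - w')` with `α_{ww'}(Z) = 1`: the 2-cycles with rows `Z` at `uw`, `uw'` and `0` at the other edges at `u` have van Kampen number `1` -/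
def Gam {α : Type} [Fintype α] [DecidableEq α] (G : SimpleGraph α) (u w w' : α) (Z : Chain α) : Prop :=
  G.Adj u w ∧ G.Adj u w' ∧ w ≠ w' ∧ Z ∈ Z1 (del G {u, w, w'}) ∧
  ∃ (r : α → ℕ) (z : Sym2 α → Sym2 α → ZMod 2), Function.Injective r ∧ IsZ2 G z ∧ vk r z ≠ 0 ∧
    z s(u, w) = Z ∧ z s(u, w') = Z ∧ ∀ v, v ≠ w → v ≠ w' → z s(u, v) = 0

/-- **NCS** (from VKA, LPE, KUR, S3F, KC; 200 lines).  Frame.  `G - u` is planar: `vk` vanishes on `Z_2(G - u)`, the kernel of `z ↦ (z (uw) ·)_w` on `Z_2(G)`, so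
`vk r z = Σ_w pr (al w) (z (uw))` for some `al` (extend a functional from a subspace of `α → Chain α`).  (1) If there were `β` with `al w + β ∈ Ann G u w` for all
neighbours `w` then `vk r z = pr β (Σ_w z (uw)) = 0` on `Z_2(G)` (the sum of the rows at `u` is `0`: boundary at `u`), contradiction to `NP G`.  (2) If `Gam G u w w' Z` never
holds: for `Z ∈ Z1 (G - u - w - w')` LPE.star gives a 2-cycle with rows `Z`, `Z`, so `pr (al w + al w') Z = 0`; `Z1 (G - u - w - w') = Z1 (G - u - w) ⊓ Z1 (G - u - w')`, and the annihilator of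
an intersection is the sum: `al w + al w' = ρ + ρ'`. -/
def SpecNCS : Prop := ∀ {α : Type} [Fintype α] [DecidableEq α] {G : SimpleGraph α} {u : α}, KConn 4 G →
  NP G → ¬ NP (del G {u}) → (∀ w w' Z, ¬ Gam G u w w' Z) →
  ∃ al : α → Chain α, (¬ ∃ β : Chain α, ∀ w, G.Adj u w → Ann G u w (al w + β)) ∧
    ∀ w w', G.Adj u w → G.Adj u w' → w ≠ w' → ∃ ρ ρ' : Chain α, Ann G u w ρ ∧ Ann G u w' ρ' ∧
      al w + al w' = ρ + ρ'

/-- **NC1** (from NCR, NBF, KC; 350 lines).  `u` rigid, `w₁`, `w₂` nonadjacent neighbours of `u`.  Shift `al` so that `al w₁ ∈ Ann_1`, `al w₂ ∈ Ann_2` (`β = al w₁ + ρ = al w₂ + ρ'`).  For another neighbour `m`: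
`al m = a + b = a' + c`, `a, a' ∈ Ann_m`, `b ∈ Ann_1`, `c ∈ Ann_2`, relation `(a + a') + b + c = 0`.  (i) `G - {u, w₁, w₂, m}` connected: NCR.conn (`J = G - u`): `pr b Z = c_{1m} Z (w₁m)` (as
`w₁, w₂` are not adjacent), zero on `Z1 (J - m)`: `al m ∈ Ann_m`.  (ii) Otherwise NBF.one: `z = z_m`, `N(z) = {u, w₁, w₂, m}`; NCR.iso: `al m = t Z (z w₁)` on `Z1 (J - m)`.  Suppose `t = 1`.  `z` is a neighbour of
`u`.  `{u, w₁, w₂, z}` does not separate (NBF.one: `z'` with `N(z') = {u, w₁, w₂, z}` is a neighbour of `z`, so `z' = m`, and `NB {z, m} = {u, w₁, w₂}`: NBF.nb): `al z ∈ Ann_z` by (i).  There is a neighbour `k ≠ w₁, w₂, m, z`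
of `u` (otherwise `NB {u, z} = {w₁, w₂, m}`); if `{u, w₁, w₂, k}` separates then it isolates `z'`, `N(z') = {u, w₁, w₂, k}`, `z' ≠ z`, `z' ≠ m` (`m ~ z`), `z' ~ u`: take `k := z'`.  So `al k ∈ Ann_k` for a neighbour `k ≠ w₁, w₂, m, z`.
`al m + al k = ρ + ρ'`, so on `Z1 (G - {u, m, k})`: `Z (z w₁) = pr (al m) Z = 0`.  `z` has exactly the neighbours `w₁`, `w₂` in `G - {u, m, k}`; if `w₁`, `w₂` were connected in `G - {u, m, k, z}` there would be a cycle through `z w₁`.  So `{u, m, k,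
z}` separates `w₁` from `w₂` (sides `P ∋ w₁`, `Q ∋ w₂`); rigidity: `P = {w₁}` (or `Q = {w₂}`): `N(w₁) ⊆ {u, m, k, z}`, `NB {z, w₁} ⊆ {u, w₂, m, k}`: contradiction to NBF.rig (NBF.nb) as `n ≥ 8`.
So `al m ∈ Ann_m` for all neighbours `m`. -/
def SpecNC1 : Prop := ∀ {α : Type} [Fintype α] [DecidableEq α] {G : SimpleGraph α} {u : α}, K48 G →
  Rig G u → ∀ al : α → Chain α,
  (∀ w w', G.Adj u w → G.Adj u w' → w ≠ w' → ∃ ρ ρ' : Chain α, Ann G u w ρ ∧ Ann G u w' ρ' ∧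
      al w + al w' = ρ + ρ') →
  ∀ w₁ w₂, G.Adj u w₁ → G.Adj u w₂ → w₁ ≠ w₂ → ¬ G.Adj w₁ w₂ →
  ∃ β : Chain α, ∀ w, G.Adj u w → Ann G u w (al w + β)

/-- **NC2** (from NCR, NBF, KC; 250 lines).  The same if the neighbours of `u` form a clique `W`.  No `{u, i, j, k}` (`i, j, k ∈ W`) separates: NBF.one gives `z`, `N(z) = {u, i, j, k}`, `z ∈ W` is adjacent to
all of `W`, `W = {z, i, j, k}`, `NB {u, z} = {i, j, k}`: NBF.nb.  Choose `w₁, w₂, w₃ ∈ W`.  Shift: `al w₁ ∈ Ann_1`, `al w₂ ∈ Ann_2`.  As in NC1 (i) `al m = c_m Z (w₁w₂)` on `Z1 (J - m)` for all other `m ∈ W`.  Shift by `c_3 •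
(single edge w₁w₂)`: now also `al w₃ ∈ Ann_3`.  Another `m ∈ W`: on `Z1 (G - {u, w₃, m})` `c_m Z (w₁w₂) = pr (al m + al w₃) Z = 0`.  If `c_m ≠ 0` then `w₁w₂` is a bridge of the connected graph `G - {u, w₃, m}`, sides `P ∋ w₁`, `Q ∋ w₂`,
`|P| + |Q| ≥ 5`.  `|P| ≥ 2`: `{u, w₃, m, w₁}` separates `P - w₁` from `Q`: `|P| = 2` or `|Q| = 1`; the same for `Q`; so `|P| = 1` or `|Q| = 1`, say `P = {w₁}`, `N(w₁) = {u, w₂, w₃, m}`, `W = {w₁, w₂, w₃, m}`, `NB {u, w₁} = {w₂, w₃, m}`: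
NBF.nb. -/
def SpecNC2 : Prop := ∀ {α : Type} [Fintype α] [DecidableEq α] {G : SimpleGraph α} {u : α}, K48 G →
  Rig G u → u ∈ VS G → ∀ al : α → Chain α,
  (∀ w w', G.Adj u w → G.Adj u w' → w ≠ w' → ∃ ρ ρ' : Chain α, Ann G u w ρ ∧ Ann G u w' ρ' ∧
      al w + al w' = ρ + ρ') →
  (∀ w w', G.Adj u w → G.Adj u w' → w ≠ w' → G.Adj w w') →
  ∃ β : Chain α, ∀ w, G.Adj u w → Ann G u w (al w + β)

/-- **NCG** (from NCS, NC1, NC2; 30 lines).  LEMMA NC. -/
def SpecNCG : Prop := ∀ {α : Type} [Fintype α] [DecidableEq α] {G : SimpleGraph α} {u : α}, K48 G →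
  Rig G u → u ∈ VS G → NP G → ¬ NP (del G {u}) → ∃ w w' Z, Gam G u w w' Z

/-- **NCN** (from VKA, NPC, KUR, LPE, PC; 250 lines).  Consequences of `Gam G u w w' Z`, `G - u` planar.  Two 2-cycles of `G` with the same rows at `u` differ by an element of `Z_2(G - u)`, where `vk = 0`.
`nadj`: `w ~ w'`: the torus `tor (tri u w w') Z` has the rows `Z`, `Z`, and `vk = 0`.  `sep` (T): a path `P` from `w` to `w'` in `G - u - vs C`: the torus of the cycle `uw + P + w'u` and `chi C`.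
`np`: `G' = (G - u) + uw + uw' ≤ G` contains a 2-cycle with these rows (subtract nothing: the rows `uv`, `v ≠ w, w'`, are `0`); in `G'` `u` has exactly the neighbours `w`, `w'`, so all 2-cycles of `G'` satisfy `Zab w u` (boundary at `u`), NPC.down:
`contr G' w u = (G - u) + ww'` is nonplanar.  `ctr`: `contr G w u` contains it.  `lin`: choose the 2-cycle of the sum. -/
structure SpecNCN : Prop where
  nadj : ∀ {α : Type} [Fintype α] [DecidableEq α] {G : SimpleGraph α} {u w w' : α} {Z : Chain α},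
    ¬ NP (del G {u}) → Gam G u w w' Z → ¬ G.Adj w w'
  sep : ∀ {α : Type} [Fintype α] [DecidableEq α] {G : SimpleGraph α} {u w w' : α} {C : Finset (Sym2 α)},
    ¬ NP (del G {u}) → IsCyc G C → Gam G u w w' (chi C) → ¬ (del G (insert u (vs C))).Reachable w w'
  np : ∀ {α : Type} [Fintype α] [DecidableEq α] {G : SimpleGraph α} {u w w' : α} {Z : Chain α},
    Gam G u w w' Z → NP (del G {u} ⊔ fromEdgeSet {s(w, w')}) ∧ NP (contr G w u) ∧ NP (contr G w' u)
  lin : ∀ {α : Type} [Fintype α] [DecidableEq α] {G : SimpleGraph α} {u w w' : α} {Z Z' : Chain α},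
    KConn 4 G → ¬ NP (del G {u}) → Gam G u w w' Z → Z' ∈ Z1 (del G {u, w, w'}) →
    Gam G u w w' Z' ∨ Gam G u w w' (Z + Z')

/-- **GAL** (from NCN, VKA, NPC, LPE, NBF, KC; 450 lines).  (α).  `u` rigid, `G - u` and `G - v` planar, `C` a cycle of `G - {u, w, w'}` missing `v`, `Gam (chi C)`.  Then `w` or `w'`, call it `y`, has exactly the
neighbours `u, v, p, q`, and `pq ∈ C`.  Proof.  Suppose not.  Call `y` SPECIAL with `{p, q}` if `N(y) = {u, v, p, q}`.  `L = G - u - v` is 2-connected; a 2-cut `{p, q}` of `L` gives the 4-cut `{u, v, p, q}`, NBF.one: it isolates a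
special `y`, and `G - {u, v, p, q, y}` is connected.  Let `L⁻` be `L` without all the edges `pq`, `{p, q}` belonging to a special `y`.  No deleted edge is incident with a special vertex `y` (if `yp` were deleted because of `y'` then `y' = q`, and `NB {y, q} = {u, v, p}`: NBF.nb).
CLAIM: `L⁻` is S3S or a cycle through all vertices of `L`.  [Delete two vertices `c`, `d` (or one) from `L⁻`: a deleted edge `p_i q_i` is bypassed by `p_i y_i q_i` unless `y_i ∈ {c, d}`.  (A) `c`, `d` not special: `L⁻ - c - d` is connected or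
`{c, d}` is a 2-cut of `L`, isolating a special `y`: `N_{L⁻}(y) = {c, d}`, `cd` is deleted, `L⁻ - {c, d, y}` is connected.  (B) `c = y_i` special, `d` not: `L - {y_i, d}` is connected (otherwise it isolates `y'` with `N(y') = {u, v, y_i, d}`, `y' = p_i` say, `NB {y_i, p_i} = {u, v, d,
q_i}`: NBF.rig).  If `L⁻ - {y_i, d}` is not connected then `p_i q_i` is a bridge of `L - {y_i, d}`, sides `P ∋ p_i`, `Q ∋ q_i`; `{u, v, d, p_i}` separates `P - p_i` from `Q ∪ {y_i}`, so `|P| ≤ 2`, and `|Q| ≤ 2`; `n ≥ 8`: `P = {p_i, p'}`, `N(p') = {u, v, d, p_i}`, `Q = {q_i, q'}`: `L⁻` is the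
6-cycle `d p' p_i y_i q_i q'`.  (C) `c = y_i`, `d = y_j` both special: as in (B) `L - {y_i, y_j}` is connected; if `L⁻ - {y_i, y_j}` is not, the edges `p_i q_i`, `p_j q_j` (or one of them) separate it: sides `P ∋ p_i, p_j`, `Q ∋ q_i, q_j` (names), `NB (P - p_i - p_j) ⊆ {u, v, p_i, p_j}`: `P` is `{p_i, p_j}`
(perhaps `p_i = p_j`) or has one more vertex `p''`, special with `{p_i, p_j}`; the same for `Q`; so `L⁻` is a cycle.]
Let `Z := chi C + Σ tri y p q` over the deleted edges `pq ∈ C`, one special `y` for each (`y ≠ w, w'` by assumption).  `Z ∈ Z1 (L⁻ - w - w')`.  `tri y p q` is not `Gam`: the torus of (a cycle `u w … w' u` avoiding `y, p, q`) and `tri y p q` has the same rows at `u`; the path from `w` to `w'` exists in `G - {u, y, p, q}` (NBF.off: `y` has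
only the neighbour `v` outside).  So `Gam Z` (NCN.lin).  If `L⁻` is a cycle then `Z = 0` (it avoids `w`), impossible.  If `L⁻` is S3S: LPE.star for the graph `L⁻` + (edges of `G` at `u`, not to `v`) with `la w = la w' = Z`: `z ∈ Z_2(G - v)` with rows `Z`, `Z` at `u`, so `vk z = vk` of the 2-cycle in
`Gam Z` (they differ by an element of `Z_2(G - u)`) `≠ 0`: contradiction to `¬ NP (G - v)`. -/
def SpecGAL : Prop := ∀ {α : Type} [Fintype α] [DecidableEq α] {G : SimpleGraph α} {u v w w' : α}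
  {C : Finset (Sym2 α)}, K48 G → Rig G u → ¬ NP (del G {u}) → ¬ NP (del G {v}) → v ∈ VS G → v ≠ u → v ≠ w →
  v ≠ w' → IsCyc G C → v ∉ vs C → Gam G u w w' (chi C) →
  ∃ y p q, (y = w ∨ y = w') ∧ p ≠ q ∧ s(p, q) ∈ C ∧ ∀ x, G.Adj y x ↔ x = u ∨ x = v ∨ x = p ∨ x = q

/-! ## D. 2-fragments.  `G` 4-connected, `n ≥ 8` -/

/-- **F1N** (from VKA, NPC, NBF, TRC; 200 lines).  (3,3)-pair: `G/xs₂` nonplanar.  `z ∈ Z_2(G)`, `vk z = 1`.  For `j = 3, 4`: the trace of the row `x s_j` at `s₂` is even and has no edge at `x, y, s_j`; `G - {x, y, s_j, s₂}` is connected (NBF.off: `x` has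
only one neighbour left), TRC gives `Z'_j ∈ Z1 (G - {x, y, s_j})` with this trace.  Add the tori `tor (tri x y s_j) Z'_j`: now the rows `x s₃`, `x s₄` are zero at `s₂`, and the row `xy` too (boundary at `x` of the row of an edge at
`s₂`).  So `Zab x s₂`, NPC.down. -/
def SpecF1N : Prop := ∀ {α : Type} [Fintype α] [DecidableEq α] {G : SimpleGraph α} {x y s₁ s₂ s₃ s₄ : α},
  K48 G → P33 G x y s₁ s₂ s₃ s₄ → NP G → NP (contr G x s₂) ∧ NP (contr G s₂ x)

/-- **F2N** (from VKA, NPC, NBF, STA, KC; 250 lines).  (3,3)-pair with `s₁ ~ s₂`: `G - xy` nonplanar.  `H = G - x - y`.  `Z1 H = Z1 (H - s₃) + Z1 (H - s₄) + Z1 (H - s₁ - s₂)`: otherwise a functional `a` vanishes on the three and not on `Z1 H`;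
STA for `H`, `s₃`, `s₄` (`G - {x, y, s₃, s₄}` connected, NBF.off): `pr a Z = c Z (s₃s₄)` on `Z1 H`, `c ≠ 0`, `s₃ ~ s₄`.  Let `P` be the set of the vertices connected to `s₃` in `(H - s₁ - s₂) - s₃s₄`.  If `s₄ ∈ P` there is a cycle through `s₃s₄` in `H -
s₁ - s₂`: contradiction.  Otherwise `NB (P - s₃) ⊆ {s₁, s₂, s₃}`, so `P = {s₃}` (NBF.nb); the same for `s₄`; a vertex `r` not in `{x, y, s₁, …, s₄}` (`n ≥ 8`): its component in `H - s₁ - s₂` has all neighbours in `{s₁, s₂}`: NBF.nb.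
For `z ∈ Z_2(G)`, `vk z = 1`: `z (xy) · = Z₃ + Z₄ + Z'` accordingly; add `tor (tri x y s₃) Z₃`, `tor (tri x y s₄) Z₄`, `tor (x s₂ s₁ y) Z'`: the row `xy` becomes `0`. -/
def SpecF2N : Prop := ∀ {α : Type} [Fintype α] [DecidableEq α] {G : SimpleGraph α} {x y s₁ s₂ s₃ s₄ : α},
  K48 G → P33 G x y s₁ s₂ s₃ s₄ → G.Adj s₁ s₂ → NP G → NP (delE G x y)

/-- **F4N** (from VKA, NPC, NBF, KC; 250 lines).  (3,3)-pair.  `M (g, h) = z g h`, `g` at `x`, `h` at `y`: by the boundaries at `x` and `y` it is determined by `p = z (xs₃) (ys₄)`, `q = z (xs₄) (ys₃)`: `z (xs₂) (ys₄) = z (xs₃) (ys₁) = p`, `z (xs₂) (ys₃) = z (xs₄) (ys₁) =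
q`, `z (xs₂) (ys₁) = p + q`.  `all`: `contr (delE G x s₃) x y = contr G x y` because `y ~ s₃`; NPC.up, .mono.  `or`: let `vk z = 1`.  `(p, q) = (0, 0)`: `Zab x y`, so `contr G x y` is nonplanar: `all`.  `(1, 1)`: two disjoint paths from
`{s₁, s₂}` to `{s₃, s₄}` in the 2-connected `G - x - y`: add the torus of `x s₂ … s₄` and `y s₁ … s₃` (changes `(p, q)` by `(0, 1)`), or of `x s₂ … s₃` and `y s₁ … s₄` (`(1, 0)`).  `(0, 1)`: the row `xs₃` avoids `y` (`z (xs₃) (ys₁) = p = 0`, `z (xs₃) (ys₄) = 0`), NPC.tdel (`a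
= x`, `b = s₃`, `c = y`): `G - xs₃` nonplanar; the row `ys₄` avoids `x` (`z (xs₂) (ys₄) = p = 0`): `G - ys₄` nonplanar.  `(1, 0)`: `G - xs₄`, `G - ys₃`. -/
structure SpecF4N : Prop where
  all : ∀ {α : Type} [Fintype α] [DecidableEq α] {G : SimpleGraph α} {x y s₁ s₂ s₃ s₄ : α},
    K48 G → P33 G x y s₁ s₂ s₃ s₄ → NP (contr G x y) →
    NP (delE G x s₃) ∧ NP (delE G x s₄) ∧ NP (delE G y s₃) ∧ NP (delE G y s₄)
  or : ∀ {α : Type} [Fintype α] [DecidableEq α] {G : SimpleGraph α} {x y s₁ s₂ s₃ s₄ : α},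
    K48 G → P33 G x y s₁ s₂ s₃ s₄ → NP G →
    (NP (delE G x s₃) ∧ NP (delE G y s₄)) ∨ (NP (delE G x s₄) ∧ NP (delE G y s₃))

/-- **G1N** (from VKA, NPC, NBF, TRC; 200 lines).  (3,4)-pair: `G/ys₁` nonplanar.  `vk z = 1`.  The row `y s_j` (`j = 2, 3, 4`) has an even trace at `s₁` without edges at `x, y, s_j` (`x` is not adjacent to `s₁`); `G - {x, y, s_j, s₁}` is connected (a
component not containing … : every component of `G - {x, y, s_j, s₁}` contains a neighbour of `x`; if there are two, one of them, `K`, contains exactly one of the two remaining neighbours `s_i` of `x`, and `NB (K - s_i) ⊆ {s_i, s_j, s₁}`: `K = {s_i}`, and the other one `= {s_k}` the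
same way: `n = 6`).  Add the tori `tor (tri x y s_j) Z'_j`; then `Zab y s₁`. -/
def SpecG1N : Prop := ∀ {α : Type} [Fintype α] [DecidableEq α] {G : SimpleGraph α} {x y s₁ s₂ s₃ s₄ : α},
  K48 G → P34 G x y s₁ s₂ s₃ s₄ → NP G → NP (contr G y s₁) ∧ NP (contr G s₁ y)

/-- **G2N** (from VKA, NPC, NBF, TRC, KC; 300 lines).  (3,4)-pair.  For `i ∈ {2, 3, 4}`, `{i, j, k} = {2, 3, 4}` let `m_i = z (xs_j) (ys_i) = z (xs_k) (ys_i)` (boundary of the row `ys_i` at `x`: the edges of `x` disjoint from `ys_i` are `xs_j`, `xs_k`).  (1) If `m_i = 0` and `vk z = 1` then `G/xs_i`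
is nonplanar: rows `xs_j`, `xs_k` have even traces at `s_i` without edges at `x`, `y` (`m_i = 0`) and `s_j` resp. `s_k`; `G - {x, y, s_i, s_j}` is connected (NBF.off: `x` has only `s_k` left); add tori `tor (tri x y s_j) Z'_j`, `tor (tri x y s_k) Z'_k`: `Zab x s_i`.
(2) The same `z` shows that `G - ys_i` is nonplanar: the row `ys_i` avoids `x` (`z (ys_i) (xs_j) = m_i = 0`): NPC.tdel (`a = y, b = s_i, c = x`).  (3) `m_2 = m_3 = 1` for all `z` with `vk z = 1` is impossible, i.e. for two different indices `i, j` there is `z` with `vk z = 1` and `m_i = 0` or `m_j = 0`: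
let `vk z = 1`, `m_i = m_j = 1`; two disjoint paths from `{s₁, s_k}` to `{s_i, s_j}` in the 2-connected `G - x - y`: `s₁ … s_j`, `s_k … s_i`: the torus of `x s_k … s_i` and `y s₁ … s_j` changes `m_j = z (xs_i) (ys_j)` (and `z (x s_k) (y s_j)`) by `1`; or `s₁ … s_i`, `s_k … s_j`: the same with `m_i`.
`two`: so for two different `i, j` one of them has `G/xs_i` and `G - ys_i` nonplanar.  `iff`: `G/xs_i` nonplanar iff `G - ys_i` nonplanar: `(G - ys_i)/xs_i = G/xs_i` as simple graphs (`x ~ y`); conversely if `G - ys_i` is nonplanar take `z` there: `m_i = 0`. -/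
structure SpecG2N : Prop where
  two : ∀ {α : Type} [Fintype α] [DecidableEq α] {G : SimpleGraph α} {x y s₁ s₂ s₃ s₄ : α},
    K48 G → P34 G x y s₁ s₂ s₃ s₄ → NP G →
    (NP (contr G x s₂) ∧ NP (contr G s₂ x) ∧ NP (delE G y s₂)) ∨
      (NP (contr G x s₃) ∧ NP (contr G s₃ x) ∧ NP (delE G y s₃))
  iff : ∀ {α : Type} [Fintype α] [DecidableEq α] {G : SimpleGraph α} {x y s₁ s₂ s₃ s₄ : α},
    K48 G → P34 G x y s₁ s₂ s₃ s₄ → (NP (contr G x s₂) ↔ NP (delE G y s₂)) ∧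
      (NP (contr G s₂ x) ↔ NP (delE G y s₂))

/-- **PAR** (from KC, MENG; 80 lines).  Two of the three pairings.  `H` 2-connected, `s` injective.  `KConn.two_paths` for `{s a, s b}` to `{s c, s d}`: so for each of the three partitions `{a, b | c, d}` one of
the two other pairings occurs. -/
def SpecPAI : Prop := ∀ {α : Type} [Fintype α] [DecidableEq α] (H : SimpleGraph α) (s : Fin 4 → α), KConn 2 H →
  Function.Injective s → (∀ i, s i ∈ VS H) →
  ∃ i₁ i₂ : Fin 4, i₁ ≠ i₂ ∧ i₁ ≠ 0 ∧ i₂ ≠ 0 ∧ ∀ i, i = i₁ ∨ i = i₂ → ∀ j k, j ≠ k → j ≠ 0 → k ≠ 0 → j ≠ i → k ≠ i →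
    ∃ P Q, IsPth H (s 0) (s i) P ∧ IsPth H (s j) (s k) Q ∧ Disjoint (vs P) (vs Q)

/-- **N44** (from VKA, NPC, NBF, TRC, PAI, KC; 300 lines).  (4,4)-pair: `G/xs_0` nonplanar.  `vk z = 1`, `m_j = z (xs_j) (ys_0)`, `j = 1, 2, 3`; `m_1 + m_2 + m_3 = 0` (boundary of the row `ys_0` at `x`; `xy` meets it).  PAI for `H = G - x - y` (2-connected): for two
indices `i` the torus of `x s_j … s_k` and `y s_0 … s_i` changes `m` by `m_j = m_k = 1`; so we may assume `m = 0`.  Then the rows `xs_j` have even traces at `s_0` without edges at `x, y, s_j`; `G - {x, y, s_0, s_j}` is connected (as in G1N: a component contains a further `s_i`; two components: `n = 6`); add tori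
`tor (tri x y s_j) Z'_j`, `j = 1, 2, 3`: `Zab x s_0` (the row `xy` by the boundary at `x`). -/
def SpecN44 : Prop := ∀ {α : Type} [Fintype α] [DecidableEq α] {G : SimpleGraph α} {x y : α} {s : Fin 4 → α},
  K48 G → P44 G x y s → NP G → NP (contr G x (s 0)) ∧ NP (contr G (s 0) x)

/-- **NTW** (from VKA, NPC, NBF, TRC, PAI, KC; 350 lines).  Twins: `G/xs_0` nonplanar.  `vk z = 1`, `r_j` = trace of the row `xs_j` at `s_0`, `j = 1, 2, 3`, `r_1 + r_2 + r_3 = 0`, `r_j` is even, zero at `s_0 s_j`.  (1) Column `ys_0`: as in N44 (tori of `x s_j … s_k`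
and `y s_0 … s_i`) one may assume `r_j (ys_0) = 0`.  (2) Column `s_0 s_i`: `r_j = r_k =: n_i` there; if `n_i = 1` (so `s_0 ~ s_i`) add the torus of the 4-cycle `x s_j y s_k` and `Z' ∈ Z1 (G - {x, y, s_j, s_k})` with trace `{s_0 s_i, s_0 w}` at `s_0`, `w` a neighbour of `s_0` not in `{x, y}
∪ S` (exists: otherwise `NB {x, y, s_0} ⊆ {s_1, s_2, s_3}`); TRC: `G - {x, y, s_j, s_k, s_0}` is connected: a component without `s_i` has all its neighbours in `{s_0, s_j, s_k}`.  (3) Now the traces `r_j` only contain edges `s_0 w`, `w ∉ {x, y} ∪ S`: add the tori of `x s_1 y s_3` with trace `r_1` and of `x s_2 y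
s_3` with trace `r_2`: `Zab x s_0`. -/
def SpecNTW : Prop := ∀ {α : Type} [Fintype α] [DecidableEq α] {G : SimpleGraph α} {x y : α} {s : Fin 4 → α},
  K48 G → TW G x y s → NP G → NP (contr G x (s 0)) ∧ NP (contr G (s 0) x)

/-- **NI1** (from VKA, NPC, NBF, KC; 250 lines).  The fragment of type (I.1), `|F| = 4`: `N(z) = {x, x', s₁, s₂}`, `N(z') = {x, x', s₃, s₄}`, `N(x) = {z, z', s₁, s₃}`, `N(x') = {z, z', s₂, s₄}`: `G/zx` nonplanar.  `vk y = 1` (`y ∈ Z_2(G)`), matrix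
`M g h = y g h`, rows `g = zx', zs₁, zs₂`, columns `h = xz', xs₁, xs₃`, `M (zs₁) (xs₁) = 0`, even rows and columns (the row `zx'`, column `xz'`: disjoint), so `M` is determined by `M (zs₁) (xz') = M (zs₁) (xs₃) =: a`, `M (zx') (xs₁) = M (zs₂) (xs₁) =: b`, `M (zx') (xz') =: c`.  Tori: `(z x' s₂) × (x z' s₃)`: `(0, 0, 1)`;
`(z s₁ … s₂) × (x z' s₃)`: `(1, 0, 0)` (path from `s₁` to `s₂` in `G - {x, x', z, z', s₃}`); `(z x' s₂) × (x s₁ … s₃)`: `(0, 1, 0)` (path from `s₁` to `s₃` in `G - {x, x', z, z', s₂}`).  The paths exist: the rest `Y` of the graph (not in `X ∪ S`) is not empty, a component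
`K` of `Y` is adjacent to all `s_i` (otherwise `NB K` has `≤ 3` vertices).  So by adding tori `M = 0`: `Zab z x`. -/
def SpecNI1 : Prop := ∀ {α : Type} [Fintype α] [DecidableEq α] {G : SimpleGraph α} {x x' z z' s₁ s₂ s₃ s₄ : α},
  K48 G → [x, x', z, z', s₁, s₂, s₃, s₄].Nodup → (∃ r ∈ VS G, r ∉ ({x, x', z, z', s₁, s₂, s₃, s₄} : Finset α)) →
  (∀ w, G.Adj z w ↔ w = x ∨ w = x' ∨ w = s₁ ∨ w = s₂) → (∀ w, G.Adj z' w ↔ w = x ∨ w = x' ∨ w = s₃ ∨ w = s₄) →
  (∀ w, G.Adj x w ↔ w = z ∨ w = z' ∨ w = s₁ ∨ w = s₃) → (∀ w, G.Adj x' w ↔ w = z ∨ w = z' ∨ w = s₂ ∨ w = s₄) →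
  NP G → NP (contr G z x) ∧ NP (contr G x z)

end DL
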